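import Mathlib

/-!
# Bounds of Mertens type

`∑_{p ≤ n} log p / p ≤ log n + log 4`, `∑_{p ≤ 2^J} 1/p ≤ log J + 6` and
`log log N - 1 ≤ ∑_{p < N} 1/p`.
-/

set_option autoImplicit false

namespace Pool.MP_67663b_nt.Mert

open Finset

theorem factorial_fac (n p : ℕ) (hp : p.Prime) : n / p ≤ (Nat.factorial n).factorization p := by
  rw [Nat.factorization_factorial hp (Nat.lt_succ_self _)]
  rcases Nat.lt_or_ge n p with h | h
  · rw [Nat.div_eq_of_lt h]; exact Nat.zero_le _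
  · have h1 : 1 ∈ Ico 1 (Nat.log p n).succ := by
      rw [mem_Ico]
      have : 1 ≤ Nat.log p n := Nat.log_pos hp.one_lt h
      omega
    have h2 := Finset.single_le_sum (f := fun i => n / p ^ i) (fun i _ => Nat.zero_le _) h1
    simpa using h2

theorem log_factorial_ge (n : ℕ) :
    ∑ p ∈ Nat.primesLE n, ((n / p : ℕ) : ℝ) * Real.log p ≤ Real.log (Nat.factorial n) := by
  have h0 : (Nat.factorial n) ≠ 0 := Nat.factorial_ne_zero n
  have hsupp : (Nat.factorial n).factorization.support ⊆ Nat.primesLE n := by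
    intro p hp
    rw [Nat.support_factorization, Nat.mem_primeFactors] at hp
    rw [Nat.mem_primesLE]
    exact ⟨(hp.1.dvd_factorial).1 hp.2.1, hp.1⟩
  have h1 : (Nat.factorial n : ℝ) =
      ∏ p ∈ Nat.primesLE n, (p : ℝ) ^ (Nat.factorial n).factorization p := by
    have h2 := Nat.prod_factorization_pow_eq_self h0
    rw [Finsupp.prod_of_support_subset _ hsupp _ (fun _ _ => pow_zero _)] at h2
    exact_mod_cast h2.symm
  rw [h1, Real.log_prod]
  · refine Finset.sum_le_sum fun p hp => ?_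
    rw [Nat.mem_primesLE] at hp
    rw [Real.log_pow]
    refine mul_le_mul_of_nonneg_right ?_ (Real.log_natCast_nonneg _)
    exact_mod_cast factorial_fac n p hp.2
  · intro p hp
    rw [Nat.mem_primesLE] at hp
    have : (p : ℝ) ≠ 0 := by exact_mod_cast hp.2.ne_zero
    positivity

/-- `∑_{p ≤ n} log p / p ≤ log n + log 4`. -/
theorem log_sum_le (n : ℕ) (hn : 1 ≤ n) :
    ∑ p ∈ Nat.primesLE n, Real.log p / p ≤ Real.log n + Real.log 4 := by
  have hn' : (0 : ℝ) < n := by exact_mod_cast hn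
  have h1 := log_factorial_ge n
  have h2 : Real.log (Nat.factorial n) ≤ n * Real.log n := by
    rw [← Real.log_pow]
    refine Real.log_le_log (by exact_mod_cast Nat.factorial_pos n) ?_
    exact_mod_cast Nat.factorial_le_pow n
  have h3 : ∑ p ∈ Nat.primesLE n, Real.log p ≤ Real.log 4 * n := by
    rw [← Chebyshev.theta_eq_sum_primesLE_log]
    exact Chebyshev.theta_le_log4_mul_x hn'.le
  have h4 : (n : ℝ) * ∑ p ∈ Nat.primesLE n, Real.log p / p ≤
      ∑ p ∈ Nat.primesLE n, ((n / p : ℕ) : ℝ) * Real.log p + ∑ p ∈ Nat.primesLE n, Real.log p := by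
    rw [Finset.mul_sum, ← Finset.sum_add_distrib]
    refine Finset.sum_le_sum fun p hp => ?_
    rw [Nat.mem_primesLE] at hp
    have hp' : (0 : ℝ) < p := by exact_mod_cast hp.2.pos
    have h5 : (n : ℝ) / p ≤ ((n / p : ℕ) : ℝ) + 1 := by
      have := Nat.lt_floor_add_one ((n : ℝ) / p)
      rw [Nat.floor_div_eq_div] at this
      exact this.le
    have h6 := Real.log_natCast_nonneg p
    calc (n : ℝ) * (Real.log p / p) = (n : ℝ) / p * Real.log p := by ring
      _ ≤ (((n / p : ℕ) : ℝ) + 1) * Real.log p := by gcongr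
      _ = _ := by ring
  have h7 : (n : ℝ) * ∑ p ∈ Nat.primesLE n, Real.log p / p ≤
      n * (Real.log n + Real.log 4) := by nlinarith
  exact le_of_mul_le_mul_left h7 hn'

/-- `∑_{p ≤ 2^J} 1/p` -/
noncomputable def R (J : ℕ) : ℝ := ∑ p ∈ Nat.primesLE (2 ^ J), (1 : ℝ) / p

/-- `∑_{p ≤ 2^J} log p/p` -/
noncomputable def S (J : ℕ) : ℝ := ∑ p ∈ Nat.primesLE (2 ^ J), Real.log p / p

theorem S_le (J : ℕ) : S J ≤ ((J : ℝ) + 2) * Real.log 2 := by
  have h := log_sum_le (2 ^ J) Nat.one_le_two_pow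
  unfold S
  push_cast at h
  rw [Real.log_pow, show (4 : ℝ) = 2 ^ 2 by norm_num, Real.log_pow] at h
  push_cast at h
  linarith

theorem R_step (J : ℕ) (hJ : 1 ≤ J) :
    R (J + 1) - R J ≤ (S (J + 1) - S J) / ((J : ℝ) * Real.log 2) := by
  have hsub : Nat.primesLE (2 ^ J) ⊆ Nat.primesLE (2 ^ (J + 1)) := by
    intro p hp
    rw [Nat.mem_primesLE] at hp ⊢
    exact ⟨hp.1.trans (Nat.pow_le_pow_right (by norm_num) (by omega)), hp.2⟩
  have hJ' : (0 : ℝ) < J := by exact_mod_cast hJ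
  have hl2 : 0 < Real.log 2 := Real.log_pos (by norm_num)
  unfold R S
  rw [← Finset.sum_sdiff hsub, ← Finset.sum_sdiff (f := fun p : ℕ => Real.log p / p) hsub,
    add_sub_cancel_right, add_sub_cancel_right, Finset.sum_div]
  refine Finset.sum_le_sum fun p hp => ?_
  rw [mem_sdiff, Nat.mem_primesLE, Nat.mem_primesLE] at hp
  obtain ⟨⟨_, hp1⟩, hp2⟩ := hp
  have hp3 : 2 ^ J ≤ p := by
    by_contra h
    exact hp2 ⟨by omega, hp1⟩
  have hp4 : (0 : ℝ) < p := by exact_mod_cast hp1.pos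
  have h1 : (J : ℝ) * Real.log 2 ≤ Real.log p := by
    rw [← Real.log_pow]
    exact Real.log_le_log (by positivity) (by exact_mod_cast hp3)
  rw [div_div, div_le_div_iff₀ hp4 (by positivity)]
  nlinarith

theorem R_bound (J : ℕ) (hJ : 1 ≤ J) :
    R J ≤ S J / ((J : ℝ) * Real.log 2) + ((harmonic J : ℚ) : ℝ) - 1 + 3 * (1 - 1 / (J : ℝ)) := by
  have hl2 : 0 < Real.log 2 := Real.log_pos (by norm_num)
  induction J, hJ using Nat.le_induction with
  | base =>
    have h1 : Nat.primesLE (2 ^ 1) = {2} := by decide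
    unfold R S
    rw [h1]
    simp
    field_simp
    norm_num
  | succ J hJ ih =>
    have hJ' : (0 : ℝ) < J := by exact_mod_cast hJ
    have h1 := R_step J hJ
    have h2 := S_le (J + 1)
    have h3 : ((harmonic (J + 1) : ℚ) : ℝ) = (harmonic J : ℚ) + 1 / ((J : ℝ) + 1) := by
      rw [harmonic_succ]
      push_cast
      ring
    rw [h3]
    push_cast at h2 ⊢
    have h4 : S (J + 1) / Real.log 2 ≤ (J : ℝ) + 3 := by
      rw [div_le_iff₀ hl2]
      linarith
    have h5 : S (J + 1) / ((J : ℝ) * Real.log 2) - S (J + 1) / (((J : ℝ) + 1) * Real.log 2) =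
        S (J + 1) / Real.log 2 * (1 / ((J : ℝ) * (J + 1))) := by
      field_simp
      ring
    have h6 : S (J + 1) / Real.log 2 * (1 / ((J : ℝ) * (J + 1))) ≤
        ((J : ℝ) + 3) * (1 / ((J : ℝ) * (J + 1))) :=
      mul_le_mul_of_nonneg_right h4 (by positivity)
    have h7 : ((J : ℝ) + 3) * (1 / ((J : ℝ) * (J + 1))) =
        1 / ((J : ℝ) + 1) + 3 * (1 / J) - 3 * (1 / ((J : ℝ) + 1)) := by
      field_simp
      ring
    have h8 : (S (J + 1) - S J) / ((J : ℝ) * Real.log 2) =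
        S (J + 1) / ((J : ℝ) * Real.log 2) - S J / ((J : ℝ) * Real.log 2) := by
      rw [sub_div]
    linarith

/-- `∑_{p ≤ 2^J} 1/p ≤ log J + 6`. -/
theorem R_le (J : ℕ) (hJ : 1 ≤ J) : R J ≤ Real.log J + 6 := by
  have hl2 : 0 < Real.log 2 := Real.log_pos (by norm_num)
  have hJ' : (1 : ℝ) ≤ J := by exact_mod_cast hJ
  have h1 := R_bound J hJ
  have h2 := harmonic_le_one_add_log J
  have h3 : S J / ((J : ℝ) * Real.log 2) ≤ 3 := by
    rw [div_le_iff₀ (by positivity)]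
    have := S_le J
    nlinarith
  have h4 : 0 ≤ 1 / (J : ℝ) := by positivity
  linarith

/-- The completely multiplicative function `n ↦ 1/n`. -/
noncomputable def invHom : ℕ →* ℝ where
  toFun n := (n : ℝ)⁻¹
  map_one' := by simp
  map_mul' a b := by push_cast; rw [mul_inv]

theorem harmonic_le_prod (N : ℕ) :
    ∑ m ∈ Ico 1 N, ((m : ℝ)⁻¹) ≤ ∏ p ∈ N.primesBelow, (1 - (p : ℝ)⁻¹)⁻¹ := by
  have h := EulerProduct.summable_and_hasSum_smoothNumbers_prod_primesBelow_geometric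
    (f := invHom) (fun {p} hp => by
      have h1 : (2 : ℝ) ≤ p := by exact_mod_cast hp.two_le
      change ‖(p : ℝ)⁻¹‖ < 1
      rw [norm_inv, Real.norm_of_nonneg (by linarith)]
      exact inv_lt_one_of_one_lt₀ (by linarith)) N
  have h2 := h.2
  have hmem : ∀ m ∈ Ico 1 N, m ∈ Nat.smoothNumbers N := by
    intro m hm
    rw [mem_Ico] at hm
    rw [Nat.mem_smoothNumbers']
    intro p hp hd
    exact lt_of_le_of_lt (Nat.le_of_dvd (by omega) hd) hm.2
  classical
  have h3 : ∑ m ∈ Ico 1 N, ((m : ℝ)⁻¹) =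
      ∑ m ∈ (Ico 1 N).attach.map ⟨fun m => (⟨m.1, hmem m.1 m.2⟩ : Nat.smoothNumbers N),
        fun a b hab => Subtype.ext (congrArg (fun x => x.1) hab)⟩, invHom m.1 := by
    rw [sum_map]
    rw [← sum_attach]
    rfl
  rw [h3]
  exact sum_le_hasSum _ (fun m _ => by
    change (0 : ℝ) ≤ ((m : ℕ) : ℝ)⁻¹
    positivity) h2

theorem log_le_prod (N : ℕ) (hN : 1 ≤ N) :
    Real.log N ≤ ∏ p ∈ N.primesBelow, (1 - (p : ℝ)⁻¹)⁻¹ := by
  refine le_trans ?_ (harmonic_le_prod N)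
  obtain ⟨n, rfl⟩ : ∃ n, N = n + 1 := ⟨N - 1, by omega⟩
  refine (log_add_one_le_harmonic n).trans (le_of_eq ?_)
  rw [harmonic_eq_sum_Icc]
  push_cast
  refine sum_congr ?_ fun _ _ => rfl
  ext m
  simp only [mem_Icc, mem_Ico]
  omega

theorem sum_tail (N : ℕ) : ∑ n ∈ Ico 2 (N + 2), (1 : ℝ) / (n * (n - 1)) ≤ 1 - 1 / (N + 1) := by
  induction N with
  | zero => simp
  | succ n ih =>
    rw [show n + 1 + 2 = (n + 2) + 1 by ring, sum_Ico_succ_top (by omega)]
    refine (add_le_add_left ih _).trans (le_of_eq ?_)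
    push_cast
    have h1 : (n : ℝ) + 1 ≠ 0 := by positivity
    have h2 : (n : ℝ) + 2 ≠ 0 := by positivity
    have h3 : (n : ℝ) + 2 - 1 ≠ 0 := by
      have : (n : ℝ) + 2 - 1 = n + 1 := by ring
      rw [this]; exact h1
    have h4 : (n : ℝ) + 1 + 1 ≠ 0 := by positivity
    field_simp
    ring

/-- Lower bound for the sum of the reciprocals of the primes. -/
theorem sum_inv_ge (N : ℕ) (hN : 2 ≤ N) :
    Real.log (Real.log N) - 1 ≤ ∑ p ∈ N.primesBelow, (1 : ℝ) / p := by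
  have hNr : (2 : ℝ) ≤ N := by exact_mod_cast hN
  have hlog : 0 < Real.log N := Real.log_pos (by linarith)
  have h1 := log_le_prod N (by omega)
  have hpos : ∀ p ∈ N.primesBelow, 0 < 1 - (p : ℝ)⁻¹ := by
    intro p hp
    have h2 : (2 : ℝ) ≤ p := by exact_mod_cast (Nat.prime_of_mem_primesBelow hp).two_le
    have h3 : (p : ℝ)⁻¹ < 1 := inv_lt_one_of_one_lt₀ (by linarith)
    linarith
  have h2 : Real.log (Real.log N) ≤ ∑ p ∈ N.primesBelow, Real.log ((1 - (p : ℝ)⁻¹)⁻¹) := by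
    rw [← Real.log_prod (fun p hp => (inv_pos.2 (hpos p hp)).ne')]
    exact Real.log_le_log hlog h1
  have h3 : ∀ p ∈ N.primesBelow, Real.log ((1 - (p : ℝ)⁻¹)⁻¹) ≤
      (1 : ℝ) / p + 1 / (p * (p - 1)) := by
    intro p hp
    have h4 : (2 : ℝ) ≤ p := by exact_mod_cast (Nat.prime_of_mem_primesBelow hp).two_le
    have h5 := Real.log_le_sub_one_of_pos (inv_pos.2 (hpos p hp))
    refine h5.trans (le_of_eq ?_)
    have h6 : (p : ℝ) ≠ 0 := by linarith
    have h7 : (p : ℝ) - 1 ≠ 0 := by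
      have : (0 : ℝ) < p - 1 := by linarith
      exact this.ne'
    have h8 : (1 - (p : ℝ)⁻¹) = (p - 1) / p := by field_simp
    rw [h8, inv_div]
    field_simp
    ring
  have h4 := h2.trans (sum_le_sum h3)
  rw [sum_add_distrib] at h4
  have h5 : ∑ p ∈ N.primesBelow, (1 : ℝ) / (p * (p - 1)) ≤ 1 := by
    obtain ⟨n, rfl⟩ : ∃ n, N = n + 2 := ⟨N - 2, by omega⟩
    have h6 : ∑ p ∈ (n + 2).primesBelow, (1 : ℝ) / (p * (p - 1)) ≤
        ∑ k ∈ Ico 2 (n + 2), (1 : ℝ) / (k * (k - 1)) := by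
      refine sum_le_sum_of_subset_of_nonneg ?_ ?_
      · intro p hp
        rw [mem_Ico]
        exact ⟨(Nat.prime_of_mem_primesBelow hp).two_le, Nat.lt_of_mem_primesBelow hp⟩
      · intro k hk _
        have h7 : (2 : ℝ) ≤ k := by exact_mod_cast (mem_Ico.1 hk).1
        have h8 : (0 : ℝ) ≤ k - 1 := by linarith
        positivity
    refine h6.trans ((sum_tail n).trans ?_)
    have : (0 : ℝ) ≤ 1 / ((n : ℝ) + 1) := by positivity
    linarith
  linarith

end Pool.MP_67663b_nt.Mert
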