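import Mathlib
import Pool.Agent.Lib.MP_67663b_nt.OddB.Mert

set_option autoImplicit false
open Filter Topology
namespace Pool.MP_67663b_nt.Odd

/-- The sieve sum. -/
private noncomputable def gsumG (R : ℕ) (P : Finset ℕ) : ℝ :=
  ∑ r ∈ (Finset.Icc 1 R).filter (fun r => Squarefree r ∧ ∀ p ∈ P, ¬ p ∣ r),
    1 / (Nat.totient r : ℝ)

private theorem gsumG_mono (P : Finset ℕ) {R R' : ℕ} (h : R ≤ R') : gsumG R P ≤ gsumG R' P := by
  unfold gsumG
  refine Finset.sum_le_sum_of_subset_of_nonneg ?_ (fun _ _ _ => by positivity)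
  intro r hr
  rw [Finset.mem_filter, Finset.mem_Icc] at hr ⊢
  exact ⟨⟨hr.1.1, hr.1.2.trans h⟩, hr.2⟩

/-- Removing one prime. -/
private theorem gsumG_insert (R : ℕ) (P : Finset ℕ) {p : ℕ} (hp : p.Prime) :
    (1 - (p : ℝ)⁻¹) * gsumG R P ≤ gsumG R (insert p P) := by
  have hp1 : (1 : ℝ) < p := by exact_mod_cast hp.one_lt
  have h1 : gsumG R P ≤ gsumG R (insert p P) + 1 / ((p : ℝ) - 1) * gsumG R (insert p P) := by
    have hsplit : gsumG R P =
        (∑ r ∈ (Finset.Icc 1 R).filter (fun r => (Squarefree r ∧ ∀ q ∈ P, ¬ q ∣ r) ∧ ¬ p ∣ r),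
          1 / (Nat.totient r : ℝ)) +
        ∑ r ∈ (Finset.Icc 1 R).filter (fun r => (Squarefree r ∧ ∀ q ∈ P, ¬ q ∣ r) ∧ p ∣ r),
          1 / (Nat.totient r : ℝ) := by
      have h0 := Finset.sum_filter_add_sum_filter_not
        ((Finset.Icc 1 R).filter (fun r => Squarefree r ∧ ∀ q ∈ P, ¬ q ∣ r)) (fun r => p ∣ r)
        (fun r => 1 / (Nat.totient r : ℝ))
      rw [Finset.filter_filter, Finset.filter_filter] at h0
      unfold gsumG
      linarith
    rw [hsplit]
    refine add_le_add (le_of_eq ?_) ?_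
    · unfold gsumG
      refine Finset.sum_congr ?_ fun _ _ => rfl
      ext r
      simp only [Finset.mem_filter, Finset.mem_insert, forall_eq_or_imp]
      tauto
    · unfold gsumG
      rw [Finset.mul_sum]
      refine le_trans (le_of_eq ?_) (Finset.sum_le_sum_of_subset_of_nonneg
        (s := ((Finset.Icc 1 (R / p)).filter
          (fun r => Squarefree r ∧ ∀ q ∈ insert p P, ¬ q ∣ r)).filter
            (fun s => ∀ q ∈ P, ¬ q ∣ p * s)) ?_ ?_)
      · symm
        refine Finset.sum_bij (fun s _ => p * s) ?_ ?_ ?_ ?_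
        · intro s hs
          simp only [Finset.mem_filter, Finset.mem_Icc, Finset.mem_insert, forall_eq_or_imp] at hs
          obtain ⟨⟨⟨hs1, hs2⟩, hsq, hps, hPs⟩, hq⟩ := hs
          simp only [Finset.mem_filter, Finset.mem_Icc]
          refine ⟨⟨?_, ?_⟩, ⟨?_, hq⟩, dvd_mul_right p s⟩
          · exact Nat.one_le_iff_ne_zero.mpr (mul_ne_zero hp.ne_zero (by omega))
          · calc p * s ≤ p * (R / p) := Nat.mul_le_mul_left p hs2
              _ ≤ R := Nat.mul_div_le R p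
          · exact (Nat.squarefree_mul ((Nat.Prime.coprime_iff_not_dvd hp).mpr hps)).mpr
              ⟨hp.squarefree, hsq⟩
        · intro s _ s' _ h
          exact Nat.eq_of_mul_eq_mul_left hp.pos h
        · intro r hr
          simp only [Finset.mem_filter, Finset.mem_Icc] at hr
          obtain ⟨⟨hr1, hr2⟩, ⟨hsq, hq⟩, hpr⟩ := hr
          obtain ⟨s, rfl⟩ := hpr
          have hs0 : s ≠ 0 := by
            rintro rfl
            simp at hr1
          have hcop : ¬ p ∣ s := by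
            intro hd
            obtain ⟨t, rfl⟩ := hd
            have := hsq p ⟨t, by ring⟩
            exact hp.one_lt.ne' (Nat.isUnit_iff.mp this)
          refine ⟨s, ?_, rfl⟩
          simp only [Finset.mem_filter, Finset.mem_Icc, Finset.mem_insert, forall_eq_or_imp]
          refine ⟨⟨⟨Nat.one_le_iff_ne_zero.mpr hs0, ?_⟩, ?_, hcop, ?_⟩, hq⟩
          · exact (Nat.le_div_iff_mul_le hp.pos).mpr (by rw [mul_comm]; exact hr2)
          · exact hsq.squarefree_of_dvd (dvd_mul_left s p)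
          · intro q hqP hqs
            exact hq q hqP (hqs.mul_left p)
        · intro s hs
          simp only [Finset.mem_filter, Finset.mem_Icc, Finset.mem_insert, forall_eq_or_imp] at hs
          obtain ⟨⟨⟨hs1, hs2⟩, hsq, hps, hPs⟩, hq⟩ := hs
          rw [Nat.totient_mul ((Nat.Prime.coprime_iff_not_dvd hp).mpr hps), Nat.totient_prime hp]
          push_cast [hp.one_le]
          rw [one_div_mul_one_div]
      · intro s hs
        simp only [Finset.mem_filter, Finset.mem_Icc] at hs ⊢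
        exact ⟨⟨hs.1.1.1, hs.1.1.2.trans (Nat.div_le_self R p)⟩, hs.1.2⟩
      · intro s _ _
        have : 0 < (p : ℝ) - 1 := by linarith
        positivity
  have h2 : 0 < (p : ℝ) - 1 := by linarith
  have h3 : gsumG R P ≤ (p : ℝ) / (p - 1) * gsumG R (insert p P) := by
    refine h1.trans (le_of_eq ?_)
    field_simp
    ring
  calc (1 - (p : ℝ)⁻¹) * gsumG R P ≤
        (1 - (p : ℝ)⁻¹) * ((p : ℝ) / (p - 1) * gsumG R (insert p P)) := by
        refine mul_le_mul_of_nonneg_left h3 ?_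
        have : (p : ℝ)⁻¹ ≤ 1 := inv_le_one_of_one_le₀ hp1.le
        linarith
    _ = gsumG R (insert p P) := by
        have : (p : ℝ) ≠ 0 := by linarith
        field_simp

private theorem gsumG_nonneg (R : ℕ) (P : Finset ℕ) : 0 ≤ gsumG R P := by
  unfold gsumG
  positivity

/-- Removing a set of primes. -/
private theorem gsumG_prod (R : ℕ) (P : Finset ℕ) (hP : ∀ p ∈ P, p.Prime) :
    (∏ p ∈ P, (1 - (p : ℝ)⁻¹)) * gsumG R ∅ ≤ gsumG R P := by
  induction P using Finset.induction_on with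
  | empty => simp
  | insert p P hpP ih =>
    rw [Finset.prod_insert hpP, mul_assoc]
    have h1 := ih (fun q hq => hP q (Finset.mem_insert_of_mem hq))
    have h2 := gsumG_insert R P (hP p (Finset.mem_insert_self p P))
    have hp1 : (1 : ℝ) < p := by exact_mod_cast (hP p (Finset.mem_insert_self p P)).one_lt
    have h3 : (0 : ℝ) ≤ 1 - (p : ℝ)⁻¹ := by
      have : (p : ℝ)⁻¹ ≤ 1 := inv_le_one_of_one_le₀ hp1.le
      linarith
    exact (mul_le_mul_of_nonneg_left h1 h3).trans h2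

/-- The radical class of a squarefree number. -/
private theorem gsum_class {R r : ℕ} (hr : Squarefree r) :
    ∑ n ∈ (Finset.Icc 1 R).filter (fun n => ∏ p ∈ n.primeFactors, p = r), (1 : ℝ) / n ≤
      1 / (Nat.totient r : ℝ) := by
  have hr0 : r ≠ 0 := hr.ne_zero
  have hr1 : (0 : ℝ) < r := by
    have := Nat.pos_of_ne_zero hr0
    exact_mod_cast this
  have h := EulerProduct.summable_and_hasSum_factoredNumbers_prod_filter_prime_geometric
    (f := Pool.MP_67663b_nt.Mert.invHom) (fun {p} hp => by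
      have h1 : (2 : ℝ) ≤ p := by exact_mod_cast hp.two_le
      change ‖(p : ℝ)⁻¹‖ < 1
      rw [norm_inv, Real.norm_of_nonneg (by linarith)]
      exact inv_lt_one_of_one_lt₀ (by linarith)) r.primeFactors
  have hprod : ∏ p ∈ r.primeFactors with p.Prime, (1 - Pool.MP_67663b_nt.Mert.invHom p)⁻¹ =
      (r : ℝ) / (Nat.totient r : ℝ) := by
    have h1 : r.primeFactors.filter Nat.Prime = r.primeFactors := by
      rw [Finset.filter_eq_self]
      intro p hp
      exact Nat.prime_of_mem_primeFactors hp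
    rw [h1]
    have h2 := Nat.totient_eq_mul_prod_factors r
    have h3 : (Nat.totient r : ℝ) = r * ∏ p ∈ r.primeFactors, (1 - (p : ℝ)⁻¹) := by
      have h4 := congrArg (fun x : ℚ => (x : ℝ)) h2
      push_cast at h4
      exact h4
    have h5 : ∏ p ∈ r.primeFactors, (1 - Pool.MP_67663b_nt.Mert.invHom p)⁻¹ =
        (∏ p ∈ r.primeFactors, (1 - (p : ℝ)⁻¹))⁻¹ := by
      rw [← Finset.prod_inv_distrib]
      rfl
    rw [h5, h3]
    have h6 : ∏ p ∈ r.primeFactors, (1 - (p : ℝ)⁻¹) ≠ 0 := by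
      rw [Finset.prod_ne_zero_iff]
      intro p hp
      have h7 : (2 : ℝ) ≤ p := by exact_mod_cast (Nat.prime_of_mem_primeFactors hp).two_le
      have h8 : (p : ℝ)⁻¹ < 1 := inv_lt_one_of_one_lt₀ (by linarith)
      linarith
    field_simp
  have hsum := h.2
  rw [hprod] at hsum
  set T := (Finset.Icc 1 R).filter (fun n => ∏ p ∈ n.primeFactors, p = r) with hT
  have hdvd : ∀ n ∈ T, r ∣ n ∧ n ≠ 0 := by
    intro n hn
    rw [hT, Finset.mem_filter, Finset.mem_Icc] at hn
    exact ⟨hn.2 ▸ Nat.prod_primeFactors_dvd n, by omega⟩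
  have hmem : ∀ n ∈ T, n / r ∈ Nat.factoredNumbers r.primeFactors := by
    intro n hn
    obtain ⟨⟨m, hm⟩, hn0⟩ := hdvd n hn
    rw [hT, Finset.mem_filter] at hn
    have hm0 : m ≠ 0 := by
      rintro rfl
      exact hn0 (by rw [hm, mul_zero])
    have : n / r = m := by rw [hm, Nat.mul_div_cancel_left _ (Nat.pos_of_ne_zero hr0)]
    rw [this, Nat.mem_factoredNumbers_iff_primeFactors_subset]
    refine ⟨hm0, ?_⟩
    have h1 : m.primeFactors ⊆ n.primeFactors :=
      Nat.primeFactors_mono ⟨r, by rw [hm]; ring⟩ hn0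
    have h2 : n.primeFactors = r.primeFactors := by
      rw [← hn.2]
      exact (Nat.primeFactors_prod (fun p hp => Nat.prime_of_mem_primeFactors hp)).symm
    rw [← h2]
    exact h1
  have hinj : ∀ n ∈ T, ∀ n' ∈ T, n / r = n' / r → n = n' := by
    intro n hn n' hn' h
    rw [← Nat.mul_div_cancel' (hdvd n hn).1, ← Nat.mul_div_cancel' (hdvd n' hn').1, h]
  have h3 : ∑ n ∈ T, (1 : ℝ) / n = 1 / (r : ℝ) *
      ∑ m ∈ T.attach.map ⟨fun n => (⟨n.1 / r, hmem n.1 n.2⟩ : Nat.factoredNumbers r.primeFactors),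
        fun a b hab => Subtype.ext (hinj a.1 a.2 b.1 b.2 (congrArg (fun x => x.1) hab))⟩,
        Pool.MP_67663b_nt.Mert.invHom m.1 := by
    rw [Finset.sum_map, Finset.mul_sum, ← Finset.sum_attach]
    refine Finset.sum_congr rfl fun n _ => ?_
    obtain ⟨⟨m, hm⟩, hn0⟩ := hdvd n.1 n.2
    have hm0 : (m : ℝ) ≠ 0 := by
      have : m ≠ 0 := by
        rintro rfl
        exact hn0 (by rw [hm, mul_zero])
      exact_mod_cast this
    have h4 : n.1 / r = m := by rw [hm, Nat.mul_div_cancel_left _ (Nat.pos_of_ne_zero hr0)]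
    have h5 : Pool.MP_67663b_nt.Mert.invHom (n.1 / r) = (m : ℝ)⁻¹ := by
      rw [h4]
      rfl
    change (1 : ℝ) / (n.1 : ℝ) = 1 / (r : ℝ) * Pool.MP_67663b_nt.Mert.invHom (n.1 / r)
    rw [h5, hm]
    push_cast
    field_simp
  rw [h3]
  have h4 := sum_le_hasSum (T.attach.map ⟨fun n => (⟨n.1 / r, hmem n.1 n.2⟩ :
      Nat.factoredNumbers r.primeFactors), fun a b hab => Subtype.ext
        (hinj a.1 a.2 b.1 b.2 (congrArg (fun x => x.1) hab))⟩) (fun m _ => by
    change (0 : ℝ) ≤ ((m : ℕ) : ℝ)⁻¹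
    positivity) hsum
  calc _ ≤ 1 / (r : ℝ) * ((r : ℝ) / (Nat.totient r : ℝ)) :=
        mul_le_mul_of_nonneg_left h4 (by positivity)
    _ = _ := by
      field_simp

/-- `log R ≤ G(R)`. -/
private theorem gsum_log (R : ℕ) (hR : 1 ≤ R) : Real.log R ≤ gsumG R ∅ := by
  have h1 : Real.log R ≤ ∑ n ∈ Finset.Icc 1 R, (1 : ℝ) / n := by
    have h2 := log_add_one_le_harmonic R
    rw [harmonic_eq_sum_Icc] at h2
    push_cast at h2
    have h3 : Real.log R ≤ Real.log ((R : ℝ) + 1) := by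
      have : (0 : ℝ) < R := by exact_mod_cast hR
      exact Real.log_le_log this (by linarith)
    refine h3.trans (h2.trans (le_of_eq ?_))
    simp only [one_div]
  refine h1.trans ?_
  unfold gsumG
  have hmaps : ∀ n ∈ Finset.Icc 1 R, ∏ p ∈ n.primeFactors, p ∈
      (Finset.Icc 1 R).filter (fun r => Squarefree r ∧ ∀ p ∈ (∅ : Finset ℕ), ¬ p ∣ r) := by
    intro n hn
    rw [Finset.mem_Icc] at hn
    have hd := Nat.prod_primeFactors_dvd n
    rw [Finset.mem_filter, Finset.mem_Icc]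
    refine ⟨⟨?_, (Nat.le_of_dvd (by omega) hd).trans hn.2⟩, ?_, by simp⟩
    · exact Nat.one_le_iff_ne_zero.mpr (fun h => by
        rw [h, zero_dvd_iff] at hd
        omega)
    · refine Finset.squarefree_prod_of_pairwise_isCoprime (fun p hp q hq hpq => ?_)
        (fun p hp => (Nat.prime_of_mem_primeFactors hp).squarefree)
      simp only [← Nat.coprime_iff_isRelPrime]
      exact (Nat.coprime_primes (Nat.prime_of_mem_primeFactors hp)
        (Nat.prime_of_mem_primeFactors hq)).mpr hpq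
  rw [← Finset.sum_fiberwise_of_maps_to hmaps]
  refine Finset.sum_le_sum fun r hr => ?_
  rw [Finset.mem_filter] at hr
  exact gsum_class hr.2.1

/-- The product over a set of primes. -/
private theorem gsum_prod_ge (P : Finset ℕ) (hP : ∀ p ∈ P, p.Prime) :
    Real.exp (-8) / 2 / (1 + Real.log (1 + (P.card : ℝ))) ≤ ∏ p ∈ P, (1 - (p : ℝ)⁻¹) := by
  set J : ℕ := Nat.log 2 P.card + 1 with hJ
  have hJ1 : 1 ≤ J := by omega
  have hcard : P.card < 2 ^ J := Nat.lt_pow_succ_log_self (by norm_num) _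
  have hpos : ∀ p ∈ P, 0 < 1 - (p : ℝ)⁻¹ := by
    intro p hp
    have h2 : (2 : ℝ) ≤ p := by exact_mod_cast (hP p hp).two_le
    have h3 : (p : ℝ)⁻¹ < 1 := inv_lt_one_of_one_lt₀ (by linarith)
    linarith
  -- sum of reciprocals
  have hrec : ∑ p ∈ P, (1 : ℝ) / p ≤ Real.log J + 7 := by
    have hsplit : ∑ p ∈ P, (1 : ℝ) / p = ∑ p ∈ P.filter (fun p => p ≤ 2 ^ J), (1 : ℝ) / p +
        ∑ p ∈ P.filter (fun p => ¬ p ≤ 2 ^ J), (1 : ℝ) / p :=
      (Finset.sum_filter_add_sum_filter_not _ _ _).symm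
    have h1 : ∑ p ∈ P.filter (fun p => p ≤ 2 ^ J), (1 : ℝ) / p ≤ Real.log J + 6 := by
      refine le_trans ?_ (Pool.MP_67663b_nt.Mert.R_le J hJ1)
      unfold Pool.MP_67663b_nt.Mert.R
      refine Finset.sum_le_sum_of_subset_of_nonneg ?_ (fun _ _ _ => by positivity)
      intro p hp
      rw [Finset.mem_filter] at hp
      rw [Nat.mem_primesLE]
      exact ⟨hp.2, hP p hp.1⟩
    have h2 : ∑ p ∈ P.filter (fun p => ¬ p ≤ 2 ^ J), (1 : ℝ) / p ≤ 1 := by
      have h3 : ∀ p ∈ P.filter (fun p => ¬ p ≤ 2 ^ J), (1 : ℝ) / p ≤ 1 / 2 ^ J := by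
        intro p hp
        rw [Finset.mem_filter, not_le] at hp
        have : ((2 : ℝ) ^ J) ≤ p := by exact_mod_cast hp.2.le
        exact one_div_le_one_div_of_le (by positivity) this
      calc ∑ p ∈ P.filter (fun p => ¬ p ≤ 2 ^ J), (1 : ℝ) / p ≤
            ∑ _p ∈ P.filter (fun p => ¬ p ≤ 2 ^ J), (1 : ℝ) / 2 ^ J := Finset.sum_le_sum h3
        _ = (P.filter (fun p => ¬ p ≤ 2 ^ J)).card * ((1 : ℝ) / 2 ^ J) := by
            rw [Finset.sum_const, nsmul_eq_mul]
        _ ≤ (P.card : ℝ) * ((1 : ℝ) / 2 ^ J) := by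
            gcongr
            exact Finset.filter_subset _ _
        _ ≤ 1 := by
            rw [mul_one_div, div_le_one (by positivity)]
            exact_mod_cast hcard.le
    rw [hsplit]
    linarith
  have hrec2 : ∑ p ∈ P, (1 : ℝ) / (p * (p - 1)) ≤ 1 := by
    obtain ⟨N, hN⟩ : ∃ N, ∀ p ∈ P, p < N + 2 := by
      obtain ⟨N, hN⟩ := P.bddAbove
      exact ⟨N, fun p hp => by have := hN (Finset.mem_coe.mpr hp); omega⟩
    have h6 : ∑ p ∈ P, (1 : ℝ) / (p * (p - 1)) ≤
        ∑ k ∈ Finset.Ico 2 (N + 2), (1 : ℝ) / (k * (k - 1)) := by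
      refine Finset.sum_le_sum_of_subset_of_nonneg ?_ ?_
      · intro p hp
        rw [Finset.mem_Ico]
        exact ⟨(hP p hp).two_le, hN p hp⟩
      · intro k hk _
        have h7 : (2 : ℝ) ≤ k := by exact_mod_cast (Finset.mem_Ico.1 hk).1
        have h8 : (0 : ℝ) ≤ k - 1 := by linarith
        positivity
    refine h6.trans ((Pool.MP_67663b_nt.Mert.sum_tail N).trans ?_)
    have : (0 : ℝ) ≤ 1 / ((N : ℝ) + 1) := by positivity
    linarith
  have hlog : -(Real.log J + 8) ≤ Real.log (∏ p ∈ P, (1 - (p : ℝ)⁻¹)) := by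
    rw [Real.log_prod (fun p hp => (hpos p hp).ne')]
    have h3 : ∀ p ∈ P, -((1 : ℝ) / p + 1 / (p * (p - 1))) ≤ Real.log (1 - (p : ℝ)⁻¹) := by
      intro p hp
      have h4 : (2 : ℝ) ≤ p := by exact_mod_cast (hP p hp).two_le
      have h5 := Real.log_le_sub_one_of_pos (inv_pos.2 (hpos p hp))
      rw [Real.log_inv] at h5
      have h6 : (p : ℝ) ≠ 0 := by linarith
      have h7 : (p : ℝ) - 1 ≠ 0 := by
        have : (0 : ℝ) < p - 1 := by linarith
        exact this.ne'
      have h8 : (1 - (p : ℝ)⁻¹) = (p - 1) / p := by field_simp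
      have h9 : (1 - (p : ℝ)⁻¹)⁻¹ - 1 = (1 : ℝ) / p + 1 / (p * (p - 1)) := by
        rw [h8, inv_div]
        field_simp
        ring
      rw [h9] at h5
      linarith
    have h4 := Finset.sum_le_sum h3
    rw [Finset.sum_neg_distrib, Finset.sum_add_distrib] at h4
    linarith
  have hprodpos : 0 < ∏ p ∈ P, (1 - (p : ℝ)⁻¹) := Finset.prod_pos hpos
  have h5 : Real.exp (-(Real.log J + 8)) ≤ ∏ p ∈ P, (1 - (p : ℝ)⁻¹) :=
    (Real.le_log_iff_exp_le hprodpos).mp hlog
  refine le_trans ?_ h5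
  have hJ0 : (0 : ℝ) < J := by exact_mod_cast hJ1
  have h6 : Real.exp (-(Real.log J + 8)) = Real.exp (-8) / J := by
    rw [neg_add, Real.exp_add, Real.exp_neg (Real.log J), Real.exp_log hJ0]
    field_simp
  rw [h6, div_div]
  refine div_le_div_of_nonneg_left (Real.exp_pos _).le hJ0 ?_
  -- `J ≤ 2 (1 + log (1 + |P|))`
  have hl2 : (1 : ℝ) / 2 < Real.log 2 := by
    have := Real.log_two_gt_d9
    linarith
  have h7 : ((Nat.log 2 P.card : ℕ) : ℝ) * Real.log 2 ≤ Real.log (1 + (P.card : ℝ)) := by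
    rw [← Real.log_pow]
    rcases Nat.eq_zero_or_pos P.card with h0 | h0
    · rw [h0]; simp
    · refine Real.log_le_log (by positivity) ?_
      have : (2 : ℝ) ^ Nat.log 2 P.card ≤ (P.card : ℝ) := by
        exact_mod_cast Nat.pow_log_le_self 2 h0.ne'
      linarith
  have h8 : (0 : ℝ) ≤ ((Nat.log 2 P.card : ℕ) : ℝ) := Nat.cast_nonneg _
  rw [hJ]
  push_cast
  nlinarith

/-- Lower bound for the sieve sum over squarefree numbers free of a given set of primes. -/
theorem gsum_ge : ∃ c : ℝ, 0 < c ∧ ∀ (R : ℕ) (P : Finset ℕ), 1 ≤ R → (∀ p ∈ P, p.Prime) →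
    c * Real.log R / (1 + Real.log (1 + (P.card : ℝ))) ≤
      ∑ r ∈ (Finset.Icc 1 R).filter (fun r => Squarefree r ∧ ∀ p ∈ P, ¬ p ∣ r),
        1 / (Nat.totient r : ℝ) := by
  refine ⟨Real.exp (-8) / 2, by positivity, fun R P hR hP => ?_⟩
  have h1 := gsumG_prod R P hP
  have h2 := gsum_log R hR
  have h3 := gsum_prod_ge P hP
  have h0 : 0 ≤ Real.log (R : ℝ) := Real.log_natCast_nonneg R
  have h4 : 0 ≤ ∏ p ∈ P, (1 - (p : ℝ)⁻¹) := by
    refine Finset.prod_nonneg fun p hp => ?_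
    have h5 : (2 : ℝ) ≤ p := by exact_mod_cast (hP p hp).two_le
    have h6 : (p : ℝ)⁻¹ < 1 := inv_lt_one_of_one_lt₀ (by linarith)
    linarith
  calc Real.exp (-8) / 2 * Real.log R / (1 + Real.log (1 + (P.card : ℝ))) =
        Real.exp (-8) / 2 / (1 + Real.log (1 + (P.card : ℝ))) * Real.log R := by ring
    _ ≤ (∏ p ∈ P, (1 - (p : ℝ)⁻¹)) * Real.log R := mul_le_mul_of_nonneg_right h3 h0
    _ ≤ (∏ p ∈ P, (1 - (p : ℝ)⁻¹)) * gsumG R ∅ := mul_le_mul_of_nonneg_left h2 h4
    _ ≤ gsumG R P := h1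

end Pool.MP_67663b_nt.Odd
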