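import Pool.Agent.Lib.MP_67663b_nt.OddB.ExpDefs
import Pool.Agent.Lib.MP_67663b_nt.OddB.LargeSieve

set_option autoImplicit false
open Filter Topology
namespace Pool.MP_67663b_nt.Odd

open Pool.MP_67663b_nt.LargeSieve MeasureTheory intervalIntegral

/-- real part of the exponential sum with coefficients `b + i c` -/
noncomputable def Rp (A : Finset ℕ) (b c : ℕ → ℝ) (x : ℝ) : ℝ := Cc A b x - Ds A c x

/-- imaginary part -/
noncomputable def Ip (A : Finset ℕ) (b c : ℕ → ℝ) (x : ℝ) : ℝ := Ds A b x + Cc A c x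

/-- square modulus of the exponential sum -/
noncomputable def Gs (A : Finset ℕ) (b c : ℕ → ℝ) (x : ℝ) : ℝ := Rp A b c x ^ 2 + Ip A b c x ^ 2

theorem Gs_nonneg (A : Finset ℕ) (b c : ℕ → ℝ) (x : ℝ) : 0 ≤ Gs A b c x := by
  unfold Gs; positivity

theorem Gs_eq (A : Finset ℕ) (b c : ℕ → ℝ) (x : ℝ) :
    Gs A b c x = ∑ m ∈ A, ∑ n ∈ A, ((b m * b n + c m * c n) *
      Real.cos (2 * Real.pi * ((m : ℝ) - n) * x) + (b m * c n - c m * b n) *
      Real.sin (2 * Real.pi * ((m : ℝ) - n) * x)) := by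
  unfold Gs Rp Ip Cc Ds
  rw [← Finset.sum_sub_distrib, ← Finset.sum_add_distrib, sq, sq, Finset.sum_mul_sum,
    Finset.sum_mul_sum, ← Finset.sum_add_distrib]
  refine Finset.sum_congr rfl (fun m _ => ?_)
  rw [← Finset.sum_add_distrib]
  refine Finset.sum_congr rfl (fun n _ => ?_)
  rw [show 2 * Real.pi * ((m : ℝ) - n) * x = 2 * Real.pi * m * x - 2 * Real.pi * n * x by ring,
    Real.cos_sub, Real.sin_sub]
  ring

theorem int_sin (k : ℤ) : ∫ x in (0 : ℝ)..1, Real.sin (2 * Real.pi * k * x) = 0 := by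
  by_cases hk : k = 0
  · simp [hk]
  have hc : (2 * Real.pi * (k : ℝ)) ≠ 0 := by
    have : (k : ℝ) ≠ 0 := by exact_mod_cast hk
    have := Real.pi_pos
    positivity
  rw [intervalIntegral.integral_comp_mul_left (fun x => Real.sin x) hc]
  simp only [mul_zero, mul_one, integral_sin, Real.cos_zero, smul_eq_mul]
  have : Real.cos (2 * Real.pi * k) = 1 := by
    rw [show 2 * Real.pi * (k : ℝ) = (k : ℝ) * (2 * Real.pi) by ring]
    exact Real.cos_int_mul_two_pi k
  rw [this, sub_self, mul_zero]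

theorem int_Gs (A : Finset ℕ) (b c : ℕ → ℝ) :
    ∫ x in (0 : ℝ)..1, Gs A b c x = ∑ n ∈ A, (b n ^ 2 + c n ^ 2) := by
  simp_rw [Gs_eq]
  rw [intervalIntegral.integral_finsetSum]
  · refine Finset.sum_congr rfl (fun m hm => ?_)
    rw [intervalIntegral.integral_finsetSum]
    · rw [Finset.sum_eq_single_of_mem m hm]
      · simp [sq]
      · intro n _ hnm
        rw [intervalIntegral.integral_add
          ((by fun_prop : Continuous _).intervalIntegrable _ _)
          ((by fun_prop : Continuous _).intervalIntegrable _ _),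
          intervalIntegral.integral_const_mul, intervalIntegral.integral_const_mul]
        have h := int_cos ((m : ℤ) - n) (by
          intro h
          apply hnm
          have : (m : ℤ) = n := by linarith
          exact_mod_cast this.symm)
        have h' := int_sin ((m : ℤ) - n)
        push_cast at h h'
        rw [h, h', mul_zero, mul_zero, add_zero]
    · intro n _
      exact (by fun_prop : Continuous _).intervalIntegrable _ _
  · intro m _
    exact (by fun_prop : Continuous _).intervalIntegrable _ _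

theorem Rp_cont (A : Finset ℕ) (b c : ℕ → ℝ) : Continuous (Rp A b c) :=
  (Cc_cont A b).sub (Ds_cont A c)
theorem Ip_cont (A : Finset ℕ) (b c : ℕ → ℝ) : Continuous (Ip A b c) :=
  (Ds_cont A b).add (Cc_cont A c)
theorem Gs_cont (A : Finset ℕ) (b c : ℕ → ℝ) : Continuous (Gs A b c) := by
  unfold Gs; exact ((Rp_cont A b c).pow 2).add ((Ip_cont A b c).pow 2)

/-- the derivative of `Gs` -/
noncomputable def Gd (A : Finset ℕ) (b c : ℕ → ℝ) (x : ℝ) : ℝ :=
  2 * (Rp A b c x * Rp A (fun n => -(2 * Real.pi * n * c n)) (fun n => 2 * Real.pi * n * b n) x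
    + Ip A b c x * Ip A (fun n => -(2 * Real.pi * n * c n)) (fun n => 2 * Real.pi * n * b n) x)

theorem Gd_cont (A : Finset ℕ) (b c : ℕ → ℝ) : Continuous (Gd A b c) := by
  unfold Gd
  exact continuous_const.mul (((Rp_cont A b c).mul (Rp_cont A _ _)).add
    ((Ip_cont A b c).mul (Ip_cont A _ _)))

theorem Cc_neg (A : Finset ℕ) (a : ℕ → ℝ) (x : ℝ) : Cc A (fun n => -a n) x = -Cc A a x := by
  unfold Cc
  rw [← Finset.sum_neg_distrib]
  exact Finset.sum_congr rfl (fun n _ => by ring)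

theorem Ds_neg (A : Finset ℕ) (a : ℕ → ℝ) (x : ℝ) : Ds A (fun n => -a n) x = -Ds A a x := by
  unfold Ds
  rw [← Finset.sum_neg_distrib]
  exact Finset.sum_congr rfl (fun n _ => by ring)

theorem Rp_deriv (A : Finset ℕ) (b c : ℕ → ℝ) (x : ℝ) : HasDerivAt (Rp A b c)
    (Rp A (fun n => -(2 * Real.pi * n * c n)) (fun n => 2 * Real.pi * n * b n) x) x := by
  refine ((Cc_deriv A b x).sub (Ds_deriv A c x)).congr_deriv ?_
  unfold Rp
  rw [Cc_neg]
  ring

theorem Ip_deriv (A : Finset ℕ) (b c : ℕ → ℝ) (x : ℝ) : HasDerivAt (Ip A b c)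
    (Ip A (fun n => -(2 * Real.pi * n * c n)) (fun n => 2 * Real.pi * n * b n) x) x := by
  refine ((Ds_deriv A b x).add (Cc_deriv A c x)).congr_deriv ?_
  unfold Ip
  rw [Ds_neg]
  ring

theorem Gs_deriv (A : Finset ℕ) (b c : ℕ → ℝ) (x : ℝ) :
    HasDerivAt (Gs A b c) (Gd A b c x) x := by
  have h1 := ((Rp_deriv A b c x).pow 2).add ((Ip_deriv A b c x).pow 2)
  have h2 : Gs A b c = Rp A b c ^ 2 + Ip A b c ^ 2 := by funext y; simp [Gs]
  rw [← h2] at h1
  refine h1.congr_deriv ?_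
  unfold Gd
  simp
  ring

/-- `∫|G'| ≤ 4 π N ∑ |a|²`. -/
theorem int_Gd (A : Finset ℕ) (b c : ℕ → ℝ) (N : ℝ) (hN : 0 < N) (hA : ∀ n ∈ A, (n : ℝ) ≤ N) :
    ∫ x in (0 : ℝ)..1, |Gd A b c x| ≤ 4 * Real.pi * N * ∑ n ∈ A, (b n ^ 2 + c n ^ 2) := by
  set b' : ℕ → ℝ := fun n => -(2 * Real.pi * n * c n) with hb
  set c' : ℕ → ℝ := fun n => 2 * Real.pi * n * b n with hc
  set L : ℝ := 2 * Real.pi * N with hL
  have hpi := Real.pi_pos
  have hL0 : 0 < L := by positivity
  have h1 : ∀ x, |Gd A b c x| ≤ L * Gs A b c x + L⁻¹ * Gs A b' c' x := by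
    intro x
    unfold Gd Gs
    rw [← hb, ← hc]
    set p := Rp A b c x
    set q := Ip A b c x
    set p' := Rp A b' c' x
    set q' := Ip A b' c' x
    have h2 : L⁻¹ * L = 1 := inv_mul_cancel₀ hL0.ne'
    have hLi : 0 < L⁻¹ := inv_pos.mpr hL0
    rw [abs_le]
    constructor
    · have := mul_nonneg hLi.le (add_nonneg (sq_nonneg (L * p + p')) (sq_nonneg (L * q + q')))
      have e : L⁻¹ * ((L * p + p') ^ 2 + (L * q + q') ^ 2)
        = (L⁻¹ * L) * (L * (p ^ 2 + q ^ 2)) + (L⁻¹ * L) * (2 * (p * p' + q * q')) +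
          L⁻¹ * (p' ^ 2 + q' ^ 2) := by ring
      rw [e, h2] at this
      linarith
    · have := mul_nonneg hLi.le (add_nonneg (sq_nonneg (L * p - p')) (sq_nonneg (L * q - q')))
      have e : L⁻¹ * ((L * p - p') ^ 2 + (L * q - q') ^ 2)
        = (L⁻¹ * L) * (L * (p ^ 2 + q ^ 2)) - (L⁻¹ * L) * (2 * (p * p' + q * q')) +
          L⁻¹ * (p' ^ 2 + q' ^ 2) := by ring
      rw [e, h2] at this
      linarith
  have hi1 : IntervalIntegrable (fun x => |Gd A b c x|) volume 0 1 :=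
    ((Gd_cont A b c).abs).intervalIntegrable _ _
  have hi2 : IntervalIntegrable (fun x => L * Gs A b c x) volume 0 1 :=
    ((Gs_cont A b c).const_mul L).intervalIntegrable _ _
  have hi3 : IntervalIntegrable (fun x => L⁻¹ * Gs A b' c' x) volume 0 1 :=
    ((Gs_cont A b' c').const_mul _).intervalIntegrable _ _
  have h3 : ∫ x in (0 : ℝ)..1, |Gd A b c x| ≤
      ∫ x in (0 : ℝ)..1, (L * Gs A b c x + L⁻¹ * Gs A b' c' x) :=
    intervalIntegral.integral_mono (by norm_num) hi1 (hi2.add hi3) h1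
  refine h3.trans ?_
  rw [intervalIntegral.integral_add hi2 hi3, intervalIntegral.integral_const_mul,
    intervalIntegral.integral_const_mul, int_Gs, int_Gs]
  have h4 : ∑ n ∈ A, (b' n ^ 2 + c' n ^ 2) ≤ L ^ 2 * ∑ n ∈ A, (b n ^ 2 + c n ^ 2) := by
    rw [Finset.mul_sum]
    refine Finset.sum_le_sum (fun n hn => ?_)
    have h5 : (n : ℝ) ≤ N := hA n hn
    have h6 : (0 : ℝ) ≤ n := Nat.cast_nonneg n
    have h7 : (n : ℝ) ^ 2 ≤ N ^ 2 := pow_le_pow_left₀ h6 h5 2
    calc b' n ^ 2 + c' n ^ 2 = (2 * Real.pi) ^ 2 * (n : ℝ) ^ 2 * (b n ^ 2 + c n ^ 2) := by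
          rw [hb, hc]; ring
      _ ≤ (2 * Real.pi) ^ 2 * N ^ 2 * (b n ^ 2 + c n ^ 2) := by
          refine mul_le_mul_of_nonneg_right ?_ (by positivity)
          exact mul_le_mul_of_nonneg_left h7 (by positivity)
      _ = L ^ 2 * (b n ^ 2 + c n ^ 2) := by rw [hL]; ring
  calc L * ∑ n ∈ A, (b n ^ 2 + c n ^ 2) + L⁻¹ * ∑ n ∈ A, (b' n ^ 2 + c' n ^ 2)
      ≤ L * ∑ n ∈ A, (b n ^ 2 + c n ^ 2) + L⁻¹ * (L ^ 2 * ∑ n ∈ A, (b n ^ 2 + c n ^ 2)) := by
        have := mul_le_mul_of_nonneg_left h4 (inv_nonneg.mpr hL0.le)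
        linarith
    _ = 4 * Real.pi * N * ∑ n ∈ A, (b n ^ 2 + c n ^ 2) := by
        rw [hL]; field_simp; ring

/-- The large sieve inequality for well spaced points of `(0,1)`, complex coefficients. -/
theorem large_sieve_G {ι : Type*} [DecidableEq ι] (I : Finset ι) (x : ι → ℝ) (δ : ℝ) (hδ : 0 < δ)
    (h0 : ∀ i ∈ I, δ / 2 ≤ x i) (h1 : ∀ i ∈ I, x i ≤ 1 - δ / 2)
    (hsp : ∀ i ∈ I, ∀ j ∈ I, i ≠ j → δ ≤ |x i - x j|)
    (A : Finset ℕ) (b c : ℕ → ℝ) (N : ℝ) (hN : 0 < N) (hA : ∀ n ∈ A, (n : ℝ) ≤ N) :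
    ∑ i ∈ I, Gs A b c (x i) ≤ (δ⁻¹ + 4 * Real.pi * N) * ∑ n ∈ A, (b n ^ 2 + c n ^ 2) := by
  -- sums over disjoint intervals
  have hdisj : ∀ H : ℝ → ℝ, Continuous H → (∀ y, 0 ≤ H y) →
      ∑ i ∈ I, ∫ y in (x i - δ / 2)..(x i + δ / 2), H y ≤ ∫ y in (0 : ℝ)..1, H y := by
    intro H hH hH0
    have e1 : ∀ i ∈ I, ∫ y in (x i - δ / 2)..(x i + δ / 2), H y
        = ∫ y in Set.Ioc (x i - δ / 2) (x i + δ / 2), H y := by
      intro i _
      rw [intervalIntegral.integral_of_le (by linarith)]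
    rw [Finset.sum_congr rfl e1, intervalIntegral.integral_of_le (by norm_num),
      ← MeasureTheory.integral_biUnion_finset]
    · refine MeasureTheory.setIntegral_mono_set ?_ ?_ ?_
      · exact (hH.integrableOn_Icc).mono_set Set.Ioc_subset_Icc_self
      · exact Filter.Eventually.of_forall hH0
      · refine LE.le.eventuallyLE ?_
        intro y hy
        simp only [Set.mem_iUnion] at hy
        obtain ⟨i, hi, hy⟩ := hy
        exact ⟨by linarith [hy.1, h0 i hi], by linarith [hy.2, h1 i hi]⟩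
    · intro i _; exact measurableSet_Ioc
    · intro i hi j hj hij
      rw [Function.onFun, Set.disjoint_left]
      intro y hy hy'
      have := hsp i hi j hj hij
      rw [le_abs] at this
      rcases this with h | h
      · linarith [hy.1, hy.2, hy'.1, hy'.2]
      · linarith [hy.1, hy.2, hy'.1, hy'.2]
    · intro i _
      exact (hH.integrableOn_Icc).mono_set Set.Ioc_subset_Icc_self
  calc ∑ i ∈ I, Gs A b c (x i)
      ≤ ∑ i ∈ I, (δ⁻¹ * (∫ y in (x i - δ / 2)..(x i + δ / 2), Gs A b c y)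
        + ∫ y in (x i - δ / 2)..(x i + δ / 2), |Gd A b c y|) :=
        Finset.sum_le_sum (fun i _ => gallagher (Gs A b c) (Gd A b c) (Gs_cont A b c)
          (Gd_cont A b c) (Gs_deriv A b c) (x i) δ hδ)
    _ = δ⁻¹ * ∑ i ∈ I, (∫ y in (x i - δ / 2)..(x i + δ / 2), Gs A b c y)
        + ∑ i ∈ I, ∫ y in (x i - δ / 2)..(x i + δ / 2), |Gd A b c y| := by
        rw [Finset.sum_add_distrib, Finset.mul_sum]
    _ ≤ δ⁻¹ * (∫ y in (0 : ℝ)..1, Gs A b c y) + ∫ y in (0 : ℝ)..1, |Gd A b c y| := by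
        refine add_le_add ?_ ?_
        · exact mul_le_mul_of_nonneg_left (hdisj _ (Gs_cont A b c) (Gs_nonneg A b c))
            (inv_nonneg.mpr hδ.le)
        · exact hdisj _ (Gd_cont A b c).abs (fun _ => abs_nonneg _)
    _ ≤ δ⁻¹ * ∑ n ∈ A, (b n ^ 2 + c n ^ 2) + 4 * Real.pi * N * ∑ n ∈ A, (b n ^ 2 + c n ^ 2) := by
        rw [int_Gs]
        exact add_le_add le_rfl (int_Gd A b c N hN hA)
    _ = _ := by ring

theorem norm_sq_eq_Gs (A : Finset ℕ) (a : ℕ → ℂ) (x : ℝ) :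
    ‖∑ n ∈ A, a n * ee (n * x)‖ ^ 2 = Gs A (fun n => (a n).re) (fun n => (a n).im) x := by
  have hre : ∀ y : ℝ, (ee y).re = Real.cos (2 * Real.pi * y) := by
    intro y
    unfold ee
    have : (2 * Real.pi * y * Complex.I : ℂ) = ((2 * Real.pi * y : ℝ) : ℂ) * Complex.I := by
      push_cast
      ring
    rw [this, Complex.exp_ofReal_mul_I_re]
  have him : ∀ y : ℝ, (ee y).im = Real.sin (2 * Real.pi * y) := by
    intro y
    unfold ee
    have : (2 * Real.pi * y * Complex.I : ℂ) = ((2 * Real.pi * y : ℝ) : ℂ) * Complex.I := by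
      push_cast
      ring
    rw [this, Complex.exp_ofReal_mul_I_im]
  rw [← Complex.normSq_eq_norm_sq, Complex.normSq_apply, Complex.re_sum, Complex.im_sum]
  unfold Gs Rp Ip Cc Ds
  rw [← Finset.sum_sub_distrib, ← Finset.sum_add_distrib, sq, sq]
  congr 2
  · refine Finset.sum_congr rfl (fun n _ => ?_)
    rw [Complex.mul_re, hre, him, mul_assoc (2 * Real.pi)]
  · refine Finset.sum_congr rfl (fun n _ => ?_)
    rw [Complex.mul_re, hre, him, mul_assoc (2 * Real.pi)]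
  · refine Finset.sum_congr rfl (fun n _ => ?_)
    rw [Complex.mul_im, hre, him, mul_assoc (2 * Real.pi)]
  · refine Finset.sum_congr rfl (fun n _ => ?_)
    rw [Complex.mul_im, hre, him, mul_assoc (2 * Real.pi)]

/-- The large sieve inequality with complex coefficients and points well spaced modulo one. -/
theorem large_sieve_c {J : Type*} [DecidableEq J] (s : Finset J) (x : J → ℝ) {δ : ℝ} (hδ : 0 < δ)
    (hδ1 : δ ≤ 1)
    (hsp : ∀ i ∈ s, ∀ j ∈ s, i ≠ j → ∀ z : ℤ, δ ≤ |x i - x j - z|)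
    (A : Finset ℕ) (a : ℕ → ℂ) {N : ℝ} (hN : 0 < N) (hA : ∀ n ∈ A, (n : ℝ) ≤ N) :
    ∑ i ∈ s, ‖∑ n ∈ A, a n * ee (n * x i)‖ ^ 2 ≤
      (δ⁻¹ + 4 * Real.pi * N) * ∑ n ∈ A, ‖a n‖ ^ 2 := by
  rcases s.eq_empty_or_nonempty with rfl | ⟨i₀, hi₀⟩
  · rw [Finset.sum_empty]
    have := Real.pi_pos
    positivity
  -- translated points
  set y : J → ℝ := fun i => δ / 2 + Int.fract (x i - x i₀) with hy
  set t : ℝ := x i₀ - δ / 2 with ht
  set a' : ℕ → ℂ := fun n => a n * ee (n * t) with ha'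
  have hterm : ∀ i, ∑ n ∈ A, a n * ee (n * x i) = ∑ n ∈ A, a' n * ee (n * y i) := by
    intro i
    refine Finset.sum_congr rfl (fun n _ => ?_)
    rw [ha']
    simp only
    rw [mul_assoc, ← ee_add]
    congr 1
    have e1 : (n : ℝ) * x i = (n * t + n * y i) + (((n : ℤ) * ⌊x i - x i₀⌋ : ℤ) : ℝ) := by
      rw [hy, ht]
      simp only
      have := Int.floor_add_fract (x i - x i₀)
      push_cast
      have h2 : x i = x i₀ + (⌊x i - x i₀⌋ + Int.fract (x i - x i₀)) := by rw [this]; ring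
      calc (n : ℝ) * x i = n * (x i₀ + (⌊x i - x i₀⌋ + Int.fract (x i - x i₀))) := by rw [← h2]
        _ = _ := by ring
    rw [e1, ee_add_int]
  have hfr : ∀ i ∈ s, i ≠ i₀ → δ ≤ Int.fract (x i - x i₀) ∧ Int.fract (x i - x i₀) ≤ 1 - δ := by
    intro i hi hne
    have h1 := hsp i hi i₀ hi₀ hne ⌊x i - x i₀⌋
    have h2 := hsp i hi i₀ hi₀ hne (⌊x i - x i₀⌋ + 1)
    have h3 : x i - x i₀ - (⌊x i - x i₀⌋ : ℝ) = Int.fract (x i - x i₀) := rfl
    rw [h3, abs_of_nonneg (Int.fract_nonneg _)] at h1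
    have h4 : x i - x i₀ - ((⌊x i - x i₀⌋ + 1 : ℤ) : ℝ) = -(1 - Int.fract (x i - x i₀)) := by
      rw [← h3]; push_cast; ring
    rw [h4, abs_neg, abs_of_nonneg (by have := Int.fract_lt_one (x i - x i₀); linarith)] at h2
    exact ⟨h1, by linarith⟩
  have h0 : ∀ i ∈ s, δ / 2 ≤ y i := by
    intro i _
    rw [hy]
    simp only
    have := Int.fract_nonneg (x i - x i₀)
    linarith
  have h1 : ∀ i ∈ s, y i ≤ 1 - δ / 2 := by
    intro i hi
    rw [hy]
    simp only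
    by_cases hne : i = i₀
    · rw [hne, sub_self, Int.fract_zero]
      linarith
    · have := (hfr i hi hne).2
      linarith
  have hsp' : ∀ i ∈ s, ∀ j ∈ s, i ≠ j → δ ≤ |y i - y j| := by
    intro i hi j hj hij
    have := hsp i hi j hj hij (⌊x i - x i₀⌋ - ⌊x j - x i₀⌋)
    have e1 : y i - y j = x i - x j - ((⌊x i - x i₀⌋ - ⌊x j - x i₀⌋ : ℤ) : ℝ) := by
      rw [hy]
      simp only [Int.fract]
      push_cast
      ring
    rw [e1]
    exact this
  have hnorm : ∀ n, ‖a n‖ ^ 2 = (a' n).re ^ 2 + (a' n).im ^ 2 := by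
    intro n
    have e1 : ‖a' n‖ = ‖a n‖ := by
      rw [ha']
      simp only
      rw [norm_mul, norm_ee, mul_one]
    rw [← e1, ← Complex.normSq_eq_norm_sq, Complex.normSq_apply]
    ring
  simp_rw [hterm, norm_sq_eq_Gs, hnorm]
  exact large_sieve_G s y δ hδ h0 h1 hsp' A _ _ N hN hA

end Pool.MP_67663b_nt.Odd
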