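import Pool.Agent.Lib.MP_67663b_nt.OddB.ExpDefs

set_option autoImplicit false
open Filter Topology
namespace Pool.MP_67663b_nt.Odd

/-- Orthogonality of additive characters. -/
private theorem mont_geom (m n : ℕ) (hm : 1 ≤ m) (hn : Nat.Coprime n m) :
    ∑ j ∈ Finset.range m, ee ((n : ℝ) * ((j : ℝ) / m)) = if m = 1 then 1 else 0 := by
  have hm0 : (m : ℝ) ≠ 0 := by
    have : 0 < m := hm
    positivity
  have hpow : ∀ j : ℕ, ee ((n : ℝ) * ((j : ℝ) / m)) = ee ((n : ℝ) / m) ^ j := by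
    intro j
    induction j with
    | zero => simp [ee_zero]
    | succ j ih =>
      rw [pow_succ, ← ih, ← ee_add]
      congr 1
      push_cast
      ring
  simp only [hpow]
  split_ifs with h1
  · subst h1
    simp
  · have hne : ee ((n : ℝ) / m) ≠ 1 := by
      intro he
      unfold ee at he
      rw [Complex.exp_eq_one_iff] at he
      obtain ⟨k, hk⟩ := he
      have hpi : (2 * Real.pi * Complex.I : ℂ) ≠ 0 := Complex.two_pi_I_ne_zero
      have h2 : (((n : ℝ) / m : ℝ) : ℂ) = (k : ℂ) := by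
        have h3 : (((n : ℝ) / m : ℝ) : ℂ) * (2 * Real.pi * Complex.I) =
            (k : ℂ) * (2 * Real.pi * Complex.I) := by
          rw [← hk]
          ring
        exact mul_right_cancel₀ hpi h3
      have h4 : ((n : ℝ) / m : ℝ) = (k : ℝ) := by exact_mod_cast h2
      rw [div_eq_iff hm0] at h4
      have h5 : (n : ℤ) = k * m := by exact_mod_cast h4
      have h6 : m ∣ n := by
        have : (m : ℤ) ∣ (n : ℤ) := ⟨k, by rw [h5]; ring⟩
        exact_mod_cast this
      have h7 : m ∣ 1 := by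
        have := Nat.dvd_gcd h6 dvd_rfl
        rwa [hn] at this
      exact h1 (Nat.dvd_one.mp h7)
    have hone : ee ((n : ℝ) / m) ^ m = 1 := by
      rw [← hpow]
      have : (n : ℝ) * ((m : ℝ) / m) = ((n : ℤ) : ℝ) := by
        rw [div_self hm0, mul_one]
        simp
      rw [this, ee_int]
    rw [geom_sum_eq hne, hone, sub_self, zero_div]

/-- Möbius indicator of coprimality. -/
private theorem mont_ind (r b : ℕ) (hr : r ≠ 0) :
    (∑ d ∈ r.divisors.filter (fun d => d ∣ b), (ArithmeticFunction.moebius d : ℂ)) =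
      if Nat.Coprime r b then 1 else 0 := by
  have h1 : r.divisors.filter (fun d => d ∣ b) = (Nat.gcd r b).divisors := by
    ext d
    simp only [Finset.mem_filter, Nat.mem_divisors, Nat.dvd_gcd_iff]
    have : Nat.gcd r b ≠ 0 := Nat.gcd_ne_zero_left hr
    tauto
  rw [h1]
  have h2 : ∑ d ∈ (Nat.gcd r b).divisors, (ArithmeticFunction.moebius d : ℤ) =
      if Nat.gcd r b = 1 then 1 else 0 := by
    have h3 := congrArg (fun f : ArithmeticFunction ℤ => f (Nat.gcd r b))
      ArithmeticFunction.moebius_mul_coe_zeta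
    simp only [ArithmeticFunction.coe_mul_zeta_apply, ArithmeticFunction.one_apply] at h3
    exact h3
  have h4 : (∑ d ∈ (Nat.gcd r b).divisors, (ArithmeticFunction.moebius d : ℂ)) =
      ((∑ d ∈ (Nat.gcd r b).divisors, (ArithmeticFunction.moebius d : ℤ) : ℤ) : ℂ) := by
    push_cast
    rfl
  rw [h4, h2]
  by_cases h : Nat.gcd r b = 1
  · rw [if_pos h, if_pos h]
    simp
  · rw [if_neg h, if_neg h]
    simp

/-- Ramanujan sum for `n` coprime to the squarefree modulus. -/
theorem ramanujan_coprime {r n : ℕ} (hr : Squarefree r) (hn : Nat.Coprime n r) :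
    ∑ b ∈ (Finset.range r).filter (Nat.Coprime r), ee ((n : ℝ) * ((b : ℝ) / r)) =
      (ArithmeticFunction.moebius r : ℂ) := by
  have hr0 : r ≠ 0 := hr.ne_zero
  have hr1 : (r : ℝ) ≠ 0 := by exact_mod_cast hr0
  have e1 : ∑ b ∈ (Finset.range r).filter (Nat.Coprime r), ee ((n : ℝ) * ((b : ℝ) / r)) =
      ∑ b ∈ Finset.range r, ∑ d ∈ r.divisors, if d ∣ b then
        (ArithmeticFunction.moebius d : ℂ) * ee ((n : ℝ) * ((b : ℝ) / r)) else 0 := by
    rw [Finset.sum_filter]
    refine Finset.sum_congr rfl fun b _ => ?_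
    rw [← Finset.sum_filter, ← Finset.sum_mul, mont_ind r b hr0]
    split_ifs <;> simp
  have e2 : ∀ d ∈ r.divisors, (∑ b ∈ Finset.range r, if d ∣ b then
        (ArithmeticFunction.moebius d : ℂ) * ee ((n : ℝ) * ((b : ℝ) / r)) else 0) =
      if d = r then (ArithmeticFunction.moebius d : ℂ) else 0 := by
    intro d hd
    rw [Nat.mem_divisors] at hd
    obtain ⟨m, hm⟩ := hd.1
    have hd0 : d ≠ 0 := by
      rintro rfl
      exact hr0 (by rw [hm, zero_mul])
    have hm0 : m ≠ 0 := by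
      rintro rfl
      exact hr0 (by rw [hm, mul_zero])
    have hd1 : (d : ℝ) ≠ 0 := by exact_mod_cast hd0
    have hm1 : (m : ℝ) ≠ 0 := by exact_mod_cast hm0
    have e3 : (∑ b ∈ Finset.range r, if d ∣ b then
        (ArithmeticFunction.moebius d : ℂ) * ee ((n : ℝ) * ((b : ℝ) / r)) else 0) =
        ∑ j ∈ Finset.range m, (ArithmeticFunction.moebius d : ℂ) * ee ((n : ℝ) * ((j : ℝ) / m)) := by
      rw [← Finset.sum_filter]
      symm
      refine Finset.sum_bij (fun j _ => d * j) ?_ ?_ ?_ ?_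
      · intro j hj
        rw [Finset.mem_range] at hj
        rw [Finset.mem_filter, Finset.mem_range, hm]
        exact ⟨Nat.mul_lt_mul_of_pos_left hj (Nat.pos_of_ne_zero hd0), dvd_mul_right d j⟩
      · intro j _ j' _ h
        exact Nat.eq_of_mul_eq_mul_left (Nat.pos_of_ne_zero hd0) h
      · intro b hb
        rw [Finset.mem_filter, Finset.mem_range] at hb
        obtain ⟨j, rfl⟩ := hb.2
        refine ⟨j, ?_, rfl⟩
        rw [Finset.mem_range]
        have := hb.1
        rw [hm] at this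
        exact Nat.lt_of_mul_lt_mul_left this
      · intro j _
        congr 2
        rw [hm]
        push_cast
        field_simp
    rw [e3, ← Finset.mul_sum, mont_geom m n (Nat.one_le_iff_ne_zero.mpr hm0)
      (Nat.Coprime.coprime_dvd_right ⟨d, by rw [hm]; ring⟩ hn)]
    by_cases h : m = 1
    · have : d = r := by rw [hm, h, mul_one]
      rw [if_pos h, if_pos this, mul_one]
    · have : d ≠ r := by
        intro hdr
        apply h
        have h8 : d * m = d * 1 := by rw [mul_one, ← hm, hdr]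
        exact Nat.eq_of_mul_eq_mul_left (Nat.pos_of_ne_zero hd0) h8
      rw [if_neg h, if_neg this, mul_zero]
  rw [e1, Finset.sum_comm, Finset.sum_congr rfl e2, Finset.sum_ite_eq', if_pos]
  exact Nat.mem_divisors_self r hr0

/-- Montgomery's inequality. -/
theorem montgomery {r : ℕ} (hr : Squarefree r) (A : Finset ℕ) (hA : ∀ n ∈ A, Nat.Coprime n r)
    (a : ℕ → ℂ) (ψ : ℝ) :
    ‖∑ n ∈ A, a n * ee (n * ψ)‖ ^ 2 ≤ (Nat.totient r : ℝ) *
      ∑ b ∈ (Finset.range r).filter (Nat.Coprime r),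
        ‖∑ n ∈ A, a n * ee (n * (ψ + (b : ℝ) / r))‖ ^ 2 := by
  have e1 : (ArithmeticFunction.moebius r : ℂ) * ∑ n ∈ A, a n * ee (n * ψ) =
      ∑ b ∈ (Finset.range r).filter (Nat.Coprime r),
        ∑ n ∈ A, a n * ee (n * (ψ + (b : ℝ) / r)) := by
    rw [Finset.sum_comm, Finset.mul_sum]
    refine Finset.sum_congr rfl fun n hn => ?_
    rw [← ramanujan_coprime hr (hA n hn), Finset.sum_mul]
    refine Finset.sum_congr rfl fun b _ => ?_
    rw [mul_add, ee_add]
    ring
  have hμ : ‖(ArithmeticFunction.moebius r : ℂ)‖ = 1 := by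
    have h1 : (ArithmeticFunction.moebius r : ℤ) ^ 2 = 1 :=
      ArithmeticFunction.moebius_sq_eq_one_of_squarefree hr
    have h2 : ((ArithmeticFunction.moebius r : ℤ) - 1) * ((ArithmeticFunction.moebius r : ℤ) + 1)
        = 0 := by linear_combination h1
    rcases mul_eq_zero.mp h2 with h | h
    · rw [sub_eq_zero.mp h]; simp
    · rw [eq_neg_of_add_eq_zero_left h]; simp
  have e2 : ‖∑ n ∈ A, a n * ee (n * ψ)‖ = ‖∑ b ∈ (Finset.range r).filter (Nat.Coprime r),
        ∑ n ∈ A, a n * ee (n * (ψ + (b : ℝ) / r))‖ := by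
    rw [← e1, norm_mul, hμ, one_mul]
  rw [e2]
  have e3 : ‖∑ b ∈ (Finset.range r).filter (Nat.Coprime r),
        ∑ n ∈ A, a n * ee (n * (ψ + (b : ℝ) / r))‖ ≤
      ∑ b ∈ (Finset.range r).filter (Nat.Coprime r),
        ‖∑ n ∈ A, a n * ee (n * (ψ + (b : ℝ) / r))‖ := norm_sum_le _ _
  have e4 := sq_sum_le_card_mul_sum_sq (s := (Finset.range r).filter (Nat.Coprime r))
    (f := fun b : ℕ => ‖∑ n ∈ A, a n * ee (n * (ψ + (b : ℝ) / r))‖)
  calc ‖∑ b ∈ (Finset.range r).filter (Nat.Coprime r),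
        ∑ n ∈ A, a n * ee (n * (ψ + (b : ℝ) / r))‖ ^ 2
      ≤ (∑ b ∈ (Finset.range r).filter (Nat.Coprime r),
        ‖∑ n ∈ A, a n * ee (n * (ψ + (b : ℝ) / r))‖) ^ 2 :=
        pow_le_pow_left₀ (norm_nonneg _) e3 2
    _ ≤ _ := e4

end Pool.MP_67663b_nt.Odd
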