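import Pool.Agent.Lib.MP_67663b_nt.OddB.APWindow

set_option autoImplicit false
open Filter Topology ArithmeticFunction
namespace Pool.MP_67663b_nt.Odd

private theorem apth_step (w : ℝ) {u z v : ℝ} (h1 : u ≤ z) (h2 : z ≤ v) :
    ∫ t in u..v, (if t < z then w else 0) = w * (z - u) := by
  have h3 : ∫ t in u..v, (if t < z then w else 0) =
      ∫ t in u..v, Set.indicator {t : ℝ | t ≤ z} (fun _ => w) t := by
    apply intervalIntegral.integral_congr_ae
    have h4 : ∀ᵐ t : ℝ, t ≠ z := by
      rw [MeasureTheory.ae_iff]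
      simp
    filter_upwards [h4] with t ht _
    by_cases h5 : t < z
    · rw [if_pos h5, Set.indicator_of_mem]
      exact h5.le
    · rw [if_neg h5, Set.indicator_of_notMem]
      intro h6
      exact ht (le_antisymm h6 (not_lt.1 h5))
  rw [h3, intervalIntegral.integral_indicator ⟨h1, h2⟩, intervalIntegral.integral_const,
    smul_eq_mul]
  ring

private theorem apth_meas (w z : ℝ) : Measurable (fun t : ℝ => if t < z then w else 0) :=
  Measurable.ite measurableSet_Iio measurable_const measurable_const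

/-- the set of integers in `(uX, vX]`, congruent to `c` -/
private noncomputable def apthS (r c : ℕ) (u v X : ℝ) : Finset ℕ :=
  (Finset.Icc 1 ⌊v * X⌋₊).filter (fun n : ℕ => u * X < n ∧ n ≡ c [MOD r])

private theorem apth_log_sum {r : ℕ} (hr : 0 < r) (c : ℕ) (hc : Nat.Coprime c r) {u v : ℝ}
    (hu : 0 < u) (huv : u ≤ v) :
    Tendsto (fun X : ℝ => ∑ n ∈ apthS r c u v X, vonMangoldt n / (n : ℝ)) atTop
      (𝓝 ((Real.log v - Real.log u) / (Nat.totient r : ℝ))) := by
  have h1 := (ap_window hr c hc (Real.log_le_log hu huv)).comp Real.tendsto_log_atTop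
  refine h1.congr' ?_
  filter_upwards [eventually_gt_atTop 0] with X hX
  simp only [Function.comp_apply]
  have hv : 0 < v := lt_of_lt_of_le hu huv
  have h2 : Real.exp (Real.log X + Real.log v) = v * X := by
    rw [Real.exp_add, Real.exp_log hX, Real.exp_log hv]
    ring
  rw [h2]
  unfold apthS
  apply Finset.sum_congr _ fun n _ => rfl
  ext n
  simp only [Finset.mem_filter, Finset.mem_Icc]
  constructor
  · rintro ⟨⟨g1, g2⟩, g3, g4⟩
    refine ⟨⟨g1, g2⟩, ?_, g4⟩
    have hn : (0 : ℝ) < n := by exact_mod_cast g1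
    rw [← Real.log_mul hX.ne' hu.ne', Real.log_lt_log_iff (by positivity) hn] at g3
    linarith
  · rintro ⟨⟨g1, g2⟩, g3, g4⟩
    refine ⟨⟨g1, g2⟩, ?_, g4⟩
    have hn : (0 : ℝ) < n := by exact_mod_cast g1
    rw [← Real.log_mul hX.ne' hu.ne', Real.log_lt_log_iff (by positivity) hn]
    linarith

private theorem apth_psi {r : ℕ} (hr : 0 < r) (c : ℕ) (hc : Nat.Coprime c r) {u v : ℝ}
    (hu : 0 < u) (huv : u ≤ v) :
    Tendsto (fun X : ℝ => (1 / X) * ∑ n ∈ apthS r c u v X, vonMangoldt n) atTop
      (𝓝 ((v - u) / (Nat.totient r : ℝ))) := by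
  set φ : ℝ := (Nat.totient r : ℝ) with hφ
  have hv : 0 < v := lt_of_lt_of_le hu huv
  set F : ℝ → ℝ → ℝ := fun X t => ∑ n ∈ apthS r c u v X,
    (if t < (n : ℝ) / X then vonMangoldt n / (n : ℝ) else 0) with hF
  have hG := apth_log_sum hr c hc hu huv
  rw [← hφ] at hG
  have hFt : ∀ X : ℝ, 0 < X → ∀ t : ℝ, u ≤ t →
      F X t = ∑ n ∈ apthS r c t v X, vonMangoldt n / (n : ℝ) := by
    intro X hX t ht
    rw [hF]
    dsimp only
    rw [← Finset.sum_filter]
    apply Finset.sum_congr _ fun n _ => rfl
    ext n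
    unfold apthS
    simp only [Finset.mem_filter, Finset.mem_Icc]
    rw [lt_div_iff₀ hX]
    constructor
    · rintro ⟨⟨g1, g2, g3⟩, g4⟩
      exact ⟨g1, g4, g3⟩
    · rintro ⟨g1, g2, g3⟩
      refine ⟨⟨g1, ?_, g3⟩, g2⟩
      have : u * X ≤ t * X := mul_le_mul_of_nonneg_right ht hX.le
      linarith
  have hid : ∀ X : ℝ, 0 < X → (1 / X) * ∑ n ∈ apthS r c u v X, vonMangoldt n =
      u * ∑ n ∈ apthS r c u v X, vonMangoldt n / (n : ℝ) + ∫ t in u..v, F X t := by
    intro X hX
    rw [hF]
    dsimp only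
    rw [intervalIntegral.integral_finsetSum, Finset.mul_sum, Finset.mul_sum,
      ← Finset.sum_add_distrib]
    · refine Finset.sum_congr rfl fun n hn => ?_
      unfold apthS at hn
      simp only [Finset.mem_filter, Finset.mem_Icc] at hn
      obtain ⟨⟨g1, g2⟩, g3, _⟩ := hn
      have hn : (0 : ℝ) < n := by exact_mod_cast g1
      have g4 : (n : ℝ) ≤ v * X := (Nat.le_floor_iff (by positivity)).1 g2
      rw [apth_step]
      · field_simp
        ring
      · rw [le_div_iff₀ hX]
        exact g3.le
      · rw [div_le_iff₀ hX]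
        exact g4
    · intro n _
      have hb : IntervalIntegrable (fun _ : ℝ => |vonMangoldt n / (n : ℝ)|)
        MeasureTheory.volume u v := intervalIntegrable_const
      refine hb.mono_fun (apth_meas _ _).aestronglyMeasurable
        (Filter.Eventually.of_forall fun t => ?_)
      dsimp only
      split_ifs
      · rw [Real.norm_eq_abs, Real.norm_eq_abs, abs_abs]
      · rw [norm_zero]
        exact norm_nonneg _
  have hDCT : Tendsto (fun X : ℝ => ∫ t in u..v, F X t) atTop
      (𝓝 (∫ t in u..v, (Real.log v - Real.log t) / φ)) := by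
    apply intervalIntegral.tendsto_integral_filter_of_dominated_convergence
      (fun _ => (Real.log v - Real.log u) / φ + 1)
    · refine Filter.Eventually.of_forall fun X => ?_
      rw [hF]
      exact (Finset.measurable_fun_sum _ fun n _ => apth_meas _ _).aestronglyMeasurable
    · filter_upwards [hG.eventually_le_const (lt_add_one _), eventually_gt_atTop 0] with X hX1 hX0
      refine Filter.Eventually.of_forall fun t ht => ?_
      rw [hF]
      dsimp only
      rw [Real.norm_eq_abs, abs_of_nonneg]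
      · refine le_trans (Finset.sum_le_sum fun n _ => ?_) hX1
        split_ifs
        · exact le_rfl
        · exact div_nonneg vonMangoldt_nonneg (Nat.cast_nonneg n)
      · refine Finset.sum_nonneg fun n _ => ?_
        split_ifs
        · exact div_nonneg vonMangoldt_nonneg (Nat.cast_nonneg n)
        · exact le_rfl
    · exact intervalIntegrable_const
    · refine Filter.Eventually.of_forall fun t ht => ?_
      rw [Set.uIoc_of_le huv] at ht
      have ht0 : 0 < t := lt_trans hu ht.1
      refine (apth_log_sum hr c hc ht0 ht.2).congr' ?_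
      filter_upwards [eventually_gt_atTop 0] with X hX
      rw [hFt X hX t ht.1.le]
  have hval : ∫ t in u..v, (Real.log v - Real.log t) / φ =
      (v - u) / φ - u * ((Real.log v - Real.log u) / φ) := by
    rw [intervalIntegral.integral_div, intervalIntegral.integral_sub intervalIntegrable_const
      intervalIntegral.intervalIntegrable_log', intervalIntegral.integral_const, integral_log,
      smul_eq_mul]
    ring
  rw [hval] at hDCT
  have h1 := (hG.const_mul u).add hDCT
  have h2 : u * ((Real.log v - Real.log u) / φ) +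
      ((v - u) / φ - u * ((Real.log v - Real.log u) / φ)) = (v - u) / φ := by ring
  rw [h2] at h1
  refine h1.congr' ?_
  filter_upwards [eventually_gt_atTop 0] with X hX
  rw [hid X hX]

private theorem apth_log_le {z : ℝ} (hz : 0 ≤ z) : Real.log z ≤ 2 * Real.sqrt z := by
  rcases eq_or_lt_of_le hz with h | h
  · rw [← h]
    simp
  · have h1 := Real.add_one_le_exp (Real.log (Real.sqrt z))
    rw [Real.exp_log (Real.sqrt_pos.2 h), Real.log_sqrt hz] at h1
    linarith [Real.sqrt_nonneg z]

/-- Prime number theorem in arithmetic progressions for the intervals `[uX, vX)`. -/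
theorem ap_theta {r : ℕ} (hr : 0 < r) (c : ℕ) (hc : Nat.Coprime c r) {u v : ℝ} (hu : 0 < u)
    (huv : u ≤ v) :
    Tendsto (fun X : ℝ => (1 / X) * ∑ q ∈ (pr (u * X) (v * X)).filter
      (fun q => q ≡ c [MOD r]), Real.log q) atTop (𝓝 ((v - u) / (Nat.totient r : ℝ))) := by
  have hv : 0 < v := lt_of_lt_of_le hu huv
  obtain ⟨C, hC⟩ := Chebyshev.psi_sub_theta_le_mul_sqrt
  have hmain := apth_psi hr c hc hu huv
  -- the two sums differ by `O(sqrt X)`
  have hdiff : ∀ X : ℝ, 1 ≤ u * X → 0 < X →
      |∑ q ∈ (pr (u * X) (v * X)).filter (fun q => q ≡ c [MOD r]), Real.log q -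
        ∑ n ∈ apthS r c u v X, vonMangoldt n| ≤ (|C| + 4) * Real.sqrt (v * X) := by
    intro X hX1 hX0
    have hvX : 0 < v * X := by positivity
    have huX : 0 < u * X := by positivity
    have huvX : u * X ≤ v * X := mul_le_mul_of_nonneg_right huv hX0.le
    set P := (pr (u * X) (v * X)).filter (fun q => q ≡ c [MOD r]) with hP
    set A := (apthS r c u v X).filter Nat.Prime with hA
    have hsplit := Finset.sum_filter_add_sum_filter_not (apthS r c u v X) Nat.Prime
      (fun n => vonMangoldt n)
    have h1 : ∑ n ∈ (apthS r c u v X).filter Nat.Prime, vonMangoldt n =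
        ∑ n ∈ A, Real.log n := by
      refine Finset.sum_congr rfl fun n hn => ?_
      exact vonMangoldt_apply_prime (Finset.mem_filter.1 hn).2
    have h2 : ∑ n ∈ (apthS r c u v X).filter (fun n => ¬ Nat.Prime n), vonMangoldt n ≤
        |C| * Real.sqrt (v * X) := by
      have h3 : ∑ n ∈ (apthS r c u v X).filter (fun n => ¬ Nat.Prime n), vonMangoldt n ≤
          ∑ n ∈ (Finset.Ioc 0 ⌊v * X⌋₊).filter (fun n => ¬ Nat.Prime n), vonMangoldt n := by
        apply Finset.sum_le_sum_of_subset_of_nonneg
        · intro n hn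
          unfold apthS at hn
          simp only [Finset.mem_filter, Finset.mem_Icc, Finset.mem_Ioc] at hn ⊢
          exact ⟨⟨by omega, hn.1.1.2⟩, hn.2⟩
        · intro n _ _
          exact vonMangoldt_nonneg
      have h4 : ∑ n ∈ (Finset.Ioc 0 ⌊v * X⌋₊).filter (fun n => ¬ Nat.Prime n), vonMangoldt n =
          Chebyshev.psi (v * X) - Chebyshev.theta (v * X) := by
        have h5 := Finset.sum_filter_add_sum_filter_not (Finset.Ioc 0 ⌊v * X⌋₊) Nat.Prime
          (fun n => vonMangoldt n)
        have h6 : ∑ n ∈ (Finset.Ioc 0 ⌊v * X⌋₊).filter Nat.Prime, vonMangoldt n =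
            Chebyshev.theta (v * X) := by
          unfold Chebyshev.theta
          refine Finset.sum_congr rfl fun n hn => ?_
          exact vonMangoldt_apply_prime (Finset.mem_filter.1 hn).2
        rw [h6] at h5
        unfold Chebyshev.psi
        linarith
      rw [h4] at h3
      have h7 := hC (v * X)
      have h8 : C * Real.sqrt (v * X) ≤ |C| * Real.sqrt (v * X) :=
        mul_le_mul_of_nonneg_right (le_abs_self C) (Real.sqrt_nonneg _)
      linarith
    have h2' : 0 ≤ ∑ n ∈ (apthS r c u v X).filter (fun n => ¬ Nat.Prime n), vonMangoldt n :=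
      Finset.sum_nonneg fun n _ => vonMangoldt_nonneg
    have hlogn : ∀ n : ℕ, 0 ≤ Real.log (n : ℝ) := fun n => Real.log_natCast_nonneg n
    have hAP : ∑ n ∈ A, Real.log n ≤ ∑ q ∈ P, Real.log q + Real.log (⌊v * X⌋₊ : ℝ) := by
      have h3 : A ⊆ insert ⌊v * X⌋₊ P := by
        intro n hn
        rw [hA] at hn
        unfold apthS at hn
        simp only [Finset.mem_filter, Finset.mem_Icc] at hn
        obtain ⟨⟨⟨g1, g2⟩, g3, g4⟩, g5⟩ := hn
        have g6 : (n : ℝ) ≤ v * X := (Nat.le_floor_iff hvX.le).1 g2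
        rw [Finset.mem_insert]
        rcases lt_or_eq_of_le g6 with g7 | g7
        · right
          rw [hP, Finset.mem_filter, mem_pr]
          exact ⟨⟨g5, g3.le, g7⟩, g4⟩
        · left
          rw [← g7, Nat.floor_natCast]
      calc ∑ n ∈ A, Real.log n ≤ ∑ n ∈ insert ⌊v * X⌋₊ P, Real.log n :=
            Finset.sum_le_sum_of_subset_of_nonneg h3 fun n _ _ => hlogn n
        _ ≤ ∑ q ∈ P, Real.log q + Real.log (⌊v * X⌋₊ : ℝ) := by
            by_cases h4 : ⌊v * X⌋₊ ∈ P
            · rw [Finset.insert_eq_of_mem h4]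
              linarith [hlogn ⌊v * X⌋₊]
            · rw [Finset.sum_insert h4]
              linarith
    have hPA : ∑ q ∈ P, Real.log q ≤ ∑ n ∈ A, Real.log n + Real.log (⌊u * X⌋₊ : ℝ) := by
      have h3 : P ⊆ insert ⌊u * X⌋₊ A := by
        intro n hn
        rw [hP, Finset.mem_filter, mem_pr] at hn
        obtain ⟨⟨g1, g2, g3⟩, g4⟩ := hn
        rw [Finset.mem_insert]
        rcases lt_or_eq_of_le g2 with g7 | g7
        · right
          rw [hA]
          unfold apthS
          simp only [Finset.mem_filter, Finset.mem_Icc]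
          exact ⟨⟨⟨g1.one_lt.le, Nat.le_floor g3.le⟩, g7, g4⟩, g1⟩
        · left
          rw [g7, Nat.floor_natCast]
      calc ∑ n ∈ P, Real.log n ≤ ∑ n ∈ insert ⌊u * X⌋₊ A, Real.log n :=
            Finset.sum_le_sum_of_subset_of_nonneg h3 fun n _ _ => hlogn n
        _ ≤ ∑ q ∈ A, Real.log q + Real.log (⌊u * X⌋₊ : ℝ) := by
            by_cases h4 : ⌊u * X⌋₊ ∈ A
            · rw [Finset.insert_eq_of_mem h4]
              linarith [hlogn ⌊u * X⌋₊]
            · rw [Finset.sum_insert h4]
              linarith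
    have hfl : ∀ z : ℝ, 0 < z → z ≤ v * X → Real.log (⌊z⌋₊ : ℝ) ≤ 2 * Real.sqrt (v * X) := by
      intro z hz0 hz
      refine (apth_log_le (Nat.cast_nonneg _)).trans ?_
      have : Real.sqrt (⌊z⌋₊ : ℝ) ≤ Real.sqrt (v * X) :=
        Real.sqrt_le_sqrt ((Nat.floor_le hz0.le).trans hz)
      linarith
    have g1 := hfl (v * X) hvX le_rfl
    have g2 := hfl (u * X) huX huvX
    have g3 := Real.sqrt_nonneg (v * X)
    have g4 : 0 ≤ |C| * Real.sqrt (v * X) := by positivity
    rw [← hsplit, h1, abs_le]
    constructor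
    · linarith
    · linarith
  have hsmall : Tendsto (fun X : ℝ => (1 / X) * ((|C| + 4) * Real.sqrt (v * X))) atTop (𝓝 0) := by
    have h1 : Tendsto (fun X : ℝ => (|C| + 4) * Real.sqrt v * (Real.sqrt X)⁻¹) atTop
        (𝓝 ((|C| + 4) * Real.sqrt v * 0)) :=
      (Real.tendsto_sqrt_atTop.inv_tendsto_atTop).const_mul _
    rw [mul_zero] at h1
    refine h1.congr' ?_
    filter_upwards [eventually_gt_atTop 0] with X hX
    rw [Real.sqrt_mul hv.le]
    have h2 : Real.sqrt X ≠ 0 := (Real.sqrt_pos.2 hX).ne'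
    have h3 : X = Real.sqrt X * Real.sqrt X := (Real.mul_self_sqrt hX.le).symm
    have h4 : 1 / X = (Real.sqrt X)⁻¹ * (Real.sqrt X)⁻¹ := by
      rw [← mul_inv, ← h3, one_div]
    rw [h4]
    field_simp
  have hzero : Tendsto (fun X : ℝ => (1 / X) *
      (∑ q ∈ (pr (u * X) (v * X)).filter (fun q => q ≡ c [MOD r]), Real.log q -
        ∑ n ∈ apthS r c u v X, vonMangoldt n)) atTop (𝓝 0) := by
    refine squeeze_zero_norm' ?_ hsmall
    filter_upwards [eventually_ge_atTop (1 / u), eventually_gt_atTop 0] with X hX1 hX0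
    rw [norm_mul, Real.norm_eq_abs, Real.norm_eq_abs, abs_of_nonneg (by positivity : 0 ≤ 1 / X)]
    refine mul_le_mul_of_nonneg_left (hdiff X ?_ hX0) (by positivity)
    rw [div_le_iff₀ hu] at hX1
    linarith
  have h1 := hmain.add hzero
  rw [add_zero] at h1
  refine h1.congr fun X => ?_
  ring

end Pool.MP_67663b_nt.Odd
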