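import Pool.Agent.Lib.MP_67663b_nt.OddB.ResClass
import Pool.Agent.Lib.MP_67663b_nt.OddB.APTheta

set_option autoImplicit false
open Filter Topology
namespace Pool.MP_67663b_nt.Odd

/-! ### Cauchy-Schwarz -/

private lemma minor_cs (Q L : Finset ℕ) (w : ℕ → ℝ) (W : ℝ) (hw0 : ∀ q ∈ Q, 0 ≤ w q)
    (hwW : ∀ q ∈ Q, w q ≤ W) (l : ℕ → ℝ) (hl : ∀ q ∈ L, 0 ≤ l q) (φ : ℝ) :
    ‖∑ q ∈ Q, (w q : ℂ) * ∑ p ∈ L, (l p : ℂ) * ee (p * (q * φ))‖ ^ 2 ≤
      (∑ p ∈ L, l p) * (W ^ 2 * ∑ q ∈ Q, ∑ q' ∈ Q,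
        ‖∑ p ∈ L, (l p : ℂ) * ee (p * (((q : ℝ) - (q' : ℝ)) * φ))‖) := by
  set A : ℕ → ℂ := fun p => ∑ q ∈ Q, (w q : ℂ) * ee (p * (q * φ)) with hA
  have h1 : ∑ q ∈ Q, (w q : ℂ) * ∑ p ∈ L, (l p : ℂ) * ee (p * (q * φ)) =
      ∑ p ∈ L, (l p : ℂ) * A p := by
    simp_rw [hA, Finset.mul_sum]
    rw [Finset.sum_comm]
    refine Finset.sum_congr rfl fun p _ => Finset.sum_congr rfl fun q _ => ?_
    ring
  have h2 : ‖∑ p ∈ L, (l p : ℂ) * A p‖ ^ 2 ≤ (∑ p ∈ L, l p) * ∑ p ∈ L, l p * ‖A p‖ ^ 2 := by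
    have h3 : ‖∑ p ∈ L, (l p : ℂ) * A p‖ ≤ ∑ p ∈ L, l p * ‖A p‖ := by
      refine (norm_sum_le _ _).trans (Finset.sum_le_sum fun p hp => ?_)
      rw [norm_mul, Complex.norm_real, Real.norm_eq_abs, abs_of_nonneg (hl p hp)]
    have h4 : (∑ p ∈ L, l p * ‖A p‖) ^ 2 ≤ (∑ p ∈ L, l p) * ∑ p ∈ L, l p * ‖A p‖ ^ 2 := by
      have h5 := Finset.sum_mul_sq_le_sq_mul_sq L (fun p => √(l p)) (fun p => √(l p) * ‖A p‖)
      have e1 : ∑ p ∈ L, √(l p) * (√(l p) * ‖A p‖) = ∑ p ∈ L, l p * ‖A p‖ :=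
        Finset.sum_congr rfl fun p hp => by
          rw [← mul_assoc, Real.mul_self_sqrt (hl p hp)]
      have e2 : ∑ p ∈ L, √(l p) ^ 2 = ∑ p ∈ L, l p :=
        Finset.sum_congr rfl fun p hp => Real.sq_sqrt (hl p hp)
      have e3 : ∑ p ∈ L, (√(l p) * ‖A p‖) ^ 2 = ∑ p ∈ L, l p * ‖A p‖ ^ 2 :=
        Finset.sum_congr rfl fun p hp => by
          rw [mul_pow, Real.sq_sqrt (hl p hp)]
      rwa [e1, e2, e3] at h5
    exact (pow_le_pow_left₀ (norm_nonneg _) h3 2).trans h4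
  have h5 : ∑ p ∈ L, l p * ‖A p‖ ^ 2 ≤ W ^ 2 * ∑ q ∈ Q, ∑ q' ∈ Q,
        ‖∑ p ∈ L, (l p : ℂ) * ee (p * (((q : ℝ) - (q' : ℝ)) * φ))‖ := by
    have h6 : ((∑ p ∈ L, l p * ‖A p‖ ^ 2 : ℝ) : ℂ) = ∑ q ∈ Q, ∑ q' ∈ Q, ((w q : ℂ) * (w q' : ℂ)) *
        ∑ p ∈ L, (l p : ℂ) * ee (p * (((q : ℝ) - (q' : ℝ)) * φ)) := by
      push_cast
      have h7 : ∀ p : ℕ, ((‖A p‖ : ℝ) : ℂ) ^ 2 = ∑ q ∈ Q, ∑ q' ∈ Q, ((w q : ℂ) * (w q' : ℂ)) *
          ee (p * (((q : ℝ) - (q' : ℝ)) * φ)) := by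
        intro p
        rw [← Complex.mul_conj', hA]
        simp only
        rw [map_sum, Finset.sum_mul_sum]
        refine Finset.sum_congr rfl fun q _ => Finset.sum_congr rfl fun q' _ => ?_
        rw [map_mul, Complex.conj_ofReal, conj_ee]
        have : ee (p * (((q : ℝ) - (q' : ℝ)) * φ)) = ee (p * (q * φ)) * ee (-(p * (q' * φ))) := by
          rw [← ee_add]
          congr 1
          ring
        rw [this]
        ring
      simp_rw [h7, Finset.mul_sum]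
      rw [Finset.sum_comm]
      refine Finset.sum_congr rfl fun q _ => ?_
      rw [Finset.sum_comm]
      refine Finset.sum_congr rfl fun q' _ => Finset.sum_congr rfl fun p _ => ?_
      ring
    have h8 : (∑ p ∈ L, l p * ‖A p‖ ^ 2 : ℝ) ≤ ‖((∑ p ∈ L, l p * ‖A p‖ ^ 2 : ℝ) : ℂ)‖ := by
      rw [Complex.norm_real]
      exact le_abs_self _
    refine h8.trans ?_
    rw [h6, Finset.mul_sum]
    refine (norm_sum_le _ _).trans (Finset.sum_le_sum fun q hq => ?_)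
    rw [Finset.mul_sum]
    refine (norm_sum_le _ _).trans (Finset.sum_le_sum fun q' hq' => ?_)
    rw [norm_mul]
    apply mul_le_mul_of_nonneg_right _ (norm_nonneg _)
    rw [norm_mul, Complex.norm_real, Complex.norm_real, Real.norm_eq_abs, Real.norm_eq_abs,
      abs_of_nonneg (hw0 q hq), abs_of_nonneg (hw0 q' hq'), sq]
    exact mul_le_mul (hwW q hq) (hwW q' hq') (hw0 q' hq') ((hw0 q hq).trans (hwW q hq))
  rw [h1]
  refine h2.trans (mul_le_mul_of_nonneg_left h5 (Finset.sum_nonneg hl))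

/-! ### Separated subsets -/

private lemma minor_sep (Q : Finset ℕ) (ψ : ℕ → ℝ) {δ : ℝ} (hδ : 0 < δ) {J : ℕ}
    (hne : Q.Nonempty)
    (hno : ∀ g : Fin J → ℕ, (∀ j, g j ∈ Q) →
      ¬ ∀ j k, j ≠ k → ∀ z : ℤ, δ ≤ |ψ (g j) - ψ (g k) - z|) :
    ∃ q₀ ∈ Q, ∃ Q' ⊆ Q, q₀ ∈ Q' ∧ Q.card ≤ J * Q'.card ∧
      ∀ q ∈ Q', ∃ z : ℤ, |ψ q - ψ q₀ - z| < δ := by
  classical
  -- a maximal separated subset
  set F : Finset (Finset ℕ) := Q.powerset.filter fun M =>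
    ∀ a ∈ M, ∀ b ∈ M, a ≠ b → ∀ z : ℤ, δ ≤ |ψ a - ψ b - z| with hF
  have hFne : F.Nonempty := ⟨∅, by simp [hF]⟩
  obtain ⟨M, hMF, hMmax⟩ := F.exists_max_image Finset.card hFne
  rw [hF, Finset.mem_filter, Finset.mem_powerset] at hMF
  obtain ⟨hMQ, hMsep⟩ := hMF
  have hMJ : M.card < J := by
    by_contra h
    push Not at h
    obtain ⟨M', hM'M, hM'c⟩ := Finset.exists_subset_card_eq h
    let e := M'.equivFinOfCardEq hM'c
    apply hno (fun j => (e.symm j : ℕ)) (fun j => hMQ (hM'M (e.symm j).2))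
    intro j k hjk z
    refine hMsep _ (hM'M (e.symm j).2) _ (hM'M (e.symm k).2) ?_ z
    intro h'
    exact hjk (e.symm.injective (Subtype.ext h'))
  have hcov : ∀ q ∈ Q, ∃ m ∈ M, ∃ z : ℤ, |ψ q - ψ m - z| < δ := by
    intro q hq
    by_contra hcon
    push Not at hcon
    have hqM : q ∉ M := fun hqM => by
      have := hcon q hqM 0
      simp at this
      linarith
    have h1 : insert q M ∈ F := by
      rw [hF, Finset.mem_filter, Finset.mem_powerset]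
      refine ⟨Finset.insert_subset hq hMQ, ?_⟩
      intro a ha b hb hab z
      rw [Finset.mem_insert] at ha hb
      rcases ha with rfl | ha <;> rcases hb with rfl | hb
      · exact absurd rfl hab
      · exact hcon b hb z
      · have := hcon a ha (-z)
        rw [abs_sub_comm] at this
        push_cast at this
        calc δ ≤ _ := this
          _ = |ψ a - ψ b - z| := by congr 1; ring
      · exact hMsep a ha b hb hab z
    have h2 := hMmax _ h1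
    rw [Finset.card_insert_of_notMem hqM] at h2
    omega
  have hMne : M.Nonempty := by
    obtain ⟨q, hq⟩ := hne
    obtain ⟨m, hm, -⟩ := hcov q hq
    exact ⟨m, hm⟩
  set C : ℕ → Finset ℕ := fun m => Q.filter fun q => ∃ z : ℤ, |ψ q - ψ m - z| < δ with hC
  obtain ⟨m, hm, hmax⟩ := M.exists_max_image (fun m => (C m).card) hMne
  refine ⟨m, hMQ hm, C m, Finset.filter_subset _ _, ?_, ?_, ?_⟩
  · rw [hC, Finset.mem_filter]
    exact ⟨hMQ hm, 0, by simpa using hδ⟩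
  · have h1 : Q ⊆ M.biUnion C := by
      intro q hq
      obtain ⟨m', hm', h2⟩ := hcov q hq
      rw [Finset.mem_biUnion]
      exact ⟨m', hm', by rw [hC, Finset.mem_filter]; exact ⟨hq, h2⟩⟩
    calc Q.card ≤ (M.biUnion C).card := Finset.card_le_card h1
      _ ≤ ∑ m' ∈ M, (C m').card := Finset.card_biUnion_le
      _ ≤ ∑ _m' ∈ M, (C m).card := Finset.sum_le_sum fun m' hm' => hmax m' hm'
      _ = M.card * (C m).card := by rw [Finset.sum_const, smul_eq_mul]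
      _ ≤ J * (C m).card := Nat.mul_le_mul_right _ hMJ.le
  · intro q hq
    rw [hC, Finset.mem_filter] at hq
    exact hq.2

/-! ### Arithmetic -/

private lemma minor_abs_ge {q : ℚ} (hq : q ≠ 0) : 1 / (q.den : ℝ) ≤ |(q : ℝ)| := by
  have h1 : (q : ℝ) = (q.num : ℝ) / (q.den : ℝ) := by exact_mod_cast (Rat.num_div_den q).symm
  have h2 : (0 : ℝ) < q.den := by exact_mod_cast q.den_pos
  rw [h1, abs_div, abs_of_pos h2]
  have h3 : (1 : ℝ) ≤ |(q.num : ℝ)| := by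
    have : 1 ≤ |q.num| := Int.one_le_abs (Rat.num_ne_zero.2 hq)
    exact_mod_cast this
  gcongr

private lemma minor_arith {Y : ℕ} (hY : 1 ≤ Y) {Z : ℝ} (hZ : 2 * (Y : ℝ) * (1 + Y) ≤ Z)
    (Q : Finset ℕ) (hQ : ∀ q ∈ Q, Y ≤ q ∧ q < 2 * Y) (φ : ℝ) (q₀ : ℕ) (hq₀ : q₀ ∈ Q)
    (hclose : ∀ q ∈ Q, ∃ z : ℤ, |((q : ℝ) - q₀) * φ - z| < 2 / Z) (q₁ : ℕ) (hq₁ : q₁ ∈ Q)
    (hne : q₁ ≠ q₀) :
    ∃ (a : ℤ) (r : ℕ), 0 < r ∧ |φ - (a : ℝ) / r| < 2 / Z ∧ ∀ q ∈ Q, q ≡ q₀ [MOD r] := by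
  have hYr : (1 : ℝ) ≤ Y := by exact_mod_cast hY
  have hZ0 : 0 < Z := lt_of_lt_of_le (by positivity) hZ
  have hdiff : ∀ q ∈ Q, |(q : ℝ) - q₀| < Y := by
    intro q hq
    have h1 := hQ q hq
    have h2 := hQ q₀ hq₀
    have e1 : (Y : ℝ) ≤ q := by exact_mod_cast h1.1
    have e2 : (q : ℝ) < 2 * Y := by exact_mod_cast h1.2
    have e3 : (Y : ℝ) ≤ q₀ := by exact_mod_cast h2.1
    have e4 : (q₀ : ℝ) < 2 * Y := by exact_mod_cast h2.2
    rw [abs_lt]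
    constructor <;> linarith
  obtain ⟨z₀, hz₀⟩ := hclose q₁ hq₁
  set h₀ : ℤ := (q₁ : ℤ) - q₀ with hh₀
  have hh₀ne : h₀ ≠ 0 := by
    intro h
    apply hne
    have : (q₁ : ℤ) = q₀ := by linarith
    exact_mod_cast this
  have hh₀r : ((h₀ : ℤ) : ℝ) = (q₁ : ℝ) - q₀ := by rw [hh₀]; push_cast; ring
  have hh₀r1 : (1 : ℝ) ≤ |((h₀ : ℤ) : ℝ)| := by
    have : 1 ≤ |h₀| := Int.one_le_abs hh₀ne
    exact_mod_cast this
  have hh₀r0 : ((h₀ : ℤ) : ℝ) ≠ 0 := by exact_mod_cast hh₀ne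
  set t : ℚ := (z₀ : ℚ) / h₀ with ht
  have htr : (t : ℝ) = (z₀ : ℝ) / h₀ := by rw [ht]; push_cast; rfl
  have htd : (t : ℝ) = (t.num : ℝ) / t.den := by exact_mod_cast (Rat.num_div_den t).symm
  have htden : (t.den : ℤ) ∣ h₀ := by
    have := Rat.den_dvd z₀ h₀
    rwa [Rat.divInt_eq_div] at this
  have hden_lt : (t.den : ℝ) < Y := by
    have h1 : (t.den : ℤ) ≤ |h₀| := Int.le_of_dvd (abs_pos.2 hh₀ne) ((dvd_abs _ _).2 htden)
    have h2 : (t.den : ℝ) ≤ |((h₀ : ℤ) : ℝ)| := by exact_mod_cast h1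
    rw [hh₀r] at h2
    exact lt_of_le_of_lt h2 (hdiff q₁ hq₁)
  have hφt : |φ - t| < 2 / Z := by
    have h1 : (((q₁ : ℝ) - q₀) * φ - z₀) = h₀ * (φ - t) := by
      rw [htr, ← hh₀r]; field_simp
    rw [h1, abs_mul] at hz₀
    calc |φ - t| ≤ |((h₀ : ℤ) : ℝ)| * |φ - t| := le_mul_of_one_le_left (abs_nonneg _) hh₀r1
      _ < 2 / Z := hz₀
  refine ⟨t.num, t.den, t.den_pos, by rw [← htd]; exact hφt, ?_⟩
  intro q hq
  obtain ⟨z, hz⟩ := hclose q hq
  set h : ℤ := (q : ℤ) - q₀ with hh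
  have hhr : ((h : ℤ) : ℝ) = (q : ℝ) - q₀ := by rw [hh]; push_cast; ring
  have hsmall : |((h * t - z : ℚ) : ℝ)| < 1 / Y := by
    have e1 : ((h * t - z : ℚ) : ℝ) = (((q : ℝ) - q₀) * φ - z) - ((q : ℝ) - q₀) * (φ - t) := by
      push_cast
      rw [hhr]; ring
    have e2 : |((q : ℝ) - q₀) * (φ - t)| ≤ Y * (2 / Z) := by
      rw [abs_mul]
      exact mul_le_mul (hdiff q hq).le hφt.le (abs_nonneg _) (by positivity)
    rw [e1]
    calc |(((q : ℝ) - q₀) * φ - z) - ((q : ℝ) - q₀) * (φ - t)|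
        ≤ |((q : ℝ) - q₀) * φ - z| + |((q : ℝ) - q₀) * (φ - t)| := abs_sub _ _
      _ < 2 / Z + Y * (2 / Z) := add_lt_add_of_lt_of_le hz e2
      _ = 2 * (1 + Y) / Z := by ring
      _ ≤ 1 / Y := by
          rw [div_le_div_iff₀ hZ0 (by linarith)]
          linarith
  have hzero : (h * t - z : ℚ) = 0 := by
    by_contra hne'
    have h1 := minor_abs_ge hne'
    have h2 : (h * t - z : ℚ).den ∣ t.den := by
      have h3 := Rat.sub_den_dvd (h * t) z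
      have h4 := Rat.mul_den_dvd (h : ℚ) t
      simp only [Rat.den_intCast, mul_one, one_mul] at h3 h4
      exact h3.trans h4
    have h3 : (h * t - z : ℚ).den ≤ t.den := Nat.le_of_dvd t.den_pos h2
    have h4 : (0 : ℝ) < (h * t - z : ℚ).den := by exact_mod_cast (h * t - z : ℚ).den_pos
    have h5 : ((h * t - z : ℚ).den : ℝ) ≤ t.den := by exact_mod_cast h3
    have h6 : 1 / (Y : ℝ) ≤ 1 / ((h * t - z : ℚ).den : ℝ) :=
      one_div_le_one_div_of_le h4 (h5.trans hden_lt.le)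
    linarith
  have h7 : (h : ℚ) * t.num = z * t.den := by
    have h8 : (h : ℚ) * t = z := by linarith
    have h9 : (t : ℚ) * t.den = t.num := Rat.mul_den_eq_num t
    rw [← h8, mul_assoc, h9]
  have h8 : h * t.num = z * t.den := by exact_mod_cast h7
  have h9 : (t.den : ℤ) ∣ h * t.num := ⟨z, by rw [h8]; ring⟩
  have h10 : IsCoprime (t.den : ℤ) t.num := by
    rw [Int.isCoprime_iff_gcd_eq_one, Int.gcd_comm]
    simpa [Int.gcd, Nat.Coprime] using t.reduced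
  have h11 : (t.den : ℤ) ∣ h := h10.dvd_of_dvd_mul_right h9
  refine (Nat.modEq_iff_dvd.2 ?_).symm
  exact h11

/-! ### Cells -/

private lemma minor_pr_union {a b c : ℝ} (h1 : a ≤ b) (h2 : b ≤ c) (g : ℕ → ℂ) :
    ∑ p ∈ pr a b, g p + ∑ p ∈ pr b c, g p = ∑ p ∈ pr a c, g p := by
  rw [← Finset.sum_union]
  · refine Finset.sum_congr ?_ fun _ _ => rfl
    ext q
    rw [Finset.mem_union, mem_pr, mem_pr, mem_pr]
    constructor
    · rintro (⟨h3, h4, h5⟩ | ⟨h3, h4, h5⟩)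
      · exact ⟨h3, h4, h5.trans_le h2⟩
      · exact ⟨h3, h1.trans h4, h5⟩
    · rintro ⟨h3, h4, h5⟩
      rcases lt_or_ge (q : ℝ) b with h6 | h6
      · exact Or.inl ⟨h3, h4, h6⟩
      · exact Or.inr ⟨h3, h6, h5⟩
  · rw [Finset.disjoint_left]
    intro q hq hq'
    have := (mem_pr.1 hq).2.2
    have := (mem_pr.1 hq').2.1
    linarith

private lemma minor_cells (zk : ℕ → ℝ) (hzk : Monotone zk) (g : ℕ → ℂ) (n : ℕ) :
    ∑ k ∈ Finset.range n, ∑ p ∈ pr (zk k) (zk (k + 1)), g p = ∑ p ∈ pr (zk 0) (zk n), g p := by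
  induction n with
  | zero =>
    rw [Finset.sum_range_zero]
    symm
    apply Finset.sum_eq_zero
    intro p hp
    have := (mem_pr.1 hp).2
    linarith
  | succ n ih =>
    rw [Finset.sum_range_succ, ih, minor_pr_union (hzk (Nat.zero_le n)) (hzk (Nat.le_succ n))]

private lemma minor_PS (zk : ℕ → ℝ) (hzk : Monotone zk) (n : ℕ) {x y : ℝ} (hx : zk 0 ≤ x)
    (hy : y ≤ zk n) (ψ : ℝ) :
    PS x y ψ = ∑ k ∈ Finset.range n, ∑ p ∈ pr (zk k) (zk (k + 1)),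
      if x ≤ (p : ℝ) ∧ (p : ℝ) < y then (Real.log p : ℂ) * ee (p * ψ) else 0 := by
  rw [minor_cells zk hzk, ← Finset.sum_filter, PS]
  refine Finset.sum_congr ?_ fun _ _ => rfl
  ext q
  rw [Finset.mem_filter, mem_pr, mem_pr]
  constructor
  · rintro ⟨h3, h4, h5⟩
    exact ⟨⟨h3, hx.trans h4, h5.trans_le hy⟩, h4, h5⟩
  · rintro ⟨⟨h3, -, -⟩, h4, h5⟩
    exact ⟨h3, h4, h5⟩

private lemma minor_one (zk : ℕ → ℝ) (hzk : Monotone zk) (n : ℕ) (x : ℝ) :
    ∑ k ∈ Finset.range n, (if zk k < x ∧ x < zk (k + 1) then (1 : ℝ) else 0) ≤ 1 := by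
  rw [← Finset.sum_filter, Finset.sum_const, nsmul_eq_mul, mul_one]
  have : ((Finset.range n).filter fun k => zk k < x ∧ x < zk (k + 1)).card ≤ 1 := by
    rw [Finset.card_le_one]
    have key : ∀ a b : ℕ, zk a < x → x < zk (b + 1) → a ≤ b := by
      intro a b h1 h2
      by_contra h
      push Not at h
      have := hzk (show b + 1 ≤ a from h)
      linarith
    intro a ha b hb
    rw [Finset.mem_filter] at ha hb
    exact le_antisymm (key a b ha.2.1 hb.2.2) (key b a hb.2.1 ha.2.2)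
  exact_mod_cast this

private lemma minor_err (zk : ℕ → ℝ) (hzk : Monotone zk) (n : ℕ) {x y M : ℝ} (c : ℕ → ℂ)
    (hM1 : 0 ≤ M) (hM : ∀ k < n, ∑ p ∈ pr (zk k) (zk (k + 1)), ‖c p‖ ≤ M) :
    ‖(∑ k ∈ Finset.range n, ∑ p ∈ pr (zk k) (zk (k + 1)),
        if x ≤ (p : ℝ) ∧ (p : ℝ) < y then c p else 0) -
      ∑ k ∈ Finset.range n, if x ≤ zk k ∧ zk k < y then ∑ p ∈ pr (zk k) (zk (k + 1)), c p else 0‖ ≤
      2 * M := by
  rw [← Finset.sum_sub_distrib]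
  have hterm : ∀ k ∈ Finset.range n, ‖(∑ p ∈ pr (zk k) (zk (k + 1)),
        if x ≤ (p : ℝ) ∧ (p : ℝ) < y then c p else 0) -
      (if x ≤ zk k ∧ zk k < y then ∑ p ∈ pr (zk k) (zk (k + 1)), c p else 0)‖ ≤
      M * (if zk k < x ∧ x < zk (k + 1) then (1 : ℝ) else 0) +
        M * (if zk k < y ∧ y < zk (k + 1) then (1 : ℝ) else 0) := by
    intro k hk
    rw [Finset.mem_range] at hk
    have e0 : (if x ≤ zk k ∧ zk k < y then ∑ p ∈ pr (zk k) (zk (k + 1)), c p else 0) =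
        ∑ p ∈ pr (zk k) (zk (k + 1)), if x ≤ zk k ∧ zk k < y then c p else 0 := by
      split_ifs <;> simp
    rw [e0, ← Finset.sum_sub_distrib]
    have htriv : ‖∑ p ∈ pr (zk k) (zk (k + 1)), ((if x ≤ (p : ℝ) ∧ (p : ℝ) < y then c p else 0) -
        (if x ≤ zk k ∧ zk k < y then c p else 0))‖ ≤ M := by
      refine (norm_sum_le _ _).trans ((Finset.sum_le_sum fun p _ => ?_).trans (hM k hk))
      split_ifs <;> simp
    by_cases h1 : zk k < x ∧ x < zk (k + 1)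
    · rw [if_pos h1]
      have : 0 ≤ M * (if zk k < y ∧ y < zk (k + 1) then (1 : ℝ) else 0) := by
        split_ifs <;> simp [hM1]
      linarith
    · by_cases h2 : zk k < y ∧ y < zk (k + 1)
      · rw [if_pos h2, if_neg h1]
        linarith
      · rw [if_neg h1, if_neg h2]
        have : ∑ p ∈ pr (zk k) (zk (k + 1)), ((if x ≤ (p : ℝ) ∧ (p : ℝ) < y then c p else 0) -
            (if x ≤ zk k ∧ zk k < y then c p else 0)) = 0 := by
          apply Finset.sum_eq_zero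
          intro p hp
          obtain ⟨-, h3, h4⟩ := mem_pr.1 hp
          have e1 : x ≤ (p : ℝ) ↔ x ≤ zk k := by
            constructor
            · intro h
              by_contra h'
              push Not at h'
              exact h1 ⟨h', h.trans_lt h4⟩
            · intro h
              exact h.trans h3
          have e2 : (p : ℝ) < y ↔ zk k < y := by
            constructor
            · intro h
              exact h3.trans_lt h
            · intro h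
              by_contra h'
              push Not at h'
              exact h2 ⟨h, h'.trans_lt h4⟩
          simp only [e1, e2, sub_self]
        rw [this]
        simp
  refine (norm_sum_le _ _).trans ((Finset.sum_le_sum hterm).trans ?_)
  rw [Finset.sum_add_distrib, ← Finset.mul_sum, ← Finset.mul_sum]
  have h1 := minor_one zk hzk n x
  have h2 := minor_one zk hzk n y
  nlinarith

private lemma minor_theta (K : ℕ) (hK : 0 < K) : ∃ Zs : ℝ, 0 < Zs ∧ ∀ Z ≥ Zs, ∀ k < 3 * K,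
    ∑ p ∈ pr (Z * (1 + (k : ℝ) / K)) (Z * (1 + ((k + 1 : ℕ) : ℝ) / K)), Real.log p ≤ 2 * Z / K := by
  have hKr : (0 : ℝ) < K := by exact_mod_cast hK
  have h1 : ∀ k : ℕ, ∀ᶠ Z : ℝ in atTop,
      ∑ p ∈ pr (Z * (1 + (k : ℝ) / K)) (Z * (1 + ((k + 1 : ℕ) : ℝ) / K)), Real.log p ≤
        2 * Z / K := by
    intro k
    have h2 := ap_theta (r := 1) one_pos 0 (Nat.coprime_one_right 0)
      (u := 1 + (k : ℝ) / K) (v := 1 + ((k + 1 : ℕ) : ℝ) / K) (by positivity) (by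
        push_cast
        gcongr
        linarith)
    have h3 : ((1 + ((k + 1 : ℕ) : ℝ) / K) - (1 + (k : ℝ) / K)) / (Nat.totient 1 : ℝ) <
        2 / (K : ℝ) := by
      rw [Nat.totient_one]
      push_cast
      have : (1 + ((k : ℝ) + 1) / K - (1 + (k : ℝ) / K)) / 1 = 1 / K := by ring
      rw [this]
      gcongr
      norm_num
    filter_upwards [h2.eventually_lt_const h3, eventually_gt_atTop 0] with Z hZ hZ0
    rw [Finset.filter_true_of_mem (fun q _ => Nat.modEq_one), one_div, inv_mul_lt_iff₀ hZ0] at hZ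
    rw [mul_comm Z, mul_comm Z]
    calc _ ≤ Z * (2 / K) := hZ.le
      _ = 2 * Z / K := by ring
  have h2 : ∀ᶠ Z : ℝ in atTop, ∀ k ∈ Finset.range (3 * K),
      ∑ p ∈ pr (Z * (1 + (k : ℝ) / K)) (Z * (1 + ((k + 1 : ℕ) : ℝ) / K)), Real.log p ≤
        2 * Z / K := (eventually_all_finset _).2 fun k _ => h1 k
  obtain ⟨Zs, hZs⟩ := eventually_atTop.1 h2
  refine ⟨max Zs 1, by positivity, fun Z hZ k hk => ?_⟩
  exact hZs Z ((le_max_left _ _).trans hZ) k (Finset.mem_range.2 hk)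

/-- Bilinear minor arc estimate. -/
theorem minor_arcs {ε : ℝ} (hε : 0 < ε) : ∃ R : ℕ, 0 < R ∧ ∃ m0 : ℕ, ∀ m ≥ m0,
    ∃ X0 B : ℝ, 0 < X0 ∧ 0 < B ∧ ∀ X ≥ X0, ∀ u v : ℝ, 1 ≤ u → u ≤ v → v ≤ 2 → ∀ φ : ℝ,
      ε ≤ ‖BB m X u v φ‖ → ∃ (a : ℤ) (r : ℕ), 0 < r ∧ r ≤ R ∧ |φ - (a : ℝ) / r| ≤ B / X := by
  classical
  set K : ℕ := ⌈8 / ε⌉₊ + 1 with hKdef
  have hK0 : 0 < K := Nat.succ_pos _
  have hKr : (0 : ℝ) < K := by exact_mod_cast hK0
  have hKr1 : (1 : ℝ) ≤ K := by exact_mod_cast hK0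
  have hKε : 8 / ε ≤ K := by
    have := Nat.le_ceil (8 / ε)
    rw [hKdef]; push_cast; linarith
  set ε1 : ℝ := ε / (6 * K) with hε1
  have hε1p : 0 < ε1 := by positivity
  set ε2 : ℝ := ε1 ^ 2 * K / 2 with hε2
  have hε2p : 0 < ε2 := by positivity
  obtain ⟨J, hJ, Y0, hY0, hLS⟩ := large_spectrum (ε := ε2 / 8) (by positivity)
  have hJr : (0 : ℝ) < J := by exact_mod_cast hJ
  obtain ⟨R, m0, hRC⟩ := res_class (ε := ε2 / 4 / J) (by positivity)
  obtain ⟨Zs, hZs0, hZs⟩ := minor_theta K hK0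
  refine ⟨R + 1, Nat.succ_pos _, m0, fun m hm => ?_⟩
  set Y : ℕ := 2 ^ m with hYdef
  have hY1 : 1 ≤ Y := Nat.one_le_two_pow
  have hYr : (1 : ℝ) ≤ Y := by exact_mod_cast hY1
  refine ⟨2 * Y * (Zs + Y0 + 2 * Y * (1 + Y)), 4 * Y, by positivity, by positivity, ?_⟩
  intro X hX u v hu huv hv φ hBB
  have hX0 : 0 < X := lt_of_lt_of_le (by positivity) hX
  set Z0 : ℝ := X / (2 * Y) with hZ0
  have hZ0X : X = 2 * Y * Z0 := by rw [hZ0]; field_simp
  have hZ0ge : Zs + Y0 + 2 * Y * (1 + Y) ≤ Z0 := by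
    rw [hZ0, le_div_iff₀ (by positivity)]; linarith
  have hZ0a : Zs ≤ Z0 := by
    have : (0 : ℝ) ≤ 2 * Y * (1 + Y) := by positivity
    linarith
  have hZ0b : Y0 ≤ Z0 := by
    have : (0 : ℝ) ≤ 2 * Y * (1 + Y) := by positivity
    linarith
  have hZ0c : 2 * (Y : ℝ) * (1 + Y) ≤ Z0 := by linarith
  have hZ0p : 0 < Z0 := by positivity
  clear hZ0
  clear_value Z0
  -- the cells
  set zk : ℕ → ℝ := fun k => Z0 * (1 + (k : ℝ) / K) with hzk
  have hzkm : Monotone zk := by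
    intro a b hab
    simp only [hzk]
    gcongr
  have hzk0 : zk 0 = Z0 := by simp [hzk]
  have hzkn : zk (3 * K) = 4 * Z0 := by
    simp only [hzk]
    push_cast
    field_simp
    ring
  have hth : ∀ k < 3 * K, ∑ p ∈ pr (zk k) (zk (k + 1)), Real.log p ≤ 2 * Z0 / K :=
    fun k hk => hZs Z0 hZ0a k hk
  set T : ℕ → ℝ → ℂ := fun k ψ => ∑ p ∈ pr (zk k) (zk (k + 1)), (Real.log p : ℂ) * ee (p * ψ)
    with hT
  -- the primes of the block
  set Q := blk m with hQ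
  have hQm : ∀ q ∈ Q, Y ≤ q ∧ q < 2 * Y := by
    intro q hq
    obtain ⟨-, h1, h2⟩ := mem_blk.1 hq
    refine ⟨h1, ?_⟩
    rw [pow_succ] at h2
    omega
  have hQne : Q.card ≠ 0 := by
    intro h
    rw [Finset.card_eq_zero] at h
    have : BB m X u v φ = 0 := by
      unfold BB
      rw [← hQ, h]
      simp
    rw [this, norm_zero] at hBB
    linarith
  have hNr : (0 : ℝ) < Q.card := by exact_mod_cast Nat.pos_of_ne_zero hQne
  have hBBe : BB m X u v φ = (1 / (Q.card : ℂ)) * ∑ q ∈ Q, ((q : ℂ) / X) *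
        PS (u * X / q) (v * X / q) (q * φ) := rfl
  have hRC' : ∀ L ⊆ Q, ε2 / 4 / J * (Q.card : ℝ) ≤ (L.card : ℝ) → ∀ r : ℕ, 0 < r →
    (∀ q ∈ L, ∀ q' ∈ L, q ≡ q' [MOD r]) → r ≤ R := hRC m hm
  clear_value Q
  have hwq : ∀ q ∈ Q, (q : ℝ) / X ≤ 1 / Z0 := by
    intro q hq
    have h1 : (q : ℝ) ≤ 2 * Y := by exact_mod_cast (hQm q hq).2.le
    rw [div_le_div_iff₀ hX0 hZ0p, hZ0X]
    nlinarith
  -- the discretised sum
  set w : ℕ → ℕ → ℝ := fun k q =>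
    if u * X / q ≤ zk k ∧ zk k < v * X / q then (q : ℝ) / X else 0 with hw
  have hw0 : ∀ k, ∀ q ∈ Q, 0 ≤ w k q := by
    intro k q _
    simp only [hw]
    split_ifs
    · positivity
    · exact le_rfl
  have hwW : ∀ k, ∀ q ∈ Q, w k q ≤ 1 / Z0 := by
    intro k q hq
    simp only [hw]
    split_ifs
    · exact hwq q hq
    · positivity
  have hdisc : ‖BB m X u v φ - (1 / (Q.card : ℂ)) *
      ∑ k ∈ Finset.range (3 * K), ∑ q ∈ Q, (w k q : ℂ) * T k (q * φ)‖ ≤ ε / 2 := by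
    have e1 : (1 / (Q.card : ℂ)) * ∑ k ∈ Finset.range (3 * K), ∑ q ∈ Q, (w k q : ℂ) * T k (q * φ) =
        (1 / (Q.card : ℂ)) * ∑ q ∈ Q, ((q : ℂ) / X) * ∑ k ∈ Finset.range (3 * K),
          (if u * X / q ≤ zk k ∧ zk k < v * X / q then T k (q * φ) else 0) := by
      rw [Finset.sum_comm]
      congr 1
      refine Finset.sum_congr rfl fun q _ => ?_
      rw [Finset.mul_sum]
      refine Finset.sum_congr rfl fun k _ => ?_
      simp only [hw]
      split_ifs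
      · push_cast; ring
      · simp
    rw [e1, hBBe, ← mul_sub, ← Finset.sum_sub_distrib, norm_mul]
    have e3 : ‖(1 / (Q.card : ℂ))‖ = 1 / (Q.card : ℝ) := by simp
    rw [e3]
    have e4 : ‖∑ q ∈ Q, (((q : ℂ) / X) * PS (u * X / q) (v * X / q) (q * φ) -
        ((q : ℂ) / X) * ∑ k ∈ Finset.range (3 * K),
          (if u * X / q ≤ zk k ∧ zk k < v * X / q then T k (q * φ) else 0))‖ ≤
        ∑ _q ∈ Q, (4 / (K : ℝ)) := by
      refine (norm_sum_le _ _).trans (Finset.sum_le_sum fun q hq => ?_)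
      rw [← mul_sub, norm_mul]
      have hq1 : (Y : ℝ) ≤ q := by exact_mod_cast (hQm q hq).1
      have hq2 : (q : ℝ) < 2 * Y := by exact_mod_cast (hQm q hq).2
      have hq0 : (0 : ℝ) < q := by linarith
      have f1 : ‖((q : ℂ) / X)‖ = (q : ℝ) / X := by
        rw [norm_div, Complex.norm_natCast, Complex.norm_real, Real.norm_eq_abs, abs_of_pos hX0]
      have f2 : zk 0 ≤ u * X / q := by
        rw [hzk0, le_div_iff₀ hq0]
        nlinarith
      have f3 : v * X / q ≤ zk (3 * K) := by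
        rw [hzkn, div_le_iff₀ hq0, hZ0X]
        have : v * (2 * Y * Z0) ≤ 2 * (2 * Y * Z0) := by gcongr
        nlinarith
      rw [minor_PS zk hzkm (3 * K) f2 f3, f1]
      have f4 := minor_err zk hzkm (3 * K) (x := u * X / q) (y := v * X / q) (M := 2 * Z0 / K)
        (fun p => (Real.log p : ℂ) * ee (p * (q * φ))) (by positivity) (fun k hk => by
          refine le_trans (le_of_eq ?_) (hth k hk)
          refine Finset.sum_congr rfl fun p _ => ?_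
          rw [norm_mul, norm_ee, mul_one, Complex.norm_real, Real.norm_eq_abs,
            abs_of_nonneg (Real.log_natCast_nonneg p)])
      calc (q : ℝ) / X * _ ≤ (1 / Z0) * (2 * (2 * Z0 / K)) :=
            mul_le_mul (hwq q hq) f4 (norm_nonneg _) (by positivity)
        _ = 4 / K := by field_simp; ring
    have e5 : (1 / (Q.card : ℝ)) * ∑ _q ∈ Q, (4 / (K : ℝ)) = 4 / K := by
      rw [Finset.sum_const, nsmul_eq_mul]; field_simp
    calc 1 / (Q.card : ℝ) * _ ≤ 1 / (Q.card : ℝ) * ∑ _q ∈ Q, (4 / (K : ℝ)) := by gcongr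
      _ = 4 / K := e5
      _ ≤ ε / 2 := by
          rw [div_le_iff₀ hε] at hKε
          rw [div_le_div_iff₀ hKr (by norm_num)]
          linarith
  -- one cell
  obtain ⟨k, hk, hkbig⟩ : ∃ k ∈ Finset.range (3 * K),
      ε1 * Q.card ≤ ‖∑ q ∈ Q, (w k q : ℂ) * T k (q * φ)‖ := by
    by_contra hcon
    push Not at hcon
    have h1 : ‖(1 / (Q.card : ℂ)) *
        ∑ k ∈ Finset.range (3 * K), ∑ q ∈ Q, (w k q : ℂ) * T k (q * φ)‖ < ε / 2 := by
      rw [norm_mul]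
      have e3 : ‖(1 / (Q.card : ℂ))‖ = 1 / (Q.card : ℝ) := by simp
      rw [e3]
      have h2 : ‖∑ k ∈ Finset.range (3 * K), ∑ q ∈ Q, (w k q : ℂ) * T k (q * φ)‖ <
          ∑ _k ∈ Finset.range (3 * K), ε1 * (Q.card : ℝ) := by
        refine (norm_sum_le _ _).trans_lt (Finset.sum_lt_sum_of_nonempty ?_ hcon)
        rw [Finset.nonempty_range_iff]; omega
      rw [Finset.sum_const, Finset.card_range, nsmul_eq_mul] at h2
      have h3 : 1 / (Q.card : ℝ) * (((3 * K : ℕ) : ℝ) * (ε1 * (Q.card : ℝ))) = ε / 2 := by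
        rw [hε1]; push_cast; field_simp; ring
      calc _ < 1 / (Q.card : ℝ) * (((3 * K : ℕ) : ℝ) * (ε1 * (Q.card : ℝ))) := by gcongr
        _ = ε / 2 := h3
    have h4 : ‖BB m X u v φ‖ ≤ ‖BB m X u v φ - (1 / (Q.card : ℂ)) *
      ∑ k ∈ Finset.range (3 * K), ∑ q ∈ Q, (w k q : ℂ) * T k (q * φ)‖ + ‖(1 / (Q.card : ℂ)) *
        ∑ k ∈ Finset.range (3 * K), ∑ q ∈ Q, (w k q : ℂ) * T k (q * φ)‖ := by
      have := norm_add_le (BB m X u v φ - (1 / (Q.card : ℂ)) *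
        ∑ k ∈ Finset.range (3 * K), ∑ q ∈ Q, (w k q : ℂ) * T k (q * φ)) ((1 / (Q.card : ℂ)) *
        ∑ k ∈ Finset.range (3 * K), ∑ q ∈ Q, (w k q : ℂ) * T k (q * φ))
      rwa [sub_add_cancel] at this
    linarith
  rw [Finset.mem_range] at hk
  set L := pr (zk k) (zk (k + 1)) with hL
  have hlog0 : ∀ p ∈ L, 0 ≤ Real.log p := fun p _ => Real.log_natCast_nonneg p
  -- Cauchy-Schwarz
  have hCS := minor_cs Q L (w k) (1 / Z0) (hw0 k) (hwW k) (fun p => Real.log p) hlog0 φ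
  have hTn : ∀ ψ, ‖T k ψ‖ ≤ 2 * Z0 := by
    intro ψ
    have h1 : ‖T k ψ‖ ≤ ∑ p ∈ L, Real.log p := by
      refine (norm_sum_le _ _).trans (Finset.sum_le_sum fun p hp => ?_)
      rw [norm_mul, norm_ee, mul_one, Complex.norm_real, Real.norm_eq_abs, abs_of_nonneg (hlog0 p hp)]
    refine h1.trans ((hth k hk).trans ?_)
    rw [div_le_iff₀ hKr]
    nlinarith
  obtain ⟨q', hq', hq'big⟩ : ∃ q' ∈ Q, ε2 * Q.card * Z0 ≤
      ∑ q ∈ Q, ‖T k (((q : ℝ) - (q' : ℝ)) * φ)‖ := by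
    by_contra hcon
    push Not at hcon
    have hQne' : Q.Nonempty := Finset.card_pos.1 (Nat.pos_of_ne_zero hQne)
    have h1 : ∑ q ∈ Q, ∑ q' ∈ Q, ‖T k (((q : ℝ) - (q' : ℝ)) * φ)‖ < Q.card * (ε2 * Q.card * Z0) := by
      rw [Finset.sum_comm]
      have := Finset.sum_lt_sum_of_nonempty hQne' hcon
      rwa [Finset.sum_const, nsmul_eq_mul] at this
    have h2 : (ε1 * Q.card) ^ 2 ≤ (2 * Z0 / K) * ((1 / Z0) ^ 2 *
        ∑ q ∈ Q, ∑ q' ∈ Q, ‖T k (((q : ℝ) - (q' : ℝ)) * φ)‖) := by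
      refine (pow_le_pow_left₀ (by positivity) hkbig 2).trans (hCS.trans ?_)
      apply mul_le_mul_of_nonneg_right (hth k hk)
      exact mul_nonneg (by positivity) (Finset.sum_nonneg fun _ _ => Finset.sum_nonneg
        fun _ _ => norm_nonneg _)
    have h3 : (2 * Z0 / K) * ((1 / Z0) ^ 2 *
        ∑ q ∈ Q, ∑ q' ∈ Q, ‖T k (((q : ℝ) - (q' : ℝ)) * φ)‖) <
        (2 * Z0 / K) * ((1 / Z0) ^ 2 * (Q.card * (ε2 * Q.card * Z0))) := by
      gcongr
    have h4 : (2 * Z0 / K) * ((1 / Z0) ^ 2 * (Q.card * (ε2 * Q.card * Z0))) =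
        (ε1 * Q.card) ^ 2 := by
      rw [hε2]; field_simp
    linarith
  set Q1 := Q.filter fun q : ℕ => ε2 / 2 * Z0 ≤ ‖T k (((q : ℝ) - (q' : ℝ)) * φ)‖ with hQ1
  have hQ1card : ε2 / 4 * Q.card ≤ Q1.card := by
    have h1 : ∑ q ∈ Q, ‖T k (((q : ℝ) - (q' : ℝ)) * φ)‖ ≤
        ∑ q ∈ Q, (ε2 / 2 * Z0 + if ε2 / 2 * Z0 ≤ ‖T k (((q : ℝ) - (q' : ℝ)) * φ)‖ then 2 * Z0
          else 0) := by
      refine Finset.sum_le_sum fun q _ => ?_
      split_ifs with h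
      · have := hTn (((q : ℝ) - (q' : ℝ)) * φ)
        have : 0 < ε2 / 2 * Z0 := by positivity
        linarith
      · push Not at h
        linarith
    rw [Finset.sum_add_distrib, Finset.sum_const, nsmul_eq_mul, ← Finset.sum_filter, ← hQ1,
      Finset.sum_const, nsmul_eq_mul] at h1
    have h2 := hq'big.trans h1
    have h3 : (ε2 / 4 * Q.card) * (2 * Z0) ≤ Q1.card * (2 * Z0) := by linarith
    exact le_of_mul_le_mul_right h3 (by positivity)
  have hQ1ne : Q1.Nonempty := by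
    rw [← Finset.card_pos]
    have : (0 : ℝ) < Q1.card := lt_of_lt_of_le (by positivity) hQ1card
    exact_mod_cast this
  -- the large spectrum
  have hzkp : Z0 ≤ zk k := by rw [← hzk0]; exact hzkm (Nat.zero_le k)
  have hzk4 : zk k ≤ 4 * Z0 := by rw [← hzkn]; exact hzkm hk.le
  have hzkpos : 0 < zk k := hZ0p.trans_le hzkp
  have hL2 : ∀ q ∈ L, q.Prime ∧ zk k ≤ (q : ℝ) ∧ (q : ℝ) ≤ 2 * zk k := by
    intro q hq
    obtain ⟨h1, h2, h3⟩ := mem_pr.1 hq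
    refine ⟨h1, h2, h3.le.trans ?_⟩
    simp only [hzk]
    push_cast
    have h5 : (1 : ℝ) / K ≤ 1 := by rw [div_le_one hKr]; exact hKr1
    have h6 : (0 : ℝ) ≤ (k : ℝ) / K := by positivity
    have h7 : ((k : ℝ) + 1) / K = (k : ℝ) / K + 1 / K := by ring
    rw [h7]
    nlinarith
  have hno : ∀ g : Fin J → ℕ, (∀ j, g j ∈ Q1) →
      ¬ ∀ j k', j ≠ k' → ∀ z : ℤ, 2 / zk k ≤ |((g j : ℕ) : ℝ) * φ - ((g k' : ℕ) : ℝ) * φ - z| := by
    intro g hg hsep
    obtain ⟨j, hj⟩ := hLS (zk k) (hZ0b.trans hzkp) L hL2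
      (fun j => (((g j : ℕ) : ℝ) - (q' : ℝ)) * φ) (fun j k' hjk z => by
        have := hsep j k' hjk z
        calc _ ≤ _ := this
          _ = _ := by congr 1; ring)
    have h1 := (Finset.mem_filter.1 (hg j)).2
    have h2 : ε2 / 8 * zk k ≤ ε2 / 2 * Z0 := by nlinarith
    exact absurd (hj.trans_le (h2.trans h1)) (lt_irrefl _)
  obtain ⟨q₀, hq₀, Q2, hQ2, hq₀2, hQ2card, hclose⟩ := minor_sep Q1 (fun q => (q : ℝ) * φ)
    (δ := 2 / zk k) (by positivity) hQ1ne hno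
  have hQ2Q : Q2 ⊆ Q := hQ2.trans (Finset.filter_subset _ _)
  have hQ2c : ε2 / 4 / J * Q.card ≤ Q2.card := by
    have h1 : (Q1.card : ℝ) ≤ J * Q2.card := by exact_mod_cast hQ2card
    have h2 : ε2 / 4 / J * Q.card = (ε2 / 4 * Q.card) / J := by ring
    rw [h2, div_le_iff₀ hJr]
    linarith
  have hres := hRC' Q2 hQ2Q hQ2c
  -- there are two elements
  obtain ⟨q₁, hq₁, hne⟩ : ∃ q₁ ∈ Q2, q₁ ≠ q₀ := by
    by_contra hcon
    push Not at hcon
    have := hres (R + 1) (Nat.succ_pos _) (fun q hq q'' hq'' => by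
      rw [hcon q hq, hcon q'' hq''])
    omega
  have hZc : 2 * (Y : ℝ) * (1 + Y) ≤ zk k := hZ0c.trans hzkp
  obtain ⟨a, r, hr, har, hmod⟩ := minor_arith hY1 hZc Q2 (fun q hq => hQm q (hQ2Q hq)) φ q₀ hq₀2
    (fun q hq => by
      obtain ⟨z, hz⟩ := hclose q hq
      refine ⟨z, ?_⟩
      calc _ = |(q : ℝ) * φ - (q₀ : ℝ) * φ - z| := by congr 1; ring
        _ < _ := hz) q₁ hq₁ hne
  refine ⟨a, r, hr, ?_, ?_⟩
  · have := hres r hr (fun q hq q'' hq'' => (hmod q hq).trans (hmod q'' hq'').symm)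
    omega
  · refine har.le.trans ?_
    rw [div_le_div_iff₀ hzkpos hX0, hZ0X]
    nlinarith

end Pool.MP_67663b_nt.Odd
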