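import Pool.Agent.Lib.MP_67663b_nt.OddB.Major
import Pool.Agent.Lib.MP_67663b_nt.OddB.Minor

set_option autoImplicit false
open Filter Topology
namespace Pool.MP_67663b_nt.Odd

theorem close_blk_large (K : ℝ) : ∃ m0 : ℕ, ∀ m ≥ m0, K ≤ ((blk m).card : ℝ) := by
  obtain ⟨c, hc, m1, h1⟩ := card_blk_ge
  have hK : 0 < |K| + 1 := by positivity
  have ht := (tendsto_pow_const_div_const_pow_of_one_lt 1 (by norm_num : (1:ℝ) < 2))
  have hev := ht.eventually_le_const (show (0:ℝ) < c / (|K| + 1) by positivity)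
  obtain ⟨m2, h2⟩ := eventually_atTop.mp hev
  refine ⟨max (max m1 m2) 1, fun m hm => ?_⟩
  have hm1 : m1 ≤ m := (le_max_left _ _).trans ((le_max_left _ _).trans hm)
  have hm2 : m2 ≤ m := (le_max_right _ _).trans ((le_max_left _ _).trans hm)
  have hm3 : 1 ≤ m := (le_max_right _ _).trans hm
  have h3 := h1 m hm1
  have h4 := h2 m hm2
  have hmR : (0:ℝ) < m := by exact_mod_cast hm3
  have h2m : (0:ℝ) < 2 ^ m := by positivity
  rw [pow_one, div_le_div_iff₀ h2m hK] at h4
  have h5 : (m:ℝ) * (|K| + 1) ≤ m * ((blk m).card : ℝ) := h4.trans h3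
  have h6 := le_of_mul_le_mul_left h5 hmR
  linarith [le_abs_self K]

theorem close_sum {a : ℤ} {r q : ℕ} (hr : 0 < r) (hq : Nat.Coprime q r) :
    ∑ c ∈ (Finset.range r).filter (Nat.Coprime r), ee ((((q:ℤ) * a : ℤ) : ℝ) * c / r) =
      ∑ c ∈ (Finset.range r).filter (Nat.Coprime r), ee ((a : ℝ) * c / r) := by
  have hrR : (r : ℝ) ≠ 0 := by exact_mod_cast hr.ne'
  have hmaps : Set.MapsTo (fun c => q * c % r) ((Finset.range r).filter (Nat.Coprime r))
      ((Finset.range r).filter (Nat.Coprime r)) := by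
    intro c hc
    rw [Finset.mem_coe, Finset.mem_filter, Finset.mem_range] at hc ⊢
    refine ⟨Nat.mod_lt _ hr, ?_⟩
    have h1 : Nat.Coprime (q * c) r := Nat.Coprime.mul_left hq hc.2.symm
    have h2 : Nat.gcd r (q * c % r) = 1 := by
      rw [Nat.gcd_comm, ← Nat.gcd_rec, Nat.gcd_comm]
      exact h1
    exact h2
  have hinj : Set.InjOn (fun c => q * c % r) ((Finset.range r).filter (Nat.Coprime r)) := by
    intro c hc c' hc' h
    rw [Finset.mem_coe, Finset.mem_filter, Finset.mem_range] at hc hc'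
    have h1 : q * c ≡ q * c' [MOD r] := h
    have h2 : c ≡ c' [MOD r] := Nat.ModEq.cancel_left_of_coprime (Nat.coprime_comm.mp hq) h1
    exact Nat.ModEq.eq_of_lt_of_lt h2 hc.1 hc'.1
  refine Finset.sum_nbij (fun c => q * c % r) (fun c hc => hmaps hc) hinj
    (Finset.surjOn_of_injOn_of_card_le _ hmaps hinj le_rfl) ?_
  intro c _
  obtain ⟨k, hk⟩ : ∃ k, k = q * c / r := ⟨_, rfl⟩
  obtain ⟨t, ht⟩ : ∃ t, t = q * c % r := ⟨_, rfl⟩
  have h1 : (q * c : ℕ) = r * k + t := by rw [hk, ht]; exact (Nat.div_add_mod _ _).symm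
  have h2 : (q : ℝ) * c = r * (k : ℝ) + (t : ℝ) := by
    exact_mod_cast h1
  have h3 : (((q:ℤ) * a : ℤ) : ℝ) * c / r = (a : ℝ) * (t : ℝ) / r +
      ((a * (k : ℤ) : ℤ) : ℝ) := by
    push_cast
    rw [show (q : ℝ) * a * c = a * (q * c) by ring, h2]
    field_simp
    ring
  rw [← ht, h3, ee_add_int]

theorem close_MM {a : ℤ} {r q : ℕ} (hr : 0 < r) (hq0 : 0 < q) (hq : Nat.Coprime q r)
    (X u v φ : ℝ) : MM ((q:ℤ) * a) r (X / q) u v (q * φ) = MM a r X u v φ := by
  unfold MM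
  rw [close_sum hr hq]
  have hqR : (q : ℝ) ≠ 0 := by exact_mod_cast hq0.ne'
  have hrR : (r : ℝ) ≠ 0 := by exact_mod_cast hr.ne'
  have h : X / q * (q * φ - (((q:ℤ) * a : ℤ) : ℝ) / r) = X * (φ - (a : ℝ) / r) := by
    push_cast
    field_simp
  rw [h]

/-- Products of two and of three primes have the same Fourier transform up to `ε`. -/
theorem fourier_close {ε : ℝ} (hε : 0 < ε) : ∃ m0 : ℕ, ∀ m ≥ m0, ∃ m0' : ℕ, ∀ m' ≥ m0',
    ∃ X0 : ℝ, 0 < X0 ∧ ∀ X ≥ X0, ∀ u v : ℝ, 1 ≤ u → u ≤ v → v ≤ 2 → ∀ φ : ℝ,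
      ‖BB m X u v φ - BB3 m m' X u v φ‖ ≤ ε := by
  obtain ⟨R1, hR1, M1, hmin1⟩ := minor_arcs (half_pos hε)
  obtain ⟨R2, hR2, M2, hmin2⟩ := minor_arcs (show 0 < ε / 4 by linarith)
  obtain ⟨M3, hM3⟩ := close_blk_large (32 / ε)
  set R := max R1 R2 with hR
  refine ⟨max (max M1 M3) R, fun m hm => ⟨max (max M2 M3) R, fun m' hm' => ?_⟩⟩
  have hm1 : M1 ≤ m := (le_max_left _ _).trans ((le_max_left _ _).trans hm)
  have hm3 : M3 ≤ m := (le_max_right _ _).trans ((le_max_left _ _).trans hm)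
  have hmR : R ≤ m := (le_max_right _ _).trans hm
  have hm'2 : M2 ≤ m' := (le_max_left _ _).trans ((le_max_left _ _).trans hm')
  have hm'3 : M3 ≤ m' := (le_max_right _ _).trans ((le_max_left _ _).trans hm')
  have hm'R : R ≤ m' := (le_max_right _ _).trans hm'
  have hR2m : R < 2 ^ m := lt_of_le_of_lt hmR Nat.lt_two_pow_self
  have hR2m' : R < 2 ^ m' := lt_of_le_of_lt hm'R Nat.lt_two_pow_self
  have h32 : 0 < 32 / ε := by positivity
  have hbne : ∀ k, M3 ≤ k → (blk k).Nonempty := by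
    intro k hk
    rw [← Finset.card_pos]
    have := lt_of_lt_of_le h32 (hM3 k hk)
    exact_mod_cast this
  obtain ⟨X1, B1, hX1, hB1, hA⟩ := hmin1 m hm1
  obtain ⟨X2, B2, hX2, hB2, hA'⟩ := hmin2 m' hm'2
  obtain ⟨X3, hX3, hmaj⟩ := major_arcs R hR2m (hbne m hm3) (max B1 B2) (half_pos hε)
  obtain ⟨X4, hX4, hmaj'⟩ := major_arcs R hR2m' (hbne m' hm'3) (max B1 B2) (half_pos hε)
  set P : ℝ := 2 ^ (m + 1) with hP
  have hP0 : 0 < P := by positivity
  refine ⟨X1 + P * X2 + X3 + P * X4 + 2 * B2 * (R:ℝ) ^ 2 * P ^ 2 + 1, by positivity, ?_⟩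
  intro X hX u v hu huv hv φ
  have e1 : 0 < P * X2 := by positivity
  have e2 : 0 < P * X4 := by positivity
  have e3 : 0 ≤ 2 * B2 * (R:ℝ) ^ 2 * P ^ 2 := by positivity
  have hX0 : 0 < X := by linarith
  have hXX1 : X1 ≤ X := by linarith
  have hXX3 : X3 ≤ X := by linarith
  have hXB : 2 * B2 * (R:ℝ) ^ 2 * P ^ 2 < X := by linarith
  have hqb : ∀ q ∈ blk m, 0 < q ∧ (q : ℝ) ≤ P ∧ R < q := by
    intro q hq
    rw [mem_blk] at hq
    refine ⟨hq.1.pos, ?_, lt_of_lt_of_le hR2m hq.2.1⟩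
    rw [hP]
    exact_mod_cast hq.2.2.le
  have hXq : ∀ q ∈ blk m, ∀ Z : ℝ, 0 < Z → P * Z ≤ X → Z ≤ X / q := by
    intro q hq Z hZ hPZ
    obtain ⟨h1, h2, _⟩ := hqb q hq
    have h1R : (0:ℝ) < q := by exact_mod_cast h1
    rw [le_div_iff₀ h1R]
    calc Z * q ≤ Z * P := by gcongr
      _ = P * Z := mul_comm _ _
      _ ≤ X := hPZ
  have hcop : ∀ q ∈ blk m, ∀ r : ℕ, 0 < r → r ≤ R → Nat.Coprime q r := by
    intro q hq r hr hrR
    have hqp := (mem_blk.mp hq).1
    rw [hqp.coprime_iff_not_dvd]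
    intro hdvd
    have := Nat.le_of_dvd hr hdvd
    have := (hqb q hq).2.2
    omega
  have hcard0 : (0:ℝ) < ((blk m).card : ℝ) := lt_of_lt_of_le h32 (hM3 m hm3)
  have hcardC : ((blk m).card : ℂ) ≠ 0 := by
    have : (blk m).card ≠ 0 := by
      intro h
      rw [h] at hcard0
      simp at hcard0
    exact_mod_cast this
  by_cases hmajor : ∃ (a : ℤ) (r : ℕ), 0 < r ∧ r ≤ R ∧ |φ - (a : ℝ) / r| ≤ (max B1 B2) / X
  · obtain ⟨a, r, hr, hrR, hφ⟩ := hmajor
    have h1 := hmaj X hXX3 u v hu huv hv a r hr hrR φ hφ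
    have h2 : ‖BB3 m m' X u v φ - MM a r X u v φ‖ ≤ ε / 2 := by
      have h3 : BB3 m m' X u v φ - MM a r X u v φ = (1 / ((blk m).card : ℂ)) *
          ∑ q ∈ blk m, (BB m' (X / q) u v (q * φ) - MM a r X u v φ) := by
        unfold BB3
        rw [Finset.sum_sub_distrib, Finset.sum_const, nsmul_eq_mul, mul_sub, ← mul_assoc,
          one_div, inv_mul_cancel₀ hcardC, one_mul]
      rw [h3, norm_mul]
      have h4 : ‖∑ q ∈ blk m, (BB m' (X / q) u v (q * φ) - MM a r X u v φ)‖ ≤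
          ((blk m).card : ℝ) * (ε / 2) := by
        refine (norm_sum_le _ _).trans ?_
        rw [← nsmul_eq_mul, ← Finset.sum_const]
        refine Finset.sum_le_sum fun q hq => ?_
        obtain ⟨hq0, hqP, hqR⟩ := hqb q hq
        have hq0R : (0:ℝ) < q := by exact_mod_cast hq0
        rw [← close_MM hr hq0 (hcop q hq r hr hrR) X u v φ]
        refine hmaj' (X / q) (hXq q hq X4 hX4 (by linarith)) u v hu huv hv _ r hr hrR _ ?_
        have h5 : (q : ℝ) * φ - (((q:ℤ) * a : ℤ) : ℝ) / r = q * (φ - (a:ℝ) / r) := by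
          push_cast
          ring
        rw [h5, abs_mul, abs_of_pos hq0R]
        calc (q:ℝ) * |φ - (a:ℝ) / r| ≤ q * ((max B1 B2) / X) := by gcongr
          _ = max B1 B2 / (X / q) := by field_simp
      have h6 : ‖(1 / ((blk m).card : ℂ))‖ = 1 / ((blk m).card : ℝ) := by
        rw [norm_div, norm_one, Complex.norm_natCast]
      rw [h6]
      calc 1 / ((blk m).card : ℝ) * _ ≤ 1 / ((blk m).card : ℝ) * (((blk m).card : ℝ) * (ε / 2)) := by
            gcongr
        _ = ε / 2 := by field_simp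
    have h7 : BB m X u v φ - BB3 m m' X u v φ = (BB m X u v φ - MM a r X u v φ) -
        (BB3 m m' X u v φ - MM a r X u v φ) := by ring
    rw [h7]
    refine (norm_sub_le _ _).trans ?_
    linarith
  · have hB : ‖BB m X u v φ‖ < ε / 2 := by
      by_contra hcon
      push Not at hcon
      obtain ⟨a, r, hr, hrR, hφ⟩ := hA X hXX1 u v hu huv hv φ hcon
      refine hmajor ⟨a, r, hr, hrR.trans (le_max_left _ _), hφ.trans ?_⟩
      gcongr
      exact le_max_left _ _
    have hB3 : ‖BB3 m m' X u v φ‖ < ε / 2 := by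
      by_contra hcon
      push Not at hcon
      -- the good primes
      set G := (blk m).filter (fun q : ℕ => ε / 4 ≤ ‖BB m' (X / q) u v (q * φ)‖) with hG
      have hXq0 : ∀ q ∈ blk m, 0 < X / (q:ℝ) := by
        intro q hq
        have : (0:ℝ) < q := by exact_mod_cast (hqb q hq).1
        positivity
      have hsum : ‖BB3 m m' X u v φ‖ * ((blk m).card : ℝ) ≤
          ((G.card : ℕ) : ℝ) * 4 + ((blk m).card : ℝ) * (ε / 4) := by
        have h1 : ‖BB3 m m' X u v φ‖ * ((blk m).card : ℝ) =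
            ‖∑ q ∈ blk m, BB m' (X / q) u v (q * φ)‖ := by
          unfold BB3
          rw [norm_mul, norm_div, norm_one, Complex.norm_natCast, mul_comm, ← mul_assoc,
            mul_one_div, div_self hcard0.ne', one_mul]
        rw [h1]
        refine (norm_sum_le _ _).trans ?_
        rw [← Finset.sum_filter_add_sum_filter_not (blk m)
          (fun q : ℕ => ε / 4 ≤ ‖BB m' (X / q) u v (q * φ)‖)]
        refine add_le_add ?_ ?_
        · rw [← nsmul_eq_mul, ← Finset.sum_const]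
          refine Finset.sum_le_sum fun q hq => ?_
          exact norm_BB_le m' (hXq0 q (Finset.mem_filter.mp hq).1) (by linarith) hv
        · have h2 : ((blk m).card : ℝ) * (ε / 4) = ∑ _q ∈ blk m, ε / 4 := by
            rw [Finset.sum_const, nsmul_eq_mul]
          rw [h2]
          refine (Finset.sum_le_sum (g := fun _ => ε / 4) fun q hq => ?_).trans
            (Finset.sum_le_sum_of_subset_of_nonneg (Finset.filter_subset _ _)
              (fun _ _ _ => by positivity))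
          exact (not_le.mp (Finset.mem_filter.mp hq).2).le
      have hG2 : 1 < G.card := by
        have h1 : ε / 2 * ((blk m).card : ℝ) ≤ ((G.card : ℕ) : ℝ) * 4 +
            ((blk m).card : ℝ) * (ε / 4) :=
          (mul_le_mul_of_nonneg_right hcon hcard0.le).trans hsum
        have h2 : 32 ≤ ε * ((blk m).card : ℝ) := by
          have := hM3 m hm3
          rw [div_le_iff₀ hε] at this
          linarith
        have h3 : (2:ℝ) ≤ (G.card : ℝ) := by nlinarith
        have h4 : 2 ≤ G.card := by exact_mod_cast h3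
        omega
      obtain ⟨q1, hq1, q2, hq2, hne⟩ := Finset.one_lt_card.mp hG2
      have hmn : ∀ q ∈ G, ∃ (a : ℤ) (r : ℕ), 0 < r ∧ r ≤ R2 ∧
          |φ - (a : ℝ) / (r * q)| ≤ B2 / X := by
        intro q hq
        obtain ⟨hqm, hqn⟩ := Finset.mem_filter.mp hq
        obtain ⟨hq0, hqP, hqR⟩ := hqb q hqm
        have hq0R : (0:ℝ) < q := by exact_mod_cast hq0
        obtain ⟨a, r, hr, hrR, hφ⟩ := hA' (X / q) (hXq q hqm X2 hX2 (by linarith)) u v hu huv hv
          (q * φ) hqn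
        have hrR0 : (0:ℝ) < r := by exact_mod_cast hr
        refine ⟨a, r, hr, hrR, ?_⟩
        have h5 : φ - (a : ℝ) / (r * q) = (q * φ - (a:ℝ) / r) / q := by
          field_simp
        rw [h5, abs_div, abs_of_pos hq0R, div_le_iff₀ hq0R]
        refine hφ.trans (le_of_eq ?_)
        field_simp
      obtain ⟨a1, r1, hr1, hr1R, hφ1⟩ := hmn q1 hq1
      obtain ⟨a2, r2, hr2, hr2R, hφ2⟩ := hmn q2 hq2
      have hq1m := (Finset.mem_filter.mp hq1).1
      have hq2m := (Finset.mem_filter.mp hq2).1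
      obtain ⟨hq10, hq1P, hq1R⟩ := hqb q1 hq1m
      obtain ⟨hq20, hq2P, hq2R⟩ := hqb q2 hq2m
      have hq10R : (0:ℝ) < q1 := by exact_mod_cast hq10
      have hq20R : (0:ℝ) < q2 := by exact_mod_cast hq20
      have hr1R0 : (0:ℝ) < r1 := by exact_mod_cast hr1
      have hr2R0 : (0:ℝ) < r2 := by exact_mod_cast hr2
      have hr1RR : (r1:ℝ) ≤ R := by exact_mod_cast hr1R.trans (le_max_right _ _)
      have hr2RR : (r2:ℝ) ≤ R := by exact_mod_cast hr2R.trans (le_max_right _ _)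
      have hdiff : |(a1 : ℝ) / (r1 * q1) - (a2 : ℝ) / (r2 * q2)| ≤ 2 * B2 / X := by
        have h1 : (a1 : ℝ) / (r1 * q1) - (a2 : ℝ) / (r2 * q2) =
            (φ - (a2 : ℝ) / (r2 * q2)) - (φ - (a1 : ℝ) / (r1 * q1)) := by ring
        rw [h1]
        refine (abs_sub _ _).trans ?_
        have : 2 * B2 / X = B2 / X + B2 / X := by ring
        linarith
      have heq : a1 * (r2 * q2) = a2 * (r1 * q1) := by
        by_contra hne'
        have h1 : (1:ℝ) ≤ |(a1 : ℝ) * (r2 * q2) - a2 * (r1 * q1)| := by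
          have : a1 * (r2 * q2) - a2 * (r1 * q1) ≠ 0 := sub_ne_zero.mpr hne'
          have := Int.one_le_abs this
          exact_mod_cast this
        have h2 : (a1 : ℝ) / (r1 * q1) - (a2 : ℝ) / (r2 * q2) =
            ((a1 : ℝ) * (r2 * q2) - a2 * (r1 * q1)) / ((r1 * q1) * (r2 * q2)) := by
          field_simp
        rw [h2, abs_div, abs_of_pos (by positivity : (0:ℝ) < (r1 * q1) * (r2 * q2)),
          div_le_div_iff₀ (by positivity) hX0] at hdiff
        have h3 : (r1 * q1 : ℝ) * (r2 * q2) ≤ (R * P) * (R * P) := by gcongr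
        have h4 : X ≤ 2 * B2 * ((R * P) * (R * P)) := by
          calc X = 1 * X := (one_mul X).symm
            _ ≤ |(a1 : ℝ) * (r2 * q2) - a2 * (r1 * q1)| * X := by gcongr
            _ ≤ 2 * B2 * ((r1 * q1) * (r2 * q2)) := hdiff
            _ ≤ _ := by gcongr
        have h5 : 2 * B2 * (((R:ℝ) * P) * (R * P)) = 2 * B2 * (R:ℝ) ^ 2 * P ^ 2 := by ring
        linarith
      have hdvd : (q1 : ℤ) ∣ a1 := by
        have h1 : (q1 : ℤ) ∣ a1 * (r2 * q2) := by
          rw [heq]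
          exact ⟨a2 * r1, by ring⟩
        have h2 : IsCoprime (q1 : ℤ) ((r2 : ℤ) * q2) := by
          have hc1 : Nat.Coprime q1 r2 := hcop q1 hq1m r2 hr2 (hr2R.trans (le_max_right _ _))
          have hc2 : Nat.Coprime q1 q2 :=
            (Nat.coprime_primes (mem_blk.mp hq1m).1 (mem_blk.mp hq2m).1).mpr hne
          have hc3 : Nat.Coprime q1 (r2 * q2) := Nat.Coprime.mul_right hc1 hc2
          have := Nat.isCoprime_iff_coprime.mpr hc3
          exact_mod_cast this
        exact h2.dvd_of_dvd_mul_right h1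
      obtain ⟨a', ha'⟩ := hdvd
      refine hmajor ⟨a', r1, hr1, hr1R.trans (le_max_right _ _), ?_⟩
      have h1 : (a1 : ℝ) / (r1 * q1) = (a' : ℝ) / r1 := by
        rw [ha']
        push_cast
        field_simp
      rw [h1] at hφ1
      refine hφ1.trans ?_
      gcongr
      exact le_max_right _ _
    refine (norm_sub_le _ _).trans ?_
    linarith

end Pool.MP_67663b_nt.Odd
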