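import Pool.Agent.Lib.MP_67663b_nt.Odd.WPNT

/-!
# Exponential sums over primes: definitions
-/

set_option autoImplicit false

open Filter Topology

namespace Pool.MP_67663b_nt.Odd

/-- `ee x = e^{2 π i x}` -/
noncomputable def ee (x : ℝ) : ℂ := Complex.exp (2 * Real.pi * x * Complex.I)

theorem norm_ee (x : ℝ) : ‖ee x‖ = 1 := by
  unfold ee
  have : (2 * Real.pi * x * Complex.I : ℂ) = ((2 * Real.pi * x : ℝ) : ℂ) * Complex.I := by
    push_cast
    ring
  rw [this, Complex.norm_exp_ofReal_mul_I]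

theorem ee_add (x y : ℝ) : ee (x + y) = ee x * ee y := by
  unfold ee
  rw [← Complex.exp_add]
  congr 1
  push_cast
  ring

theorem ee_zero : ee 0 = 1 := by simp [ee]

theorem ee_int (z : ℤ) : ee z = 1 := by
  unfold ee
  have : (2 * Real.pi * ((z : ℝ) : ℂ) * Complex.I : ℂ) = z * (2 * Real.pi * Complex.I) := by
    push_cast
    ring
  rw [this, Complex.exp_int_mul_two_pi_mul_I]

theorem ee_add_int (x : ℝ) (z : ℤ) : ee (x + z) = ee x := by
  rw [ee_add, ee_int, mul_one]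

theorem conj_ee (x : ℝ) : (starRingEnd ℂ) (ee x) = ee (-x) := by
  unfold ee
  rw [← Complex.exp_conj]
  congr 1
  simp only [map_mul, Complex.conj_ofReal, Complex.conj_I, map_ofNat]
  push_cast
  ring

theorem norm_ee_sub_one_le (x : ℝ) : ‖ee x - 1‖ ≤ 2 * Real.pi * |x| := by
  unfold ee
  have h : (2 * Real.pi * x * Complex.I : ℂ) = Complex.I * ((2 * Real.pi * x : ℝ) : ℂ) := by
    push_cast
    ring
  rw [h]
  refine (Real.norm_exp_I_mul_ofReal_sub_one_le (x := 2 * Real.pi * x)).trans ?_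
  rw [Real.norm_eq_abs, abs_mul, abs_of_pos (by positivity : (0:ℝ) < 2 * Real.pi)]

theorem norm_ee_sub_ee_le (x y : ℝ) : ‖ee x - ee y‖ ≤ 2 * Real.pi * |x - y| := by
  have : ee x - ee y = ee y * (ee (x - y) - 1) := by
    rw [mul_sub, ← ee_add, mul_one]
    congr 2
    ring
  rw [this, norm_mul, norm_ee, one_mul]
  exact norm_ee_sub_one_le _

/-- Primes in `[x, y)`. -/
noncomputable def pr (x y : ℝ) : Finset ℕ :=
  (Finset.range ⌈y⌉₊).filter (fun q => q.Prime ∧ x ≤ (q : ℝ))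

theorem mem_pr {x y : ℝ} {q : ℕ} : q ∈ pr x y ↔ q.Prime ∧ x ≤ (q : ℝ) ∧ (q : ℝ) < y := by
  unfold pr
  rw [Finset.mem_filter, Finset.mem_range, Nat.lt_ceil]
  tauto

/-- Weighted exponential sum over the primes in `[x, y)`. -/
noncomputable def PS (x y φ : ℝ) : ℂ := ∑ q ∈ pr x y, (Real.log q : ℂ) * ee (q * φ)

/-- The primes in `[2^m, 2^(m+1))`. -/
def blk (m : ℕ) : Finset ℕ := (Finset.Ico (2 ^ m) (2 ^ (m + 1))).filter Nat.Prime

theorem mem_blk {m q : ℕ} : q ∈ blk m ↔ q.Prime ∧ 2 ^ m ≤ q ∧ q < 2 ^ (m + 1) := by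
  unfold blk
  rw [Finset.mem_filter, Finset.mem_Ico]
  tauto

/-- Bilinear exponential sum: average over primes `q` of scale `m`, sum over primes `q'` with
`q q' ∈ [uX, vX)`. -/
noncomputable def BB (m : ℕ) (X u v φ : ℝ) : ℂ :=
  (1 / ((blk m).card : ℂ)) * ∑ q ∈ blk m, ((q : ℂ) / X) * PS (u * X / q) (v * X / q) (q * φ)

/-- The same with products of three primes. -/
noncomputable def BB3 (m m' : ℕ) (X u v φ : ℝ) : ℂ :=
  (1 / ((blk m).card : ℂ)) * ∑ q ∈ blk m, BB m' (X / q) u v (q * φ)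

/-- Main term on the major arc at `a / r`. -/
noncomputable def MM (a : ℤ) (r : ℕ) (X u v φ : ℝ) : ℂ :=
  (1 / (Nat.totient r : ℂ)) *
    (∑ c ∈ (Finset.range r).filter (Nat.Coprime r), ee ((a : ℝ) * c / r)) *
    ∫ t in u..v, ee (X * (φ - (a : ℝ) / r) * t)

end Pool.MP_67663b_nt.Odd
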