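import Pool.Agent.Lib.MP_67663b_nt.OddB.BDefs

set_option autoImplicit false
open Filter Topology
namespace Pool.MP_67663b_nt.Odd

variable {I : Type} [Fintype I] [DecidableEq I]

theorem abs_sB_le (α : I → ℝ) (hα : ∀ i, 0 < α i) (a : I → ℤ) (b : ℤ)
    (hrel : (b : ℝ) = ∑ i, (a i : ℝ) * α i) (n : ℕ) : |sB α a b n| ≤ ∑ i, |a i| := by
  have h1 : ((sB α a b n : ℤ) : ℝ) = ∑ i, (a i : ℝ) * (α i * n - (bt (α i) n : ℝ)) := by
    unfold sB
    push_cast
    rw [hrel, Finset.sum_mul, ← Finset.sum_sub_distrib]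
    refine Finset.sum_congr rfl fun i _ => ?_
    ring
  have h2 : |((sB α a b n : ℤ) : ℝ)| ≤ ∑ i, |(a i : ℝ)| := by
    rw [h1]
    refine (Finset.abs_sum_le_sum_abs _ _).trans (Finset.sum_le_sum fun i _ => ?_)
    rw [abs_mul]
    have h3 : |α i * n - (bt (α i) n : ℝ)| ≤ 1 := by
      have h0 : 0 ≤ α i * (n : ℝ) := mul_nonneg (hα i).le (Nat.cast_nonneg _)
      have h4 : (bt (α i) n : ℝ) ≤ α i * n := by
        unfold bt
        exact Nat.floor_le h0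
      have h5 : α i * n < (bt (α i) n : ℝ) + 1 := by
        unfold bt
        exact Nat.lt_floor_add_one _
      rw [abs_le]
      constructor <;> linarith
    calc |(a i : ℝ)| * |α i * n - (bt (α i) n : ℝ)| ≤ |(a i : ℝ)| * 1 := by gcongr
      _ = |(a i : ℝ)| := mul_one _
  exact_mod_cast h2

theorem wordB_finite (α : I → ℝ) (hα : ∀ i, 0 < α i) (a : I → ℤ) (b : ℤ)
    (hrel : (b : ℝ) = ∑ i, (a i : ℝ) * α i) (H : ℕ) : (Set.range (wordB α a b H)).Finite := by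
  refine ((word_finite α hα H).prod (Set.finite_Icc (-∑ i, |a i|) (∑ i, |a i|))).subset ?_
  rintro _ ⟨n, rfl⟩
  exact ⟨⟨n, rfl⟩, abs_le.mp (abs_sB_le α hα a b hrel n)⟩

theorem wordB_double (α : I → ℝ) (hα : ∀ i, 0 < α i) (a : I → ℤ) (b : ℤ) (H : ℕ) :
    ∃ F : ((ℕ → ℝ) × (I → ℕ → ℕ) × (I → ℕ → ℝ)) × ℤ → ((ℕ → ℝ) × (I → ℕ → ℕ) × (I → ℕ → ℝ)) × ℤ →
      ((ℕ → ℝ) × (I → ℕ → ℕ) × (I → ℕ → ℝ)) × ℤ,
      ∀ n, wordB α a b (2 * H) n = F (wordB α a b H n) (wordB α a b H (n + H)) := by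
  obtain ⟨F, hF⟩ := word_double α hα H
  refine ⟨fun w v => (F w.1 v.1, w.2), fun n => ?_⟩
  unfold wordB
  rw [hF n]

theorem res_rest_shift (α : I → ℝ) (hα : ∀ i, 0 < α i) (a : I → ℤ) (b : ℤ) (l : I) (H Q : ℕ)
    (hQ : 0 < Q) :
    ∃ G : ℕ × ({i : I // i ≠ l} → ℕ) → ((ℕ → ℝ) × (I → ℕ → ℕ) × (I → ℕ → ℝ)) × ℤ →
      ℕ × ({i : I // i ≠ l} → ℕ),
      ∀ n, res (rest α l) Q (n + H) = G (res (rest α l) Q n) (wordB α a b H n) := by
  refine ⟨fun r w => ((r.1 + H) % Q, fun i => (r.2 i + w.1.2.1 i.1 H) % Q), fun n => ?_⟩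
  unfold res wordB word rest
  refine Prod.ext ?_ ?_
  · simp
  · funext i
    have m1 : bt (α i.1) n ≤ bt (α i.1) (n + H) := bt_mono (hα i.1) (by omega)
    dsimp only
    rw [if_pos le_rfl, Nat.mod_add_mod]
    congr 1
    omega

/-- independence of the remaining slopes together with `1` -/
theorem rest_indep (α : I → ℝ) (a : I → ℤ) (b : ℤ) (hrel : (b : ℝ) = ∑ i, (a i : ℝ) * α i)
    (hind : ∀ c : I → ℤ, ∑ i, (c i : ℝ) * α i = 0 → ∀ i, c i = 0) (l : I) (hl : a l ≠ 0) :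
    ∀ (c0 : ℤ) (c : {i : I // i ≠ l} → ℤ), (c0 : ℝ) + ∑ i, (c i : ℝ) * rest α l i = 0 →
      ∀ i, c i = 0 := by
  intro c0 c hc
  have hb : b ≠ 0 := by
    rintro rfl
    refine hl (hind a ?_ l)
    rw [← hrel]
    simp
  have h1 : ∑ i, (((fun i : I => c0 * a i + b * (if h : i = l then 0 else c ⟨i, h⟩)) i : ℤ) : ℝ)
      * α i = 0 := by
    have e1 : ∑ i, (((fun i : I => c0 * a i + b * (if h : i = l then 0 else c ⟨i, h⟩)) i : ℤ) : ℝ)
        * α i = c0 * ∑ i, (a i : ℝ) * α i +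
          b * ∑ i, (((if h : i = l then 0 else c ⟨i, h⟩ : ℤ)) : ℝ) * α i := by
      rw [Finset.mul_sum, Finset.mul_sum, ← Finset.sum_add_distrib]
      refine Finset.sum_congr rfl fun i _ => ?_
      push_cast
      ring
    have e2 : ∑ i, (((if h : i = l then 0 else c ⟨i, h⟩ : ℤ)) : ℝ) * α i =
        ∑ i, (c i : ℝ) * rest α l i := by
      rw [Fintype.sum_eq_add_sum_subtype_ne
        (fun i => (((if h : i = l then 0 else c ⟨i, h⟩ : ℤ)) : ℝ) * α i) l]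
      have e3 : (((if h : l = l then 0 else c ⟨l, h⟩ : ℤ)) : ℝ) * α l = 0 := by simp
      rw [e3, zero_add]
      refine Finset.sum_congr rfl fun i _ => ?_
      unfold rest
      rw [dif_neg i.2]
    rw [e1, e2, ← hrel]
    linear_combination (b : ℝ) * hc
  have h2 := hind _ h1
  have h3 : c0 = 0 := by
    have := h2 l
    simp only [dite_true, mul_zero, add_zero, mul_eq_zero] at this
    exact this.resolve_right hl
  intro i
  have h4 := h2 i.1
  simp only [h3, zero_mul, zero_add, dif_neg i.2, mul_eq_zero] at h4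
  exact h4.resolve_left hb

end Pool.MP_67663b_nt.Odd
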