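import Pool.Agent.Lib.MP_67663b_nt.OddB.BDefs
import Pool.Agent.Lib.MP_67663b_nt.OddB.ExpDefs

set_option autoImplicit false
open Filter Topology
namespace Pool.MP_67663b_nt.Odd

variable {I : Type} [Fintype I] [DecidableEq I]

/-! ### Counting solutions of one congruence -/

theorem Wiener_card_cong_pos {a : ℤ} (ha : 0 < a) {x : ℕ} (hx : 0 < x) (c : ℤ) :
    (((Finset.range x).filter (fun r : ℕ => (x : ℤ) ∣ a * (r : ℤ) + c)).card : ℤ) ≤ a := by
  have hx' : (0 : ℤ) < x := by exact_mod_cast hx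
  have key : ((Finset.range x).filter (fun r : ℕ => (x : ℤ) ∣ a * (r : ℤ) + c)).card ≤
      (Finset.Ico (-(-c / x)) (-(-c / x) + a)).card := by
    apply Finset.card_le_card_of_injOn (fun r : ℕ => (a * (r : ℤ) + c) / x)
    · intro r hr
      simp only [Finset.coe_filter, Finset.mem_range, Set.mem_ofPred_eq] at hr
      obtain ⟨hr1, q, hq⟩ := hr
      simp only [Finset.coe_Ico, Set.mem_Ico]
      rw [hq, Int.mul_ediv_cancel_left _ hx'.ne']
      have h1 := Int.emod_add_mul_ediv (-c) x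
      have h2 := Int.emod_nonneg (-c) hx'.ne'
      have h3 := Int.emod_lt_of_pos (-c) hx'
      have hr0 : (0 : ℤ) ≤ r := by positivity
      have hr1' : (r : ℤ) < x := by exact_mod_cast hr1
      constructor
      · by_contra hcon
        push Not at hcon
        have : (x : ℤ) * q ≤ x * (-(-c / x) - 1) := by
          apply mul_le_mul_of_nonneg_left _ hx'.le
          omega
        nlinarith [mul_nonneg ha.le hr0]
      · by_contra hcon
        push Not at hcon
        have : (x : ℤ) * (-(-c / x) + a) ≤ x * q := mul_le_mul_of_nonneg_left hcon hx'.le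
        nlinarith [mul_le_mul_of_nonneg_left (show (r : ℤ) ≤ x - 1 by omega) ha.le]
    · intro r hr r' hr' heq
      simp only [Finset.coe_filter, Finset.mem_range, Set.mem_ofPred_eq] at hr hr'
      obtain ⟨hr1, q, hq⟩ := hr
      obtain ⟨hr1', q', hq'⟩ := hr'
      simp only at heq
      rw [hq, hq', Int.mul_ediv_cancel_left _ hx'.ne', Int.mul_ediv_cancel_left _ hx'.ne'] at heq
      subst heq
      have : a * (r : ℤ) = a * r' := by linarith
      have := mul_left_cancel₀ ha.ne' this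
      exact_mod_cast this
  have h2 : ((Finset.Ico (-(-c / x)) (-(-c / x) + a)).card : ℤ) = a := by
    rw [Int.card_Ico]
    have : (-(-c / (x : ℤ)) + a - -(-c / (x : ℤ))) = a := by ring
    rw [this, Int.toNat_of_nonneg ha.le]
  calc _ ≤ ((Finset.Ico (-(-c / x)) (-(-c / x) + a)).card : ℤ) := by exact_mod_cast key
    _ = a := h2

theorem Wiener_card_cong {a : ℤ} (ha : a ≠ 0) {x : ℕ} (hx : 0 < x) (c : ℤ) :
    ((Finset.range x).filter (fun r : ℕ => (x : ℤ) ∣ a * (r : ℤ) + c)).card ≤ a.natAbs := by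
  rcases lt_or_gt_of_ne ha with h | h
  · have h1 := Wiener_card_cong_pos (a := -a) (by omega) hx (-c)
    have h2 : (Finset.range x).filter (fun r : ℕ => (x : ℤ) ∣ -a * (r : ℤ) + -c) =
        (Finset.range x).filter (fun r : ℕ => (x : ℤ) ∣ a * (r : ℤ) + c) := by
      apply Finset.filter_congr
      intro r _
      rw [show -a * (r : ℤ) + -c = -(a * r + c) by ring, dvd_neg]
    rw [h2] at h1
    omega
  · have h1 := Wiener_card_cong_pos h hx c
    omega

/-- Boxes: at most `|a_j|` times the product of the other side lengths. -/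
theorem Wiener_card_box (a : I → ℤ) (j : I) (hj : a j ≠ 0) {x : ℕ} (hx : 0 < x) (s : ℤ)
    (B : I → Finset ℕ) (hB : B j ⊆ Finset.range x) :
    ((Fintype.piFinset B).filter (fun r => (x : ℤ) ∣ ∑ i, a i * (r i : ℤ) + s)).card ≤
      (a j).natAbs * ∏ i ∈ Finset.univ.erase j, (B i).card := by
  set F := (Fintype.piFinset B).filter (fun r => (x : ℤ) ∣ ∑ i, a i * (r i : ℤ) + s) with hF
  have h1 : F.card ≤ (a j).natAbs * (F.image (fun r => Function.update r j 0)).card := by
    apply Finset.card_le_mul_card_image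
    intro b hb
    have hfib : (F.filter (fun r => Function.update r j 0 = b)).card ≤
        ((Finset.range x).filter
          (fun r : ℕ => (x : ℤ) ∣ a j * (r : ℤ) + (∑ i, a i * (b i : ℤ) + s))).card := by
      apply Finset.card_le_card_of_injOn (fun r => r j)
      · intro r hr
        simp only [Finset.coe_filter, Set.mem_ofPred_eq, hF, Finset.mem_filter,
          Fintype.mem_piFinset] at hr
        obtain ⟨⟨hr1, hr2⟩, hr3⟩ := hr
        simp only [Finset.coe_filter, Set.mem_ofPred_eq]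
        refine ⟨hB (hr1 j), ?_⟩
        have : ∑ i, a i * (r i : ℤ) = a j * (r j : ℤ) + ∑ i, a i * (b i : ℤ) := by
          rw [← Finset.add_sum_erase _ _ (Finset.mem_univ j),
            ← Finset.add_sum_erase _ (fun i => a i * (b i : ℤ)) (Finset.mem_univ j)]
          have hbj : b j = 0 := by rw [← hr3]; simp
          rw [hbj]
          have : ∑ i ∈ Finset.univ.erase j, a i * (r i : ℤ) =
              ∑ i ∈ Finset.univ.erase j, a i * (b i : ℤ) := by
            apply Finset.sum_congr rfl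
            intro i hi
            rw [← hr3, Function.update_of_ne (Finset.ne_of_mem_erase hi)]
          rw [this]
          push_cast
          ring
        rw [← add_assoc, ← this]
        exact hr2
      · intro r hr r' hr' heq
        simp only [Finset.coe_filter, Set.mem_ofPred_eq] at hr hr'
        funext i
        by_cases hi : i = j
        · rw [hi]
          exact heq
        · have h3 := congrFun (hr.2.trans hr'.2.symm) i
          rwa [Function.update_of_ne hi, Function.update_of_ne hi] at h3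
    exact hfib.trans (Wiener_card_cong hj hx _)
  have h2 : (F.image (fun r => Function.update r j 0)).card ≤
      (Fintype.piFinset (Function.update B j {0})).card := by
    apply Finset.card_le_card
    intro b hb
    rw [Finset.mem_image] at hb
    obtain ⟨r, hr, rfl⟩ := hb
    rw [hF, Finset.mem_filter, Fintype.mem_piFinset] at hr
    rw [Fintype.mem_piFinset]
    intro i
    by_cases hi : i = j
    · rw [hi]
      simp
    · rw [Function.update_of_ne hi, Function.update_of_ne hi]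
      exact hr.1 i
  have h3 : (Fintype.piFinset (Function.update B j {0})).card =
      ∏ i ∈ Finset.univ.erase j, (B i).card := by
    rw [Fintype.card_piFinset, ← Finset.mul_prod_erase _ _ (Finset.mem_univ j)]
    rw [Function.update_self, Finset.card_singleton, one_mul]
    apply Finset.prod_congr rfl
    intro i hi
    rw [Function.update_of_ne (Finset.ne_of_mem_erase hi)]
  rw [h3] at h2
  exact h1.trans (Nat.mul_le_mul_left _ h2)


/-! ### Cutting off the coordinates -/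

/-- Solutions with all coordinates `< N`. -/
def Wiener_RN (a : I → ℤ) (N x : ℕ) (s : ℤ) : Finset (I → ℕ) :=
  (Fintype.piFinset (fun _ : I => Finset.range N)).filter
    (fun r => (x : ℤ) ∣ ∑ i, a i * (r i : ℤ) + s)

theorem Wiener_card_RN (a : I → ℤ) {l : I} (hl : a l ≠ 0) {N x : ℕ} (hx : 0 < x) (hN : N ≤ x)
    (s : ℤ) : (Wiener_RN a N x s).card ≤ (a l).natAbs * N ^ (Fintype.card I - 1) := by
  refine (Wiener_card_box a l hl hx s (fun _ => Finset.range N) ?_).trans ?_
  · exact Finset.range_mono hN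
  · simp [Finset.card_erase_of_mem, Finset.card_univ]

theorem Wiener_RN_subset (a : I → ℤ) {N x : ℕ} (hN : N ≤ x) (s : ℤ) :
    Wiener_RN a N x s ⊆ RR a x s := by
  intro r hr
  unfold Wiener_RN at hr
  unfold RR
  rw [Finset.mem_filter, Fintype.mem_piFinset] at hr ⊢
  exact ⟨fun i => Finset.range_mono hN (hr.1 i), hr.2⟩

theorem Wiener_card_diff (a : I → ℤ) {l l' : I} (hll : l ≠ l') (hl : a l ≠ 0) (hl' : a l' ≠ 0)
    {A : ℕ} (hA : (a l).natAbs ≤ A) (hA' : (a l').natAbs ≤ A)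
    {N x : ℕ} (hx : 0 < x) (hN : N ≤ x) (s : ℤ) :
    (RR a x s \ Wiener_RN a N x s).card ≤
      Fintype.card I * (A * ((x - N) * x ^ (Fintype.card I - 2))) := by
  have hsub : RR a x s \ Wiener_RN a N x s ⊆
      Finset.univ.biUnion (fun i : I =>
        (Fintype.piFinset (Function.update (fun _ : I => Finset.range x) i (Finset.Ico N x))).filter
          (fun r => (x : ℤ) ∣ ∑ i, a i * (r i : ℤ) + s)) := by
    intro r hr
    rw [Finset.mem_sdiff] at hr
    obtain ⟨h1, h2⟩ := hr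
    unfold RR at h1
    unfold Wiener_RN at h2
    rw [Finset.mem_filter, Fintype.mem_piFinset] at h1 h2
    have h3 : ∃ i, N ≤ r i := by
      by_contra hcon
      push Not at hcon
      exact h2 ⟨fun i => Finset.mem_range.mpr (hcon i), h1.2⟩
    obtain ⟨i, hi⟩ := h3
    rw [Finset.mem_biUnion]
    refine ⟨i, Finset.mem_univ i, ?_⟩
    rw [Finset.mem_filter, Fintype.mem_piFinset]
    refine ⟨fun i' => ?_, h1.2⟩
    by_cases h : i' = i
    · rw [h, Function.update_self, Finset.mem_Ico]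
      exact ⟨hi, Finset.mem_range.mp (h1.1 i)⟩
    · rw [Function.update_of_ne h]
      exact h1.1 i'
  refine (Finset.card_le_card hsub).trans (Finset.card_biUnion_le.trans ?_)
  have : ∀ i ∈ (Finset.univ : Finset I),
      ((Fintype.piFinset (Function.update (fun _ : I => Finset.range x) i (Finset.Ico N x))).filter
          (fun r => (x : ℤ) ∣ ∑ i, a i * (r i : ℤ) + s)).card ≤
        A * ((x - N) * x ^ (Fintype.card I - 2)) := by
    intro i _
    obtain ⟨j, hji, hj, hjA⟩ : ∃ j, j ≠ i ∧ a j ≠ 0 ∧ (a j).natAbs ≤ A := by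
      by_cases h : l = i
      · exact ⟨l', fun h' => hll (h.trans h'.symm), hl', hA'⟩
      · exact ⟨l, h, hl, hA⟩
    refine (Wiener_card_box a j hj hx s _ ?_).trans ?_
    · rw [Function.update_of_ne hji]
    · refine Nat.mul_le_mul hjA (le_of_eq ?_)
      rw [← Finset.mul_prod_erase _ _ (Finset.mem_erase.mpr ⟨hji.symm, Finset.mem_univ i⟩)]
      rw [Function.update_self, Nat.card_Ico]
      congr 1
      have : ∀ i' ∈ (Finset.univ.erase j).erase i,
          (Function.update (fun _ : I => Finset.range x) i (Finset.Ico N x) i').card = x := by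
        intro i' hi'
        rw [Function.update_of_ne (Finset.ne_of_mem_erase hi'), Finset.card_range]
      rw [Finset.prod_congr rfl this, Finset.prod_const, Finset.card_erase_of_mem,
        Finset.card_erase_of_mem (Finset.mem_univ j), Finset.card_univ]
      · congr 1
      · exact Finset.mem_erase.mpr ⟨hji.symm, Finset.mem_univ i⟩
  refine (Finset.sum_le_sum this).trans ?_
  simp [Finset.card_univ]

/-- The average with all coordinates `< N`. -/
noncomputable def Wiener_avN (a : I → ℤ) (N x : ℕ) (s : ℤ) (f : I → ℕ → ℝ) : ℝ :=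
  (1 / (N : ℝ) ^ (Fintype.card I - 1)) * ∑ r ∈ Wiener_RN a N x s, ∏ i, f i (r i)

theorem Wiener_abs_sum_le {f : I → ℕ → ℝ} (hf : ∀ i r, |f i r| ≤ 1) (F : Finset (I → ℕ)) :
    |∑ r ∈ F, ∏ i, f i (r i)| ≤ F.card := by
  calc |∑ r ∈ F, ∏ i, f i (r i)| ≤ ∑ r ∈ F, |∏ i, f i (r i)| := Finset.abs_sum_le_sum_abs _ _
    _ ≤ ∑ r ∈ F, (1:ℝ) := by
        refine Finset.sum_le_sum fun r _ => ?_
        rw [Finset.abs_prod]
        exact Finset.prod_le_one (fun i _ => abs_nonneg _) (fun i _ => hf i _)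
    _ = (F.card : ℝ) := by simp

theorem Wiener_avB_sub (a : I → ℤ) {l l' : I} (hll : l ≠ l') (hl : a l ≠ 0) (hl' : a l' ≠ 0)
    {A : ℕ} (hA : (a l).natAbs ≤ A) (hA' : (a l').natAbs ≤ A)
    {N x : ℕ} (hN0 : 0 < N) (hN : N ≤ x) (s : ℤ) {f : I → ℕ → ℝ} (hf : ∀ i r, |f i r| ≤ 1) :
    |avB a x s f - Wiener_avN a N x s f| ≤
      2 * Fintype.card I * A * (((x : ℝ) - N) / x) := by
  have hx : 0 < x := lt_of_lt_of_le hN0 hN
  have hxR : (0:ℝ) < x := by exact_mod_cast hx
  have hNR : (0:ℝ) < N := by exact_mod_cast hN0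
  have hNxR : (N:ℝ) ≤ x := by exact_mod_cast hN
  have hd : 2 ≤ Fintype.card I := by
    have : 1 < Fintype.card I := Fintype.one_lt_card_iff.mpr ⟨l, l', hll⟩
    omega
  set d := Fintype.card I with hdd
  set P := (x : ℝ) ^ (d - 1) with hP
  set Q := (N : ℝ) ^ (d - 1) with hQ
  have hP0 : 0 < P := by positivity
  have hQ0 : 0 < Q := by positivity
  set SR := ∑ r ∈ RR a x s, ∏ i, f i (r i) with hSR
  set SN := ∑ r ∈ Wiener_RN a N x s, ∏ i, f i (r i) with hSN
  have h1 : |SR - SN| ≤ d * (A * (((x : ℝ) - N) * (x : ℝ) ^ (d - 2))) := by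
    have : SR - SN = ∑ r ∈ RR a x s \ Wiener_RN a N x s, ∏ i, f i (r i) := by
      rw [hSR, hSN, ← Finset.sum_sdiff (Wiener_RN_subset a hN s)]
      ring
    rw [this]
    refine (Wiener_abs_sum_le hf _).trans ?_
    have := Wiener_card_diff a hll hl hl' hA hA' hx hN s
    have h2 : ((RR a x s \ Wiener_RN a N x s).card : ℝ) ≤
        ((d * (A * ((x - N) * x ^ (d - 2))) : ℕ) : ℝ) := by exact_mod_cast this
    refine h2.trans (le_of_eq ?_)
    push_cast [Nat.cast_sub hN]
    ring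
  have h2 : |SN| ≤ A * Q := by
    refine (Wiener_abs_sum_le hf _).trans ?_
    have := (Wiener_card_RN a hl hx hN s).trans (Nat.mul_le_mul_right _ hA)
    have h2 : ((Wiener_RN a N x s).card : ℝ) ≤ ((A * N ^ (d - 1) : ℕ) : ℝ) := by
      exact_mod_cast this
    refine h2.trans (le_of_eq ?_)
    push_cast
    ring
  have h3 : avB a x s f - Wiener_avN a N x s f = (1 / P) * (SR - SN) - (1 / Q - 1 / P) * SN := by
    unfold avB Wiener_avN
    ring
  have hQP : Q ≤ P := by
    rw [hQ, hP]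
    gcongr
  have h4 : 0 ≤ 1 / Q - 1 / P := by
    rw [sub_nonneg]
    exact one_div_le_one_div_of_le hQ0 hQP
  have h5 : (x : ℝ) * (x : ℝ) ^ (d - 2) = P := by
    rw [hP, ← pow_succ']
    congr 1
    omega
  have h6 : (1 / P) * |SR - SN| ≤ d * A * (((x : ℝ) - N) / x) := by
    calc (1 / P) * |SR - SN| ≤ (1 / P) * (d * (A * (((x : ℝ) - N) * (x : ℝ) ^ (d - 2)))) := by
          gcongr
      _ = d * A * (((x : ℝ) - N) / x) := by
          rw [← h5]
          have : (x : ℝ) ^ (d - 2) ≠ 0 := by positivity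
          field_simp
  have h7 : (1 / Q - 1 / P) * |SN| ≤ d * A * (((x : ℝ) - N) / x) := by
    calc (1 / Q - 1 / P) * |SN| ≤ (1 / Q - 1 / P) * (A * Q) := by gcongr
      _ = A * (1 - Q / P) := by
          field_simp
      _ ≤ A * ((d : ℝ) * (((x : ℝ) - N) / x)) := by
          gcongr
          have hb : 1 + ((d - 1 : ℕ) : ℝ) * (-(((x : ℝ) - N) / x)) ≤
              (1 + (-(((x : ℝ) - N) / x))) ^ (d - 1) := by
            apply one_add_mul_le_pow
            have : ((x : ℝ) - N) / x ≤ 1 := by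
              rw [div_le_one hxR]
              linarith
            linarith
          have he : (1 + (-(((x : ℝ) - N) / x))) ^ (d - 1) = Q / P := by
            rw [hQ, hP, ← div_pow]
            congr 1
            field_simp
            ring
          rw [he] at hb
          have h8 : ((d - 1 : ℕ) : ℝ) ≤ d := by
            exact_mod_cast Nat.sub_le _ _
          have h9 : 0 ≤ ((x : ℝ) - N) / x := div_nonneg (by linarith) hxR.le
          nlinarith
      _ = _ := by ring
  rw [h3]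
  calc |(1 / P) * (SR - SN) - (1 / Q - 1 / P) * SN|
      ≤ |(1 / P) * (SR - SN)| + |(1 / Q - 1 / P) * SN| := abs_sub _ _
    _ = (1 / P) * |SR - SN| + (1 / Q - 1 / P) * |SN| := by
        rw [abs_mul, abs_mul, abs_of_pos (by positivity : 0 < 1 / P), abs_of_nonneg h4]
    _ ≤ d * A * (((x : ℝ) - N) / x) + d * A * (((x : ℝ) - N) / x) := add_le_add h6 h7
    _ = _ := by ring


/-! ### Discrete Fourier analysis -/

theorem Wiener_ee_nat_mul (n : ℕ) (x : ℝ) : ee (n * x) = ee x ^ n := by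
  induction n with
  | zero => simp [ee_zero]
  | succ n ih =>
    rw [pow_succ, ← ih, ← ee_add]
    congr 1
    push_cast
    ring

theorem Wiener_orth {Q : ℕ} (hQ : 0 < Q) (m : ℤ) :
    (1 / (Q : ℂ)) * ∑ j ∈ Finset.range Q, ee ((j : ℝ) * (m / Q)) =
      if (Q : ℤ) ∣ m then 1 else 0 := by
  have hQR : (Q : ℝ) ≠ 0 := by positivity
  have hQC : (Q : ℂ) ≠ 0 := by exact_mod_cast hQ.ne'
  split_ifs with h
  · obtain ⟨q, rfl⟩ := h
    have : ∀ j ∈ Finset.range Q, ee ((j : ℝ) * (((Q * q : ℤ) : ℝ) / Q)) = 1 := by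
      intro j _
      have : ((j : ℝ) * (((Q * q : ℤ) : ℝ) / Q)) = ((j * q : ℤ) : ℝ) := by
        push_cast
        field_simp
      rw [this, ee_int]
    rw [Finset.sum_congr rfl this]
    simp [hQC]
  · have hne : ee ((m : ℝ) / Q) ≠ 1 := by
      intro hcon
      unfold ee at hcon
      rw [Complex.exp_eq_one_iff] at hcon
      obtain ⟨n, hn⟩ := hcon
      apply h
      have h2 : (2 * Real.pi * Complex.I : ℂ) ≠ 0 := Complex.two_pi_I_ne_zero
      have h3 : (((m : ℝ) / Q : ℝ) : ℂ) * (2 * Real.pi * Complex.I) =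
          n * (2 * Real.pi * Complex.I) := by
        rw [← hn]
        ring
      have h4 := mul_right_cancel₀ h2 h3
      have h5 : ((m : ℝ) / Q : ℝ) = (n : ℝ) := by exact_mod_cast h4
      rw [div_eq_iff hQR] at h5
      have h6 : m = n * Q := by exact_mod_cast h5
      exact ⟨n, by rw [h6]; ring⟩
    have hgeom : ∑ j ∈ Finset.range Q, ee ((j : ℝ) * (m / Q)) = 0 := by
      have h1 : ∀ j ∈ Finset.range Q, ee ((j : ℝ) * (m / Q)) = ee ((m : ℝ) / Q) ^ j :=
        fun j _ => Wiener_ee_nat_mul j _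
      rw [Finset.sum_congr rfl h1, geom_sum_eq hne]
      have : ee ((m : ℝ) / Q) ^ Q = 1 := by
        rw [← Wiener_ee_nat_mul]
        have : (Q : ℝ) * ((m : ℝ) / Q) = (m : ℝ) := by field_simp
        rw [this, ee_int]
      rw [this]
      simp
    rw [hgeom, mul_zero]

theorem Wiener_orth_small {Q : ℕ} (hQ : 0 < Q) {m : ℤ} (hm : |m| < Q) :
    (1 / (Q : ℂ)) * ∑ j ∈ Finset.range Q, ee ((j : ℝ) * (m / Q)) = if m = 0 then 1 else 0 := by
  rw [Wiener_orth hQ]
  have : ((Q : ℤ) ∣ m) ↔ m = 0 := by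
    constructor
    · intro h
      exact Int.eq_zero_of_abs_lt_dvd h hm
    · rintro rfl
      exact dvd_zero _
  simp only [this]

/-- The exponential sum with coefficients `g`. -/
noncomputable def Wiener_F (g : ℕ → ℝ) (N : ℕ) (φ : ℝ) : ℂ :=
  ∑ r ∈ Finset.range N, (g r : ℂ) * ee (r * φ)

theorem Wiener_F_norm_le {g : ℕ → ℝ} (hg : ∀ r, |g r| ≤ 1) (N : ℕ) (φ : ℝ) :
    ‖Wiener_F g N φ‖ ≤ N := by
  unfold Wiener_F
  refine (norm_sum_le _ _).trans ?_
  calc ∑ r ∈ Finset.range N, ‖(g r : ℂ) * ee (r * φ)‖ ≤ ∑ r ∈ Finset.range N, (1:ℝ) := by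
        refine Finset.sum_le_sum fun r _ => ?_
        rw [norm_mul, norm_ee, mul_one, Complex.norm_real]
        exact hg r
    _ = N := by simp

theorem Wiener_parseval {g : ℕ → ℝ} (hg : ∀ r, |g r| ≤ 1) {N Q : ℕ} {a : ℤ} (ha : a ≠ 0)
    (hQ : 0 < Q) (haQ : |a| * N ≤ Q) :
    (1 / (Q : ℝ)) * ∑ j ∈ Finset.range Q, ‖Wiener_F g N (a * ((j : ℝ) / Q))‖ ^ 2 ≤ N := by
  have hQR : (0:ℝ) < Q := by exact_mod_cast hQ
  have h1 : ∀ j : ℕ, ((‖Wiener_F g N (a * ((j : ℝ) / Q))‖ ^ 2 : ℝ) : ℂ) =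
      ∑ r ∈ Finset.range N, ∑ r' ∈ Finset.range N, ((g r : ℂ) * (g r' : ℂ)) *
        ee ((j : ℝ) * (((a * ((r : ℤ) - r') : ℤ) : ℝ) / Q)) := by
    intro j
    rw [← Complex.normSq_eq_norm_sq, ← Complex.mul_conj]
    unfold Wiener_F
    rw [map_sum, Finset.sum_mul_sum]
    apply Finset.sum_congr rfl
    intro r _
    apply Finset.sum_congr rfl
    intro r' _
    rw [map_mul, conj_ee, Complex.conj_ofReal]
    have : ee ((j : ℝ) * (((a * ((r : ℤ) - r') : ℤ) : ℝ) / Q)) =
        ee (r * (a * ((j : ℝ) / Q))) * ee (-(r' * (a * ((j : ℝ) / Q)))) := by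
      rw [← ee_add]
      congr 1
      push_cast
      ring
    rw [this]
    ring
  have h2 : (((1 / (Q : ℝ)) * ∑ j ∈ Finset.range Q,
      ‖Wiener_F g N (a * ((j : ℝ) / Q))‖ ^ 2 : ℝ) : ℂ) =
      ((∑ r ∈ Finset.range N, g r ^ 2 : ℝ) : ℂ) := by
    rw [Complex.ofReal_mul, Complex.ofReal_sum]
    rw [Finset.sum_congr rfl (fun j _ => h1 j)]
    rw [Finset.sum_comm, Finset.mul_sum, Complex.ofReal_sum]
    apply Finset.sum_congr rfl
    intro r hr
    rw [Finset.sum_comm, Finset.mul_sum]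
    have h3 : ∀ r' ∈ Finset.range N, ((1 / (Q : ℝ) : ℝ) : ℂ) *
        ∑ j ∈ Finset.range Q, ((g r : ℂ) * (g r' : ℂ)) *
        ee ((j : ℝ) * (((a * ((r : ℤ) - r') : ℤ) : ℝ) / Q)) =
        if r' = r then (g r : ℂ) ^ 2 else 0 := by
      intro r' hr'
      rw [← Finset.mul_sum]
      have hsm : |a * ((r : ℤ) - r')| < Q := by
        rw [Finset.mem_range] at hr hr'
        rw [abs_mul]
        have : |(r : ℤ) - r'| < N := by
          rw [abs_lt]
          constructor <;> omega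
        have ha' : 0 < |a| := abs_pos.mpr ha
        calc |a| * |(r : ℤ) - r'| < |a| * N := by
              exact mul_lt_mul_of_pos_left this ha'
          _ ≤ Q := haQ
      have h4 := Wiener_orth_small hQ hsm
      have h5 : ((1 / (Q : ℝ) : ℝ) : ℂ) = 1 / (Q : ℂ) := by push_cast; rfl
      rw [h5, mul_left_comm, h4]
      have h6 : (a * ((r : ℤ) - r') = 0) ↔ r' = r := by
        rw [mul_eq_zero]
        constructor
        · rintro (h | h)
          · exact absurd h ha
          · omega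
        · rintro rfl
          right
          simp
      by_cases h : r' = r
      · rw [if_pos (h6.mpr h), if_pos h, h]
        ring
      · rw [if_neg (fun h' => h (h6.mp h')), if_neg h, mul_zero]
    rw [Finset.sum_congr rfl h3]
    rw [Finset.sum_ite_eq', if_pos hr]
    push_cast
    rfl
  have h3 : (1 / (Q : ℝ)) * ∑ j ∈ Finset.range Q, ‖Wiener_F g N (a * ((j : ℝ) / Q))‖ ^ 2 =
      ∑ r ∈ Finset.range N, g r ^ 2 := by exact_mod_cast h2
  rw [h3]
  calc ∑ r ∈ Finset.range N, g r ^ 2 ≤ ∑ r ∈ Finset.range N, (1:ℝ) := by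
        refine Finset.sum_le_sum fun r _ => ?_
        rw [← sq_abs]
        exact pow_le_one₀ (abs_nonneg _) (hg r)
    _ = N := by simp

/-- The number of representations of `y`, weighted. -/
noncomputable def Wiener_U (a : I → ℤ) (N : ℕ) (s : ℤ) (f : I → ℕ → ℝ) (y : ℤ) : ℝ :=
  ∑ r ∈ (Fintype.piFinset (fun _ : I => Finset.range N)).filter
    (fun r => ∑ i, a i * (r i : ℤ) + s = y), ∏ i, f i (r i)

theorem Wiener_prod_F (a : I → ℤ) (N : ℕ) (f : I → ℕ → ℝ) (θ : ℝ) :
    ∏ i, Wiener_F (f i) N (a i * θ) =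
      ∑ r ∈ Fintype.piFinset (fun _ : I => Finset.range N),
        ((∏ i, f i (r i) : ℝ) : ℂ) * ee (((∑ i, a i * (r i : ℤ) : ℤ) : ℝ) * θ) := by
  unfold Wiener_F
  rw [Finset.prod_univ_sum]
  apply Finset.sum_congr rfl
  intro r _
  rw [Finset.prod_mul_distrib, Complex.ofReal_prod]
  congr 1
  have h : ∀ (F : Finset I), ∏ i ∈ F, ee ((r i : ℝ) * (a i * θ)) =
      ee (((∑ i ∈ F, a i * (r i : ℤ) : ℤ) : ℝ) * θ) := by
    intro F
    induction F using Finset.induction_on with
    | empty => simp [ee_zero]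
    | insert i F hi ih =>
      rw [Finset.prod_insert hi, ih, Finset.sum_insert hi, ← ee_add]
      congr 1
      push_cast
      ring
  exact h Finset.univ

theorem Wiener_prod_F_le (a : I → ℤ) {l l' : I} (hll : l ≠ l') (N : ℕ) {f : I → ℕ → ℝ}
    (hf : ∀ i r, |f i r| ≤ 1) (θ : ℝ) :
    ‖∏ i, Wiener_F (f i) N (a i * θ)‖ ≤
      (N : ℝ) ^ (Fintype.card I - 2) * ((‖Wiener_F (f l) N (a l * θ)‖ ^ 2 +
        ‖Wiener_F (f l') N (a l' * θ)‖ ^ 2) / 2) := by
  rw [norm_prod, ← Finset.mul_prod_erase _ _ (Finset.mem_univ l),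
    ← Finset.mul_prod_erase _ _ (Finset.mem_erase.mpr ⟨hll.symm, Finset.mem_univ l'⟩)]
  have h1 : ∏ i ∈ (Finset.univ.erase l).erase l', ‖Wiener_F (f i) N (a i * θ)‖ ≤
      (N : ℝ) ^ (Fintype.card I - 2) := by
    calc ∏ i ∈ (Finset.univ.erase l).erase l', ‖Wiener_F (f i) N (a i * θ)‖
        ≤ ∏ i ∈ (Finset.univ.erase l).erase l', (N : ℝ) :=
          Finset.prod_le_prod (fun i _ => norm_nonneg _) (fun i _ => Wiener_F_norm_le (hf i) N _)
      _ = (N : ℝ) ^ (Fintype.card I - 2) := by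
          rw [Finset.prod_const, Finset.card_erase_of_mem
            (Finset.mem_erase.mpr ⟨hll.symm, Finset.mem_univ l'⟩),
            Finset.card_erase_of_mem (Finset.mem_univ l), Finset.card_univ]
          congr 1
  set u := ‖Wiener_F (f l) N (a l * θ)‖
  set v := ‖Wiener_F (f l') N (a l' * θ)‖
  set w := ∏ i ∈ (Finset.univ.erase l).erase l', ‖Wiener_F (f i) N (a i * θ)‖
  have hu : 0 ≤ u := norm_nonneg _
  have hv : 0 ≤ v := norm_nonneg _
  have hw : 0 ≤ w := Finset.prod_nonneg (fun i _ => norm_nonneg _)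
  have h2 : u * v ≤ (u ^ 2 + v ^ 2) / 2 := by nlinarith [sq_nonneg (u - v)]
  calc u * (v * w) = w * (u * v) := by ring
    _ ≤ (N : ℝ) ^ (Fintype.card I - 2) * ((u ^ 2 + v ^ 2) / 2) := by gcongr

theorem Wiener_fourier (a : I → ℤ) {l l' : I} (hll : l ≠ l') (hl : a l ≠ 0) (hl' : a l' ≠ 0)
    (N : ℕ) (s : ℤ) {f : I → ℕ → ℝ} (hf : ∀ i r, |f i r| ≤ 1) (W : Finset ℕ) (μ : ℕ → ℝ)
    {ε : ℝ} (hε : 0 ≤ ε) (hμ : ∀ φ : ℝ, ‖∑ x ∈ W, (μ x : ℂ) * ee (x * φ)‖ ≤ ε) (t : ℤ) :
    |∑ x ∈ W, μ x * Wiener_U a N s f (t * x)| ≤ ε * (N : ℝ) ^ (Fintype.card I - 1) := by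
  set Bx := Fintype.piFinset (fun _ : I => Finset.range N) with hBx
  obtain ⟨Q, hQ0, hQ1, hQ2, hQ3⟩ : ∃ Q : ℕ, 0 < Q ∧ |a l| * N ≤ Q ∧ |a l'| * N ≤ Q ∧
      ∀ r ∈ Bx, ∀ x ∈ W, |(∑ i, a i * (r i : ℤ) + s) - t * x| < (Q : ℤ) := by
    refine ⟨(|a l| * N + |a l'| * N + ∑ r ∈ Bx, ∑ x ∈ W,
      |(∑ i, a i * (r i : ℤ) + s) - t * x| + 1).toNat, ?_, ?_, ?_, ?_⟩
    · have h1 : 0 ≤ |a l| * N := by positivity
      have h2 : 0 ≤ |a l'| * N := by positivity
      have h3 : 0 ≤ ∑ r ∈ Bx, ∑ x ∈ W, |(∑ i, a i * (r i : ℤ) + s) - t * x| := by positivity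
      omega
    · have h1 : 0 ≤ |a l| * N := by positivity
      have h2 : 0 ≤ |a l'| * N := by positivity
      have h3 : 0 ≤ ∑ r ∈ Bx, ∑ x ∈ W, |(∑ i, a i * (r i : ℤ) + s) - t * x| := by positivity
      omega
    · have h1 : 0 ≤ |a l| * N := by positivity
      have h2 : 0 ≤ |a l'| * N := by positivity
      have h3 : 0 ≤ ∑ r ∈ Bx, ∑ x ∈ W, |(∑ i, a i * (r i : ℤ) + s) - t * x| := by positivity
      omega
    · intro r hr x hx
      have h1 : 0 ≤ |a l| * N := by positivity
      have h2 : 0 ≤ |a l'| * N := by positivity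
      have h3 : |(∑ i, a i * (r i : ℤ) + s) - t * x| ≤ 
          ∑ r ∈ Bx, ∑ x ∈ W, |(∑ i, a i * (r i : ℤ) + s) - t * x| := by
        calc |(∑ i, a i * (r i : ℤ) + s) - t * x| ≤
              ∑ x ∈ W, |(∑ i, a i * (r i : ℤ) + s) - t * x| :=
              Finset.single_le_sum (f := fun x : ℕ => |(∑ i, a i * (r i : ℤ) + s) - t * x|)
                (fun x _ => abs_nonneg _) hx
          _ ≤ _ := Finset.single_le_sum
              (f := fun r : I → ℕ => ∑ x ∈ W, |(∑ i, a i * (r i : ℤ) + s) - t * x|)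
              (fun r _ => Finset.sum_nonneg (fun x _ => abs_nonneg _)) hr
      omega
  have hQR : (0:ℝ) < Q := by exact_mod_cast hQ0
  have hQC : (Q : ℂ) ≠ 0 := by exact_mod_cast hQ0.ne'
  have key : ((∑ x ∈ W, μ x * Wiener_U a N s f (t * x) : ℝ) : ℂ) =
      (1 / (Q : ℂ)) * ∑ j ∈ Finset.range Q, ee (s * ((j : ℝ) / Q)) *
        ((∑ x ∈ W, (μ x : ℂ) * ee (x * (-t * ((j : ℝ) / Q)))) *
          ∏ i, Wiener_F (f i) N (a i * ((j : ℝ) / Q))) := by
    have hU : ∀ x ∈ W, ((Wiener_U a N s f (t * x) : ℝ) : ℂ) =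
        ∑ r ∈ Bx, ((∏ i, f i (r i) : ℝ) : ℂ) * ((1 / (Q : ℂ)) * ∑ j ∈ Finset.range Q,
          ee ((j : ℝ) * ((((∑ i, a i * (r i : ℤ) + s) - t * x : ℤ) : ℝ) / Q))) := by
      intro x hx
      unfold Wiener_U
      rw [Finset.sum_filter, Complex.ofReal_sum]
      apply Finset.sum_congr rfl
      intro r hr
      rw [Wiener_orth_small hQ0 (hQ3 r hr x hx)]
      by_cases h : ∑ i, a i * (r i : ℤ) + s = t * x
      · rw [if_pos h, if_pos (by rw [h]; ring), mul_one]
      · rw [if_neg h, if_neg (by intro h'; apply h; linarith)]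
        simp
    rw [Complex.ofReal_sum]
    have h1 : ∀ x ∈ W, ((μ x * Wiener_U a N s f (t * x) : ℝ) : ℂ) =
        (1 / (Q : ℂ)) * ∑ j ∈ Finset.range Q, ∑ r ∈ Bx,
          ee (s * ((j : ℝ) / Q)) * (((μ x : ℂ) * ee (x * (-t * ((j : ℝ) / Q)))) *
          (((∏ i, f i (r i) : ℝ) : ℂ) * ee (((∑ i, a i * (r i : ℤ) : ℤ) : ℝ) * ((j : ℝ) / Q)))) := by
      intro x hx
      rw [Complex.ofReal_mul, hU x hx, Finset.mul_sum, Finset.sum_comm, Finset.mul_sum]
      apply Finset.sum_congr rfl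
      intro r _
      rw [Finset.mul_sum, Finset.mul_sum, Finset.mul_sum, Finset.mul_sum]
      apply Finset.sum_congr rfl
      intro j _
      have : ee ((j : ℝ) * ((((∑ i, a i * (r i : ℤ) + s) - t * x : ℤ) : ℝ) / Q)) =
          ee (s * ((j : ℝ) / Q)) * (ee (x * (-t * ((j : ℝ) / Q))) *
            ee (((∑ i, a i * (r i : ℤ) : ℤ) : ℝ) * ((j : ℝ) / Q))) := by
        rw [← ee_add, ← ee_add]
        congr 1
        push_cast
        ring
      rw [this]
      ring
    rw [Finset.sum_congr rfl h1, ← Finset.mul_sum, Finset.sum_comm]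
    congr 1
    apply Finset.sum_congr rfl
    intro j _
    rw [Wiener_prod_F, Finset.sum_mul_sum, Finset.mul_sum]
    apply Finset.sum_congr rfl
    intro x _
    rw [Finset.mul_sum]
  have hnorm : |∑ x ∈ W, μ x * Wiener_U a N s f (t * x)| =
      ‖((∑ x ∈ W, μ x * Wiener_U a N s f (t * x) : ℝ) : ℂ)‖ := by
    rw [Complex.norm_real, Real.norm_eq_abs]
  rw [hnorm, key, norm_mul]
  have h1 : ‖(1 / (Q : ℂ))‖ = 1 / (Q : ℝ) := by
    rw [norm_div, norm_one, Complex.norm_natCast]
  rw [h1]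
  have h2 : ‖∑ j ∈ Finset.range Q, ee (s * ((j : ℝ) / Q)) *
        ((∑ x ∈ W, (μ x : ℂ) * ee (x * (-t * ((j : ℝ) / Q)))) *
          ∏ i, Wiener_F (f i) N (a i * ((j : ℝ) / Q)))‖ ≤
      ∑ j ∈ Finset.range Q, ε * ((N : ℝ) ^ (Fintype.card I - 2) *
        ((‖Wiener_F (f l) N (a l * ((j : ℝ) / Q))‖ ^ 2 +
        ‖Wiener_F (f l') N (a l' * ((j : ℝ) / Q))‖ ^ 2) / 2)) := by
    refine (norm_sum_le _ _).trans (Finset.sum_le_sum fun j _ => ?_)
    rw [norm_mul, norm_ee, one_mul, norm_mul]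
    exact mul_le_mul (hμ _) (Wiener_prod_F_le a hll N hf _) (norm_nonneg _) hε
  have hp1 := Wiener_parseval (hf l) hl hQ0 hQ1
  have hp2 := Wiener_parseval (hf l') hl' hQ0 hQ2
  have hd : 2 ≤ Fintype.card I := by
    have : 1 < Fintype.card I := Fintype.one_lt_card_iff.mpr ⟨l, l', hll⟩
    omega
  calc 1 / (Q : ℝ) * ‖∑ j ∈ Finset.range Q, ee (s * ((j : ℝ) / Q)) *
        ((∑ x ∈ W, (μ x : ℂ) * ee (x * (-t * ((j : ℝ) / Q)))) *
          ∏ i, Wiener_F (f i) N (a i * ((j : ℝ) / Q)))‖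
      ≤ 1 / (Q : ℝ) * ∑ j ∈ Finset.range Q, ε * ((N : ℝ) ^ (Fintype.card I - 2) *
        ((‖Wiener_F (f l) N (a l * ((j : ℝ) / Q))‖ ^ 2 +
        ‖Wiener_F (f l') N (a l' * ((j : ℝ) / Q))‖ ^ 2) / 2)) := by gcongr
    _ = ε * (N : ℝ) ^ (Fintype.card I - 2) *
        ((1 / (Q : ℝ) * ∑ j ∈ Finset.range Q, ‖Wiener_F (f l) N (a l * ((j : ℝ) / Q))‖ ^ 2 +
          1 / (Q : ℝ) * ∑ j ∈ Finset.range Q, ‖Wiener_F (f l') N (a l' * ((j : ℝ) / Q))‖ ^ 2) /
          2) := by
        rw [← Finset.mul_sum, ← Finset.mul_sum, ← Finset.sum_div, Finset.sum_add_distrib]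
        ring
    _ ≤ ε * (N : ℝ) ^ (Fintype.card I - 2) * ((N + N) / 2) := by
        gcongr
    _ = ε * (N : ℝ) ^ (Fintype.card I - 1) := by
        have : (N : ℝ) ^ (Fintype.card I - 1) = (N : ℝ) ^ (Fintype.card I - 2) * N := by
          rw [← pow_succ]
          congr 1
          omega
        rw [this]
        ring


/-! ### Windows -/

theorem Wiener_avN_eq (a : I → ℤ) {S N x : ℕ} (hx : 0 < x) (hN : N ≤ x) {s : ℤ}
    (hs : |s| ≤ (S : ℤ)) (f : I → ℕ → ℝ) :
    Wiener_avN a N x s f = (1 / (N : ℝ) ^ (Fintype.card I - 1)) *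
      ∑ t ∈ Finset.Icc (-((∑ i, (a i).natAbs + S : ℕ) : ℤ)) ((∑ i, (a i).natAbs + S : ℕ) : ℤ),
        Wiener_U a N s f (t * x) := by
  unfold Wiener_avN Wiener_U
  congr 1
  have hx' : (0 : ℤ) < x := by exact_mod_cast hx
  have hmaps : ∀ r ∈ Wiener_RN a N x s, (∑ i, a i * (r i : ℤ) + s) / (x : ℤ) ∈
      Finset.Icc (-((∑ i, (a i).natAbs + S : ℕ) : ℤ)) ((∑ i, (a i).natAbs + S : ℕ) : ℤ) := by
    intro r hr
    unfold Wiener_RN at hr
    rw [Finset.mem_filter, Fintype.mem_piFinset] at hr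
    obtain ⟨hr1, q, hq⟩ := hr
    rw [hq, Int.mul_ediv_cancel_left _ hx'.ne', Finset.mem_Icc, ← abs_le]
    have h1 : |∑ i, a i * (r i : ℤ) + s| ≤ (∑ i, (a i).natAbs + S : ℕ) * (x : ℤ) := by
      calc |∑ i, a i * (r i : ℤ) + s| ≤ |∑ i, a i * (r i : ℤ)| + |s| := abs_add_le _ _
        _ ≤ ∑ i, |a i * (r i : ℤ)| + S := add_le_add (Finset.abs_sum_le_sum_abs _ _) hs
        _ ≤ ∑ i, ((a i).natAbs : ℤ) * x + S * x := by
            apply add_le_add
            · apply Finset.sum_le_sum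
              intro i _
              rw [abs_mul, Int.natCast_natAbs]
              apply mul_le_mul_of_nonneg_left _ (abs_nonneg _)
              have : r i < N := Finset.mem_range.mp (hr1 i)
              rw [abs_of_nonneg (by positivity)]
              have : r i ≤ x := by omega
              exact_mod_cast this
            · have : (S : ℤ) * 1 ≤ S * x := by
                apply mul_le_mul_of_nonneg_left _ (by positivity)
                omega
              linarith
        _ = (∑ i, (a i).natAbs + S : ℕ) * (x : ℤ) := by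
            push_cast
            rw [← Finset.sum_mul]
            ring
    rw [hq, abs_mul, abs_of_pos hx'] at h1
    rw [mul_comm] at h1
    exact le_of_mul_le_mul_right h1 hx'
  rw [← Finset.sum_fiberwise_of_maps_to hmaps]
  apply Finset.sum_congr rfl
  intro t _
  apply Finset.sum_congr _ (fun _ _ => rfl)
  ext r
  unfold Wiener_RN
  rw [Finset.mem_filter, Finset.mem_filter, Finset.mem_filter]
  constructor
  · rintro ⟨⟨h1, h2⟩, h3⟩
    refine ⟨h1, ?_⟩
    rw [← h3]
    exact (Int.ediv_mul_cancel h2).symm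
  · rintro ⟨h1, h2⟩
    refine ⟨⟨h1, ?_⟩, ?_⟩
    · rw [h2]
      exact Dvd.intro_left t rfl
    · rw [h2, Int.mul_ediv_cancel _ hx'.ne']

theorem Wiener_windows {X K : ℕ} (hX : 0 < X) (hK : 0 < K) (g : ℕ → ℝ) :
    ∑ x ∈ Finset.Ico X (2 * X), g x = ∑ k ∈ Finset.range K,
      ∑ x ∈ (Finset.Ico X (2 * X)).filter (fun x : ℕ => (1 + (k : ℝ) / K) * X ≤ (x : ℝ) ∧
        (x : ℝ) < (1 + ((k : ℝ) + 1) / K) * X), g x := by
  have hKR : (0:ℝ) < K := by exact_mod_cast hK
  have hmaps : ∀ x ∈ Finset.Ico X (2 * X), (x - X) * K / X ∈ Finset.range K := by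
    intro x hx
    rw [Finset.mem_Ico] at hx
    rw [Finset.mem_range, Nat.div_lt_iff_lt_mul hX, mul_comm]
    apply Nat.mul_lt_mul_of_pos_left _ hK
    omega
  rw [← Finset.sum_fiberwise_of_maps_to hmaps]
  apply Finset.sum_congr rfl
  intro k _
  apply Finset.sum_congr _ (fun _ _ => rfl)
  apply Finset.filter_congr
  intro x hx
  rw [Finset.mem_Ico] at hx
  have h1 : (x - X) * K / X = k ↔ k * X ≤ (x - X) * K ∧ (x - X) * K < (k + 1) * X := by
    constructor
    · intro h
      constructor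
      · rw [← h]
        exact Nat.div_mul_le_self _ _
      · rw [← h]
        exact Nat.lt_mul_of_div_lt (Nat.lt_succ_self _) hX
    · rintro ⟨h2, h3⟩
      apply le_antisymm
      · have := (Nat.div_lt_iff_lt_mul hX).mpr h3
        omega
      · exact (Nat.le_div_iff_mul_le hX).mpr h2
  rw [h1]
  have h2 : ((x - X : ℕ) : ℝ) = (x : ℝ) - X := by
    rw [Nat.cast_sub hx.1]
  have h3 : (k * X ≤ (x - X) * K) ↔ (k : ℝ) * X ≤ ((x : ℝ) - X) * K := by
    rw [← h2]
    exact_mod_cast Iff.rfl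
  have h4 : ((x - X) * K < (k + 1) * X) ↔ ((x : ℝ) - X) * K < ((k : ℝ) + 1) * X := by
    rw [← h2]
    exact_mod_cast Iff.rfl
  rw [h3, h4]
  have h5 : (1 + (k : ℝ) / K) * X ≤ (x : ℝ) ↔ (k : ℝ) * X ≤ ((x : ℝ) - X) * K := by
    rw [← sub_nonneg, ← sub_nonneg (b := (k : ℝ) * X)]
    have : ((x : ℝ) - X) * K - (k : ℝ) * X = K * ((x : ℝ) - (1 + (k : ℝ) / K) * X) := by
      field_simp
      ring
    rw [this]
    constructor
    · intro h
      exact mul_nonneg hKR.le h
    · intro h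
      exact nonneg_of_mul_nonneg_right h hKR
  have h6 : (x : ℝ) < (1 + ((k : ℝ) + 1) / K) * X ↔ ((x : ℝ) - X) * K < ((k : ℝ) + 1) * X := by
    rw [← sub_pos, ← sub_pos (b := ((x : ℝ) - X) * K)]
    have : ((k : ℝ) + 1) * X - ((x : ℝ) - X) * K =
        K * ((1 + ((k : ℝ) + 1) / K) * X - (x : ℝ)) := by
      field_simp
      ring
    rw [this]
    constructor
    · intro h
      exact mul_pos hKR h
    · intro h
      exact pos_of_mul_pos_right h hKR.le
  rw [h5, h6]

/-- Functions of the form `x ↦ avB a x s f` see only the Fourier transform on short intervals. -/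
theorem wiener (a : I → ℤ) {l l' : I} (hll : l ≠ l') (hl : a l ≠ 0) (hl' : a l' ≠ 0) (S : ℕ) :
    ∃ C : ℝ, 0 < C ∧ ∀ (X : ℕ), 0 < X → ∀ (K : ℕ), 0 < K → ∀ (μ : ℕ → ℝ) (ε M : ℝ), 0 ≤ ε →
      (∑ x ∈ Finset.Ico X (2 * X), |μ x|) ≤ M →
      (∀ u v : ℝ, 1 ≤ u → u ≤ v → v ≤ 2 → ∀ φ : ℝ,
        ‖∑ x ∈ (Finset.Ico X (2 * X)).filter (fun x : ℕ => u * X ≤ (x : ℝ) ∧ (x : ℝ) < v * X),
          (μ x : ℂ) * ee (x * φ)‖ ≤ ε) →
      ∀ f : I → ℕ → ℝ, (∀ i r, |f i r| ≤ 1) → ∀ s : ℤ, |s| ≤ (S : ℤ) →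
        |∑ x ∈ Finset.Ico X (2 * X), μ x * avB a x s f| ≤ C * (K * ε + M / K) := by
  set A : ℕ := max (a l).natAbs (a l').natAbs with hAdef
  set T : ℕ := ∑ i, (a i).natAbs + S with hT
  refine ⟨(2 * T + 1) + 2 * Fintype.card I * A, by positivity, ?_⟩
  intro X hX K hK μ ε M hε hM hW f hf s hs
  have hXR : (0:ℝ) < X := by exact_mod_cast hX
  have hKR : (0:ℝ) < K := by exact_mod_cast hK
  set W : ℕ → Finset ℕ := fun k => (Finset.Ico X (2 * X)).filter
    (fun x : ℕ => (1 + (k : ℝ) / K) * X ≤ (x : ℝ) ∧ (x : ℝ) < (1 + ((k : ℝ) + 1) / K) * X) with hWd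
  set c : ℝ := 2 * Fintype.card I * A with hc
  have hc0 : 0 ≤ c := by positivity
  have hwin : ∀ k ∈ Finset.range K, |∑ x ∈ W k, μ x * avB a x s f| ≤
      (2 * T + 1) * ε + c / K * ∑ x ∈ W k, |μ x| := by
    intro k hk
    rw [Finset.mem_range] at hk
    have hkR : (k : ℝ) + 1 ≤ K := by exact_mod_cast hk
    set N := ⌈(1 + (k : ℝ) / K) * X⌉₊ with hN
    have hN0 : 0 < N := by
      rw [hN, Nat.ceil_pos]
      positivity
    have hNR : (0:ℝ) < N := by exact_mod_cast hN0
    have hNx : ∀ x ∈ W k, N ≤ x := by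
      intro x hx
      rw [hWd, Finset.mem_filter] at hx
      exact Nat.ceil_le.mpr hx.2.1
    have hXx : ∀ x ∈ W k, X ≤ x := by
      intro x hx
      rw [hWd, Finset.mem_filter, Finset.mem_Ico] at hx
      exact hx.1.1
    have hmain : |∑ x ∈ W k, μ x * Wiener_avN a N x s f| ≤ (2 * T + 1) * ε := by
      have h1 : ∑ x ∈ W k, μ x * Wiener_avN a N x s f =
          (1 / (N : ℝ) ^ (Fintype.card I - 1)) * ∑ t ∈ Finset.Icc (-(T : ℤ)) (T : ℤ),
            ∑ x ∈ W k, μ x * Wiener_U a N s f (t * x) := by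
        rw [Finset.sum_comm, Finset.mul_sum]
        apply Finset.sum_congr rfl
        intro x hx
        rw [Wiener_avN_eq a (lt_of_lt_of_le hX (hXx x hx)) (hNx x hx) hs f, ← Finset.mul_sum]
        ring
      rw [h1, abs_mul, abs_of_pos (by positivity)]
      have h2 : |∑ t ∈ Finset.Icc (-(T : ℤ)) (T : ℤ),
            ∑ x ∈ W k, μ x * Wiener_U a N s f (t * x)| ≤
          (2 * T + 1) * (ε * (N : ℝ) ^ (Fintype.card I - 1)) := by
        calc |∑ t ∈ Finset.Icc (-(T : ℤ)) (T : ℤ),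
              ∑ x ∈ W k, μ x * Wiener_U a N s f (t * x)|
            ≤ ∑ t ∈ Finset.Icc (-(T : ℤ)) (T : ℤ),
              |∑ x ∈ W k, μ x * Wiener_U a N s f (t * x)| := Finset.abs_sum_le_sum_abs _ _
          _ ≤ ∑ t ∈ Finset.Icc (-(T : ℤ)) (T : ℤ), (ε * (N : ℝ) ^ (Fintype.card I - 1)) := by
              apply Finset.sum_le_sum
              intro t _
              apply Wiener_fourier a hll hl hl' N s hf (W k) μ hε _ t
              intro φ
              have h3 := hW (1 + (k : ℝ) / K) (1 + ((k : ℝ) + 1) / K) (by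
                have : 0 ≤ (k : ℝ) / K := by positivity
                linarith) (by
                have : (k : ℝ) / K ≤ ((k : ℝ) + 1) / K := by
                  gcongr
                  linarith
                linarith) (by
                have : ((k : ℝ) + 1) / K ≤ 1 := by
                  rw [div_le_one hKR]
                  exact hkR
                linarith) φ
              exact h3
          _ = (2 * T + 1) * (ε * (N : ℝ) ^ (Fintype.card I - 1)) := by
              rw [Finset.sum_const, Int.card_Icc, nsmul_eq_mul]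
              congr 1
              have : ((T : ℤ) + 1 - -(T : ℤ)).toNat = 2 * T + 1 := by omega
              rw [this]
              push_cast
              ring
      calc 1 / (N : ℝ) ^ (Fintype.card I - 1) * |∑ t ∈ Finset.Icc (-(T : ℤ)) (T : ℤ),
            ∑ x ∈ W k, μ x * Wiener_U a N s f (t * x)| ≤
          1 / (N : ℝ) ^ (Fintype.card I - 1) *
            ((2 * T + 1) * (ε * (N : ℝ) ^ (Fintype.card I - 1))) := by gcongr
        _ = (2 * T + 1) * ε := by
            have : (N : ℝ) ^ (Fintype.card I - 1) ≠ 0 := by positivity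
            field_simp
    have herr : |∑ x ∈ W k, μ x * (avB a x s f - Wiener_avN a N x s f)| ≤
        c / K * ∑ x ∈ W k, |μ x| := by
      rw [Finset.mul_sum]
      refine (Finset.abs_sum_le_sum_abs _ _).trans (Finset.sum_le_sum fun x hx => ?_)
      rw [abs_mul, mul_comm]
      apply mul_le_mul_of_nonneg_right _ (abs_nonneg _)
      refine (Wiener_avB_sub a hll hl hl' (le_max_left _ _) (le_max_right _ _) hN0
        (hNx x hx) s hf).trans ?_
      rw [← hAdef, ← hc]
      have hxX : (X : ℝ) ≤ x := by exact_mod_cast hXx x hx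
      have hxR : (0:ℝ) < x := lt_of_lt_of_le hXR hxX
      have h1 : ((x : ℝ) - N) / x ≤ 1 / K := by
        rw [div_le_div_iff₀ hxR hKR]
        have hNle : (1 + (k : ℝ) / K) * X ≤ N := Nat.le_ceil _
        have hxlt : (x : ℝ) < (1 + ((k : ℝ) + 1) / K) * X := by
          have := hx
          rw [hWd, Finset.mem_filter] at this
          exact this.2.2
        have h2 : (x : ℝ) - N ≤ X / K := by
          have : (1 + ((k : ℝ) + 1) / K) * X - (1 + (k : ℝ) / K) * X = X / K := by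
            field_simp
            ring
          linarith
        calc ((x : ℝ) - N) * K ≤ X / K * K := by gcongr
          _ = X := by field_simp
          _ ≤ 1 * x := by linarith
      calc c * (((x : ℝ) - N) / x) ≤ c * (1 / K) := by gcongr
        _ = c / K := by ring
    have hsplit : ∑ x ∈ W k, μ x * avB a x s f = ∑ x ∈ W k, μ x * Wiener_avN a N x s f +
        ∑ x ∈ W k, μ x * (avB a x s f - Wiener_avN a N x s f) := by
      rw [← Finset.sum_add_distrib]
      apply Finset.sum_congr rfl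
      intro x _
      ring
    rw [hsplit]
    exact (abs_add_le _ _).trans (add_le_add hmain herr)
  have hM0 : 0 ≤ M := (Finset.sum_nonneg fun x _ => abs_nonneg _).trans hM
  calc |∑ x ∈ Finset.Ico X (2 * X), μ x * avB a x s f|
      = |∑ k ∈ Finset.range K, ∑ x ∈ W k, μ x * avB a x s f| := by
        rw [Wiener_windows hX hK]
    _ ≤ ∑ k ∈ Finset.range K, |∑ x ∈ W k, μ x * avB a x s f| := Finset.abs_sum_le_sum_abs _ _
    _ ≤ ∑ k ∈ Finset.range K, ((2 * T + 1) * ε + c / K * ∑ x ∈ W k, |μ x|) :=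
        Finset.sum_le_sum hwin
    _ = (2 * T + 1) * (K * ε) + c / K * ∑ x ∈ Finset.Ico X (2 * X), |μ x| := by
        rw [Wiener_windows hX hK (fun x => |μ x|), Finset.sum_add_distrib, Finset.sum_const,
          Finset.card_range, nsmul_eq_mul, ← Finset.mul_sum]
        ring
    _ ≤ (2 * T + 1) * (K * ε) + c / K * M := by gcongr
    _ ≤ ((2 * T + 1) + c) * (K * ε + M / K) := by
        have h1 : 0 ≤ c * (K * ε) := by positivity
        have h2 : 0 ≤ (2 * (T : ℝ) + 1) * (M / K) := by positivity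
        have h3 : c / K * M = c * (M / K) := by ring
        rw [h3]
        nlinarith

end Pool.MP_67663b_nt.Odd
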