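import Pool.Agent.Lib.MP_67663b_nt.OddB.AuxB
import Pool.Agent.Lib.MP_67663b_nt.OddB.StepB
import Pool.Agent.Lib.MP_67663b_nt.OddB.Wiener
import Pool.Agent.Lib.MP_67663b_nt.OddB.Close
import Pool.Agent.Lib.MP_67663b_nt.OddB.APTheta

/-!
# The case of a rational relation, conclusion
-/

set_option autoImplicit false
open Filter Topology
namespace Pool.MP_67663b_nt.Odd

variable {I : Type} [Fintype I] [DecidableEq I]

theorem coprime_of_mem_blk {z : ℤ} (hz : z ≠ 0) {p m : ℕ} (hp : p ∈ blk m)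
    (h : z.natAbs < 2 ^ m) : IsCoprime z (p : ℤ) := by
  rw [mem_blk] at hp
  rw [Int.isCoprime_iff_gcd_eq_one, Int.gcd_comm]
  rw [show Int.gcd (p:ℤ) z = Nat.gcd p z.natAbs from rfl]
  rw [← Nat.coprime_iff_gcd_eq_one, Nat.Prime.coprime_iff_not_dvd hp.1]
  intro hd
  have := Nat.le_of_dvd (Int.natAbs_pos.mpr hz) hd
  omega

/-- `step_B` for an even number of factors and all primes of large blocks. -/
theorem step_B' (M : IMean) (α : I → ℝ) (hα : ∀ i, 0 < α i) (a : I → ℤ) (b : ℤ)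
    (hrel : (b : ℝ) = ∑ i, (a i : ℝ) * α i)
    (hind : ∀ c : I → ℤ, ∑ i, (c i : ℝ) * α i = 0 → ∀ i, c i = 0) (l : I) (hl : a l ≠ 0)
    (heven : Even (Fintype.card I)) (x : ℕ) :
    ∃ u : ℕ → ℝ, (∀ m, 0 ≤ u m) ∧ Summable u ∧ (0 < x → IsCoprime (a l) (x : ℤ) →
      ∀ m, (a l).natAbs < 2 ^ m →
        ∑ p ∈ blk m, (gB M α a b x + gB M α a b (p * x)) ^ 2 ≤ 2 ^ m * u m) := by
  by_cases hx : 0 < x ∧ IsCoprime (a l) (x : ℤ)
  · obtain ⟨u, h0, hs, hu⟩ := step_B M α hα a b hrel hind l hl hx.1 hx.2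
    refine ⟨u, h0, hs, fun _ _ m hm => ?_⟩
    have hall : (blk m).filter (fun p : ℕ => IsCoprime (a l) (p : ℤ)) = blk m := by
      rw [Finset.filter_eq_self]
      intro p hp
      exact coprime_of_mem_blk hl hp hm
    have := hu m
    rw [hall] at this
    refine le_trans (le_of_eq ?_) this
    refine Finset.sum_congr rfl fun p _ => ?_
    have hs : (-1 : ℝ) ^ (Fintype.card I + 1) = -1 := by
      rw [pow_succ, heven.neg_one_pow]
      ring
    rw [hs]
    ring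
  · exact ⟨fun _ => 0, fun _ => le_rfl, summable_zero, fun h1 h2 => absurd ⟨h1, h2⟩ hx⟩

theorem theta_mass {ε : ℝ} (hε : 0 < ε) : ∃ Z0 : ℝ, ∀ Z ≥ Z0,
    |(1 / Z) * ∑ p ∈ pr Z (2 * Z), Real.log p - 1| ≤ ε := by
  have h := ap_theta (r := 1) one_pos 0 (by simp) (u := 1) (v := 2) one_pos (by norm_num)
  rw [Metric.tendsto_atTop] at h
  obtain ⟨Z0, hZ0⟩ := h ε hε
  refine ⟨Z0, fun Z hZ => ?_⟩
  have := hZ0 Z hZ
  rw [Real.dist_eq] at this
  have e : (pr (1 * Z) (2 * Z)).filter (fun q => q ≡ 0 [MOD 1]) = pr Z (2 * Z) := by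
    rw [one_mul, Finset.filter_eq_self]
    intro q _
    exact Nat.modEq_one
  rw [e] at this
  norm_num at this
  norm_num
  exact this.le

theorem gB_one_small (M : IMean) (α : I → ℝ) (hα : ∀ i, 0 < α i) (a : I → ℤ) (b : ℤ)
    (hrel : (b : ℝ) = ∑ i, (a i : ℝ) * α i)
    (hind : ∀ c : I → ℤ, ∑ i, (c i : ℝ) * α i = 0 → ∀ i, c i = 0) {l l' : I} (hll : l ≠ l')
    (hl : a l ≠ 0) (hl' : a l' ≠ 0) (heven : Even (Fintype.card I)) {ε : ℝ} (hε : 0 < ε) :
    |2 * gB M α a b 1| ≤ 8 * ε := by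
  set g : ℕ → ℝ := gB M α a b with hg
  obtain ⟨Cw, hCw, hW⟩ := wiener a hll hl hl' (∑ i, |a i|).toNat
  choose u hu0 hus hu using step_B' M α hα a b hrel hind l hl heven
  obtain ⟨cb, hcb, mb, hmb⟩ := card_blk_ge
  obtain ⟨K, hK⟩ := exists_nat_ge (16 * Cw / ε)
  have hKpos : 0 < K := by
    have : (0:ℝ) < K := lt_of_lt_of_le (by positivity) hK
    exact_mod_cast this
  have hKpos' : (0:ℝ) < K := by exact_mod_cast hKpos
  set εF : ℝ := ε / (2 * Cw * K) with hεF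
  have hεFpos : 0 < εF := by positivity
  obtain ⟨m0, hm0⟩ := fourier_close hεFpos
  set A := (a l).natAbs with hA
  -- first scale
  obtain ⟨m, hmN, -, hm⟩ := pick {1} u (fun i _ m => hu0 i m) (fun i _ => hus i) 0
    (δ := cb * ε ^ 2) (by positivity) (max (max m0 mb) (A + 1))
  have hmm0 : m0 ≤ m := le_trans (le_trans (le_max_left _ _) (le_max_left _ _)) hmN
  have hmmb : mb ≤ m := le_trans (le_trans (le_max_right _ _) (le_max_left _ _)) hmN
  have hmA : A < 2 ^ m := by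
    have h1 : A + 1 ≤ m := le_trans (le_max_right _ _) hmN
    have h2 : m < 2 ^ m := Nat.lt_two_pow_self
    omega
  have hm1 := hm 1 (Finset.mem_singleton_self 1) 0 le_rfl
  rw [Nat.sub_zero] at hm1
  have hcardm := hmb m hmmb
  obtain ⟨m0', hm0'⟩ := hm0 m hmm0
  -- second scale
  obtain ⟨m', hmN', -, hm'⟩ := pick (blk m) u (fun i _ m => hu0 i m) (fun i _ => hus i) 0
    (δ := cb * ε ^ 2) (by positivity) (max (max m0' mb) (A + 1))
  have hmm0' : m0' ≤ m' := le_trans (le_trans (le_max_left _ _) (le_max_left _ _)) hmN'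
  have hmmb' : mb ≤ m' := le_trans (le_trans (le_max_right _ _) (le_max_left _ _)) hmN'
  have hmA' : A < 2 ^ m' := by
    have h1 : A + 1 ≤ m' := le_trans (le_max_right _ _) hmN'
    have h2 : m' < 2 ^ m' := Nat.lt_two_pow_self
    omega
  have hcardm' := hmb m' hmmb'
  obtain ⟨X0, hX0, hclose⟩ := hm0' m' hmm0'
  obtain ⟨Z0, hZ0⟩ := theta_mass hε
  -- third scale
  set T : Finset ℕ := blk m ∪ ((blk m' ×ˢ blk m).image (fun t => t.1 * t.2)) with hT
  set S2 : ℕ := m + m' + 3 with hS2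
  obtain ⟨Mx, hMN, hMS, hMx⟩ := pick T u (fun i _ m => hu0 i m) (fun i _ => hus i) S2
    (δ := ε ^ 2 / 12) (by positivity) (max (⌈X0⌉₊) (max (⌈Z0⌉₊ + S2) (A + 1 + S2)))
  set X : ℕ := 2 ^ Mx with hX
  have hXpos : 0 < X := by positivity
  have hXpos' : (0:ℝ) < X := by exact_mod_cast hXpos
  have hXX0 : X0 ≤ (X:ℝ) := by
    have h1 : ⌈X0⌉₊ ≤ Mx := le_trans (le_max_left _ _) hMN
    have h2 : ((⌈X0⌉₊ : ℕ) : ℝ) ≤ (X:ℝ) := by
      have : ⌈X0⌉₊ ≤ X := h1.trans (Nat.lt_two_pow_self).le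
      exact_mod_cast this
    exact (Nat.le_ceil X0).trans h2
  have hMZ : ⌈Z0⌉₊ + S2 ≤ Mx := le_trans (le_trans (le_max_left _ _) (le_max_right _ _)) hMN
  have hMA : A + 1 + S2 ≤ Mx := le_trans (le_trans (le_max_right _ _) (le_max_right _ _)) hMN
  -- the averaging estimate
  have key : ∀ x ∈ T, 0 < x → IsCoprime (a l) (x : ℤ) → ∀ Z : ℝ, (2:ℝ) ^ (Mx - S2) ≤ Z →
      Z ≤ 2 ^ (Mx - 1) →
      (1 / Z) * ∑ p ∈ pr Z (2 * Z), Real.log p * |g x + g (p * x)| ≤ ε ∧
      |(1 / Z) * ∑ p ∈ pr Z (2 * Z), Real.log p - 1| ≤ ε := by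
    intro x hxT hx0 hxc Z hZ1 hZ2
    have hZge1 : (1:ℝ) ≤ Z := le_trans (one_le_pow₀ (by norm_num)) hZ1
    obtain ⟨k, hk1, hk2⟩ := exists_nat_pow_near hZge1 (by norm_num : (1:ℝ) < 2)
    have hkl : Mx - S2 ≤ k := by
      by_contra h
      push Not at h
      have : (2:ℝ) ^ (k + 1) ≤ 2 ^ (Mx - S2) := pow_le_pow_right₀ (by norm_num) h
      linarith
    have hku : k ≤ Mx - 1 := by
      by_contra h
      push Not at h
      have : (2:ℝ) ^ (Mx - 1 + 1) ≤ 2 ^ k := pow_le_pow_right₀ (by norm_num) h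
      rw [pow_succ] at this
      have h3 : (0:ℝ) < 2 ^ (Mx - 1) := by positivity
      linarith
    constructor
    · have hk : A < 2 ^ k := by
        have h2 : k < 2 ^ k := Nat.lt_two_pow_self
        omega
      have hk' : A < 2 ^ (k + 1) := by
        have h2 : k + 1 < 2 ^ (k + 1) := Nat.lt_two_pow_self
        omega
      refine pr_avg hk1 hk2 (fun p => g x + g (p * x)) (hu x hx0 hxc k hk)
        (hu x hx0 hxc (k + 1) hk') hε.le ?_
      have e1 : Mx - (Mx - k) = k := by omega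
      have e2 : Mx - (Mx - (k + 1)) = k + 1 := by omega
      have b1 := hMx x hxT (Mx - k) (by omega)
      have b2 := hMx x hxT (Mx - (k + 1)) (by omega)
      rw [e1] at b1
      rw [e2] at b2
      have hkM : (k:ℝ) + 2 ≤ (Mx:ℝ) + 2 := by
        have : k ≤ Mx := by omega
        have : (k:ℝ) ≤ Mx := by exact_mod_cast this
        linarith
      have c1 : ((k:ℝ) + 2) * u x k ≤ ε ^ 2 / 12 :=
        le_trans (mul_le_mul_of_nonneg_right hkM (hu0 x k)) b1
      have c2 : ((k:ℝ) + 2) * u x (k + 1) ≤ ε ^ 2 / 12 :=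
        le_trans (mul_le_mul_of_nonneg_right hkM (hu0 x (k + 1))) b2
      nlinarith
    · refine hZ0 Z ?_
      have h1 : ((⌈Z0⌉₊ : ℕ) : ℝ) ≤ 2 ^ (Mx - S2) := by
        have h2 : ⌈Z0⌉₊ ≤ Mx - S2 := by omega
        have h3 : ⌈Z0⌉₊ ≤ 2 ^ (Mx - S2) := h2.trans (Nat.lt_two_pow_self).le
        exact_mod_cast h3
      exact (Nat.le_ceil Z0).trans (h1.trans hZ1)
  -- facts about blocks
  have hblk : ∀ {mm q : ℕ}, q ∈ blk mm → A < 2 ^ mm → 0 < q ∧ IsCoprime (a l) (q : ℤ) ∧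
      (2:ℝ) ≤ q ∧ (q:ℝ) ≤ 2 ^ (mm + 1) := by
    intro mm q hq hA'
    have hc := coprime_of_mem_blk hl hq hA'
    rw [mem_blk] at hq
    refine ⟨hq.1.pos, hc, by exact_mod_cast hq.1.two_le, ?_⟩
    have : (q:ℝ) ≤ ((2 ^ (mm + 1) : ℕ) : ℝ) := by exact_mod_cast hq.2.2.le
    simpa using this
  have hnem : (blk m).Nonempty := by
    rw [← Finset.card_pos]
    by_contra h
    have h0 : (blk m).card = 0 := by omega
    rw [h0] at hcardm
    have : 0 < cb * 2 ^ m := by positivity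
    simp at hcardm
    linarith
  have hnem' : (blk m').Nonempty := by
    rw [← Finset.card_pos]
    by_contra h
    have h0 : (blk m').card = 0 := by omega
    rw [h0] at hcardm'
    have : 0 < cb * 2 ^ m' := by positivity
    simp at hcardm'
    linarith
  have hNm : (0:ℝ) < ((blk m).card : ℝ) := by exact_mod_cast hnem.card_pos
  have hNm' : (0:ℝ) < ((blk m').card : ℝ) := by exact_mod_cast hnem'.card_pos
  have hgle : ∀ x : ℕ, 0 < x → IsCoprime (a l) (x : ℤ) → |g x| ≤ 1 :=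
    fun x h1 h2 => abs_gB_le_one M α b h1 h2
  -- averages over blocks
  have havg : ∀ (mm : ℕ) (x : ℕ), 0 < x → IsCoprime (a l) (x : ℤ) → A < 2 ^ mm →
      cb * 2 ^ mm ≤ mm * ((blk mm).card : ℝ) → ((mm:ℝ) + 2) * u x mm ≤ cb * ε ^ 2 →
      0 < ((blk mm).card : ℝ) →
      |g x + (1 / ((blk mm).card : ℝ)) * ∑ q ∈ blk mm, g (q * x)| ≤ ε := by
    intro mm x hx0 hxc hA' hcard hu' hN
    have h1 := block_avg hcb hcard (fun p => g x + g (p * x)) (hu x hx0 hxc mm hA') (δ := ε)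
      (by
        have : (mm:ℝ) * u x mm ≤ ((mm:ℝ) + 2) * u x mm :=
          mul_le_mul_of_nonneg_right (by linarith) (hu0 x mm)
        linarith) hε.le
    refine le_trans ?_ h1
    have e : g x + (1 / ((blk mm).card : ℝ)) * ∑ q ∈ blk mm, g (q * x) =
        (1 / ((blk mm).card : ℝ)) * ∑ q ∈ blk mm, (g x + g (q * x)) := by
      rw [Finset.sum_add_distrib, Finset.sum_const, nsmul_eq_mul, mul_add]
      field_simp
    rw [e, abs_mul, abs_of_pos (by positivity : (0:ℝ) < 1 / ((blk mm).card : ℝ))]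
    exact mul_le_mul_of_nonneg_left (Finset.abs_sum_le_sum_abs _ _) (by positivity)
  -- Z bounds
  have hpow : (X:ℝ) = 2 ^ Mx := by simp [hX]
  have hZ1 : ∀ q : ℕ, (2:ℝ) ≤ q → (q:ℝ) ≤ 2 ^ S2 → (2:ℝ) ^ (Mx - S2) ≤ (X:ℝ) / q ∧
      (X:ℝ) / q ≤ 2 ^ (Mx - 1) := by
    intro q hq1 hq2
    have hq0 : (0:ℝ) < q := by linarith
    constructor
    · rw [le_div_iff₀ hq0, hpow]
      calc (2:ℝ) ^ (Mx - S2) * q ≤ 2 ^ (Mx - S2) * 2 ^ S2 := by gcongr
        _ = 2 ^ Mx := by rw [← pow_add]; congr 1; omega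
    · rw [div_le_iff₀ hq0, hpow]
      calc (2:ℝ) ^ Mx = 2 ^ (Mx - 1) * 2 := by rw [← pow_succ]; congr 1; omega
        _ ≤ 2 ^ (Mx - 1) * q := by gcongr
  -- L2
  have hL2 : |L2 m (X:ℝ) g + (1 / ((blk m).card : ℝ)) * ∑ q ∈ blk m, g q| ≤ 2 * ε := by
    have hall : ∀ q ∈ blk m, (1 / ((X:ℝ) / q)) * ∑ p ∈ pr ((X:ℝ) / q) (2 * ((X:ℝ) / q)),
        Real.log p * |g q + g (p * q)| ≤ ε ∧
        |(1 / ((X:ℝ) / q)) * ∑ p ∈ pr ((X:ℝ) / q) (2 * ((X:ℝ) / q)), Real.log p - 1| ≤ ε := by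
      intro q hq
      obtain ⟨h1, h2, h3, h4⟩ := hblk hq hmA
      have h5 : (q:ℝ) ≤ 2 ^ S2 := h4.trans (pow_le_pow_right₀ (by norm_num) (by omega))
      obtain ⟨h6, h7⟩ := hZ1 q h3 h5
      exact key q (Finset.mem_union_left _ hq) h1 h2 _ h6 h7
    exact L2_close m hXpos' hnem g g (fun q hq => (hall q hq).1) (fun q hq => (hall q hq).2)
      (fun q hq => hgle q (hblk hq hmA).1 (hblk hq hmA).2.1)
  have hE1 : |g 1 + (1 / ((blk m).card : ℝ)) * ∑ q ∈ blk m, g q| ≤ ε := by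
    have := havg m 1 one_pos (by simpa using isCoprime_one_right) hmA hcardm hm1 hNm
    simpa using this
  -- L3
  have hL3q : ∀ q ∈ blk m, |L2 m' ((X:ℝ) / q) (fun y => g (y * q)) - g q| ≤ 3 * ε := by
    intro q hq
    obtain ⟨h1, h2, h3, h4⟩ := hblk hq hmA
    have hq0 : (0:ℝ) < q := by linarith
    have hall : ∀ q' ∈ blk m', (1 / ((X:ℝ) / q / q')) *
        ∑ p ∈ pr ((X:ℝ) / q / q') (2 * ((X:ℝ) / q / q')),
          Real.log p * |g (q' * q) + g (p * q' * q)| ≤ ε ∧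
        |(1 / ((X:ℝ) / q / q')) * ∑ p ∈ pr ((X:ℝ) / q / q') (2 * ((X:ℝ) / q / q')),
          Real.log p - 1| ≤ ε := by
      intro q' hq'
      obtain ⟨h1', h2', h3', h4'⟩ := hblk hq' hmA'
      have e : (X:ℝ) / q / q' = (X:ℝ) / ((q' * q : ℕ) : ℝ) := by
        push_cast
        rw [div_div, mul_comm]
      have h5 : ((q' * q : ℕ) : ℝ) ≤ 2 ^ S2 := by
        push_cast
        calc (q':ℝ) * q ≤ 2 ^ (m' + 1) * 2 ^ (m + 1) := by gcongr
          _ = 2 ^ (m' + 1 + (m + 1)) := (pow_add (2:ℝ) (m' + 1) (m + 1)).symm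
          _ ≤ 2 ^ S2 := pow_le_pow_right₀ (by norm_num) (by omega)
      have h5' : (2:ℝ) ≤ ((q' * q : ℕ) : ℝ) := by
        push_cast
        nlinarith
      obtain ⟨h6, h7⟩ := hZ1 (q' * q) h5' h5
      rw [e]
      have hmem : q' * q ∈ T := by
        refine Finset.mem_union_right _ (Finset.mem_image.mpr ⟨(q', q), ?_, rfl⟩)
        exact Finset.mem_product.mpr ⟨hq', hq⟩
      have hcop : IsCoprime (a l) ((q' * q : ℕ) : ℤ) := by
        push_cast
        exact h2'.mul_right h2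
      have := key (q' * q) hmem (Nat.mul_pos h1' h1) hcop _ h6 h7
      simpa only [mul_assoc] using this
    have hc := L2_close m' (X := (X:ℝ) / q) (by positivity) hnem' (fun y => g (y * q))
      (fun q' => g (q' * q)) (fun q' hq' => (hall q' hq').1) (fun q' hq' => (hall q' hq').2)
      (fun q' hq' => by
        have h2' := (hblk hq' hmA').2.1
        refine hgle _ (Nat.mul_pos (hblk hq' hmA').1 h1) ?_
        push_cast
        exact h2'.mul_right h2)
    have hm'q := hm' q hq 0 le_rfl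
    rw [Nat.sub_zero] at hm'q
    have he := havg m' q h1 h2 hmA' hcardm' hm'q hNm'
    rw [abs_le] at hc he ⊢
    constructor <;> linarith [hc.1, hc.2, he.1, he.2]
  have hL3 : |L3 m m' (X:ℝ) g - (1 / ((blk m).card : ℝ)) * ∑ q ∈ blk m, g q| ≤ 3 * ε := by
    unfold L3
    rw [smul_eq_mul, ← mul_sub, ← Finset.sum_sub_distrib, abs_mul,
      abs_of_pos (by positivity : (0:ℝ) < 1 / ((blk m).card : ℝ)), one_div,
      inv_mul_le_iff₀ hNm]
    refine (Finset.abs_sum_le_sum_abs _ _).trans ((Finset.sum_le_sum hL3q).trans ?_)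
    simp
  -- comparison by the Wiener lemma
  set μ : ℕ → ℝ := fun x => L2 m (X:ℝ) (fun y => if y = x then (1:ℝ) else 0) -
    L3 m m' (X:ℝ) (fun y => if y = x then (1:ℝ) else 0) with hμ
  have hexp : L2 m (X:ℝ) g - L3 m m' (X:ℝ) g = ∑ x ∈ Finset.Ico X (2 * X), μ x * g x := by
    rw [L2_expand m hXpos g, L3_expand m m' hXpos g, ← Finset.sum_sub_distrib]
    refine Finset.sum_congr rfl fun x _ => ?_
    simp only [smul_eq_mul, hμ]
    ring
  have hmass : ∑ x ∈ Finset.Ico X (2 * X), |μ x| ≤ 8 := by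
    have h2 := L2_expand m hXpos (fun _ => (1:ℝ))
    have h3 := L3_expand m m' hXpos (fun _ => (1:ℝ))
    simp only [smul_eq_mul, mul_one] at h2 h3
    have h4 := L2_one_le m hXpos'
    have h5 := L3_one_le m m' hXpos'
    have hnn : ∀ x : ℕ, ∀ y : ℕ, (0:ℝ) ≤ (if y = x then (1:ℝ) else 0) := by
      intro x y
      split_ifs <;> norm_num
    calc ∑ x ∈ Finset.Ico X (2 * X), |μ x|
        ≤ ∑ x ∈ Finset.Ico X (2 * X), (L2 m (X:ℝ) (fun y => if y = x then (1:ℝ) else 0) +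
            L3 m m' (X:ℝ) (fun y => if y = x then (1:ℝ) else 0)) := by
          refine Finset.sum_le_sum fun x _ => ?_
          refine (abs_sub _ _).trans (le_of_eq ?_)
          rw [abs_of_nonneg (L2_nonneg m hXpos' (hnn x)),
            abs_of_nonneg (L3_nonneg m m' hXpos' (hnn x))]
      _ ≤ 8 := by
          rw [Finset.sum_add_distrib, ← h2, ← h3]
          linarith
  have hfour : ∀ u v : ℝ, 1 ≤ u → u ≤ v → v ≤ 2 → ∀ φ : ℝ,
      ‖∑ x ∈ (Finset.Ico X (2 * X)).filter (fun x : ℕ => u * X ≤ (x : ℝ) ∧ (x : ℝ) < v * X),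
        (μ x : ℂ) * ee (x * φ)‖ ≤ εF := by
    intro u v hu1 huv hv2 φ
    have h1 := hclose (X:ℝ) hXX0 u v hu1 huv hv2 φ
    rw [BB_eq_L2 m hXpos' hu1 hv2, BB3_eq_L3 m m' hXpos' hu1 hv2, L2_expand m hXpos,
      L3_expand m m' hXpos, ← Finset.sum_sub_distrib] at h1
    refine le_trans (le_of_eq ?_) h1
    congr 1
    rw [Finset.sum_filter]
    refine Finset.sum_congr rfl fun x _ => ?_
    simp only [Complex.real_smul, hμ]
    split_ifs
    · push_cast
      ring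
    · simp
  have hcomp : |∑ x ∈ Finset.Ico X (2 * X), μ x * g x| ≤ ε := by
    have e1 : ∑ x ∈ Finset.Ico X (2 * X), μ x * g x =
        M.E (fun n => ∑ x ∈ Finset.Ico X (2 * X), μ x * (lam n *
          avB a x (sB α a b n) (fun i r => lam (bt (α i) n - r)))) := by
      rw [M.E_sum _ fun x _ => (bdd_gB α a b x).smul (μ x)]
      refine Finset.sum_congr rfl fun x _ => ?_
      rw [M.smul _ _ (bdd_gB α a b x)]
      rfl
    rw [e1]
    refine M.abs_E_le (Bdd.sum _ fun x _ => (bdd_gB α a b x).smul (μ x))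
      (Eventually.of_forall fun n => ?_)
    have e2 : ∑ x ∈ Finset.Ico X (2 * X), μ x * (lam n *
          avB a x (sB α a b n) (fun i r => lam (bt (α i) n - r))) =
        lam n * ∑ x ∈ Finset.Ico X (2 * X), μ x *
          avB a x (sB α a b n) (fun i r => lam (bt (α i) n - r)) := by
      rw [Finset.mul_sum]
      refine Finset.sum_congr rfl fun x _ => ?_
      ring
    rw [e2, abs_mul, abs_lam, one_mul]
    have hs : |sB α a b n| ≤ (((∑ i, |a i|).toNat : ℕ) : ℤ) := by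
      rw [Int.toNat_of_nonneg (Finset.sum_nonneg fun i _ => abs_nonneg _)]
      exact abs_sB_le α hα a b hrel n
    refine (hW X hXpos K hKpos μ εF 8 hεFpos.le hmass hfour
      (fun i r => lam (bt (α i) n - r)) (fun i r => (abs_lam _).le) _ hs).trans ?_
    have h1 : Cw * (K * εF) = ε / 2 := by
      rw [hεF]
      field_simp
    have h2 : Cw * (8 / K) ≤ ε / 2 := by
      rw [div_le_iff₀ hε] at hK
      rw [mul_div_assoc', div_le_iff₀ hKpos']
      nlinarith
    calc Cw * (K * εF + 8 / K) = Cw * (K * εF) + Cw * (8 / K) := by ring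
      _ ≤ ε / 2 + ε / 2 := by linarith
      _ = ε := by ring
  rw [← hexp] at hcomp
  rw [abs_le] at hcomp hL3 hE1 hL2 ⊢
  constructor <;> linarith [hcomp.1, hcomp.2, hL3.1, hL3.2, hE1.1, hE1.2, hL2.1, hL2.2]

theorem gB_one_eq_zero (M : IMean) (α : I → ℝ) (hα : ∀ i, 0 < α i) (a : I → ℤ) (b : ℤ)
    (hrel : (b : ℝ) = ∑ i, (a i : ℝ) * α i)
    (hind : ∀ c : I → ℤ, ∑ i, (c i : ℝ) * α i = 0 → ∀ i, c i = 0) {l l' : I} (hll : l ≠ l')
    (hl : a l ≠ 0) (hl' : a l' ≠ 0) (heven : Even (Fintype.card I)) : gB M α a b 1 = 0 := by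
  by_contra hne
  have hpos : 0 < |2 * gB M α a b 1| := abs_pos.mpr (mul_ne_zero two_ne_zero hne)
  have := gB_one_small M α hα a b hrel hind hll hl hl' heven
    (ε := |2 * gB M α a b 1| / 16) (by positivity)
  linarith

theorem gB_one (M : IMean) (α : I → ℝ) (a : I → ℤ) (b : ℤ) :
    gB M α a b 1 = M.E (fun n => lam n * ∏ i, lam (bt (α i) n)) := by
  unfold gB
  congr 1
  funext n
  congr 1
  unfold avB
  have : RR a 1 (sB α a b n) = {fun _ => 0} := by
    ext r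
    unfold RR
    simp only [Finset.mem_filter, Fintype.mem_piFinset, Finset.mem_range, Nat.lt_one_iff,
      Nat.cast_one, one_dvd, and_true, Finset.mem_singleton, funext_iff]
  rw [this]
  simp

/-- Main theorem: every even number of Beatty factors. -/
theorem main_full {I : Type} [Fintype I] (α : I → ℝ) (hα : ∀ i, 0 < α i)
    (hirr : ∀ i, Irrational (α i))
    (hind : ∀ c : I → ℤ, ∑ i, (c i : ℝ) * α i = 0 → ∀ i, c i = 0)
    (heven : Even (Fintype.card I)) :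
    Tendsto (logMean (fun n => lam n * ∏ i, lam (bt (α i) n))) atTop (𝓝 0) := by
  classical
  by_cases hA : ∀ (c0 : ℤ) (c : I → ℤ), (c0 : ℝ) + ∑ i, (c i : ℝ) * α i = 0 → ∀ i, c i = 0
  · exact main α hα hA heven
  · push Not at hA
    obtain ⟨c0, c, hrel0, l, hl⟩ := hA
    -- b = -c0
    have hrel : ((-c0 : ℤ) : ℝ) = ∑ i, (c i : ℝ) * α i := by
      push_cast
      linarith
    -- second nonzero coefficient
    obtain ⟨l', hll, hl'⟩ : ∃ l', l ≠ l' ∧ c l' ≠ 0 := by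
      by_contra hno
      push Not at hno
      have h1 : ∑ i, (c i : ℝ) * α i = c l * α l := by
        refine Finset.sum_eq_single l (fun i _ hi => ?_) (fun h => absurd (Finset.mem_univ l) h)
        rw [hno i (Ne.symm hi)]
        simp
      rw [h1] at hrel
      have h2 : (c l : ℝ) ≠ 0 := by exact_mod_cast hl
      have h3 : α l = ((-c0 : ℤ) : ℝ) / (c l : ℝ) := by
        rw [hrel]
        field_simp
      apply hirr l
      refine ⟨((-c0 : ℤ) : ℚ) / (c l : ℚ), ?_⟩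
      rw [h3]
      push_cast
      ring
    refine tendsto_of_imean ?_ fun M => ?_
    · exact bdd_lam.mul (Bdd.prod _ fun i _ => bdd_lam.comp _)
    · rw [← gB_one M α c (-c0)]
      exact gB_one_eq_zero M α hα c (-c0) hrel hind hll hl hl' heven

end Pool.MP_67663b_nt.Odd
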