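import Pool.Agent.Lib.MP_67663b_nt.OddB.ExpDefs

set_option autoImplicit false
open Filter Topology ArithmeticFunction
namespace Pool.MP_67663b_nt.Odd

/-- the basic identity for `σ > 1` -/
private theorem apf_identity {g : ℕ → ℝ} {F : ℂ → ℂ}
    (hsum0 : ∀ s : ℂ, 1 < s.re → LSeriesSummable (fun n => ((g n : ℝ) : ℂ)) s)
    (hF : ∀ s : ℂ, 1 < s.re → F s = LSeries (fun n => ((g n : ℝ) : ℂ)) s)
    {T : ℝ} (hT : 0 < T) {σ : ℝ} (hσ : 1 < σ) (y : ℝ) :
    ((∑' n : ℕ, g n * (n : ℝ) ^ (-σ) * fej T (y - Real.log n) : ℝ) : ℂ) =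
      ∫ t in (-T)..T, ((1 - |t| / T : ℝ) : ℂ) * Complex.exp (Complex.I * t * y) *
        F (σ + Complex.I * t) := by
  set f : ℕ → ℂ := fun n => ((g n : ℝ) : ℂ) with hf
  have hsum : ∀ s : ℂ, 1 < s.re → LSeriesSummable f s := hsum0
  have hre : ∀ t : ℝ, ((σ : ℂ) + Complex.I * t).re = σ := by
    intro t
    simp
  have hnorm : ∀ (n : ℕ) (t : ℝ), ‖LSeries.term f (σ + Complex.I * t) n‖ =
      ‖LSeries.term f (σ : ℂ) n‖ := by
    intro n t
    rw [LSeries.norm_term_eq, LSeries.norm_term_eq, hre]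
    simp
  have hterm : ∀ n : ℕ, Continuous (fun t : ℝ => LSeries.term f (σ + Complex.I * t) n) := by
    intro n
    rcases Nat.eq_zero_or_pos n with rfl | hn
    · simp only [LSeries.term_zero]
      exact continuous_const
    · have hn' : (n : ℂ) ≠ 0 := by exact_mod_cast hn.ne'
      simp only [LSeries.term_of_ne_zero hn.ne']
      apply Continuous.div continuous_const
      · apply Continuous.const_cpow
        · fun_prop
        · exact Or.inl hn'
      · intro t
        rw [Complex.cpow_ne_zero_iff]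
        exact Or.inl hn'
  have key := intervalIntegral.hasSum_integral_of_dominated_convergence
    (μ := MeasureTheory.volume) (a := -T) (b := T)
    (F := fun (n : ℕ) (t : ℝ) => ((1 - |t| / T : ℝ) : ℂ) * Complex.exp (Complex.I * t * y) *
      LSeries.term f (σ + Complex.I * t) n)
    (f := fun t : ℝ => ((1 - |t| / T : ℝ) : ℂ) * Complex.exp (Complex.I * t * y) *
        F (σ + Complex.I * t))
    (fun (n : ℕ) (_ : ℝ) => ‖LSeries.term f (σ : ℂ) n‖)
    (by
      intro n
      apply Continuous.aestronglyMeasurable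
      exact Continuous.mul (by fun_prop) (hterm n))
    (by
      intro n
      refine Filter.Eventually.of_forall ?_
      intro t ht
      rw [Set.uIoc_of_le (by linarith)] at ht
      rw [norm_mul, norm_mul, hnorm]
      have h1 : ‖Complex.exp (Complex.I * t * y)‖ = 1 := by
        have : Complex.I * t * y = ((t * y : ℝ) : ℂ) * Complex.I := by
          push_cast
          ring
        rw [this, Complex.norm_exp_ofReal_mul_I]
      have h2 : ‖((1 - |t| / T : ℝ) : ℂ)‖ ≤ 1 := by
        rw [Complex.norm_real, Real.norm_eq_abs, abs_le]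
        have h3 : |t| / T ≤ 1 := by
          rw [div_le_one hT, abs_le]
          exact ⟨ht.1.le, ht.2⟩
        have h4 : 0 ≤ |t| / T := by positivity
        constructor <;> linarith
      rw [h1, mul_one]
      exact mul_le_of_le_one_left (norm_nonneg _) h2)
    (by
      refine Filter.Eventually.of_forall ?_
      intro t _
      exact (hsum σ (by simpa using hσ)).norm)
    (by
      exact intervalIntegrable_const)
    (by
      refine Filter.Eventually.of_forall ?_
      intro t _
      have h1 := (hsum (σ + Complex.I * t) (by rw [hre]; exact hσ)).hasSum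
      have h2 : F (σ + Complex.I * t) = ∑' n, LSeries.term f (σ + Complex.I * t) n :=
        hF _ (by rw [hre]; exact hσ)
      rw [h2]
      exact h1.mul_left _)
  rw [← key.tsum_eq, Complex.ofReal_tsum]
  congr 1
  funext n
  rcases Nat.eq_zero_or_pos n with rfl | hn
  · simp only [LSeries.term_zero, mul_zero, intervalIntegral.integral_zero, Nat.cast_zero]
    rw [Real.zero_rpow (by linarith)]
    simp
  · have hn' : (n : ℂ) ≠ 0 := by exact_mod_cast hn.ne'
    have hnR : (0 : ℝ) < n := by exact_mod_cast hn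
    have h1 : ∀ t : ℝ, ((1 - |t| / T : ℝ) : ℂ) * Complex.exp (Complex.I * t * y) *
        LSeries.term f (σ + Complex.I * t) n =
        (((g n * (n : ℝ) ^ (-σ) : ℝ)) : ℂ) * (((1 - |t| / T : ℝ) : ℂ) *
          Complex.exp (Complex.I * t * ((y - Real.log n : ℝ) : ℂ))) := by
      intro t
      rw [LSeries.term_of_ne_zero hn.ne']
      have h2 : ((n : ℂ) ^ ((σ : ℂ) + Complex.I * t))⁻¹ =
          (((n : ℝ) ^ (-σ) : ℝ) : ℂ) * Complex.exp (-(Complex.I * t * Real.log n)) := by
        rw [← Complex.cpow_neg, neg_add, Complex.cpow_add _ _ hn']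
        congr 1
        · rw [Complex.ofReal_cpow hnR.le]
          push_cast
          rfl
        · rw [Complex.cpow_def_of_ne_zero hn', ← Complex.natCast_log]
          congr 1
          ring
      have h3 : Complex.exp (Complex.I * t * ((y - Real.log n : ℝ) : ℂ)) =
          Complex.exp (Complex.I * t * y) * Complex.exp (-(Complex.I * t * Real.log n)) := by
        rw [← Complex.exp_add]
        congr 1
        push_cast
        ring
      rw [div_eq_mul_inv (f n), h2, h3, hf]
      push_cast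
      ring
    simp only [h1]
    rw [intervalIntegral.integral_const_mul, fej_integral hT]
    push_cast
    ring

private theorem apf_lhs {g : ℕ → ℝ} (hg : ∀ n, |g n| ≤ vonMangoldt n + 1) {T : ℝ} (hT : 0 < T)
    (y : ℝ) :
    Tendsto (fun σ : ℝ => ∑' n : ℕ, g n * (n : ℝ) ^ (-σ) *
        fej T (y - Real.log n)) (𝓝[>] 1)
      (𝓝 (∑' n : ℕ, g n / (n : ℝ) * fej T (y - Real.log n))) := by
  apply tendsto_tsum_of_dominated_convergence (fej_summable hT y)
  · intro n
    rcases Nat.eq_zero_or_pos n with rfl | hn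
    · have h0 : g 0 / ((0 : ℕ) : ℝ) * fej T (y - Real.log ((0 : ℕ) : ℝ)) = 0 := by
        simp
      rw [h0]
      apply tendsto_const_nhds.congr'
      filter_upwards [self_mem_nhdsWithin] with σ hσ
      rw [Set.mem_Ioi] at hσ
      rw [Nat.cast_zero, Real.zero_rpow (by linarith)]
      simp
    · have hnR : (0 : ℝ) < n := by exact_mod_cast hn
      have h1 : Tendsto (fun σ : ℝ => (n : ℝ) ^ (-σ)) (𝓝[>] 1) (𝓝 ((n : ℝ) ^ (-(1 : ℝ)))) := by
        have h2 : ContinuousAt (fun σ : ℝ => (n : ℝ) ^ (-σ)) 1 := by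
          apply ContinuousAt.rpow continuousAt_const continuousAt_id.neg
          exact Or.inl hnR.ne'
        exact h2.tendsto.mono_left nhdsWithin_le_nhds
      rw [div_eq_mul_inv, ← Real.rpow_neg_one]
      exact (h1.const_mul _).mul_const _
  · filter_upwards [self_mem_nhdsWithin] with σ hσ n
    rw [Set.mem_Ioi] at hσ
    have hf := wpnt1_fej_nonneg hT (y - Real.log n)
    rcases Nat.eq_zero_or_pos n with rfl | hn
    · rw [Nat.cast_zero, Real.zero_rpow (by linarith)]
      simp
    · have hn1 : (1 : ℝ) ≤ n := by exact_mod_cast hn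
      have hnR : (0 : ℝ) < n := by linarith
      have h1 : (n : ℝ) ^ (-σ) ≤ (n : ℝ)⁻¹ := by
        rw [← Real.rpow_neg_one]
        apply Real.rpow_le_rpow_of_exponent_le hn1
        linarith
      have h2 : 0 ≤ (n : ℝ) ^ (-σ) := Real.rpow_nonneg hnR.le _
      have h3 : |g n| ≤ vonMangoldt n + 1 := hg n
      rw [Real.norm_eq_abs, abs_mul, abs_mul, abs_of_nonneg h2, abs_of_nonneg hf]
      apply mul_le_mul_of_nonneg_right _ hf
      rw [div_eq_mul_inv]
      exact mul_le_mul h3 h1 h2 ((abs_nonneg _).trans h3)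

private theorem apf_rhs {F : ℂ → ℂ} (hF : ContinuousOn F {s | 1 ≤ s.re}) {T : ℝ} (hT : 0 < T)
    (y : ℝ) :
    Tendsto (fun σ : ℝ => ∫ t in (-T)..T, ((1 - |t| / T : ℝ) : ℂ) *
        Complex.exp (Complex.I * t * y) * F (σ + Complex.I * t)) (𝓝[>] 1)
      (𝓝 (∫ t in (-T)..T, ((1 - |t| / T : ℝ) : ℂ) *
        Complex.exp (Complex.I * t * y) * F (((1 : ℝ) : ℂ) + Complex.I * t))) := by
  have hmem : ∀ (σ : ℝ), 1 ≤ σ → ∀ t : ℝ, (σ : ℂ) + Complex.I * t ∈ {s : ℂ | 1 ≤ s.re} := by
    intro σ hσ t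
    simpa using hσ
  -- a bound for F
  obtain ⟨B, hB⟩ : ∃ B : ℝ, ∀ q ∈ (Set.Icc (1 : ℝ) 2) ×ˢ (Set.Icc (-T) T),
      ‖F ((q.1 : ℂ) + Complex.I * (q.2 : ℂ))‖ ≤ B := by
    apply IsCompact.exists_bound_of_continuousOn (isCompact_Icc.prod isCompact_Icc)
    apply hF.comp (f := fun q : ℝ × ℝ => (q.1 : ℂ) + Complex.I * (q.2 : ℂ))
    · fun_prop
    · rintro ⟨a, b⟩ hab
      exact hmem a hab.1.1 b
  have hev : ∀ᶠ σ : ℝ in 𝓝[>] 1, 1 < σ ∧ σ ≤ 2 := by
    filter_upwards [Ioc_mem_nhdsGT (show (1 : ℝ) < 2 by norm_num)] with σ hσ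
    exact hσ
  apply intervalIntegral.tendsto_integral_filter_of_dominated_convergence (fun _ => B)
  · filter_upwards [hev] with σ hσ
    apply Continuous.aestronglyMeasurable
    apply Continuous.mul (by fun_prop)
    exact hF.comp_continuous (f := fun t : ℝ => (σ : ℂ) + Complex.I * (t : ℂ)) (by fun_prop)
      (fun t => hmem σ hσ.1.le t)
  · filter_upwards [hev] with σ hσ
    refine Filter.Eventually.of_forall ?_
    intro t ht
    rw [Set.uIoc_of_le (by linarith)] at ht
    rw [norm_mul, norm_mul]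
    have h1 : ‖Complex.exp (Complex.I * t * y)‖ = 1 := by
      have : Complex.I * t * y = ((t * y : ℝ) : ℂ) * Complex.I := by
        push_cast
        ring
      rw [this, Complex.norm_exp_ofReal_mul_I]
    have h2 : ‖((1 - |t| / T : ℝ) : ℂ)‖ ≤ 1 := by
      rw [Complex.norm_real, Real.norm_eq_abs, abs_le]
      have h3 : |t| / T ≤ 1 := by
        rw [div_le_one hT, abs_le]
        exact ⟨ht.1.le, ht.2⟩
      have h4 : 0 ≤ |t| / T := by positivity
      constructor <;> linarith
    rw [h1, mul_one]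
    refine (mul_le_of_le_one_left (norm_nonneg _) h2).trans ?_
    exact hB (σ, t) ⟨⟨hσ.1.le, hσ.2⟩, ⟨ht.1.le, ht.2⟩⟩
  · exact intervalIntegrable_const
  · refine Filter.Eventually.of_forall ?_
    intro t _
    apply Tendsto.const_mul
    have h1 : Tendsto (fun σ : ℝ => (σ : ℂ) + Complex.I * t) (𝓝[>] 1)
        (𝓝[{s : ℂ | 1 ≤ s.re}] (((1 : ℝ) : ℂ) + Complex.I * t)) := by
      rw [tendsto_nhdsWithin_iff]
      constructor
      · have : Continuous (fun σ : ℝ => (σ : ℂ) + Complex.I * t) := by fun_prop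
        exact (this.tendsto 1).mono_left nhdsWithin_le_nhds
      · filter_upwards [hev] with σ hσ
        exact hmem σ hσ.1.le t
    exact (hF _ (hmem 1 le_rfl t)).tendsto.comp h1

private theorem apf_rl (g : ℝ → ℂ) (T : ℝ) (hT : 0 < T) :
    Tendsto (fun y : ℝ => ∫ t in (-T)..T, Complex.exp (Complex.I * t * y) * g t) atTop (𝓝 0) := by
  have h1 := Real.tendsto_integral_exp_smul_cocompact ((Set.Ioc (-T) T).indicator g)
  have h2 : Tendsto (fun y : ℝ => -(y / (2 * Real.pi))) atTop (cocompact ℝ) := by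
    refine Tendsto.mono_right ?_ atBot_le_cocompact
    apply tendsto_neg_atTop_atBot.comp
    exact tendsto_id.atTop_div_const (by positivity)
  have h3 := h1.comp h2
  refine h3.congr ?_
  intro y
  rw [Function.comp_apply, intervalIntegral.integral_of_le (by linarith),
    ← MeasureTheory.integral_indicator measurableSet_Ioc]
  congr 1
  funext v
  by_cases hv : v ∈ Set.Ioc (-T) T
  · rw [Set.indicator_of_mem hv, Set.indicator_of_mem hv, Circle.smul_def, Real.fourierChar_apply,
      smul_eq_mul]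
    congr 2
    push_cast
    have : (Real.pi : ℂ) ≠ 0 := by exact_mod_cast Real.pi_ne_zero
    field_simp
  · rw [Set.indicator_of_notMem hv, Set.indicator_of_notMem hv, smul_zero]

private theorem apf_tendsto {g : ℕ → ℝ} {F : ℂ → ℂ} (hg : ∀ n, |g n| ≤ vonMangoldt n + 1)
    (hsum0 : ∀ s : ℂ, 1 < s.re → LSeriesSummable (fun n => ((g n : ℝ) : ℂ)) s)
    (hFc : ContinuousOn F {s | 1 ≤ s.re})
    (hF : ∀ s : ℂ, 1 < s.re → F s = LSeries (fun n => ((g n : ℝ) : ℂ)) s)
    {T : ℝ} (hT : 0 < T) :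
    Tendsto (fun y : ℝ => ∑' n : ℕ, g n / (n : ℝ) * fej T (y - Real.log n))
      atTop (𝓝 0) := by
  have key : ∀ y : ℝ, ((∑' n : ℕ, g n / (n : ℝ) * fej T (y - Real.log n) : ℝ) : ℂ)
      = ∫ t in (-T)..T, Complex.exp (Complex.I * t * y) * (((1 - |t| / T : ℝ) : ℂ) *
        F (((1 : ℝ) : ℂ) + Complex.I * t)) := by
    intro y
    have h1 := (Complex.continuous_ofReal.tendsto _).comp (apf_lhs hg hT y)
    have h2 := apf_rhs hFc hT y
    have h3 : ((fun σ : ℝ => ∫ t in (-T)..T, ((1 - |t| / T : ℝ) : ℂ) *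
        Complex.exp (Complex.I * t * y) * F (σ + Complex.I * t)) =ᶠ[𝓝[>] (1 : ℝ)]
        ((fun x : ℝ => (x : ℂ)) ∘ (fun σ : ℝ => ∑' n : ℕ, g n * (n : ℝ) ^ (-σ) *
        fej T (y - Real.log n)))) := by
      filter_upwards [self_mem_nhdsWithin] with σ hσ
      rw [Set.mem_Ioi] at hσ
      exact (apf_identity hsum0 hF hT hσ y).symm
    have h4 := tendsto_nhds_unique h1 (h2.congr' h3)
    rw [h4]
    congr 1
    funext t
    ring
  have h5 := apf_rl (fun t : ℝ => ((1 - |t| / T : ℝ) : ℂ) * F (((1 : ℝ) : ℂ) + Complex.I * t)) T hT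
  have h6 : Tendsto (fun y : ℝ => ((∑' n : ℕ, g n / (n : ℝ) *
      fej T (y - Real.log n) : ℝ) : ℂ)) atTop (𝓝 ((0 : ℝ) : ℂ)) := by
    rw [Complex.ofReal_zero]
    refine h5.congr ?_
    intro y
    exact (key y).symm
  have h7 := (Complex.continuous_re.tendsto _).comp h6
  rw [Complex.ofReal_re] at h7
  refine h7.congr ?_
  intro y
  exact Complex.ofReal_re _

/-- `ζ(s) - 1/(s-1)` extended to `s = 1`. -/
private noncomputable def apf_wz (s : ℂ) : ℂ :=
  Function.update (fun s : ℂ => riemannZeta s - 1 / (s - 1)) 1 (Real.eulerMascheroniConstant : ℂ) s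

private theorem apf_wz_cont : Continuous apf_wz := by
  rw [continuous_iff_continuousAt]
  intro s
  by_cases hs : s = 1
  · subst hs
    unfold apf_wz
    rw [continuousAt_update_same]
    exact tendsto_riemannZeta_sub_one_div
  · have h1 : ContinuousAt (fun s : ℂ => riemannZeta s - 1 / (s - 1)) s := by
      apply ContinuousAt.sub
      · exact (differentiableAt_riemannZeta hs).continuousAt
      · apply ContinuousAt.div continuousAt_const
        · fun_prop
        · exact sub_ne_zero.2 hs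
    unfold apf_wz
    exact (continuousAt_update_of_ne hs).2 h1

/-- Fejer-smoothed prime number theorem in arithmetic progressions. -/
theorem ap_fej {r : ℕ} (hr : 0 < r) (c : ℕ) (hc : Nat.Coprime c r) {T : ℝ} (hT : 0 < T) :
    Tendsto (fun y : ℝ => ∑' n : ℕ, ((if n ≡ c [MOD r] then vonMangoldt n else 0) -
      1 / (Nat.totient r : ℝ)) / (n : ℝ) * fej T (y - Real.log n)) atTop (𝓝 0) := by
  have : NeZero r := ⟨hr.ne'⟩
  have hφ : 0 < Nat.totient r := Nat.totient_pos.2 hr
  have hφ1 : (1 : ℝ) ≤ Nat.totient r := by exact_mod_cast hφ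
  have hinv : (0 : ℝ) ≤ 1 / (Nat.totient r : ℝ) ∧ 1 / (Nat.totient r : ℝ) ≤ 1 := by
    constructor
    · positivity
    · rw [div_le_one (by linarith)]; exact hφ1
  have hunit : IsUnit (c : ZMod r) := (ZMod.isUnit_iff_coprime c r).2 hc
  set g : ℕ → ℝ := fun n => (if n ≡ c [MOD r] then vonMangoldt n else 0) -
      1 / (Nat.totient r : ℝ) with hgdef
  have hres : ∀ n : ℕ, (if n ≡ c [MOD r] then vonMangoldt n else 0) =
      vonMangoldt.residueClass (c : ZMod r) n := by
    intro n
    unfold vonMangoldt.residueClass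
    by_cases h : n ≡ c [MOD r]
    · rw [if_pos h, Set.indicator_of_mem]
      exact (ZMod.natCast_eq_natCast_iff n c r).2 h
    · rw [if_neg h, Set.indicator_of_notMem]
      intro h'
      exact h ((ZMod.natCast_eq_natCast_iff n c r).1 h')
  have hg : ∀ n, |g n| ≤ vonMangoldt n + 1 := by
    intro n
    have h0 := @vonMangoldt_nonneg n
    simp only [hgdef]
    split_ifs
    · rw [abs_le]; constructor <;> linarith [hinv.1, hinv.2]
    · rw [abs_le]; constructor <;> linarith [hinv.1, hinv.2]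
  have hsumR : ∀ s : ℂ, 1 < s.re →
      LSeriesSummable (fun n => ((vonMangoldt.residueClass (c : ZMod r) n : ℝ) : ℂ)) s := by
    intro s hs
    apply LSeriesSummable_of_abscissaOfAbsConv_lt_re
    refine (vonMangoldt.abscissaOfAbsConv_residueClass_le_one (c : ZMod r)).trans_lt ?_
    exact_mod_cast hs
  have hfun : (fun n => ((g n : ℝ) : ℂ)) =
      (fun n => ((vonMangoldt.residueClass (c : ZMod r) n : ℝ) : ℂ)) -
        ((1 / (Nat.totient r : ℂ)) • (1 : ℕ → ℂ)) := by
    funext n
    simp only [hgdef, hres, Pi.sub_apply, Pi.smul_apply, Pi.one_apply, smul_eq_mul, mul_one]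
    push_cast
    rfl
  have hsum1 : ∀ s : ℂ, 1 < s.re →
      LSeriesSummable ((1 / (Nat.totient r : ℂ)) • (1 : ℕ → ℂ)) s := fun s hs =>
    (LSeriesSummable_one_iff.2 hs).smul _
  have hsum0 : ∀ s : ℂ, 1 < s.re → LSeriesSummable (fun n => ((g n : ℝ) : ℂ)) s := by
    intro s hs
    rw [hfun]
    exact (hsumR s hs).sub (hsum1 s hs)
  have hFc : ContinuousOn (fun s => vonMangoldt.LFunctionResidueClassAux (c : ZMod r) s -
      (1 / (Nat.totient r : ℂ)) * apf_wz s) {s | 1 ≤ s.re} :=
    (vonMangoldt.continuousOn_LFunctionResidueClassAux (c : ZMod r)).sub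
      (continuousOn_const.mul apf_wz_cont.continuousOn)
  refine apf_tendsto hg hsum0 hFc ?_ hT
  intro s hs
  have h1 := vonMangoldt.eqOn_LFunctionResidueClassAux (a := (c : ZMod r)) hunit
    (Set.mem_ofPred.2 hs)
  have hs1 : s ≠ 1 := by
    rintro rfl
    simp at hs
  have h2 : apf_wz s = riemannZeta s - 1 / (s - 1) := by
    unfold apf_wz
    rw [Function.update_of_ne hs1]
  have h4 : LSeries (fun n => ((g n : ℝ) : ℂ)) s =
      LSeries (fun n => ((vonMangoldt.residueClass (c : ZMod r) n : ℝ) : ℂ)) s -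
        (1 / (Nat.totient r : ℂ)) * riemannZeta s := by
    rw [hfun, LSeries_sub (hsumR s hs) (hsum1 s hs), LSeries_smul,
      ← LSeries_one_eq_riemannZeta hs]
  simp only at h1 ⊢
  rw [h1, h2, h4]
  ring

end Pool.MP_67663b_nt.Odd
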