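import Pool.Agent.Lib.MP_67663b_nt.OddB.APTheta

set_option autoImplicit false
open Filter Topology ArithmeticFunction
namespace Pool.MP_67663b_nt.Odd

/-- primes in `[x, y)` congruent to `c` modulo `r` -/
private noncomputable def apm_P (r c : ℕ) (x y : ℝ) : Finset ℕ :=
  (pr x y).filter (fun q => q ≡ c [MOD r])

private theorem apm_mem {r c : ℕ} {x y : ℝ} {q : ℕ} :
    q ∈ apm_P r c x y ↔ (q.Prime ∧ x ≤ (q : ℝ) ∧ (q : ℝ) < y) ∧ q ≡ c [MOD r] := by
  unfold apm_P
  rw [Finset.mem_filter, mem_pr]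

private theorem apm_split {M : Type*} [AddCommMonoid M] (r c : ℕ) {x y z : ℝ} (hxy : x ≤ y)
    (hyz : y ≤ z) (F : ℕ → M) :
    ∑ q ∈ apm_P r c x z, F q = ∑ q ∈ apm_P r c x y, F q + ∑ q ∈ apm_P r c y z, F q := by
  rw [← Finset.sum_union]
  · apply Finset.sum_congr _ (fun _ _ => rfl)
    ext q
    rw [Finset.mem_union, apm_mem, apm_mem, apm_mem]
    constructor
    · rintro ⟨⟨h1, h2, h3⟩, h4⟩
      rcases lt_or_ge (q : ℝ) y with h | h
      · exact Or.inl ⟨⟨h1, h2, h⟩, h4⟩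
      · exact Or.inr ⟨⟨h1, h, h3⟩, h4⟩
    · rintro (⟨⟨h1, h2, h3⟩, h4⟩ | ⟨⟨h1, h2, h3⟩, h4⟩)
      · exact ⟨⟨h1, h2, h3.trans_le hyz⟩, h4⟩
      · exact ⟨⟨h1, hxy.trans h2, h3⟩, h4⟩
  · rw [Finset.disjoint_left]
    intro q h1 h2
    rw [apm_mem] at h1 h2
    linarith [h1.1.2.2, h2.1.2.1]

/-- uniform version of `ap_theta` -/
private theorem apm_unif {r : ℕ} (hr : 0 < r) {η : ℝ} (hη : 0 < η) :
    ∃ X1 : ℝ, 0 < X1 ∧ ∀ X ≥ X1, ∀ c : ℕ, Nat.Coprime c r → ∀ a b : ℝ, 1 ≤ a → a ≤ b → b ≤ 2 →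
      |(1 / X) * ∑ q ∈ apm_P r c (a * X) (b * X), Real.log q - (b - a) / (Nat.totient r : ℝ)|
        ≤ η := by
  have hφ : 0 < Nat.totient r := Nat.totient_pos.2 hr
  have hφ1 : (1 : ℝ) ≤ Nat.totient r := by exact_mod_cast hφ
  obtain ⟨K, hK⟩ := exists_nat_gt (4 / η)
  have hK0 : (0 : ℝ) < K := lt_trans (by positivity) hK
  have hKη : 4 / K < η := by
    rw [div_lt_iff₀ hK0]
    rw [div_lt_iff₀ hη] at hK
    linarith
  have hev : ∀ᶠ X : ℝ in atTop, ∀ c ∈ (Finset.range r).filter (fun c => Nat.Coprime c r),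
      ∀ k ∈ Finset.range (K + 1),
      |(1 / X) * ∑ q ∈ apm_P r c (1 * X) ((1 + k / K) * X), Real.log q -
        ((1 + k / K) - 1) / (Nat.totient r : ℝ)| ≤ 1 / K := by
    rw [Filter.eventually_all_finset]
    intro c hc
    rw [Filter.eventually_all_finset]
    intro k _
    have h1 := ap_theta hr c (Finset.mem_filter.1 hc).2 (u := 1) (v := 1 + k / K) one_pos
      (by have : (0 : ℝ) ≤ k / K := by positivity
          linarith)
    rw [Metric.tendsto_nhds] at h1
    filter_upwards [h1 (1 / K) (by positivity)] with X hX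
    rw [Real.dist_eq] at hX
    exact hX.le
  obtain ⟨X2, hX2⟩ := (hev.and (eventually_gt_atTop 0)).exists_forall_of_atTop
  refine ⟨max X2 1, by positivity, ?_⟩
  intro X hX c hc
  have hXX2 : X2 ≤ X := (le_max_left _ _).trans hX
  have hX0 : 0 < X := (hX2 X hXX2).2
  have hgrid := (hX2 X hXX2).1 (c % r) (by
    rw [Finset.mem_filter, Finset.mem_range]
    refine ⟨Nat.mod_lt _ hr, ?_⟩
    rw [Nat.Coprime, ← Nat.gcd_rec] 
    exact (Nat.coprime_comm.1 hc))
  have hPc : ∀ x y : ℝ, apm_P r (c % r) x y = apm_P r c x y := by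
    intro x y
    ext q
    rw [apm_mem, apm_mem]
    have : c % r ≡ c [MOD r] := Nat.mod_modEq c r
    constructor
    · rintro ⟨h1, h2⟩; exact ⟨h1, h2.trans this⟩
    · rintro ⟨h1, h2⟩; exact ⟨h1, h2.trans this.symm⟩
  simp only [hPc] at hgrid
  set Θ : ℝ → ℝ := fun t => (1 / X) * ∑ q ∈ apm_P r c (1 * X) (t * X), Real.log q with hΘ
  have hlog : ∀ (x y : ℝ) (q : ℕ), q ∈ apm_P r c x y → 0 ≤ Real.log q := by
    intro x y q hq
    exact Real.log_nonneg (by exact_mod_cast (apm_mem.1 hq).1.1.one_lt.le)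
  have hmono : ∀ s t : ℝ, 1 ≤ s → s ≤ t → Θ t = Θ s + (1 / X) *
      ∑ q ∈ apm_P r c (s * X) (t * X), Real.log q := by
    intro s t hs hst
    simp only [hΘ]
    rw [apm_split r c (x := 1 * X) (y := s * X) (z := t * X)
      (mul_le_mul_of_nonneg_right hs hX0.le) (mul_le_mul_of_nonneg_right hst hX0.le)]
    ring
  have hmono' : ∀ s t : ℝ, 1 ≤ s → s ≤ t → Θ s ≤ Θ t := by
    intro s t hs hst
    rw [hmono s t hs hst]
    have : 0 ≤ (1 / X) * ∑ q ∈ apm_P r c (s * X) (t * X), Real.log q :=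
      mul_nonneg (by positivity) (Finset.sum_nonneg (fun q hq => hlog _ _ q hq))
    linarith
  have happrox : ∀ t : ℝ, 1 ≤ t → t ≤ 2 → |Θ t - (t - 1) / (Nat.totient r : ℝ)| ≤ 2 / K := by
    intro t ht1 ht2
    set k : ℕ := ⌊(t - 1) * K⌋₊ with hk
    have hk1 : (k : ℝ) ≤ (t - 1) * K := Nat.floor_le (by nlinarith)
    have hk2 : (t - 1) * K < k + 1 := Nat.lt_floor_add_one _
    have hkK : k ≤ K := by
      have : (k : ℝ) ≤ K := by nlinarith
      exact_mod_cast this
    have g1 := hgrid k (Finset.mem_range.2 (by omega))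
    change |Θ (1 + k / K) - _| ≤ _ at g1
    have hkK' : (k : ℝ) / K ≤ t - 1 := by rw [div_le_iff₀ hK0]; exact hk1
    have hk0 : (0 : ℝ) ≤ (k : ℝ) / K := by positivity
    have m1 := hmono' (1 + k / K) t (by linarith) (by linarith)
    rw [abs_le] at g1 ⊢
    have hd : ∀ x : ℝ, 0 ≤ x → x / (Nat.totient r : ℝ) ≤ x := fun x hx =>
      div_le_self hx hφ1
    have e1 : t - 1 - k / K ≤ 1 / K := by
      rw [le_div_iff₀ hK0, sub_mul, div_mul_cancel₀ _ hK0.ne']
      linarith
    have e2 : (t - 1) / (Nat.totient r : ℝ) ≤ ((1 + k / K) - 1) / (Nat.totient r : ℝ) + 1 / K := by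
      have := hd (t - 1 - k / K) (by linarith)
      have e3 : (t - 1) / (Nat.totient r : ℝ) - ((1 + (k : ℝ) / K) - 1) / (Nat.totient r : ℝ) =
        (t - 1 - k / K) / (Nat.totient r : ℝ) := by ring
      linarith
    have two : (2 : ℝ) / K = 1 / K + 1 / K := by ring
    constructor
    · linarith [g1.1]
    · rcases Nat.lt_or_ge k K with hlt | hge
      · have g2 := hgrid (k + 1) (Finset.mem_range.2 (by omega))
        change |Θ (1 + ((k + 1 : ℕ) : ℝ) / K) - _| ≤ _ at g2
        rw [abs_le] at g2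
        have hk2' : t - 1 ≤ ((k + 1 : ℕ) : ℝ) / K := by
          rw [le_div_iff₀ hK0]; push_cast; exact hk2.le
        have m2 := hmono' t (1 + ((k + 1 : ℕ) : ℝ) / K) ht1 (by linarith)
        have e4 : ((1 + ((k + 1 : ℕ) : ℝ) / K) - 1) / (Nat.totient r : ℝ) ≤
            (t - 1) / (Nat.totient r : ℝ) + 1 / K := by
          have h5 : ((k + 1 : ℕ) : ℝ) / K - (t - 1) ≤ 1 / K := by
            push_cast
            rw [add_div]
            linarith
          have := hd (((k + 1 : ℕ) : ℝ) / K - (t - 1)) (by linarith)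
          have e3 : ((1 + ((k + 1 : ℕ) : ℝ) / K) - 1) / (Nat.totient r : ℝ) -
            (t - 1) / (Nat.totient r : ℝ) =
            (((k + 1 : ℕ) : ℝ) / K - (t - 1)) / (Nat.totient r : ℝ) := by ring
          linarith
        linarith [g2.2]
      · have hkeq : k = K := le_antisymm hkK hge
        have : t = 1 + (k : ℝ) / K := by
          have h6 : (k : ℝ) / K = 1 := by rw [hkeq]; exact div_self hK0.ne'
          rw [h6] at hkK' ⊢
          linarith
        rw [← this] at g1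
        have : (0 : ℝ) ≤ 1 / K := by positivity
        linarith [g1.2]
  intro a b ha hab hb
  have h1 := happrox a ha (hab.trans hb)
  have h2 := happrox b (ha.trans hab) hb
  have h3 := hmono a b ha hab
  have h4 : (1 / X) * ∑ q ∈ apm_P r c (a * X) (b * X), Real.log q -
      (b - a) / (Nat.totient r : ℝ) = (Θ b - (b - 1) / (Nat.totient r : ℝ)) -
        (Θ a - (a - 1) / (Nat.totient r : ℝ)) := by
    rw [h3]; ring
  rw [h4]
  rw [abs_le] at h1 h2 ⊢
  have four : (4 : ℝ) / K = 2 / K + 2 / K := by ring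
  constructor <;> linarith [h1.1, h1.2, h2.1, h2.2]

/-- the estimate on one short interval -/
private theorem apm_local (r c : ℕ) {X B β δ a b : ℝ} (hφ1 : (1 : ℝ) ≤ Nat.totient r)
    (hX : 0 < X)
    (hab : a ≤ b) (hδ : b - a ≤ δ) (hβ : |β| ≤ B / X) :
    ‖(1 / (X : ℂ)) * ∑ q ∈ apm_P r c (a * X) (b * X), (Real.log q : ℂ) * ee (q * β) -
        (1 / (Nat.totient r : ℂ)) * ∫ t in a..b, ee (X * β * t)‖ ≤
      |(1 / X) * ∑ q ∈ apm_P r c (a * X) (b * X), Real.log q - (b - a) / (Nat.totient r : ℝ)| +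
      2 * Real.pi * B * δ * ((1 / X) * ∑ q ∈ apm_P r c (a * X) (b * X), Real.log q +
        (b - a) / (Nat.totient r : ℝ)) := by
  have hB : |β| * X ≤ B := by rwa [le_div_iff₀ hX] at hβ
  have hB0 : 0 ≤ B := (by positivity : 0 ≤ |β| * X).trans hB
  have hδ0 : 0 ≤ δ := by linarith
  set P := apm_P r c (a * X) (b * X) with hP
  have hlog : ∀ q ∈ P, 0 ≤ Real.log q := by
    intro q hq
    exact Real.log_nonneg (by exact_mod_cast (apm_mem.1 hq).1.1.one_lt.le)
  set M : ℝ := (1 / X) * ∑ q ∈ P, Real.log q with hM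
  have hM0 : 0 ≤ M := mul_nonneg (by positivity) (Finset.sum_nonneg hlog)
  set e0 : ℂ := ee (X * β * a) with he0
  -- sum part
  have h1 : ‖(1 / (X : ℂ)) * ∑ q ∈ P, (Real.log q : ℂ) * ee (q * β) - (M : ℂ) * e0‖ ≤
      2 * Real.pi * B * δ * M := by
    have e1 : (1 / (X : ℂ)) * ∑ q ∈ P, (Real.log q : ℂ) * ee (q * β) - (M : ℂ) * e0 =
        (1 / (X : ℂ)) * ∑ q ∈ P, (Real.log q : ℂ) * (ee (q * β) - e0) := by
      rw [hM]
      push_cast
      simp only [mul_sub, Finset.sum_sub_distrib, ← Finset.sum_mul]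
      ring
    rw [e1, norm_mul, norm_div, norm_one, Complex.norm_real, Real.norm_eq_abs, abs_of_pos hX]
    have e2 : ‖∑ q ∈ P, (Real.log q : ℂ) * (ee (q * β) - e0)‖ ≤
        ∑ q ∈ P, Real.log q * (2 * Real.pi * B * δ) := by
      refine (norm_sum_le _ _).trans (Finset.sum_le_sum ?_)
      intro q hq
      rw [norm_mul, Complex.norm_real, Real.norm_eq_abs, abs_of_nonneg (hlog q hq)]
      apply mul_le_mul_of_nonneg_left _ (hlog q hq)
      refine (norm_ee_sub_ee_le _ _).trans ?_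
      have hq' := (apm_mem.1 hq).1
      have e3 : (q : ℝ) * β - X * β * a = β * (q - a * X) := by ring
      rw [e3, abs_mul, abs_of_nonneg (by linarith [hq'.2.1] : 0 ≤ (q : ℝ) - a * X)]
      have e4 : (q : ℝ) - a * X ≤ δ * X := by
        have := hq'.2.2
        nlinarith
      have e5 : |β| * ((q : ℝ) - a * X) ≤ B * δ := by
        calc |β| * ((q : ℝ) - a * X) ≤ |β| * (δ * X) :=
              mul_le_mul_of_nonneg_left e4 (abs_nonneg _)
          _ = (|β| * X) * δ := by ring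
          _ ≤ B * δ := mul_le_mul_of_nonneg_right hB hδ0
      have := Real.pi_pos
      nlinarith
    rw [← Finset.sum_mul] at e2
    calc 1 / X * ‖∑ q ∈ P, (Real.log q : ℂ) * (ee (q * β) - e0)‖
        ≤ 1 / X * ((∑ q ∈ P, Real.log q) * (2 * Real.pi * B * δ)) :=
          mul_le_mul_of_nonneg_left e2 (by positivity)
      _ = 2 * Real.pi * B * δ * M := by rw [hM]; ring
  -- integral part
  have hcont : Continuous (fun t : ℝ => ee (X * β * t)) := by
    unfold ee
    fun_prop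
  have h2 : ‖(1 / (Nat.totient r : ℂ)) * (∫ t in a..b, ee (X * β * t)) -
      (((b - a) / (Nat.totient r : ℝ) : ℝ) : ℂ) * e0‖ ≤
      2 * Real.pi * B * δ * ((b - a) / (Nat.totient r : ℝ)) := by
    have e1 : (∫ t in a..b, e0) = ((b - a : ℝ) : ℂ) * e0 := by
      rw [intervalIntegral.integral_const, Complex.real_smul]
    have e2 : (1 / (Nat.totient r : ℂ)) * (∫ t in a..b, ee (X * β * t)) -
        (((b - a) / (Nat.totient r : ℝ) : ℝ) : ℂ) * e0 =
        (1 / (Nat.totient r : ℂ)) * ∫ t in a..b, (ee (X * β * t) - e0) := by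
      rw [intervalIntegral.integral_sub (hcont.intervalIntegrable _ _)
        (intervalIntegrable_const), e1]
      push_cast
      ring
    have e3 : ‖∫ t in a..b, (ee (X * β * t) - e0)‖ ≤ (2 * Real.pi * B * δ) * |b - a| := by
      apply intervalIntegral.norm_integral_le_of_norm_le_const
      intro t ht
      rw [Set.uIoc_of_le hab] at ht
      refine (norm_ee_sub_ee_le _ _).trans ?_
      have e4 : X * β * t - X * β * a = β * (X * (t - a)) := by ring
      rw [e4, abs_mul, abs_of_nonneg (mul_nonneg hX.le (by linarith [ht.1]))]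
      have e5 : |β| * (X * (t - a)) ≤ B * δ := by
        calc |β| * (X * (t - a)) = (|β| * X) * (t - a) := by ring
          _ ≤ B * δ := mul_le_mul hB (by linarith [ht.2]) (by linarith [ht.1]) hB0
      have := Real.pi_pos
      nlinarith
    have hφc : ‖(1 / (Nat.totient r : ℂ))‖ = 1 / (Nat.totient r : ℝ) := by
      rw [norm_div, norm_one, Complex.norm_natCast]
    rw [e2, norm_mul, hφc]
    rw [abs_of_nonneg (by linarith : 0 ≤ b - a)] at e3
    calc 1 / (Nat.totient r : ℝ) * ‖∫ t in a..b, (ee (X * β * t) - e0)‖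
        ≤ 1 / (Nat.totient r : ℝ) * ((2 * Real.pi * B * δ) * (b - a)) :=
          mul_le_mul_of_nonneg_left e3 (by positivity)
      _ = 2 * Real.pi * B * δ * ((b - a) / (Nat.totient r : ℝ)) := by ring
  have hne0 : ‖e0‖ = 1 := norm_ee _
  have h3 : ‖(M : ℂ) * e0 - (((b - a) / (Nat.totient r : ℝ) : ℝ) : ℂ) * e0‖ =
      |M - (b - a) / (Nat.totient r : ℝ)| := by
    rw [← sub_mul, norm_mul, hne0, mul_one, ← Complex.ofReal_sub, Complex.norm_real,
      Real.norm_eq_abs]
  have htri : (1 / (X : ℂ)) * ∑ q ∈ P, (Real.log q : ℂ) * ee (q * β) -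
        (1 / (Nat.totient r : ℂ)) * (∫ t in a..b, ee (X * β * t)) =
      ((1 / (X : ℂ)) * ∑ q ∈ P, (Real.log q : ℂ) * ee (q * β) - (M : ℂ) * e0) +
      ((M : ℂ) * e0 - (((b - a) / (Nat.totient r : ℝ) : ℝ) : ℂ) * e0) -
      ((1 / (Nat.totient r : ℂ)) * (∫ t in a..b, ee (X * β * t)) -
      (((b - a) / (Nat.totient r : ℝ) : ℝ) : ℂ) * e0) := by ring
  rw [htri]
  refine (norm_sub_le _ _).trans ?_
  refine (add_le_add (norm_add_le _ _) le_rfl).trans ?_
  rw [h3]
  linarith

/-- Uniform version with a slowly varying phase. -/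
theorem ap_major {r : ℕ} (hr : 0 < r) (B : ℝ) {ε : ℝ} (hε : 0 < ε) :
    ∃ X0 : ℝ, 0 < X0 ∧ ∀ X ≥ X0, ∀ c : ℕ, Nat.Coprime c r → ∀ u v : ℝ, 1 ≤ u → u ≤ v → v ≤ 2 →
      ∀ β : ℝ, |β| ≤ B / X →
      ‖(1 / (X : ℂ)) * ∑ q ∈ (pr (u * X) (v * X)).filter (fun q => q ≡ c [MOD r]),
          (Real.log q : ℂ) * ee (q * β) -
        (1 / (Nat.totient r : ℂ)) * ∫ t in u..v, ee (X * β * t)‖ ≤ ε := by
  have hφ : 0 < Nat.totient r := Nat.totient_pos.2 hr
  have hφ1 : (1 : ℝ) ≤ Nat.totient r := by exact_mod_cast hφ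
  obtain ⟨N, hN⟩ := exists_nat_gt (max 1 (2 * (2 * Real.pi * |B| * 3) / ε))
  have hN1 : (1 : ℝ) < N := (le_max_left _ _).trans_lt hN
  have hN0 : (0 : ℝ) < N := by linarith
  have hN2 : 2 * Real.pi * |B| * 3 / N ≤ ε / 2 := by
    have h := (le_max_right 1 (2 * (2 * Real.pi * |B| * 3) / ε)).trans_lt hN
    rw [div_lt_iff₀ hε] at h
    rw [div_le_iff₀ hN0]
    linarith
  have hη : 0 < min 1 (ε / (2 * N)) := by positivity
  obtain ⟨X1, hX1, hunif⟩ := apm_unif hr hη
  refine ⟨X1, hX1, ?_⟩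
  intro X hX c hc u v hu huv hv β hβ
  have hX0 : 0 < X := hX1.trans_le hX
  set η : ℝ := min 1 (ε / (2 * N)) with hηdef
  change ‖(1 / (X : ℂ)) * ∑ q ∈ apm_P r c (u * X) (v * X), (Real.log q : ℂ) * ee (q * β) -
        (1 / (Nat.totient r : ℂ)) * ∫ t in u..v, ee (X * β * t)‖ ≤ ε
  have hcont : Continuous (fun t : ℝ => ee (X * β * t)) := by
    unfold ee
    fun_prop
  -- partition
  set p : ℕ → ℝ := fun i => u + (v - u) * i / N with hp
  have hpmono : ∀ i j : ℕ, i ≤ j → p i ≤ p j := by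
    intro i j hij
    simp only [hp]
    have : (i : ℝ) ≤ j := by exact_mod_cast hij
    have h2 : (v - u) * i / N ≤ (v - u) * j / N := by
      apply div_le_div_of_nonneg_right _ hN0.le
      exact mul_le_mul_of_nonneg_left this (by linarith)
    linarith
  have hp0 : p 0 = u := by simp [hp]
  have hpN : p N = v := by
    simp only [hp]
    rw [mul_div_assoc, div_self hN0.ne']
    ring
  have hstep : ∀ i : ℕ, p (i + 1) - p i ≤ 1 / N := by
    intro i
    simp only [hp]
    push_cast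
    have : (u + (v - u) * (i + 1) / N) - (u + (v - u) * i / N) = (v - u) / N := by ring
    rw [this]
    apply div_le_div_of_nonneg_right _ hN0.le
    linarith
  set S : ℝ → ℝ → ℂ := fun a b => (1 / (X : ℂ)) * ∑ q ∈ apm_P r c (a * X) (b * X),
    (Real.log q : ℂ) * ee (q * β) - (1 / (Nat.totient r : ℂ)) * ∫ t in a..b, ee (X * β * t)
    with hS
  set M : ℝ → ℝ → ℝ := fun a b => (1 / X) * ∑ q ∈ apm_P r c (a * X) (b * X), Real.log q +
        (b - a) / (Nat.totient r : ℝ) with hM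
  have hSadd : ∀ a b d : ℝ, a ≤ b → b ≤ d → S a d = S a b + S b d := by
    intro a b d hab hbd
    simp only [hS]
    rw [apm_split r c (x := a * X) (y := b * X) (z := d * X)
      (mul_le_mul_of_nonneg_right hab hX0.le) (mul_le_mul_of_nonneg_right hbd hX0.le),
      ← intervalIntegral.integral_add_adjacent_intervals (hcont.intervalIntegrable a b)
        (hcont.intervalIntegrable b d)]
    ring
  have hMadd : ∀ a b d : ℝ, a ≤ b → b ≤ d → M a d = M a b + M b d := by
    intro a b d hab hbd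
    simp only [hM]
    rw [apm_split r c (x := a * X) (y := b * X) (z := d * X)
      (mul_le_mul_of_nonneg_right hab hX0.le) (mul_le_mul_of_nonneg_right hbd hX0.le)]
    ring
  have hB : |β| ≤ |B| / X := hβ.trans (div_le_div_of_nonneg_right (le_abs_self B) hX0.le)
  have hlocal : ∀ i : ℕ, i < N → ‖S (p i) (p (i + 1))‖ ≤
      η + 2 * Real.pi * |B| * (1 / N) * M (p i) (p (i + 1)) := by
    intro i hi
    have h1 : 1 ≤ p i := hu.trans (by rw [← hp0]; exact hpmono 0 i (Nat.zero_le i))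
    have h2 : p (i + 1) ≤ 2 := (by rw [← hpN]; exact hpmono (i + 1) N hi : p (i + 1) ≤ v).trans hv
    have h3 := hunif X hX c hc (p i) (p (i + 1)) h1 (hpmono i (i + 1) (Nat.le_succ i)) h2
    have h4 := apm_local r c hφ1 hX0 (hpmono i (i + 1) (Nat.le_succ i)) (hstep i) hB
    exact h4.trans (add_le_add h3 le_rfl)
  have hind : ∀ j : ℕ, j ≤ N → ‖S (p 0) (p j)‖ ≤
      j * η + 2 * Real.pi * |B| * (1 / N) * M (p 0) (p j) := by
    intro j
    induction j with
    | zero =>
      intro _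
      have e1 : S (p 0) (p 0) = 0 := by
        have := hSadd (p 0) (p 0) (p 0) le_rfl le_rfl
        simpa using this
      have e2 : M (p 0) (p 0) = 0 := by
        have := hMadd (p 0) (p 0) (p 0) le_rfl le_rfl
        linarith
      rw [e1, e2]
      simp
    | succ j ih =>
      intro hj
      have h1 := ih (by omega)
      have h2 := hlocal j (by omega)
      rw [hSadd (p 0) (p j) (p (j + 1)) (hpmono _ _ (Nat.zero_le _)) (hpmono _ _ (Nat.le_succ _)),
        hMadd (p 0) (p j) (p (j + 1)) (hpmono _ _ (Nat.zero_le _)) (hpmono _ _ (Nat.le_succ _))]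
      refine (norm_add_le _ _).trans ?_
      push_cast
      linarith
  have hfin := hind N le_rfl
  rw [hp0, hpN] at hfin
  change ‖S u v‖ ≤ ε
  have hMle : M u v ≤ 3 := by
    have h1 := hunif X hX c hc u v hu huv hv
    have h2 : (v - u) / (Nat.totient r : ℝ) ≤ 1 := by
      rw [div_le_one (by linarith)]
      linarith
    have h3 : η ≤ 1 := min_le_left _ _
    rw [abs_le] at h1
    simp only [hM]
    linarith [h1.2]
  have hNη : N * η ≤ ε / 2 := by
    have : η ≤ ε / (2 * N) := min_le_right _ _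
    calc N * η ≤ N * (ε / (2 * N)) := mul_le_mul_of_nonneg_left this hN0.le
      _ = ε / 2 := by field_simp
  have hlast : 2 * Real.pi * |B| * (1 / N) * M u v ≤ 2 * Real.pi * |B| * 3 / N := by
    have h0 : 0 ≤ 2 * Real.pi * |B| * (1 / N) := by positivity
    calc 2 * Real.pi * |B| * (1 / N) * M u v ≤ 2 * Real.pi * |B| * (1 / N) * 3 :=
          mul_le_mul_of_nonneg_left hMle h0
      _ = 2 * Real.pi * |B| * 3 / N := by ring
  linarith

end Pool.MP_67663b_nt.Odd
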