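import Pool.Agent.Lib.MP_67663b_nt.OddB.APFej

set_option autoImplicit false
open Filter Topology ArithmeticFunction
namespace Pool.MP_67663b_nt.Odd

/-! ### the total mass of the Fejer kernel -/

private theorem apw_fej_cont (T : ℝ) : Continuous (fej T) := by
  unfold fej
  have := Real.continuous_sinc
  fun_prop

private theorem apw_fej_integrable : MeasureTheory.Integrable (fej 1) := by
  have h1 : MeasureTheory.Integrable (fun u : ℝ => 5 * (1 + u ^ 2)⁻¹) :=
    integrable_inv_one_add_sq.const_mul 5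
  refine h1.mono' (apw_fej_cont 1).aestronglyMeasurable (Filter.Eventually.of_forall fun u => ?_)
  rw [Real.norm_eq_abs, abs_of_nonneg (wpnt1_fej_nonneg one_pos u)]
  rw [← div_eq_mul_inv, le_div_iff₀ (by positivity)]
  by_cases hu : u = 0
  · subst hu
    have := wpnt1_fej_le one_pos 0
    linarith
  · have h2 := wpnt1_fej_le one_pos u
    have h3 := wpnt1_fej_le' one_pos hu
    have h4 : fej 1 u * u ^ 2 ≤ 4 := by
      have h5 : 4 / (1 : ℝ) * (1 / u ^ 2) * u ^ 2 = 4 := by
        have : u ^ 2 ≠ 0 := pow_ne_zero 2 hu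
        field_simp
      calc fej 1 u * u ^ 2 ≤ 4 / (1 : ℝ) * (1 / u ^ 2) * u ^ 2 :=
            mul_le_mul_of_nonneg_right h3 (sq_nonneg u)
        _ = 4 := h5
    nlinarith

private noncomputable def apwC : ℝ := ∫ u, fej 1 u

private theorem apw_scale {T : ℝ} (hT : 0 < T) (x y : ℝ) :
    ∫ u in x..y, fej T u = ∫ u in (T * x)..(T * y), fej 1 u := by
  have h1 : ∀ u : ℝ, fej T u = T * fej 1 (T * u) := by
    intro u
    unfold fej
    ring_nf
  simp only [h1]
  rw [intervalIntegral.integral_const_mul,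
    intervalIntegral.integral_comp_mul_left (fun u => fej 1 u) hT.ne', smul_eq_mul,
    ← mul_assoc, mul_inv_cancel₀ hT.ne', one_mul]

private theorem apw_le_C {T : ℝ} (hT : 0 < T) {x y : ℝ} (hxy : x ≤ y) :
    ∫ u in x..y, fej T u ≤ apwC := by
  rw [apw_scale hT, intervalIntegral.integral_of_le (mul_le_mul_of_nonneg_left hxy hT.le)]
  exact MeasureTheory.setIntegral_le_integral apw_fej_integrable
    (Filter.Eventually.of_forall fun u => wpnt1_fej_nonneg one_pos u)

private theorem apw_int_tendsto {δ : ℝ} (hδ : 0 < δ) :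
    Tendsto (fun T : ℝ => ∫ u in (-δ)..δ, fej T u) atTop (𝓝 apwC) := by
  have h1 : Tendsto (fun T : ℝ => ∫ u in (T * (-δ))..(T * δ), fej 1 u) atTop (𝓝 apwC) := by
    refine MeasureTheory.intervalIntegral_tendsto_integral apw_fej_integrable ?_ ?_
    · have : Tendsto (fun T : ℝ => T * (-δ)) atTop atBot :=
        tendsto_id.atTop_mul_const_of_neg (by linarith)
      exact this
    · exact tendsto_id.atTop_mul_const hδ
  refine h1.congr' ?_
  filter_upwards [eventually_gt_atTop 0] with T hT
  rw [apw_scale hT]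

private theorem apwC_pos : 0 < apwC := by
  have h1 : ∫ _u in (-1 : ℝ)..1, (225 / 256 : ℝ) ≤ ∫ u in (-1 : ℝ)..1, fej 1 u := by
    apply intervalIntegral.integral_mono_on (by norm_num)
    · exact intervalIntegrable_const
    · exact (apw_fej_cont 1).intervalIntegrable _ _
    · intro u hu
      have := wpnt_fej_lower one_pos (u := u) (by
        rw [abs_le]
        norm_num
        exact hu)
      linarith
  have h2 := apw_le_C one_pos (show (-1 : ℝ) ≤ 1 by norm_num)
  have h3 : ∫ _u in (-1 : ℝ)..1, (225 / 256 : ℝ) = 2 * (225 / 256) := by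
    rw [intervalIntegral.integral_const, smul_eq_mul]
    norm_num
  rw [h3] at h1
  linarith

/-! ### windows -/

private noncomputable def apwS (y a b : ℝ) : Finset ℕ :=
  (Finset.Icc 1 ⌊Real.exp (y + b)⌋₊).filter (fun n : ℕ => y + a < Real.log n)

private theorem mem_apwS {y a b : ℝ} {n : ℕ} :
    n ∈ apwS y a b ↔ 0 < n ∧ y + a < Real.log n ∧ Real.log n ≤ y + b := by
  unfold apwS
  rw [Finset.mem_filter, Finset.mem_Icc]
  constructor
  · rintro ⟨⟨h1, h2⟩, h3⟩
    have hn : (0 : ℝ) < n := by exact_mod_cast h1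
    refine ⟨h1, h3, ?_⟩
    rw [Real.log_le_iff_le_exp hn]
    exact (Nat.le_floor_iff (Real.exp_pos _).le).1 h2
  · rintro ⟨h1, h2, h3⟩
    have hn : (0 : ℝ) < n := by exact_mod_cast h1
    refine ⟨⟨h1, ?_⟩, h2⟩
    rw [Real.log_le_iff_le_exp hn] at h3
    exact Nat.le_floor h3

private theorem apw_summable {w : ℕ → ℝ} (hw0 : ∀ n, 0 ≤ w n)
    (hw : ∀ n, w n ≤ (vonMangoldt n + 1) / (n : ℝ)) {T : ℝ} (hT : 0 < T) (t : ℝ) :
    Summable (fun n : ℕ => w n * fej T (t - Real.log n)) := by
  refine Summable.of_nonneg_of_le ?_ ?_ (fej_summable hT t)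
  · intro n
    exact mul_nonneg (hw0 n) (wpnt1_fej_nonneg hT _)
  · intro n
    exact mul_le_mul_of_nonneg_right (hw n) (wpnt1_fej_nonneg hT _)

private theorem apw_int_shift (T x y z : ℝ) :
    ∫ τ in x..y, fej T (z + τ) = ∫ u in (z + x)..(z + y), fej T u := by
  rw [intervalIntegral.integral_comp_add_left (fun u => fej T u) z]

private theorem apw_compare {w w' : ℕ → ℝ} (hw0 : ∀ n, 0 ≤ w n) (hw'0 : ∀ n, 0 ≤ w' n)
    (hw : ∀ n, w n ≤ (vonMangoldt n + 1) / (n : ℝ))
    (hw' : ∀ n, w' n ≤ (vonMangoldt n + 1) / (n : ℝ))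
    (hlim : ∀ T : ℝ, 0 < T → ∀ ε : ℝ, 0 < ε → ∀ᶠ t : ℝ in atTop,
      ∑' n : ℕ, w n * fej T (t - Real.log n) ≤ ∑' n : ℕ, w' n * fej T (t - Real.log n) + ε)
    {a b δ K : ℝ} (hab : a ≤ b) (hδ : 0 < δ) (hδ1 : δ ≤ 1)
    (hK : ∀ᶠ y : ℝ in atTop, ∑ n ∈ apwS y (a - 2 * δ) (b + 2 * δ), w' n ≤ K)
    {η : ℝ} (hη : 0 < η) :
    ∀ᶠ y : ℝ in atTop, ∑ n ∈ apwS y a b, w n ≤
      ∑ n ∈ apwS y (a - 2 * δ) (b + 2 * δ), w' n + η := by
  obtain ⟨C, hC, htail⟩ := fej_tail
  have hI := apw_int_tendsto hδ
  have hc0 := apwC_pos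
  -- choose T
  have hT1 : Tendsto (fun T : ℝ => (apwC / (∫ u in (-δ)..δ, fej T u) - 1) * K +
      (b - a + 2 * δ) * (C / (T * (δ / 2) ^ 2) + 1 / T) / (∫ u in (-δ)..δ, fej T u)) atTop
      (𝓝 ((apwC / apwC - 1) * K + (b - a + 2 * δ) * (0 + 0) / apwC)) := by
    apply Tendsto.add
    · apply Tendsto.mul_const
      apply Tendsto.sub_const
      exact tendsto_const_nhds.div hI hc0.ne'
    · apply Tendsto.div _ hI hc0.ne'
      apply Tendsto.const_mul
      apply Tendsto.add
      · have h1 : Tendsto (fun T : ℝ => T * (δ / 2) ^ 2) atTop atTop :=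
          tendsto_id.atTop_mul_const (by positivity)
        exact tendsto_const_nhds.div_atTop h1
      · exact tendsto_const_nhds.div_atTop tendsto_id
  have hT2 : (apwC / apwC - 1) * K + (b - a + 2 * δ) * (0 + 0) / apwC = 0 := by
    rw [div_self hc0.ne']
    ring
  rw [hT2] at hT1
  obtain ⟨T, hT3, hT4, hT0⟩ := ((hT1.eventually_lt_const hη).and
    ((hI.eventually_const_lt hc0).and (eventually_gt_atTop 0))).exists
  set J : ℝ := ∫ u in (-δ)..δ, fej T u with hJ
  have hJle : J ≤ apwC := apw_le_C hT0 (by linarith)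
  have hL := hlim T hT0 (1 / T) (by positivity)
  obtain ⟨t0, ht0⟩ := eventually_atTop.1 hL
  filter_upwards [hK, eventually_ge_atTop (t0 - (a - δ))] with y hy1 hy2
  set s := apwS y a b with hs
  set s' := apwS y (a - 2 * δ) (b + 2 * δ) with hs'
  have hpoint : ∀ τ ∈ Set.Icc (a - δ) (b + δ),
      ∑ n ∈ s, w n * fej T (y - Real.log n + τ) ≤
      ∑ n ∈ s', w' n * fej T (y - Real.log n + τ) + (C / (T * (δ / 2) ^ 2) + 1 / T) := by
    intro τ hτ
    have h1 : ∑ n ∈ s, w n * fej T ((y + τ) - Real.log n) ≤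
        ∑' n : ℕ, w n * fej T ((y + τ) - Real.log n) :=
      (apw_summable hw0 hw hT0 (y + τ)).sum_le_tsum _
        (fun n _ => mul_nonneg (hw0 n) (wpnt1_fej_nonneg hT0 _))
    have h2 := ht0 (y + τ) (by linarith [hτ.1])
    have h3 : ∑' n : ℕ, w' n * fej T ((y + τ) - Real.log n) ≤
        ∑ n ∈ s', w' n * fej T ((y + τ) - Real.log n) + C / (T * (δ / 2) ^ 2) := by
      have hS1 := apw_summable hw'0 hw' hT0 (y + τ)
      have hS2 : Summable (fun n : ℕ => if δ / 2 < |(y + τ) - Real.log n| then
          (vonMangoldt n + 1) / (n : ℝ) * fej T ((y + τ) - Real.log n) else 0) := by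
        refine Summable.of_nonneg_of_le ?_ ?_ (fej_summable hT0 (y + τ))
        · intro n
          split_ifs
          · exact mul_nonneg (div_nonneg (add_nonneg vonMangoldt_nonneg zero_le_one)
              (Nat.cast_nonneg n)) (wpnt1_fej_nonneg hT0 _)
          · exact le_rfl
        · intro n
          split_ifs
          · exact le_rfl
          · exact mul_nonneg (div_nonneg (add_nonneg vonMangoldt_nonneg zero_le_one)
              (Nat.cast_nonneg n)) (wpnt1_fej_nonneg hT0 _)
      have hS3 : HasSum (fun n : ℕ => if n ∈ s' then w' n * fej T ((y + τ) - Real.log n) else 0)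
          (∑ n ∈ s', w' n * fej T ((y + τ) - Real.log n)) := by
        have h4 : HasSum (fun n : ℕ => if n ∈ s' then w' n * fej T ((y + τ) - Real.log n) else 0)
            (∑ n ∈ s', (if n ∈ s' then w' n * fej T ((y + τ) - Real.log n) else 0)) :=
          hasSum_sum_of_ne_finset_zero (by
            intro n hn
            simp [hn])
        have h5 : ∑ n ∈ s', (if n ∈ s' then w' n * fej T ((y + τ) - Real.log n) else 0) =
            ∑ n ∈ s', w' n * fej T ((y + τ) - Real.log n) :=
          Finset.sum_congr rfl fun n hn => by rw [if_pos hn]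
        rw [h5] at h4
        exact h4
      have h6 : ∑' n : ℕ, w' n * fej T ((y + τ) - Real.log n) ≤
          ∑' n : ℕ, ((if n ∈ s' then w' n * fej T ((y + τ) - Real.log n) else 0) +
            (if δ / 2 < |(y + τ) - Real.log n| then
          (vonMangoldt n + 1) / (n : ℝ) * fej T ((y + τ) - Real.log n) else 0)) := by
        refine hS1.tsum_le_tsum ?_ (hS3.summable.add hS2)
        intro n
        have hnn : 0 ≤ (vonMangoldt n + 1) / (n : ℝ) * fej T ((y + τ) - Real.log n) :=
          mul_nonneg (div_nonneg (add_nonneg vonMangoldt_nonneg zero_le_one)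
              (Nat.cast_nonneg n)) (wpnt1_fej_nonneg hT0 _)
        have hnn' : 0 ≤ w' n * fej T ((y + τ) - Real.log n) :=
          mul_nonneg (hw'0 n) (wpnt1_fej_nonneg hT0 _)
        by_cases hn : n ∈ s'
        · rw [if_pos hn]
          split_ifs <;> linarith
        · rw [if_neg hn, zero_add]
          rcases Nat.eq_zero_or_pos n with h0 | h0
          · have h7 : w' n ≤ 0 := by
              have := hw' n
              rw [h0] at this
              simp only [Nat.cast_zero, div_zero] at this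
              rw [h0]
              exact this
            have h8 : w' n = 0 := le_antisymm h7 (hw'0 n)
            rw [h8, zero_mul]
            split_ifs
            · exact hnn
            · exact le_rfl
          · have h7 : δ / 2 < |(y + τ) - Real.log n| := by
              rw [hs', mem_apwS] at hn
              push Not at hn
              by_cases h8 : y + (a - 2 * δ) < Real.log n
              · have h9 := hn h0 h8
                rw [lt_abs]
                right
                linarith [hτ.2]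
              · push Not at h8
                rw [lt_abs]
                left
                linarith [hτ.1]
            rw [if_pos h7]
            exact mul_le_mul_of_nonneg_right (hw' n) (wpnt1_fej_nonneg hT0 _)
      rw [hS3.summable.tsum_add hS2, hS3.tsum_eq] at h6
      refine h6.trans ?_
      have := htail T hT0 (δ / 2) (by linarith) (by linarith) (y + τ)
      linarith
    have h4 : ∀ n : ℕ, y - Real.log n + τ = (y + τ) - Real.log n := fun n => by ring
    simp only [h4]
    linarith
  have hcontsum : ∀ (v : ℕ → ℝ) (S : Finset ℕ),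
      Continuous (fun τ : ℝ => ∑ n ∈ S, v n * fej T (y - Real.log n + τ)) := by
    intro v S
    apply continuous_finsetSum
    intro n _
    exact continuous_const.mul ((apw_fej_cont T).comp (by fun_prop))
  have hint : ∫ τ in (a - δ)..(b + δ), (∑ n ∈ s, w n * fej T (y - Real.log n + τ)) ≤
      ∫ τ in (a - δ)..(b + δ), (∑ n ∈ s', w' n * fej T (y - Real.log n + τ) +
        (C / (T * (δ / 2) ^ 2) + 1 / T)) := by
    apply intervalIntegral.integral_mono_on (by linarith)
    · exact (hcontsum w s).intervalIntegrable _ _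
    · exact ((hcontsum w' s').add continuous_const).intervalIntegrable _ _
    · exact hpoint
  have hii : ∀ (v : ℕ → ℝ) (n : ℕ), IntervalIntegrable
      (fun τ : ℝ => v n * fej T (y - Real.log n + τ)) MeasureTheory.volume (a - δ) (b + δ) := by
    intro v n
    apply Continuous.intervalIntegrable
    exact continuous_const.mul ((apw_fej_cont T).comp (by fun_prop))
  have hleft : ∫ τ in (a - δ)..(b + δ), (∑ n ∈ s, w n * fej T (y - Real.log n + τ)) =
      ∑ n ∈ s, w n * ∫ u in (y - Real.log n + (a - δ))..(y - Real.log n + (b + δ)), fej T u := by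
    rw [intervalIntegral.integral_finsetSum (fun n _ => hii w n)]
    refine Finset.sum_congr rfl fun n _ => ?_
    rw [intervalIntegral.integral_const_mul, apw_int_shift]
  have hright : ∫ τ in (a - δ)..(b + δ), (∑ n ∈ s', w' n * fej T (y - Real.log n + τ) +
        (C / (T * (δ / 2) ^ 2) + 1 / T)) =
      ∑ n ∈ s', w' n * (∫ u in (y - Real.log n + (a - δ))..(y - Real.log n + (b + δ)), fej T u) +
        (b - a + 2 * δ) * (C / (T * (δ / 2) ^ 2) + 1 / T) := by
    rw [intervalIntegral.integral_add ((hcontsum w' s').intervalIntegrable _ _)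
      intervalIntegrable_const, intervalIntegral.integral_finsetSum (fun n _ => hii w' n),
      intervalIntegral.integral_const, smul_eq_mul]
    congr 1
    · refine Finset.sum_congr rfl fun n _ => ?_
      rw [intervalIntegral.integral_const_mul, apw_int_shift]
    · ring
  rw [hleft, hright] at hint
  have hlow : J * ∑ n ∈ s, w n ≤
      ∑ n ∈ s, w n * ∫ u in (y - Real.log n + (a - δ))..(y - Real.log n + (b + δ)), fej T u := by
    rw [Finset.mul_sum]
    refine Finset.sum_le_sum fun n hn => ?_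
    rw [mul_comm]
    refine mul_le_mul_of_nonneg_left ?_ (hw0 n)
    rw [hs, mem_apwS] at hn
    obtain ⟨_, hn2, hn3⟩ := hn
    apply intervalIntegral.integral_mono_interval (by linarith) (by linarith) (by linarith)
    · exact Filter.Eventually.of_forall fun u => wpnt1_fej_nonneg hT0 u
    · exact (apw_fej_cont T).intervalIntegrable _ _
  have hup : ∑ n ∈ s', w' n *
      (∫ u in (y - Real.log n + (a - δ))..(y - Real.log n + (b + δ)), fej T u) ≤
      apwC * ∑ n ∈ s', w' n := by
    rw [Finset.mul_sum]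
    refine Finset.sum_le_sum fun n _ => ?_
    rw [mul_comm apwC]
    exact mul_le_mul_of_nonneg_left (apw_le_C hT0 (by linarith)) (hw'0 n)
  set W : ℝ := ∑ n ∈ s, w n with hW
  set W' : ℝ := ∑ n ∈ s', w' n with hW'
  set E : ℝ := (b - a + 2 * δ) * (C / (T * (δ / 2) ^ 2) + 1 / T) with hE
  have hfin : J * W ≤ apwC * W' + E := by linarith
  have h1 : W ≤ (apwC * W' + E) / J := by
    rw [le_div_iff₀ hT4]
    linarith
  have h2 : (apwC * W' + E) / J = W' + ((apwC / J - 1) * W' + E / J) := by
    field_simp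
    ring
  have h3 : 0 ≤ apwC / J - 1 := by
    rw [sub_nonneg, le_div_iff₀ hT4]
    linarith
  have h4 : (apwC / J - 1) * W' ≤ (apwC / J - 1) * K := mul_le_mul_of_nonneg_left hy1 h3
  rw [h2] at h1
  linarith

/-! ### the counting weights -/

private theorem apw_log_floor : Tendsto (fun z : ℝ => Real.log ⌊Real.exp z⌋₊ - z) atTop (𝓝 0) := by
  have h1 : Tendsto (fun z : ℝ => (⌊Real.exp z⌋₊ : ℝ) / Real.exp z) atTop (𝓝 1) :=
    (tendsto_nat_floor_div_atTop (R := ℝ)).comp Real.tendsto_exp_atTop
  have h2 : Tendsto (fun z : ℝ => Real.log ((⌊Real.exp z⌋₊ : ℝ) / Real.exp z)) atTop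
      (𝓝 (Real.log 1)) := h1.log one_ne_zero
  rw [Real.log_one] at h2
  refine h2.congr' ?_
  filter_upwards [eventually_ge_atTop 0] with z hz
  have h3 : (1 : ℝ) ≤ Real.exp z := Real.one_le_exp hz
  have h4 : 0 < ⌊Real.exp z⌋₊ := Nat.floor_pos.2 h3
  rw [Real.log_div (by exact_mod_cast h4.ne') (Real.exp_pos z).ne', Real.log_exp]

private theorem apw_harm : Tendsto (fun z : ℝ => (harmonic ⌊Real.exp z⌋₊ : ℝ) - z) atTop
    (𝓝 Real.eulerMascheroniConstant) := by
  have h1 : Tendsto (fun z : ℝ => (harmonic ⌊Real.exp z⌋₊ : ℝ) - Real.log ⌊Real.exp z⌋₊) atTop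
      (𝓝 Real.eulerMascheroniConstant) :=
    Real.tendsto_harmonic_sub_log.comp
      ((tendsto_nat_floor_atTop (α := ℝ)).comp Real.tendsto_exp_atTop)
  have h2 := h1.add apw_log_floor
  rw [add_zero] at h2
  refine h2.congr fun z => ?_
  ring

private theorem apw_one {a b : ℝ} (hab : a ≤ b) :
    Tendsto (fun y : ℝ => ∑ n ∈ apwS y a b, 1 / (n : ℝ)) atTop (𝓝 (b - a)) := by
  have hb := apw_harm.comp (tendsto_atTop_add_const_right atTop b tendsto_id)
  have ha := apw_harm.comp (tendsto_atTop_add_const_right atTop a tendsto_id)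
  have h1 := (hb.sub ha).add_const (b - a)
  rw [sub_self, zero_add] at h1
  refine h1.congr fun y => ?_
  simp only [Function.comp_apply, id_eq]
  have h2 : ∀ N : ℕ, (harmonic N : ℝ) = ∑ n ∈ Finset.Ioc 0 N, 1 / (n : ℝ) := by
    intro N
    rw [harmonic_eq_sum_Icc]
    push_cast
    refine Finset.sum_congr ?_ fun n _ => by rw [one_div]
    ext n
    simp only [Finset.mem_Icc, Finset.mem_Ioc]
    omega
  have h3 : ⌊Real.exp (y + a)⌋₊ ≤ ⌊Real.exp (y + b)⌋₊ :=
    Nat.floor_le_floor (Real.exp_le_exp.2 (by linarith))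
  have h4 : apwS y a b = Finset.Ioc ⌊Real.exp (y + a)⌋₊ ⌊Real.exp (y + b)⌋₊ := by
    ext n
    rw [mem_apwS, Finset.mem_Ioc]
    constructor
    · rintro ⟨g1, g2, g3⟩
      have hn : (0 : ℝ) < n := by exact_mod_cast g1
      rw [Real.log_le_iff_le_exp hn] at g3
      rw [Real.lt_log_iff_exp_lt hn] at g2
      exact ⟨(Nat.floor_lt (Real.exp_pos _).le).2 g2, Nat.le_floor g3⟩
    · rintro ⟨g1, g2⟩
      have g3 : 0 < n := by omega
      have hn : (0 : ℝ) < n := by exact_mod_cast g3
      rw [Real.log_le_iff_le_exp hn, Real.lt_log_iff_exp_lt hn]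
      exact ⟨g3, (Nat.floor_lt (Real.exp_pos _).le).1 g1,
        (Nat.le_floor_iff (Real.exp_pos _).le).1 g2⟩
  rw [h4, h2, h2, ← Finset.sum_Ioc_consecutive _ (Nat.zero_le _) h3]
  ring

/-- Prime number theorem in arithmetic progressions on windows of the logarithmic scale. -/
theorem ap_window {r : ℕ} (hr : 0 < r) (c : ℕ) (hc : Nat.Coprime c r) {a b : ℝ} (hab : a ≤ b) :
    Tendsto (fun y : ℝ => ∑ n ∈ (Finset.Icc 1 ⌊Real.exp (y + b)⌋₊).filter
      (fun n : ℕ => y + a < Real.log n ∧ n ≡ c [MOD r]), vonMangoldt n / (n : ℝ))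
      atTop (𝓝 ((b - a) / (Nat.totient r : ℝ))) := by
  set φ : ℝ := (Nat.totient r : ℝ) with hφ
  have hφ1 : (1 : ℝ) ≤ φ := by
    rw [hφ]
    exact_mod_cast Nat.totient_pos.2 hr
  have hφ0 : 0 < φ := by linarith
  set w : ℕ → ℝ := fun n => if n ≡ c [MOD r] then vonMangoldt n / (n : ℝ) else 0 with hw
  set w' : ℕ → ℝ := fun n => 1 / (n : ℝ) / φ with hw'
  have hw0 : ∀ n, 0 ≤ w n := by
    intro n
    rw [hw]
    dsimp only
    split_ifs
    · exact div_nonneg vonMangoldt_nonneg (Nat.cast_nonneg n)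
    · exact le_rfl
  have hw'0 : ∀ n, 0 ≤ w' n := by
    intro n
    rw [hw']
    positivity
  have hwle : ∀ n, w n ≤ (vonMangoldt n + 1) / (n : ℝ) := by
    intro n
    rw [hw]
    dsimp only
    split_ifs
    · apply div_le_div_of_nonneg_right _ (Nat.cast_nonneg n)
      linarith
    · exact div_nonneg (add_nonneg vonMangoldt_nonneg zero_le_one) (Nat.cast_nonneg n)
  have hw'le : ∀ n, w' n ≤ (vonMangoldt n + 1) / (n : ℝ) := by
    intro n
    rw [hw']
    dsimp only
    have h1 : 1 / (n : ℝ) / φ ≤ 1 / (n : ℝ) := div_le_self (by positivity) hφ1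
    refine h1.trans ?_
    apply div_le_div_of_nonneg_right _ (Nat.cast_nonneg n)
    linarith [vonMangoldt_nonneg (n := n)]
  have hdiff : ∀ T : ℝ, 0 < T → Tendsto (fun t : ℝ => ∑' n : ℕ, w n * fej T (t - Real.log n) -
      ∑' n : ℕ, w' n * fej T (t - Real.log n)) atTop (𝓝 0) := by
    intro T hT
    refine (ap_fej hr c hc hT).congr fun t => ?_
    rw [← (apw_summable hw0 hwle hT t).tsum_sub (apw_summable hw'0 hw'le hT t)]
    refine tsum_congr fun n => ?_
    rw [← sub_mul]
    congr 1
    rw [hw, hw']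
    dsimp only
    split_ifs
    · ring
    · ring
  have hlim1 : ∀ T : ℝ, 0 < T → ∀ ε : ℝ, 0 < ε → ∀ᶠ t : ℝ in atTop,
      ∑' n : ℕ, w n * fej T (t - Real.log n) ≤ ∑' n : ℕ, w' n * fej T (t - Real.log n) + ε := by
    intro T hT ε hε
    filter_upwards [(hdiff T hT).eventually_le_const hε] with t ht
    linarith
  have hlim2 : ∀ T : ℝ, 0 < T → ∀ ε : ℝ, 0 < ε → ∀ᶠ t : ℝ in atTop,
      ∑' n : ℕ, w' n * fej T (t - Real.log n) ≤ ∑' n : ℕ, w n * fej T (t - Real.log n) + ε := by
    intro T hT ε hε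
    filter_upwards [(hdiff T hT).eventually_const_le (show -ε < 0 by linarith)] with t ht
    linarith
  have hnu : ∀ {a b : ℝ}, a ≤ b →
      Tendsto (fun y : ℝ => ∑ n ∈ apwS y a b, w' n) atTop (𝓝 ((b - a) / φ)) := by
    intro a b hab
    refine ((apw_one hab).div_const φ).congr fun y => ?_
    rw [Finset.sum_div]
  have hsum : ∀ y : ℝ, ∑ n ∈ (Finset.Icc 1 ⌊Real.exp (y + b)⌋₊).filter
      (fun n : ℕ => y + a < Real.log n ∧ n ≡ c [MOD r]), vonMangoldt n / (n : ℝ) =
      ∑ n ∈ apwS y a b, w n := by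
    intro y
    unfold apwS
    rw [← Finset.filter_filter, Finset.sum_filter (fun n => n ≡ c [MOD r])]
  simp only [hsum]
  -- upper bound, for all windows
  have hupper : ∀ {a b : ℝ}, a ≤ b → ∀ η : ℝ, 0 < η →
      ∀ᶠ y : ℝ in atTop, ∑ n ∈ apwS y a b, w n ≤ (b - a) / φ + η := by
    intro a b hab η hη
    set δ : ℝ := min 1 (η / 16) with hδ
    have hδ0 : 0 < δ := lt_min one_pos (by positivity)
    have hδ1 : δ ≤ 1 := min_le_left _ _
    have hδ2 : δ ≤ η / 16 := min_le_right _ _
    have h1 := hnu (show a - 2 * δ ≤ b + 2 * δ by linarith)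
    have h2 := apw_compare hw0 hw'0 hwle hw'le hlim1 hab hδ0 hδ1
      (K := (b + 2 * δ - (a - 2 * δ)) / φ + 1)
      (h1.eventually_le_const (by linarith)) (show 0 < η / 4 by positivity)
    filter_upwards [h2, h1.eventually_le_const
      (show (b + 2 * δ - (a - 2 * δ)) / φ < (b + 2 * δ - (a - 2 * δ)) / φ + η / 4 by linarith)]
      with y hy1 hy2
    have h3 : (b + 2 * δ - (a - 2 * δ)) / φ = (b - a) / φ + 4 * δ / φ := by
      rw [← add_div]
      congr 1
      ring
    have h4 : 4 * δ / φ ≤ 4 * δ := div_le_self (by positivity) hφ1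
    linarith
  rw [tendsto_order]
  constructor
  · intro x hx
    rcases eq_or_lt_of_le hab with heq | hlt
    · have hx0 : x < 0 := by
        rw [heq, sub_self, zero_div] at hx
        exact hx
      exact Filter.Eventually.of_forall fun y =>
        lt_of_lt_of_le hx0 (Finset.sum_nonneg fun n _ => hw0 n)
    · set η : ℝ := (b - a) / φ - x with hη
      have hη0 : 0 < η := by linarith
      set δ : ℝ := min 1 (min (η / 16) ((b - a) / 4)) with hδ
      have hδ0 : 0 < δ := lt_min one_pos (lt_min (by positivity) (by linarith))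
      have hδ1 : δ ≤ 1 := min_le_left _ _
      have hδ2 : δ ≤ η / 16 := (min_le_right _ _).trans (min_le_left _ _)
      have hδ3 : δ ≤ (b - a) / 4 := (min_le_right _ _).trans (min_le_right _ _)
      have h1 := hnu (show a + 2 * δ ≤ b - 2 * δ by linarith)
      have h2 := apw_compare hw'0 hw0 hw'le hwle hlim2
        (show a + 2 * δ ≤ b - 2 * δ by linarith) hδ0 hδ1
        (K := (b - a) / φ + 1) (by
          have h3 : a + 2 * δ - 2 * δ = a := by ring
          have h4 : b - 2 * δ + 2 * δ = b := by ring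
          rw [h3, h4]
          exact hupper hab 1 one_pos) (show 0 < η / 4 by positivity)
      filter_upwards [h2, h1.eventually_const_le
        (show (b - 2 * δ - (a + 2 * δ)) / φ - η / 4 < (b - 2 * δ - (a + 2 * δ)) / φ by linarith)]
        with y hy1 hy2
      have h3 : (b - 2 * δ - (a + 2 * δ)) / φ = (b - a) / φ - 4 * δ / φ := by
        rw [← sub_div]
        congr 1
        ring
      have h4 : 4 * δ / φ ≤ 4 * δ := div_le_self (by positivity) hφ1
      have h5 : a + 2 * δ - 2 * δ = a := by ring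
      have h6 : b - 2 * δ + 2 * δ = b := by ring
      rw [h5, h6] at hy1
      linarith
  · intro x hx
    set η : ℝ := x - (b - a) / φ with hη
    have hη0 : 0 < η := by linarith
    filter_upwards [hupper hab (η / 2) (by positivity)] with y hy
    linarith

end Pool.MP_67663b_nt.Odd
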