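import Pool.Agent.Lib.MP_67663b_nt.OddB.BDefs

set_option autoImplicit false
open Filter Topology
namespace Pool.MP_67663b_nt.Odd

variable {I : Type} [Fintype I] [DecidableEq I]

omit [DecidableEq I] in
private theorem countR_mem {a : I → ℤ} {x : ℕ} {s : ℤ} {r : I → ℕ} [DecidableEq I] :
    r ∈ RR a x s ↔ (∀ i, r i < x) ∧ (x : ℤ) ∣ ∑ i, a i * (r i : ℤ) + s := by
  unfold RR
  rw [Finset.mem_filter, Fintype.mem_piFinset]
  simp only [Finset.mem_range]

/-- The unique digit at `l` completing the digits `y` to a solution modulo `p`. -/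
theorem exists_digit {a : I → ℤ} {l : I} {p : ℕ} (hp : 0 < p) (hl : IsCoprime (a l) (p : ℤ)) :
    ∃ dg : ℤ → ({i : I // i ≠ l} → ℕ) → ℕ, ∀ (s : ℤ) (y : {i : I // i ≠ l} → ℕ),
      dg s y < p ∧ ∀ ρ : I → ℕ, (∀ i : {i : I // i ≠ l}, ρ i.1 = y i) → ρ l < p →
        ((p : ℤ) ∣ ∑ i, a i * (ρ i : ℤ) + s ↔ ρ l = dg s y) := by
  obtain ⟨u, v, huv⟩ := hl
  have hp' : (0 : ℤ) < p := by exact_mod_cast hp
  refine ⟨fun s y => ((-u * (∑ i : {i : I // i ≠ l}, a i.1 * (y i : ℤ) + s)) % p).toNat, ?_⟩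
  intro s y
  set c : ℤ := ∑ i : {i : I // i ≠ l}, a i.1 * (y i : ℤ) + s with hc
  have h0 : 0 ≤ (-u * c) % p := Int.emod_nonneg _ hp'.ne'
  have h1 : (-u * c) % p < p := Int.emod_lt_of_pos _ hp'
  have h2 : (((-u * c) % p).toNat : ℤ) = (-u * c) % p := Int.toNat_of_nonneg h0
  change ((-u * c) % p).toNat < p ∧ ∀ ρ : I → ℕ, (∀ i : {i : I // i ≠ l}, ρ i.1 = y i) →
    ρ l < p → ((p : ℤ) ∣ ∑ i, a i * (ρ i : ℤ) + s ↔ ρ l = ((-u * c) % p).toNat)
  refine ⟨by omega, ?_⟩
  intro ρ hρ hlt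
  have h3 : ∑ i, a i * (ρ i : ℤ) + s = a l * (ρ l : ℤ) + c := by
    rw [Fintype.sum_eq_add_sum_subtype_ne (fun i => a i * (ρ i : ℤ)) l, hc]
    rw [Finset.sum_congr rfl (fun i _ => by rw [hρ i])]
    ring
  rw [h3]
  constructor
  · intro hd
    have h4 : ((ρ l : ℤ)) % p = (-u * c) % p := by
      apply Int.emod_emod_of_dvd _ (dvd_refl _) |>.symm.trans
      apply Int.emod_emod_of_dvd _ (dvd_refl _) |>.trans
      apply Int.emod_eq_emod_iff_emod_sub_eq_zero.mpr
      apply Int.emod_eq_zero_of_dvd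
      have h5 : (ρ l : ℤ) - -u * c = u * (a l * (ρ l : ℤ) + c) + v * (ρ l : ℤ) * p := by
        linear_combination (ρ l : ℤ) * (- huv)
      rw [h5]
      exact dvd_add (Dvd.dvd.mul_left hd _) (Dvd.intro_left _ rfl)
    rw [Int.emod_eq_of_lt (by positivity) (by exact_mod_cast hlt)] at h4
    omega
  · intro he
    have h4 : (ρ l : ℤ) = (-u * c) % p := by rw [he]; exact h2
    have h5 : (ρ l : ℤ) = -u * c - p * ((-u * c) / p) := by
      rw [h4, Int.emod_def]
    have h6 : a l * (ρ l : ℤ) + c = p * (v * c - a l * ((-u * c) / p)) := by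
      rw [h5]
      linear_combination (- c) * huv
    rw [h6]
    exact dvd_mul_right _ _

theorem card_RR {a : I → ℤ} {l : I} {x : ℕ} (hx : 0 < x) (hl : IsCoprime (a l) (x : ℤ)) (s : ℤ) :
    (RR a x s).card = x ^ (Fintype.card I - 1) := by
  obtain ⟨dg, hdg⟩ := exists_digit hx hl
  have h1 : (RR a x s).card =
      (Fintype.piFinset (fun _ : {i : I // i ≠ l} => Finset.range x)).card := by
    refine Finset.card_bij (fun r _ => fun i : {i : I // i ≠ l} => r i.1) ?_ ?_ ?_
    · intro r hr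
      rw [Fintype.mem_piFinset]
      intro i
      exact Finset.mem_range.mpr ((countR_mem.mp hr).1 i.1)
    · intro r hr r' hr' heq
      rw [countR_mem] at hr hr'
      have e1 := ((hdg s (fun i => r i.1)).2 r (fun _ => rfl) (hr.1 l)).mp hr.2
      have e2 := ((hdg s (fun i => r i.1)).2 r' (fun i => (congrFun heq i).symm) (hr'.1 l)).mp hr'.2
      funext i
      by_cases h : i = l
      · subst h
        rw [e1, e2]
      · exact congrFun heq ⟨i, h⟩
    · intro y hy
      rw [Fintype.mem_piFinset] at hy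
      refine ⟨fun i => if h : i = l then dg s y else y ⟨i, h⟩, ?_, ?_⟩
      · rw [countR_mem]
        refine ⟨?_, ?_⟩
        · intro i
          split_ifs with h
          · exact (hdg s y).1
          · exact Finset.mem_range.mp (hy ⟨i, h⟩)
        · refine ((hdg s y).2 _ ?_ ?_).mpr ?_
          · intro i
            simp [i.2]
          · simp [(hdg s y).1]
          · simp
      · funext i
        simp [i.2]
  rw [h1, Fintype.card_piFinset]
  simp [Finset.card_univ, Fintype.card_subtype_compl]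

/-- Splitting of digits: solutions modulo `p x` correspond to pairs of a solution modulo `p` and a
solution modulo `x` of the carried equation. -/
theorem sum_RR_mul (a : I → ℤ) {p x : ℕ} (hp : 0 < p) (hx : 0 < x) (s : ℤ) (F : (I → ℕ) → ℝ) :
    ∑ r ∈ RR a (p * x) s, F r =
      ∑ ρ ∈ RR a p s, ∑ r ∈ RR a x ((s + ∑ i, a i * (ρ i : ℤ)) / p),
        F (fun i => ρ i + p * r i) := by
  have hp' : (p : ℤ) ≠ 0 := by exact_mod_cast hp.ne'
  have key : ∀ ρ r : I → ℕ, ∑ i, a i * ((ρ i + p * r i : ℕ) : ℤ) + s =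
      (s + ∑ i, a i * (ρ i : ℤ)) + p * ∑ i, a i * (r i : ℤ) := by
    intro ρ r
    rw [Finset.mul_sum]
    have : ∑ i, a i * ((ρ i + p * r i : ℕ) : ℤ) =
        ∑ i, a i * (ρ i : ℤ) + ∑ i, (p : ℤ) * (a i * (r i : ℤ)) := by
      rw [← Finset.sum_add_distrib]
      refine Finset.sum_congr rfl fun i _ => ?_
      push_cast
      ring
    rw [this]
    ring
  have main : ∀ ρ r : I → ℕ, (((p * x : ℕ) : ℤ) ∣ ∑ i, a i * ((ρ i + p * r i : ℕ) : ℤ) + s) ↔
      ((p : ℤ) ∣ ∑ i, a i * (ρ i : ℤ) + s) ∧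
        ((x : ℤ) ∣ ∑ i, a i * (r i : ℤ) + (s + ∑ i, a i * (ρ i : ℤ)) / p) := by
    intro ρ r
    rw [key]
    constructor
    · intro h
      have h1 : (p : ℤ) ∣ s + ∑ i, a i * (ρ i : ℤ) := by
        have h2 : (p : ℤ) ∣ (s + ∑ i, a i * (ρ i : ℤ)) + p * ∑ i, a i * (r i : ℤ) := by
          refine dvd_trans ?_ h
          push_cast
          exact dvd_mul_right _ _
        exact (Int.dvd_add_left (dvd_mul_right _ _)).mp h2
      refine ⟨by rwa [add_comm] at h1, ?_⟩
      obtain ⟨c, hc⟩ := h1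
      rw [hc] at h ⊢
      rw [Int.mul_ediv_cancel_left _ hp']
      push_cast at h
      rw [← mul_add] at h
      have := Int.dvd_of_mul_dvd_mul_left hp' h
      rwa [add_comm] at this
    · rintro ⟨h1, h2⟩
      rw [add_comm] at h1
      obtain ⟨c, hc⟩ := h1
      rw [hc] at h2 ⊢
      rw [Int.mul_ediv_cancel_left _ hp'] at h2
      push_cast
      rw [← mul_add]
      rw [add_comm] at h2
      exact mul_dvd_mul_left _ h2
  rw [Finset.sum_sigma']
  refine Finset.sum_bij' (fun r _ => (⟨fun i => r i % p, fun i => r i / p⟩ :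
    (_ : I → ℕ) × (I → ℕ))) (fun z _ => fun i => z.1 i + p * z.2 i) ?_ ?_ ?_ ?_ ?_
  · intro r hr
    rw [countR_mem] at hr
    rw [Finset.mem_sigma]
    have hdec : (fun i => r i % p + p * (r i / p)) = r := by
      funext i; exact Nat.mod_add_div _ _
    have := (main (fun i => r i % p) (fun i => r i / p)).mp (by
      simp only [Nat.mod_add_div]; exact hr.2)
    refine ⟨?_, ?_⟩
    · rw [countR_mem]
      exact ⟨fun i => Nat.mod_lt _ hp, this.1⟩
    · dsimp only
      rw [countR_mem]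
      exact ⟨fun i => Nat.div_lt_of_lt_mul (hr.1 i), this.2⟩
  · rintro ⟨ρ, r⟩ hz
    rw [Finset.mem_sigma] at hz
    dsimp only at hz
    rw [countR_mem, countR_mem] at hz
    rw [countR_mem]
    refine ⟨?_, (main ρ r).mpr ⟨hz.1.2, hz.2.2⟩⟩
    intro i
    dsimp only
    have h1 := hz.1.1 i
    have h2 := hz.2.1 i
    calc ρ i + p * r i < p + p * r i := by omega
      _ = p * (r i + 1) := by ring
      _ ≤ p * x := Nat.mul_le_mul_left _ h2
  · intro r _
    funext i
    exact Nat.mod_add_div _ _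
  · rintro ⟨ρ, r⟩ hz
    rw [Finset.mem_sigma] at hz
    dsimp only at hz
    rw [countR_mem, countR_mem] at hz
    have e1 : (fun i => (ρ i + p * r i) % p) = ρ := by
      funext i
      rw [Nat.add_mul_mod_self_left]
      exact Nat.mod_eq_of_lt (hz.1.1 i)
    have e2 : (fun i => (ρ i + p * r i) / p) = r := by
      funext i
      rw [Nat.add_mul_div_left _ _ hp, Nat.div_eq_of_lt (hz.1.1 i), zero_add]
    simp only [e1, e2]
  · intro r _
    congr 1
    funext i
    exact (Nat.mod_add_div _ _).symm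

end Pool.MP_67663b_nt.Odd
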