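import Pool.Agent.Lib.MP_67663b_nt.OddB.L23
import Pool.Agent.Lib.MP_67663b_nt.OddB.CountR
import Pool.Agent.Lib.MP_67663b_nt.Odd.Final

/-!
# Auxiliary averaging lemmas
-/

set_option autoImplicit false
open Filter Topology
namespace Pool.MP_67663b_nt.Odd

variable {I : Type} [Fintype I] [DecidableEq I]

theorem abs_avB_le_one {a : I → ℤ} {l : I} {x : ℕ} (hx : 0 < x) (hl : IsCoprime (a l) (x : ℤ))
    (s : ℤ) {f : I → ℕ → ℝ} (hf : ∀ i r, |f i r| ≤ 1) : |avB a x s f| ≤ 1 := by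
  have hx' : (0:ℝ) < x := by exact_mod_cast hx
  unfold avB
  have h1 : |∑ r ∈ RR a x s, ∏ i, f i (r i)| ≤ (x : ℝ) ^ (Fintype.card I - 1) := by
    calc |∑ r ∈ RR a x s, ∏ i, f i (r i)| ≤ ∑ r ∈ RR a x s, |∏ i, f i (r i)| :=
          Finset.abs_sum_le_sum_abs _ _
      _ ≤ ∑ r ∈ RR a x s, (1:ℝ) := by
          refine Finset.sum_le_sum fun r _ => ?_
          rw [Finset.abs_prod]
          exact Finset.prod_le_one (fun i _ => abs_nonneg _) (fun i _ => hf i _)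
      _ = ((RR a x s).card : ℝ) := by simp
      _ = (x : ℝ) ^ (Fintype.card I - 1) := by
          rw [card_RR hx hl s]
          push_cast
          rfl
  rw [abs_mul, abs_of_pos (by positivity : (0:ℝ) < 1 / (x : ℝ) ^ (Fintype.card I - 1))]
  calc 1 / (x : ℝ) ^ (Fintype.card I - 1) * |∑ r ∈ RR a x s, ∏ i, f i (r i)|
      ≤ 1 / (x : ℝ) ^ (Fintype.card I - 1) * (x : ℝ) ^ (Fintype.card I - 1) := by gcongr
    _ = 1 := by field_simp

theorem abs_gB_le_one (M : IMean) (α : I → ℝ) {a : I → ℤ} (b : ℤ) {l : I} {x : ℕ} (hx : 0 < x)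
    (hl : IsCoprime (a l) (x : ℤ)) : |gB M α a b x| ≤ 1 := by
  unfold gB
  refine M.abs_E_le (bdd_gB α a b x) (Eventually.of_forall fun n => ?_)
  rw [abs_mul, abs_lam, one_mul]
  exact abs_avB_le_one hx hl _ fun i r => (abs_lam _).le

theorem pick {J : Type*} (s : Finset J) (u : J → ℕ → ℝ) (h0 : ∀ i ∈ s, ∀ m, 0 ≤ u i m)
    (hs : ∀ i ∈ s, Summable (u i)) (S : ℕ) {δ : ℝ} (hδ : 0 < δ) (N : ℕ) :
    ∃ M : ℕ, N ≤ M ∧ S ≤ M ∧ ∀ i ∈ s, ∀ t ≤ S, ((M:ℝ) + 2) * u i (M - t) ≤ δ := by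
  by_contra hno
  push Not at hno
  set W : ℕ → ℝ := fun k => ∑ i ∈ s, ∑ t ∈ Finset.range (S + 1), u i (k + (S - t)) with hW
  have hWs : Summable W := by
    refine summable_sum fun i hi => summable_sum fun t _ => ?_
    exact (summable_nat_add_iff (S - t)).mpr (hs i hi)
  refine not_summable_of_tail (v := fun k => W k / δ) (S + 2) (m0 := N) (fun k hk => ?_)
    (hWs.div_const δ)
  obtain ⟨i, hi, t, ht, hlt⟩ := hno (k + S) (by omega) (by omega)
  have hWi : u i (k + (S - t)) ≤ W k := by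
    calc u i (k + (S - t)) ≤ ∑ t ∈ Finset.range (S + 1), u i (k + (S - t)) :=
          Finset.single_le_sum (f := fun t => u i (k + (S - t))) (fun t _ => h0 i hi _)
            (Finset.mem_range.mpr (by omega))
      _ ≤ W k := Finset.single_le_sum
          (f := fun i => ∑ t ∈ Finset.range (S + 1), u i (k + (S - t)))
          (fun i hi => Finset.sum_nonneg fun t _ => h0 i hi _) hi
  have e : k + S - t = k + (S - t) := by omega
  rw [e] at hlt
  have hpos : (0:ℝ) < ((S + 2 + k : ℕ) : ℝ) := by positivity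
  rw [div_le_div_iff₀ hpos hδ, one_mul]
  have hc : ((k + S : ℕ) : ℝ) + 2 = ((S + 2 + k : ℕ) : ℝ) := by push_cast; ring
  rw [hc] at hlt
  calc δ ≤ ((S + 2 + k : ℕ) : ℝ) * u i (k + (S - t)) := hlt.le
    _ ≤ ((S + 2 + k : ℕ) : ℝ) * W k := by gcongr
    _ = W k * ((S + 2 + k : ℕ) : ℝ) := mul_comm _ _

theorem block_avg {m : ℕ} {c : ℝ} (hc : 0 < c) (hcard : c * 2 ^ m ≤ m * ((blk m).card : ℝ))
    (G : ℕ → ℝ) {w δ : ℝ} (hG : ∑ p ∈ blk m, (G p) ^ 2 ≤ 2 ^ m * w)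
    (hw : (m : ℝ) * w ≤ c * δ ^ 2) (hδ : 0 ≤ δ) :
    (1 / ((blk m).card : ℝ)) * ∑ p ∈ blk m, |G p| ≤ δ := by
  have h2m : (0:ℝ) < 2 ^ m := by positivity
  have hcardpos : 0 < ((blk m).card : ℝ) := by
    by_contra h
    have h0 : ((blk m).card : ℝ) = 0 := le_antisymm (not_lt.mp h) (Nat.cast_nonneg _)
    rw [h0, mul_zero] at hcard
    have : 0 < c * 2 ^ m := by positivity
    linarith
  set N : ℝ := ((blk m).card : ℝ) with hN
  have hCS : (∑ p ∈ blk m, |G p|) ^ 2 ≤ N * ∑ p ∈ blk m, (G p) ^ 2 := by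
    have := sq_sum_le_card_mul_sum_sq (s := blk m) (f := fun p => |G p|)
    simpa [sq_abs] using this
  have hw0 : 0 ≤ w := by
    have : 0 ≤ 2 ^ m * w := le_trans (Finset.sum_nonneg fun p _ => sq_nonneg _) hG
    exact nonneg_of_mul_nonneg_right this h2m
  have h1 : (∑ p ∈ blk m, |G p|) ^ 2 ≤ (N * δ) ^ 2 := by
    calc (∑ p ∈ blk m, |G p|) ^ 2 ≤ N * (2 ^ m * w) := hCS.trans (by gcongr)
      _ ≤ N * (N * δ ^ 2) := by
          refine mul_le_mul_of_nonneg_left ?_ hcardpos.le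
          have h3 : c * (2 ^ m * w) ≤ c * (N * δ ^ 2) := by
            calc c * (2 ^ m * w) = (c * 2 ^ m) * w := by ring
              _ ≤ (m * N) * w := by gcongr
              _ = N * (m * w) := by ring
              _ ≤ N * (c * δ ^ 2) := by gcongr
              _ = c * (N * δ ^ 2) := by ring
          exact le_of_mul_le_mul_left h3 hc
      _ = (N * δ) ^ 2 := by ring
  have h2 : ∑ p ∈ blk m, |G p| ≤ N * δ := by
    refine le_of_sq_le_sq h1 (by positivity)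
  rw [one_div, inv_mul_le_iff₀ hcardpos]
  exact h2

theorem pr_avg {Z : ℝ} {k : ℕ} (h1 : (2:ℝ) ^ k ≤ Z) (h2 : Z < 2 ^ (k + 1)) (G : ℕ → ℝ)
    {w0 w1 : ℝ} (hG0 : ∑ p ∈ blk k, (G p) ^ 2 ≤ 2 ^ k * w0)
    (hG1 : ∑ p ∈ blk (k + 1), (G p) ^ 2 ≤ 2 ^ (k + 1) * w1) {δ : ℝ} (hδ : 0 ≤ δ)
    (hw : ((k:ℝ) + 2) * (w0 + 2 * w1) * 4 ≤ δ ^ 2) :
    (1 / Z) * ∑ p ∈ pr Z (2 * Z), Real.log p * |G p| ≤ δ := by
  have h2k : (0:ℝ) < 2 ^ k := by positivity
  have hZ : 0 < Z := lt_of_lt_of_le h2k h1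
  have hw0 : 0 ≤ w0 := by
    have : 0 ≤ 2 ^ k * w0 := le_trans (Finset.sum_nonneg fun p _ => sq_nonneg _) hG0
    exact nonneg_of_mul_nonneg_right this h2k
  have hw1 : 0 ≤ w1 := by
    have : 0 ≤ 2 ^ (k + 1) * w1 := le_trans (Finset.sum_nonneg fun p _ => sq_nonneg _) hG1
    exact nonneg_of_mul_nonneg_right this (by positivity)
  have hlogpos : ∀ p ∈ pr Z (2 * Z), 0 ≤ Real.log p := by
    intro p hp
    rw [mem_pr] at hp
    exact Real.log_nonneg (by exact_mod_cast hp.1.one_lt.le)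
  have hlogle : ∀ p ∈ pr Z (2 * Z), Real.log p ≤ (k:ℝ) + 2 := by
    intro p hp
    rw [mem_pr] at hp
    have hp0 : (0:ℝ) < p := by exact_mod_cast hp.1.pos
    have h3 : (p:ℝ) ≤ 2 ^ (k + 2) := by
      have : (2:ℝ) ^ (k + 2) = 2 * 2 ^ (k + 1) := by ring
      linarith [hp.2.2]
    have h4 : Real.log p ≤ ((k + 2 : ℕ) : ℝ) * Real.log 2 := by
      rw [← Real.log_pow]
      exact Real.log_le_log hp0 h3
    have h5 : Real.log 2 ≤ 1 := by
      have := Real.log_two_lt_d9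
      linarith
    calc Real.log p ≤ ((k + 2 : ℕ) : ℝ) * Real.log 2 := h4
      _ ≤ ((k + 2 : ℕ) : ℝ) * 1 := by gcongr
      _ = (k:ℝ) + 2 := by push_cast; ring
  have hsq : ∑ p ∈ pr Z (2 * Z), (Real.log p) ^ 2 ≤ ((k:ℝ) + 2) * (4 * Z) := by
    calc ∑ p ∈ pr Z (2 * Z), (Real.log p) ^ 2 ≤ ∑ p ∈ pr Z (2 * Z), ((k:ℝ) + 2) * Real.log p := by
          refine Finset.sum_le_sum fun p hp => ?_
          rw [sq]
          exact mul_le_mul_of_nonneg_right (hlogle p hp) (hlogpos p hp)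
      _ = ((k:ℝ) + 2) * ∑ p ∈ pr Z (2 * Z), Real.log p := by rw [Finset.mul_sum]
      _ ≤ ((k:ℝ) + 2) * (2 * (2 * Z)) := by
          gcongr
          exact sum_log_pr_le (by positivity)
      _ = ((k:ℝ) + 2) * (4 * Z) := by ring
  have hsub : pr Z (2 * Z) ⊆ blk k ∪ blk (k + 1) := by
    intro p hp
    rw [mem_pr] at hp
    rw [Finset.mem_union, mem_blk, mem_blk]
    have h3 : 2 ^ k ≤ p := by
      have : ((2 ^ k : ℕ) : ℝ) ≤ p := by push_cast; linarith [hp.2.1]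
      exact_mod_cast this
    have h4 : p < 2 ^ (k + 1 + 1) := by
      have : (p : ℝ) < ((2 ^ (k + 1 + 1) : ℕ) : ℝ) := by
        push_cast
        have : (2:ℝ) ^ (k + 1 + 1) = 2 * 2 ^ (k + 1) := by ring
        linarith [hp.2.2]
      exact_mod_cast this
    by_cases hlt : p < 2 ^ (k + 1)
    · exact Or.inl ⟨hp.1, h3, hlt⟩
    · exact Or.inr ⟨hp.1, by omega, h4⟩
  have hGs : ∑ p ∈ pr Z (2 * Z), (G p) ^ 2 ≤ Z * (w0 + 2 * w1) := by
    calc ∑ p ∈ pr Z (2 * Z), (G p) ^ 2 ≤ ∑ p ∈ blk k ∪ blk (k + 1), (G p) ^ 2 :=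
          Finset.sum_le_sum_of_subset_of_nonneg hsub fun p _ _ => sq_nonneg _
      _ ≤ ∑ p ∈ blk k, (G p) ^ 2 + ∑ p ∈ blk (k + 1), (G p) ^ 2 := by
          rw [← Finset.sum_union_inter]
          have : 0 ≤ ∑ p ∈ blk k ∩ blk (k + 1), (G p) ^ 2 :=
            Finset.sum_nonneg fun p _ => sq_nonneg _
          linarith
      _ ≤ 2 ^ k * w0 + 2 ^ (k + 1) * w1 := add_le_add hG0 hG1
      _ = 2 ^ k * (w0 + 2 * w1) := by ring
      _ ≤ Z * (w0 + 2 * w1) := by gcongr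
  have hCS : (∑ p ∈ pr Z (2 * Z), Real.log p * |G p|) ^ 2 ≤
      (∑ p ∈ pr Z (2 * Z), (Real.log p) ^ 2) * ∑ p ∈ pr Z (2 * Z), (G p) ^ 2 := by
    have := Finset.sum_mul_sq_le_sq_mul_sq (pr Z (2 * Z)) (fun p => Real.log p) (fun p => |G p|)
    simpa [sq_abs] using this
  have h5 : (∑ p ∈ pr Z (2 * Z), Real.log p * |G p|) ^ 2 ≤ (Z * δ) ^ 2 := by
    calc (∑ p ∈ pr Z (2 * Z), Real.log p * |G p|) ^ 2
        ≤ (((k:ℝ) + 2) * (4 * Z)) * (Z * (w0 + 2 * w1)) := by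
          refine hCS.trans ?_
          gcongr
      _ = Z ^ 2 * (((k:ℝ) + 2) * (w0 + 2 * w1) * 4) := by ring
      _ ≤ Z ^ 2 * δ ^ 2 := by gcongr
      _ = (Z * δ) ^ 2 := by ring
  have h6 : ∑ p ∈ pr Z (2 * Z), Real.log p * |G p| ≤ Z * δ := le_of_sq_le_sq h5 (by positivity)
  rw [one_div, inv_mul_le_iff₀ hZ]
  exact h6

/-- Averages over products of two primes of a function with `G (p q) ≈ - h q`. -/
theorem L2_close (m : ℕ) {X : ℝ} (hX : 0 < X) (hne : (blk m).Nonempty) (G h : ℕ → ℝ) {ε : ℝ}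
    (h1 : ∀ q ∈ blk m, (1 / (X / q)) * ∑ p ∈ pr (X / q) (2 * (X / q)),
      Real.log p * |h q + G (p * q)| ≤ ε)
    (h2 : ∀ q ∈ blk m, |(1 / (X / q)) * ∑ p ∈ pr (X / q) (2 * (X / q)), Real.log p - 1| ≤ ε)
    (h3 : ∀ q ∈ blk m, |h q| ≤ 1) :
    |L2 m X G + (1 / ((blk m).card : ℝ)) * ∑ q ∈ blk m, h q| ≤ 2 * ε := by
  have hN : 0 < ((blk m).card : ℝ) := by exact_mod_cast hne.card_pos
  unfold L2
  simp only [smul_eq_mul]
  rw [← mul_add, ← Finset.sum_add_distrib, abs_mul, abs_of_pos (by positivity)]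
  rw [one_div, inv_mul_le_iff₀ hN]
  refine (Finset.abs_sum_le_sum_abs _ _).trans ?_
  have hq : ∀ q ∈ blk m, |(q:ℝ) / X * ∑ p ∈ pr (X / q) (2 * X / q), Real.log p * G (p * q) + h q| ≤
      2 * ε := by
    intro q hq
    have hq0 : (0:ℝ) < q := by exact_mod_cast blk_pos hq
    have e0 : 2 * X / (q:ℝ) = 2 * (X / q) := by ring
    have e1 : (q:ℝ) / X = 1 / (X / q) := by field_simp
    rw [e0, e1]
    set Z := X / q with hZ
    have hZpos : 0 < Z := by positivity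
    have e2 : (1 / Z) * ∑ p ∈ pr Z (2 * Z), Real.log p * G (p * q) + h q =
        (1 / Z) * ∑ p ∈ pr Z (2 * Z), Real.log p * (h q + G (p * q)) -
          ((1 / Z) * ∑ p ∈ pr Z (2 * Z), Real.log p - 1) * h q := by
      simp only [mul_add, Finset.sum_add_distrib, ← Finset.sum_mul]
      ring
    rw [e2]
    calc |(1 / Z) * ∑ p ∈ pr Z (2 * Z), Real.log p * (h q + G (p * q)) -
          ((1 / Z) * ∑ p ∈ pr Z (2 * Z), Real.log p - 1) * h q|
        ≤ |(1 / Z) * ∑ p ∈ pr Z (2 * Z), Real.log p * (h q + G (p * q))| +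
          |((1 / Z) * ∑ p ∈ pr Z (2 * Z), Real.log p - 1) * h q| := abs_sub _ _
      _ ≤ ε + ε * 1 := by
          apply add_le_add
          · rw [abs_mul, abs_of_pos (by positivity : (0:ℝ) < 1 / Z)]
            refine le_trans ?_ (h1 q hq)
            refine mul_le_mul_of_nonneg_left ?_ (by positivity)
            refine (Finset.abs_sum_le_sum_abs _ _).trans (Finset.sum_le_sum fun p hp => ?_)
            rw [mem_pr] at hp
            rw [abs_mul, abs_of_nonneg (Real.log_nonneg (by exact_mod_cast hp.1.one_lt.le))]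
          · rw [abs_mul]
            have := h2 q hq
            exact mul_le_mul this (h3 q hq) (abs_nonneg _) ((abs_nonneg _).trans this)
      _ = 2 * ε := by ring
  calc ∑ q ∈ blk m, |(q:ℝ) / X * ∑ p ∈ pr (X / q) (2 * X / q), Real.log p * G (p * q) + h q|
      ≤ ∑ _q ∈ blk m, 2 * ε := Finset.sum_le_sum hq
    _ = ((blk m).card : ℝ) * (2 * ε) := by simp

end Pool.MP_67663b_nt.Odd
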