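import Pool.Agent.Lib.MP_67663b_nt.Odd.Words

/-!
# The case of a rational relation `b = Σ a_i α_i`: definitions
-/

set_option autoImplicit false
open Filter Topology
namespace Pool.MP_67663b_nt.Odd

variable {I : Type} [Fintype I] [DecidableEq I]

/-- `s(n) = b n - Σ a_i ⌊α_i n⌋` -/
noncomputable def sB (α : I → ℝ) (a : I → ℤ) (b : ℤ) (n : ℕ) : ℤ :=
  b * n - ∑ i, a i * (bt (α i) n : ℤ)

/-- Solutions `r ∈ [0,x)^I` of `Σ a_i r_i ≡ - s mod x`. -/
def RR (a : I → ℤ) (x : ℕ) (s : ℤ) : Finset (I → ℕ) :=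
  (Fintype.piFinset (fun _ : I => Finset.range x)).filter
    (fun r => (x : ℤ) ∣ ∑ i, a i * (r i : ℤ) + s)

/-- inner average -/
noncomputable def avB (a : I → ℤ) (x : ℕ) (s : ℤ) (f : I → ℕ → ℝ) : ℝ :=
  (1 / (x : ℝ) ^ (Fintype.card I - 1)) * ∑ r ∈ RR a x s, ∏ i, f i (r i)

/-- The decoupled correlation in the presence of a relation. -/
noncomputable def gB (M : IMean) (α : I → ℝ) (a : I → ℤ) (b : ℤ) (x : ℕ) : ℝ :=
  M.E (fun n => lam n * avB a x (sB α a b n) (fun i r => lam (bt (α i) n - r)))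

/-- the dilated correlation function. -/
noncomputable def phiB (α : I → ℝ) (a : I → ℤ) (b : ℤ) (p x n : ℕ) : ℝ :=
  (if p ∣ n then (p : ℝ) else 0) * lam n *
    avB a x ((sB α a b n + ∑ i, a i * ((bt (α i) n % p : ℕ) : ℤ)) / p)
      (fun i r => lam (bt (α i) n - bt (α i) n % p - p * r))

/-- The word together with `s(n)`. -/
noncomputable def wordB (α : I → ℝ) (a : I → ℤ) (b : ℤ) (H n : ℕ) :
    ((ℕ → ℝ) × (I → ℕ → ℕ) × (I → ℕ → ℝ)) × ℤ :=
  (word α H n, sB α a b n)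

/-- The slopes without the one with index `l`. -/
def rest (α : I → ℝ) (l : I) : {i : I // i ≠ l} → ℝ := fun i => α i.1

theorem card_RR_le (a : I → ℤ) (x : ℕ) (s : ℤ) : (RR a x s).card ≤ x ^ Fintype.card I := by
  unfold RR
  refine (Finset.card_filter_le _ _).trans ?_
  simp [Fintype.card_piFinset]

theorem abs_avB_le (a : I → ℤ) (x : ℕ) (s : ℤ) {f : I → ℕ → ℝ} (hf : ∀ i r, |f i r| ≤ 1) :
    |avB a x s f| ≤ (x : ℝ) ^ Fintype.card I := by
  unfold avB
  have h1 : |∑ r ∈ RR a x s, ∏ i, f i (r i)| ≤ (x : ℝ) ^ Fintype.card I := by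
    calc |∑ r ∈ RR a x s, ∏ i, f i (r i)| ≤ ∑ r ∈ RR a x s, |∏ i, f i (r i)| :=
          Finset.abs_sum_le_sum_abs _ _
      _ ≤ ∑ r ∈ RR a x s, (1:ℝ) := by
          refine Finset.sum_le_sum fun r _ => ?_
          rw [Finset.abs_prod]
          exact Finset.prod_le_one (fun i _ => abs_nonneg _) (fun i _ => hf i _)
      _ = ((RR a x s).card : ℝ) := by simp
      _ ≤ (x : ℝ) ^ Fintype.card I := by exact_mod_cast card_RR_le a x s
  rcases Nat.eq_zero_or_pos x with rfl | hx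
  · rcases Nat.eq_zero_or_pos (Fintype.card I) with h0 | h0
    · rw [h0] at h1 ⊢
      simpa using h1
    · have : |∑ r ∈ RR a 0 s, ∏ i, f i (r i)| = 0 := by
        apply le_antisymm _ (abs_nonneg _)
        refine h1.trans ?_
        simp [h0.ne']
      rw [abs_mul, this, mul_zero]
      positivity
  · have hx' : (1:ℝ) ≤ x := by exact_mod_cast hx
    have h2 : |1 / (x : ℝ) ^ (Fintype.card I - 1)| ≤ 1 := by
      rw [abs_of_pos (by positivity)]
      rw [div_le_one (by positivity)]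
      exact one_le_pow₀ hx'
    rw [abs_mul]
    calc |1 / (x : ℝ) ^ (Fintype.card I - 1)| * |∑ r ∈ RR a x s, ∏ i, f i (r i)|
        ≤ 1 * (x : ℝ) ^ Fintype.card I := by gcongr
      _ = _ := one_mul _

theorem bdd_gB (α : I → ℝ) (a : I → ℤ) (b : ℤ) (x : ℕ) :
    Bdd (fun n => lam n * avB a x (sB α a b n) (fun i r => lam (bt (α i) n - r))) :=
  bdd_lam.mul ⟨_, fun n => abs_avB_le a x _ (fun i r => (abs_lam _).le)⟩

theorem bdd_phiB (α : I → ℝ) (a : I → ℤ) (b : ℤ) (p x : ℕ) : Bdd (phiB α a b p x) :=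
  ((Bdd.ite _ (Bdd.const (p:ℝ)) (Bdd.const 0)).mul bdd_lam).mul
    ⟨_, fun n => abs_avB_le a x _ (fun i r => (abs_lam _).le)⟩

end Pool.MP_67663b_nt.Odd
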