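import Pool.Agent.Lib.MP_67663b_nt.OddB.ExpDefs

set_option autoImplicit false
open Filter Topology
namespace Pool.MP_67663b_nt.Odd

/-- Chebyshev upper bound. -/
theorem sum_log_pr_le {x y : ℝ} (hy : 0 ≤ y) : ∑ q ∈ pr x y, Real.log q ≤ 2 * y := by
  have h1 : ∑ q ∈ pr x y, Real.log q ≤ Chebyshev.theta y := by
    unfold Chebyshev.theta
    apply Finset.sum_le_sum_of_subset_of_nonneg
    · intro q hq
      rw [mem_pr] at hq
      rw [Finset.mem_filter, Finset.mem_Ioc]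
      exact ⟨⟨hq.1.pos, Nat.le_floor hq.2.2.le⟩, hq.1⟩
    · intro q hq _
      rw [Finset.mem_filter] at hq
      exact Real.log_nonneg (by exact_mod_cast hq.2.one_le)
  have h2 := Chebyshev.theta_le_log4_mul_x hy
  have h3 : Real.log 4 ≤ 2 := by
    have : (4 : ℝ) = 2 ^ 2 := by norm_num
    rw [this, Real.log_pow]
    have := Real.log_two_lt_d9
    push_cast
    linarith
  nlinarith

theorem norm_PS_le {x y φ : ℝ} (hy : 0 ≤ y) : ‖PS x y φ‖ ≤ 2 * y := by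
  refine le_trans ?_ (sum_log_pr_le (x := x) hy)
  unfold PS
  refine norm_sum_le_of_le _ fun q hq => ?_
  rw [mem_pr] at hq
  rw [norm_mul, norm_ee, mul_one, Complex.norm_real, Real.norm_eq_abs,
    abs_of_nonneg (Real.log_nonneg (by exact_mod_cast hq.1.one_le))]

private theorem chebs_avg {s : Finset ℕ} {f : ℕ → ℂ} (hf : ∀ q ∈ s, ‖f q‖ ≤ 4) :
    ‖(1 / (s.card : ℂ)) * ∑ q ∈ s, f q‖ ≤ 4 := by
  rw [norm_mul, norm_div, norm_one, Complex.norm_natCast]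
  have h := norm_sum_le_of_le s hf
  rw [Finset.sum_const, nsmul_eq_mul] at h
  rcases Nat.eq_zero_or_pos s.card with h0 | h0
  · rw [h0]
    simp
  · have h0' : (0 : ℝ) < s.card := by exact_mod_cast h0
    calc 1 / (s.card : ℝ) * ‖∑ q ∈ s, f q‖ ≤ 1 / (s.card : ℝ) * (s.card * 4) := by
          gcongr
      _ = 4 := by field_simp

theorem norm_BB_le (m : ℕ) {X u v φ : ℝ} (hX : 0 < X) (hv0 : 0 ≤ v) (hv : v ≤ 2) :
    ‖BB m X u v φ‖ ≤ 4 := by
  unfold BB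
  apply chebs_avg
  intro q hq
  rw [mem_blk] at hq
  have hq0 : (0 : ℝ) < q := by exact_mod_cast hq.1.pos
  have h1 : ‖PS (u * X / q) (v * X / q) (q * φ)‖ ≤ 2 * (v * X / q) := norm_PS_le (by positivity)
  rw [norm_mul, norm_div, Complex.norm_natCast, Complex.norm_real, Real.norm_eq_abs, abs_of_pos hX]
  calc (q : ℝ) / X * ‖PS (u * X / q) (v * X / q) (q * φ)‖
      ≤ (q : ℝ) / X * (2 * (v * X / q)) := by gcongr
    _ = 2 * v := by field_simp
    _ ≤ 4 := by linarith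

theorem norm_BB3_le (m m' : ℕ) {X u v φ : ℝ} (hX : 0 < X) (hv0 : 0 ≤ v) (hv : v ≤ 2) :
    ‖BB3 m m' X u v φ‖ ≤ 4 := by
  unfold BB3
  apply chebs_avg
  intro q hq
  rw [mem_blk] at hq
  have hq0 : (0 : ℝ) < q := by exact_mod_cast hq.1.pos
  exact norm_BB_le m' (by positivity) hv0 hv

/-- Chebyshev lower bound for dyadic blocks. -/
theorem card_blk_ge : ∃ c : ℝ, 0 < c ∧ ∃ m0 : ℕ, ∀ m ≥ m0,
    c * 2 ^ m ≤ m * ((blk m).card : ℝ) := by
  obtain ⟨c, hc, m0, h⟩ := weak_pnt (η := 1) one_pos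
  refine ⟨c, hc, m0, fun m hm => (h m hm).trans ?_⟩
  gcongr
  unfold blk
  intro q hq
  rw [Finset.mem_filter] at hq ⊢
  exact ⟨hq.1, hq.2.1⟩

end Pool.MP_67663b_nt.Odd
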