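import Pool.Agent.Lib.MP_67663b_nt.OddB.Chebs

/-!
# Averages over products of two and of three primes
-/

set_option autoImplicit false
open Filter Topology
namespace Pool.MP_67663b_nt.Odd

section
variable {E : Type*} [AddCommGroup E] [Module ℝ E]

/-- Average over products of two primes. -/
noncomputable def L2 (m : ℕ) (X : ℝ) (G : ℕ → E) : E :=
  (1 / ((blk m).card : ℝ)) • ∑ q ∈ blk m, ((q : ℝ) / X) •
    ∑ p ∈ pr (X / q) (2 * X / q), (Real.log p) • G (p * q)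

/-- Average over products of three primes. -/
noncomputable def L3 (m m' : ℕ) (X : ℝ) (G : ℕ → E) : E :=
  (1 / ((blk m).card : ℝ)) • ∑ q ∈ blk m, L2 m' (X / q) (fun y => G (y * q))

theorem blk_pos {m q : ℕ} (h : q ∈ blk m) : 0 < q := (mem_blk.mp h).1.pos

theorem L2_congr (m : ℕ) {X : ℝ} (hX : 0 < X) {G G' : ℕ → E}
    (h : ∀ y : ℕ, X ≤ y → (y : ℝ) < 2 * X → G y = G' y) : L2 m X G = L2 m X G' := by
  unfold L2
  congr 1
  refine Finset.sum_congr rfl fun q hq => ?_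
  congr 1
  refine Finset.sum_congr rfl fun p hp => ?_
  rw [mem_pr] at hp
  have hq0 : (0:ℝ) < q := by exact_mod_cast blk_pos hq
  rw [h (p * q)]
  · push_cast
    have := hp.2.1
    rwa [div_le_iff₀ hq0] at this
  · push_cast
    have := hp.2.2
    rwa [lt_div_iff₀ hq0] at this

theorem L3_congr (m m' : ℕ) {X : ℝ} (hX : 0 < X) {G G' : ℕ → E}
    (h : ∀ y : ℕ, X ≤ y → (y : ℝ) < 2 * X → G y = G' y) : L3 m m' X G = L3 m m' X G' := by
  unfold L3
  congr 1
  refine Finset.sum_congr rfl fun q hq => ?_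
  have hq0 : (0:ℝ) < q := by exact_mod_cast blk_pos hq
  refine L2_congr m' (by positivity) fun y hy1 hy2 => h _ ?_ ?_
  · push_cast
    rwa [div_le_iff₀ hq0] at hy1
  · push_cast
    have : 2 * (X / q) = 2 * X / q := by ring
    rwa [this, lt_div_iff₀ hq0] at hy2

theorem L2_sum (m : ℕ) (X : ℝ) {J : Type*} (s : Finset J) (F : J → ℕ → E) :
    L2 m X (fun y => ∑ x ∈ s, F x y) = ∑ x ∈ s, L2 m X (F x) := by
  unfold L2
  rw [← Finset.smul_sum]
  congr 1
  rw [Finset.sum_comm]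
  refine Finset.sum_congr rfl fun q _ => ?_
  rw [← Finset.smul_sum]
  congr 1
  rw [Finset.sum_comm]
  refine Finset.sum_congr rfl fun p _ => ?_
  rw [Finset.smul_sum]

theorem L3_sum (m m' : ℕ) (X : ℝ) {J : Type*} (s : Finset J) (F : J → ℕ → E) :
    L3 m m' X (fun y => ∑ x ∈ s, F x y) = ∑ x ∈ s, L3 m m' X (F x) := by
  unfold L3
  rw [← Finset.smul_sum]
  congr 1
  rw [Finset.sum_comm]
  refine Finset.sum_congr rfl fun q _ => ?_
  exact L2_sum m' (X / q) s (fun x y => F x (y * q))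

theorem L2_smul_vec (m : ℕ) (X : ℝ) (c : ℕ → ℝ) (v : E) :
    L2 m X (fun y => c y • v) = (L2 m X c) • v := by
  unfold L2
  simp only [smul_eq_mul, Finset.mul_sum, Finset.sum_smul, Finset.smul_sum, smul_smul]

theorem L3_smul_vec (m m' : ℕ) (X : ℝ) (c : ℕ → ℝ) (v : E) :
    L3 m m' X (fun y => c y • v) = (L3 m m' X c) • v := by
  unfold L3
  rw [smul_eq_mul, mul_smul, Finset.sum_smul]
  congr 1
  refine Finset.sum_congr rfl fun q _ => ?_
  exact L2_smul_vec m' (X / q) (fun y => c (y * q)) v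

theorem L2_expand (m : ℕ) {X : ℕ} (hX : 0 < X) (G : ℕ → E) :
    L2 m X G = ∑ x ∈ Finset.Ico X (2 * X), (L2 m X (fun y => if y = x then (1:ℝ) else 0)) • G x := by
  have hX' : (0:ℝ) < X := by exact_mod_cast hX
  rw [L2_congr m hX' (G' := fun y => ∑ x ∈ Finset.Ico X (2 * X), (if y = x then (1:ℝ) else 0) • G x),
    L2_sum]
  · exact Finset.sum_congr rfl fun x _ => L2_smul_vec m X _ _
  · intro y hy1 hy2
    have h1 : X ≤ y := by exact_mod_cast hy1
    have h2 : y < 2 * X := by exact_mod_cast hy2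
    rw [Finset.sum_eq_single_of_mem y (Finset.mem_Ico.mpr ⟨h1, h2⟩)]
    · simp
    · intro x _ hxy
      rw [if_neg (Ne.symm hxy), zero_smul]

theorem L3_expand (m m' : ℕ) {X : ℕ} (hX : 0 < X) (G : ℕ → E) :
    L3 m m' X G =
      ∑ x ∈ Finset.Ico X (2 * X), (L3 m m' X (fun y => if y = x then (1:ℝ) else 0)) • G x := by
  have hX' : (0:ℝ) < X := by exact_mod_cast hX
  rw [L3_congr m m' hX'
    (G' := fun y => ∑ x ∈ Finset.Ico X (2 * X), (if y = x then (1:ℝ) else 0) • G x), L3_sum]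
  · exact Finset.sum_congr rfl fun x _ => L3_smul_vec m m' X _ _
  · intro y hy1 hy2
    have h1 : X ≤ y := by exact_mod_cast hy1
    have h2 : y < 2 * X := by exact_mod_cast hy2
    rw [Finset.sum_eq_single_of_mem y (Finset.mem_Ico.mpr ⟨h1, h2⟩)]
    · simp
    · intro x _ hxy
      rw [if_neg (Ne.symm hxy), zero_smul]

end

theorem BB_eq_L2 (m : ℕ) {X u v : ℝ} (hX : 0 < X) (hu : 1 ≤ u) (hv : v ≤ 2) (φ : ℝ) :
    BB m X u v φ =
      L2 m X (fun y : ℕ => if u * X ≤ (y:ℝ) ∧ (y:ℝ) < v * X then ee (y * φ) else 0) := by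
  unfold BB L2 PS
  rw [Complex.real_smul]
  congr 1
  · push_cast
    rfl
  refine Finset.sum_congr rfl fun q hq => ?_
  have hq0 : (0:ℝ) < q := by exact_mod_cast blk_pos hq
  rw [Complex.real_smul]
  congr 1
  · push_cast
    rfl
  have hsub : pr (u * X / q) (v * X / q) ⊆ pr (X / q) (2 * X / q) := by
    intro p hp
    rw [mem_pr] at hp ⊢
    refine ⟨hp.1, le_trans ?_ hp.2.1, lt_of_lt_of_le hp.2.2 ?_⟩
    · gcongr
      nlinarith
    · gcongr
  rw [← Finset.sum_subset hsub]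
  · refine Finset.sum_congr rfl fun p hp => ?_
    rw [mem_pr] at hp
    have h1 := hp.2.1
    have h2 := hp.2.2
    rw [div_le_iff₀ hq0] at h1
    rw [lt_div_iff₀ hq0] at h2
    beta_reduce
    rw [if_pos, Complex.real_smul]
    · congr 2
      push_cast
      ring
    · push_cast
      exact ⟨h1, h2⟩
  · intro p hp hnp
    rw [mem_pr] at hp hnp
    beta_reduce
    rw [if_neg, smul_zero]
    rintro ⟨h1, h2⟩
    push_cast at h1 h2
    apply hnp
    refine ⟨hp.1, ?_, ?_⟩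
    · rwa [div_le_iff₀ hq0]
    · rwa [lt_div_iff₀ hq0]

theorem BB3_eq_L3 (m m' : ℕ) {X u v : ℝ} (hX : 0 < X) (hu : 1 ≤ u) (hv : v ≤ 2) (φ : ℝ) :
    BB3 m m' X u v φ =
      L3 m m' X (fun y : ℕ => if u * X ≤ (y:ℝ) ∧ (y:ℝ) < v * X then ee (y * φ) else 0) := by
  unfold BB3 L3
  rw [Complex.real_smul]
  congr 1
  · push_cast
    rfl
  refine Finset.sum_congr rfl fun q hq => ?_
  have hq0 : (0:ℝ) < q := by exact_mod_cast blk_pos hq
  rw [BB_eq_L2 m' (by positivity) hu hv]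
  congr 1
  funext y
  have e1 : (u * (X / q) ≤ (y:ℝ) ∧ (y:ℝ) < v * (X / q)) ↔
      (u * X ≤ ((y * q : ℕ):ℝ) ∧ ((y * q : ℕ):ℝ) < v * X) := by
    push_cast
    rw [← mul_div_assoc, ← mul_div_assoc, div_le_iff₀ hq0, lt_div_iff₀ hq0]
  by_cases h : u * (X / q) ≤ (y:ℝ) ∧ (y:ℝ) < v * (X / q)
  · beta_reduce
    rw [if_pos h, if_pos (e1.mp h)]
    congr 1
    push_cast
    ring
  · beta_reduce
    rw [if_neg h, if_neg (fun h' => h (e1.mpr h'))]

theorem L2_nonneg (m : ℕ) {X : ℝ} (hX : 0 < X) {G : ℕ → ℝ} (hG : ∀ y, 0 ≤ G y) :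
    0 ≤ L2 m X G := by
  unfold L2
  simp only [smul_eq_mul]
  refine mul_nonneg (by positivity) (Finset.sum_nonneg fun q _ => mul_nonneg (by positivity)
    (Finset.sum_nonneg fun p hp => mul_nonneg ?_ (hG _)))
  rw [mem_pr] at hp
  exact Real.log_nonneg (by exact_mod_cast hp.1.one_lt.le)

theorem L3_nonneg (m m' : ℕ) {X : ℝ} (hX : 0 < X) {G : ℕ → ℝ} (hG : ∀ y, 0 ≤ G y) :
    0 ≤ L3 m m' X G := by
  unfold L3
  rw [smul_eq_mul]
  refine mul_nonneg (by positivity) (Finset.sum_nonneg fun q hq => ?_)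
  have hq0 : (0:ℝ) < q := by exact_mod_cast blk_pos hq
  exact L2_nonneg m' (by positivity) fun y => hG _

theorem L2_one_le (m : ℕ) {X : ℝ} (hX : 0 < X) : L2 m X (fun _ => (1:ℝ)) ≤ 4 := by
  have h1 := BB_eq_L2 m (u := 1) (v := 2) hX le_rfl le_rfl 0
  have h2 : (L2 m X (fun y : ℕ => if 1 * X ≤ (y:ℝ) ∧ (y:ℝ) < 2 * X then ee (y * 0) else 0) : ℂ) =
      L2 m X (fun _ : ℕ => (1:ℝ) • (1:ℂ)) := by
    refine L2_congr m hX fun y hy1 hy2 => ?_
    rw [if_pos ⟨by linarith, hy2⟩, mul_zero, ee_zero, one_smul]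
  rw [h2, L2_smul_vec, Complex.real_smul, mul_one] at h1
  have h3 := norm_BB_le m (u := 1) (v := 2) (φ := 0) hX (by norm_num) le_rfl
  rw [h1, Complex.norm_real, Real.norm_eq_abs] at h3
  exact (le_abs_self _).trans h3

theorem L3_one_le (m m' : ℕ) {X : ℝ} (hX : 0 < X) : L3 m m' X (fun _ => (1:ℝ)) ≤ 4 := by
  have h1 := BB3_eq_L3 m m' (u := 1) (v := 2) hX le_rfl le_rfl 0
  have h2 : (L3 m m' X (fun y : ℕ => if 1 * X ≤ (y:ℝ) ∧ (y:ℝ) < 2 * X then ee (y * 0) else 0) : ℂ) =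
      L3 m m' X (fun _ : ℕ => (1:ℝ) • (1:ℂ)) := by
    refine L3_congr m m' hX fun y hy1 hy2 => ?_
    rw [if_pos ⟨by linarith, hy2⟩, mul_zero, ee_zero, one_smul]
  rw [h2, L3_smul_vec, Complex.real_smul, mul_one] at h1
  have h3 := norm_BB3_le m m' (u := 1) (v := 2) (φ := 0) hX (by norm_num) le_rfl
  rw [h1, Complex.norm_real, Real.norm_eq_abs] at h3
  exact (le_abs_self _).trans h3

end Pool.MP_67663b_nt.Odd
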