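import Pool.Agent.Lib.MP_67663b_nt.OddB.APMajor

set_option autoImplicit false
open Filter Topology
namespace Pool.MP_67663b_nt.Odd

/-- Multiplication by `q` permutes the reduced residues modulo `r`. -/
theorem major_perm (r : ℕ) (hr : 0 < r) (q : ℕ) (hq : Nat.Coprime q r) (a : ℤ) :
    ∑ c ∈ (Finset.range r).filter (Nat.Coprime r), ee ((a : ℝ) * ((q : ℝ) * c) / r) =
      ∑ c ∈ (Finset.range r).filter (Nat.Coprime r), ee ((a : ℝ) * c / r) := by
  classical
  set S := (Finset.range r).filter (Nat.Coprime r) with hS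
  have hmaps : ∀ c ∈ S, q * c % r ∈ S := by
    intro c hc
    rw [hS, Finset.mem_filter, Finset.mem_range] at hc ⊢
    refine ⟨Nat.mod_lt _ hr, ?_⟩
    have h1 : Nat.Coprime r (q * c) := Nat.Coprime.mul_right hq.symm hc.2
    rw [Nat.coprime_comm] at h1 ⊢
    unfold Nat.Coprime at h1 ⊢
    rwa [← Nat.mod_modEq (q * c) r |>.gcd_eq] at h1
  have hinj : Set.InjOn (fun c => q * c % r) S := by
    intro c hc d hd hcd
    simp only [hS, Finset.coe_filter, Finset.mem_range, Set.mem_ofPred_eq] at hc hd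
    have h1 : q * c ≡ q * d [MOD r] := hcd
    have h2 : c ≡ d [MOD r] := Nat.ModEq.cancel_left_of_coprime hq.symm h1
    have h3 : c % r = d % r := h2
    rwa [Nat.mod_eq_of_lt hc.1, Nat.mod_eq_of_lt hd.1] at h3
  have himg : S.image (fun c => q * c % r) = S := by
    refine Finset.eq_of_subset_of_card_le ?_ ?_
    · intro x hx
      rw [Finset.mem_image] at hx
      obtain ⟨c, hc, rfl⟩ := hx
      exact hmaps c hc
    · rw [Finset.card_image_of_injOn hinj]
  conv_rhs => rw [← himg]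
  rw [Finset.sum_image hinj]
  refine Finset.sum_congr rfl (fun c _ => ?_)
  have hr' : (r : ℝ) ≠ 0 := by exact_mod_cast hr.ne'
  have h1 : ((q * c % r : ℕ) : ℝ) = (q : ℝ) * c - r * ((q * c / r : ℕ) : ℝ) := by
    have := Nat.mod_add_div (q * c) r
    have h2 : (((q * c % r + r * (q * c / r) : ℕ)) : ℝ) = ((q * c : ℕ) : ℝ) := by rw [this]
    push_cast at h2
    push_cast
    linarith
  rw [h1]
  generalize q * c / r = k
  have h3 : (a : ℝ) * ((q : ℝ) * c) / r =
      (a : ℝ) * ((q : ℝ) * c - r * (k : ℝ)) / r + ((a * (k : ℤ) : ℤ) : ℝ) := by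
    push_cast
    field_simp
    ring
  rw [h3, ee_add_int]

/-- Splitting a sum over primes into the reduced residue classes modulo `r`. -/
theorem major_split (r : ℕ) (hr : 0 < r) (x y : ℝ) (hx : (r : ℝ) < x) (F : ℕ → ℂ) :
    ∑ q ∈ pr x y, F q =
      ∑ c ∈ (Finset.range r).filter (Nat.Coprime r),
        ∑ q ∈ (pr x y).filter (fun q => q ≡ c [MOD r]), F q := by
  classical
  have h1 : ∀ q ∈ pr x y, q % r ∈ (Finset.range r).filter (Nat.Coprime r) := by
    intro q hq
    rw [mem_pr] at hq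
    rw [Finset.mem_filter, Finset.mem_range]
    refine ⟨Nat.mod_lt _ hr, ?_⟩
    have h2 : r < q := by
      have : (r : ℝ) < q := lt_of_lt_of_le hx hq.2.1
      exact_mod_cast this
    have h3 : Nat.Coprime q r := by
      rw [Nat.Prime.coprime_iff_not_dvd hq.1]
      intro h
      exact absurd (Nat.le_of_dvd hr h) (not_le.mpr h2)
    rw [Nat.coprime_comm]
    unfold Nat.Coprime at h3 ⊢
    rwa [← Nat.mod_modEq q r |>.gcd_eq] at h3
  rw [← Finset.sum_fiberwise_of_maps_to h1 F]
  refine Finset.sum_congr rfl (fun c hc => ?_)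
  refine Finset.sum_congr ?_ (fun _ _ => rfl)
  ext q
  rw [Finset.mem_filter, Finset.mem_filter]
  rw [Finset.mem_filter, Finset.mem_range] at hc
  have : (q % r = c) ↔ (q ≡ c [MOD r]) := by
    unfold Nat.ModEq
    rw [Nat.mod_eq_of_lt hc.1]
  rw [this]

/-- Major arc asymptotics of the bilinear sum. -/
theorem major_arcs (R : ℕ) {m : ℕ} (hm : R < 2 ^ m) (hb : (blk m).Nonempty) (B : ℝ) {ε : ℝ}
    (hε : 0 < ε) :
    ∃ X0 : ℝ, 0 < X0 ∧ ∀ X ≥ X0, ∀ u v : ℝ, 1 ≤ u → u ≤ v → v ≤ 2 →
      ∀ (a : ℤ) (r : ℕ), 0 < r → r ≤ R → ∀ φ : ℝ, |φ - (a : ℝ) / r| ≤ B / X →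
        ‖BB m X u v φ - MM a r X u v φ‖ ≤ ε := by
  classical
  have hε' : 0 < ε / (R + 1) := by positivity
  have hch : ∀ r : ℕ, ∃ X0 : ℝ, 0 < X0 ∧ (0 < r → ∀ X ≥ X0, ∀ c : ℕ, Nat.Coprime c r →
      ∀ u v : ℝ, 1 ≤ u → u ≤ v → v ≤ 2 →
      ∀ β : ℝ, |β| ≤ B / X →
      ‖(1 / (X : ℂ)) * ∑ q ∈ (pr (u * X) (v * X)).filter (fun q => q ≡ c [MOD r]),
          (Real.log q : ℂ) * ee (q * β) -
        (1 / (Nat.totient r : ℂ)) * ∫ t in u..v, ee (X * β * t)‖ ≤ ε / (R + 1)) := by
    intro r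
    rcases Nat.eq_zero_or_pos r with h | h
    · exact ⟨1, one_pos, fun h' => absurd h' (by omega)⟩
    · obtain ⟨X0, h0, h1⟩ := ap_major h B hε'
      exact ⟨X0, h0, fun _ => h1⟩
  choose X1 hX1 hX2 using hch
  have hsum : ∀ r ≤ R, X1 r ≤ ∑ r ∈ Finset.range (R + 1), X1 r := by
    intro r hr
    exact Finset.single_le_sum (f := X1) (fun i _ => (hX1 i).le) (Finset.mem_range.mpr (by omega))
  have hs0 : 0 < ∑ r ∈ Finset.range (R + 1), X1 r :=
    lt_of_lt_of_le (hX1 0) (hsum 0 (Nat.zero_le _))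
  refine ⟨2 ^ (m + 1) * (R + 1 + ∑ r ∈ Finset.range (R + 1), X1 r), by positivity, ?_⟩
  intro X hX u v hu huv hv a r hr hrR φ hφ
  have hXpos : 0 < X := lt_of_lt_of_le (by positivity) hX
  have hφr : (0:ℝ) < Nat.totient r := by exact_mod_cast Nat.totient_pos.mpr hr
  have hr' : (r : ℝ) ≠ 0 := by exact_mod_cast hr.ne'
  -- termwise estimate
  have key : ∀ q ∈ blk m, ‖((q : ℂ) / X) * PS (u * X / q) (v * X / q) (q * φ) -
      MM a r X u v φ‖ ≤ ε := by
    intro q hq
    rw [mem_blk] at hq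
    have hq0 : (0:ℝ) < q := by exact_mod_cast hq.1.pos
    have hqle : (q : ℝ) ≤ 2 ^ (m + 1) := by
      have := hq.2.2.le
      exact_mod_cast this
    have hqr : Nat.Coprime q r := by
      rw [Nat.Prime.coprime_iff_not_dvd hq.1]
      intro h
      have := Nat.le_of_dvd hr h
      omega
    have hXq : R + 1 + ∑ r ∈ Finset.range (R + 1), X1 r ≤ X / q := by
      rw [le_div_iff₀ hq0]
      calc ((R : ℝ) + 1 + ∑ r ∈ Finset.range (R + 1), X1 r) * q
          ≤ (R + 1 + ∑ r ∈ Finset.range (R + 1), X1 r) * 2 ^ (m + 1) := by gcongr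
        _ = 2 ^ (m + 1) * (R + 1 + ∑ r ∈ Finset.range (R + 1), X1 r) := by ring
        _ ≤ X := hX
    have hXq0 : 0 < X / q := by positivity
    have hXq1 : X1 r ≤ X / q := by
      have h1 := hsum r hrR
      have h2 : (0:ℝ) ≤ R := Nat.cast_nonneg _
      linarith
    have hxr : (r : ℝ) < u * X / q := by
      have h1 : (r : ℝ) ≤ R := by exact_mod_cast hrR
      have h2 : X / q ≤ u * X / q := by
        rw [mul_div_assoc]
        exact le_mul_of_one_le_left hXq0.le hu
      linarith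
    set β : ℝ := φ - (a : ℝ) / r with hβ
    have hPS : PS (u * X / q) (v * X / q) (q * φ) =
        ∑ c ∈ (Finset.range r).filter (Nat.Coprime r), ee ((a : ℝ) * ((q : ℝ) * c) / r) *
          ∑ p ∈ (pr (u * (X / q)) (v * (X / q))).filter (fun p => p ≡ c [MOD r]),
            (Real.log p : ℂ) * ee (p * (q * β)) := by
      unfold PS
      rw [major_split r hr _ _ hxr]
      refine Finset.sum_congr rfl (fun c _ => ?_)
      rw [Finset.mul_sum, ← mul_div_assoc, ← mul_div_assoc]
      refine Finset.sum_congr rfl (fun p hp => ?_)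
      rw [Finset.mem_filter] at hp
      obtain ⟨k, hk⟩ : ∃ k : ℤ, (p : ℤ) = c + r * k := by
        have h1 : (p : ℤ) ≡ (c : ℤ) [ZMOD (r : ℤ)] := by
          exact (Int.natCast_modEq_iff).mpr hp.2
        obtain ⟨k, hk⟩ := h1.symm.dvd
        exact ⟨k, by linarith⟩
      have hk' : (p : ℝ) = c + r * k := by
        have : ((p : ℤ) : ℝ) = ((c + r * k : ℤ) : ℝ) := by rw [hk]
        push_cast at this
        exact this
      have h2 : (p : ℝ) * (q * φ) = (a : ℝ) * ((q : ℝ) * c) / r + p * (q * β) +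
          ((a * q * k : ℤ) : ℝ) := by
        have h3 : φ = β + (a : ℝ) / r := by rw [hβ]; ring
        rw [h3, mul_add, mul_add]
        have h4 : (p : ℝ) * (q * ((a : ℝ) / r)) =
            (a : ℝ) * ((q : ℝ) * c) / r + ((a * q * k : ℤ) : ℝ) := by
          rw [hk']
          push_cast
          field_simp
        rw [h4]
        ring
      rw [h2, ee_add_int, ee_add]
      ring
    have hMM : MM a r X u v φ =
        ∑ c ∈ (Finset.range r).filter (Nat.Coprime r), ee ((a : ℝ) * ((q : ℝ) * c) / r) *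
          ((1 / (Nat.totient r : ℂ)) * ∫ t in u..v, ee (X / q * (q * β) * t)) := by
      unfold MM
      rw [← Finset.sum_mul, major_perm r hr q hqr a]
      have h1 : (fun t : ℝ => ee (X * (φ - (a : ℝ) / r) * t)) =
          fun t : ℝ => ee (X / q * (q * β) * t) := by
        funext t
        congr 1
        rw [hβ]
        field_simp
      rw [h1]
      ring
    rw [hPS, hMM, Finset.mul_sum, ← Finset.sum_sub_distrib]
    have hterm : ∀ c ∈ (Finset.range r).filter (Nat.Coprime r),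
        ‖(q : ℂ) / X * (ee ((a : ℝ) * ((q : ℝ) * c) / r) *
          ∑ p ∈ (pr (u * (X / q)) (v * (X / q))).filter (fun p => p ≡ c [MOD r]),
            (Real.log p : ℂ) * ee (p * (q * β))) - ee ((a : ℝ) * ((q : ℝ) * c) / r) *
          ((1 / (Nat.totient r : ℂ)) * ∫ t in u..v, ee (X / q * (q * β) * t))‖
          ≤ ε / (R + 1) := by
      intro c hc
      rw [Finset.mem_filter, Finset.mem_range] at hc
      have h1 := hX2 r hr (X / q) hXq1 c hc.2.symm u v hu huv hv (q * β) (by
        rw [abs_mul, abs_of_pos hq0]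
        calc (q : ℝ) * |β| ≤ q * (B / X) := by gcongr
          _ = B / (X / q) := by field_simp)
      have h2 : (q : ℂ) / X * (ee ((a : ℝ) * ((q : ℝ) * c) / r) *
          ∑ p ∈ (pr (u * (X / q)) (v * (X / q))).filter (fun p => p ≡ c [MOD r]),
            (Real.log p : ℂ) * ee (p * (q * β))) - ee ((a : ℝ) * ((q : ℝ) * c) / r) *
          ((1 / (Nat.totient r : ℂ)) * ∫ t in u..v, ee (X / q * (q * β) * t)) =
          ee ((a : ℝ) * ((q : ℝ) * c) / r) * ((1 / ((X / q : ℝ) : ℂ)) *
            ∑ p ∈ (pr (u * (X / q)) (v * (X / q))).filter (fun p => p ≡ c [MOD r]),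
              (Real.log p : ℂ) * ee (p * (q * β)) -
            (1 / (Nat.totient r : ℂ)) * ∫ t in u..v, ee (X / q * (q * β) * t)) := by
        have h3 : (1 / ((X / q : ℝ) : ℂ)) = (q : ℂ) / X := by
          push_cast
          rw [one_div_div]
        rw [h3]
        ring
      rw [h2, norm_mul, norm_ee, one_mul]
      exact h1
    calc _ ≤ ∑ c ∈ (Finset.range r).filter (Nat.Coprime r), ε / (R + 1) :=
          (norm_sum_le _ _).trans (Finset.sum_le_sum hterm)
      _ = (((Finset.range r).filter (Nat.Coprime r)).card : ℝ) * (ε / (R + 1)) := by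
          rw [Finset.sum_const, nsmul_eq_mul]
      _ ≤ (R + 1) * (ε / (R + 1)) := by
          have h1 : ((Finset.range r).filter (Nat.Coprime r)).card ≤ R + 1 := by
            refine (Finset.card_filter_le _ _).trans ?_
            rw [Finset.card_range]
            omega
          have h2 : (((Finset.range r).filter (Nat.Coprime r)).card : ℝ) ≤ R + 1 := by
            exact_mod_cast h1
          gcongr
      _ = ε := by field_simp
  have hcard : (0:ℝ) < (blk m).card := by exact_mod_cast hb.card_pos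
  have hcard' : ((blk m).card : ℂ) ≠ 0 := by
    exact_mod_cast hb.card_pos.ne'
  have hfin : BB m X u v φ - MM a r X u v φ = (1 / ((blk m).card : ℂ)) *
      ∑ q ∈ blk m, (((q : ℂ) / X) * PS (u * X / q) (v * X / q) (q * φ) - MM a r X u v φ) := by
    unfold BB
    rw [Finset.sum_sub_distrib, Finset.sum_const, nsmul_eq_mul, mul_sub]
    congr 1
    field_simp
  rw [hfin, norm_mul]
  have hn1 : ‖(1 / ((blk m).card : ℂ))‖ = 1 / ((blk m).card : ℝ) := by
    rw [norm_div, norm_one, Complex.norm_natCast]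
  rw [hn1]
  calc 1 / ((blk m).card : ℝ) * ‖∑ q ∈ blk m, (((q : ℂ) / X) *
        PS (u * X / q) (v * X / q) (q * φ) - MM a r X u v φ)‖
      ≤ 1 / ((blk m).card : ℝ) * ∑ q ∈ blk m, ε := by
        gcongr
        exact (norm_sum_le _ _).trans (Finset.sum_le_sum key)
    _ = ε := by
        rw [Finset.sum_const, nsmul_eq_mul]
        field_simp

end Pool.MP_67663b_nt.Odd
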