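import Pool.Agent.Lib.MP_67663b_nt.OddB.Spectrum
import Pool.Agent.Lib.MP_67663b_nt.OddB.Chebs

set_option autoImplicit false
open Filter Topology
namespace Pool.MP_67663b_nt.Odd

/-- few elements in a class modulo a very large number -/
private theorem resClass_card_le_two {m r : ℕ} {L : Finset ℕ} (hL : L ⊆ blk m)
    (hr : 2 ^ m < 2 * r) (h : ∀ q ∈ L, ∀ q' ∈ L, q ≡ q' [MOD r]) : L.card ≤ 2 := by
  rcases L.eq_empty_or_nonempty with h0 | hne
  · rw [h0]
    simp
  set q0 := L.min' hne with hq0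
  have hq0L : q0 ∈ L := L.min'_mem hne
  have hle : ∀ q ∈ L, q0 ≤ q := fun q hq => L.min'_le q hq
  have hr0 : 0 < r := by
    rcases Nat.eq_zero_or_pos r with h1 | h1
    · rw [h1] at hr
      simp at hr
    · exact h1
  have hdiv : ∀ q ∈ L, r ∣ q - q0 := fun q hq =>
    (Nat.modEq_iff_dvd' (hle q hq)).1 (h q0 hq0L q hq)
  have := Finset.card_le_card_of_injOn (s := L) (t := Finset.range 2) (fun q => (q - q0) / r)
    (fun q hq => by
      have hq' : q ∈ L := hq
      have h1 := mem_blk.1 (hL hq')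
      have h2 := mem_blk.1 (hL hq0L)
      have h3 : q - q0 < 2 * r := by
        have : 2 ^ (m + 1) = 2 * 2 ^ m := by ring
        omega
      simp only [Finset.coe_range, Set.mem_Iio]
      rw [Nat.div_lt_iff_lt_mul hr0]
      exact h3)
    (fun a ha b hb hab => by
      have ha' : a ∈ L := ha
      have hb' : b ∈ L := hb
      have h1 := Nat.div_mul_cancel (hdiv a ha')
      have h2 := Nat.div_mul_cancel (hdiv b hb')
      simp only at hab
      rw [hab] at h1
      have h3 := hle a ha'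
      have h4 := hle b hb'
      omega)
  simpa using this

private theorem resClass_ee {q q0 r : ℕ} (hr : 0 < r) (h : q ≡ q0 [MOD r]) (j : ℕ) :
    ee ((q : ℝ) * ((j : ℝ) / r)) = ee ((q0 : ℝ) * ((j : ℝ) / r)) := by
  obtain ⟨z, hz⟩ := (Nat.modEq_iff_dvd.1 h)
  have hr' : (r : ℝ) ≠ 0 := by exact_mod_cast hr.ne'
  have h1 : (q0 : ℝ) - q = r * z := by exact_mod_cast hz
  have : (q0 : ℝ) * ((j : ℝ) / r) = (q : ℝ) * ((j : ℝ) / r) + ((z * j : ℤ) : ℝ) := by
    have h2 : (q0 : ℝ) = q + r * z := by linarith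
    rw [h2]
    push_cast
    field_simp
  rw [this, ee_add_int]

/-- A positive proportion of the primes of a dyadic block cannot lie in one residue class
modulo a large number. -/
theorem res_class {ε : ℝ} (hε : 0 < ε) : ∃ R : ℕ, ∃ m0 : ℕ, ∀ m ≥ m0, ∀ L ⊆ blk m,
    ε * ((blk m).card : ℝ) ≤ (L.card : ℝ) → ∀ r : ℕ, 0 < r →
    (∀ q ∈ L, ∀ q' ∈ L, q ≡ q' [MOD r]) → r ≤ R := by
  obtain ⟨c, hc, m1, hblk⟩ := card_blk_ge
  have hlog2 : 0 < Real.log 2 := Real.log_pos one_lt_two
  have hε' : 0 < ε * c * Real.log 2 := by positivity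
  obtain ⟨J, hJ, Y0, hY0, hspec⟩ := large_spectrum hε'
  obtain ⟨m2, hm2⟩ : ∃ m2 : ℕ, ∀ m ≥ m2, 2 * (m : ℝ) < ε * c * 2 ^ m := by
    have ht : Tendsto (fun n : ℕ => (n : ℝ) ^ 1 / 2 ^ n) atTop (𝓝 0) :=
      tendsto_pow_const_div_const_pow_of_one_lt 1 one_lt_two
    have := (ht.eventually (gt_mem_nhds (by positivity : (0 : ℝ) < ε * c / 2))).exists_forall_of_atTop
    obtain ⟨N, hN⟩ := this
    refine ⟨N, fun m hm => ?_⟩
    have h1 := hN m hm
    rw [div_lt_iff₀ (by positivity), pow_one] at h1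
    linarith
  obtain ⟨m3, hm3⟩ : ∃ m3 : ℕ, ∀ m ≥ m3, Y0 ≤ (2 : ℝ) ^ m := by
    have := (tendsto_pow_atTop_atTop_of_one_lt (one_lt_two : (1 : ℝ) < 2)).eventually_ge_atTop Y0
    exact this.exists_forall_of_atTop
  refine ⟨J, max m1 (max m2 m3), fun m hm L hL hcard r hr hmod => ?_⟩
  have hm1 : m1 ≤ m := (le_max_left _ _).trans hm
  have hm2' : m2 ≤ m := (le_max_left _ _).trans ((le_max_right _ _).trans hm)
  have hm3' : m3 ≤ m := (le_max_right _ _).trans ((le_max_right _ _).trans hm)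
  by_contra hrJ
  rw [not_le] at hrJ
  have hb := hblk m hm1
  have hr' : (0 : ℝ) < r := by exact_mod_cast hr
  -- lower bound for the number of elements
  have hLm : ε * c * 2 ^ m ≤ m * (L.card : ℝ) := by
    have h1 : ε * (c * 2 ^ m) ≤ ε * (m * ((blk m).card : ℝ)) := by gcongr
    have h2 : (m : ℝ) * (ε * ((blk m).card : ℝ)) ≤ m * (L.card : ℝ) := by gcongr
    linarith
  rcases lt_or_ge (2 ^ m) (2 * r) with hcase | hcase
  · have h2 := resClass_card_le_two hL hcase hmod
    have h3 : (L.card : ℝ) ≤ 2 := by exact_mod_cast h2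
    have h4 := hm2 m hm2'
    have h5 : (m : ℝ) * (L.card : ℝ) ≤ m * 2 := by gcongr
    linarith
  · have hY : (0 : ℝ) < 2 ^ m := by positivity
    have hcaseR : (2 : ℝ) * r ≤ 2 ^ m := by exact_mod_cast hcase
    obtain ⟨j, hj⟩ := hspec (2 ^ m) (hm3 m hm3') L (fun q hq => by
        have h1 := mem_blk.1 (hL hq)
        refine ⟨h1.1, by exact_mod_cast h1.2.1, ?_⟩
        have h2 : q ≤ 2 * 2 ^ m := by
          have := h1.2.2
          rw [pow_succ] at this
          omega
        exact_mod_cast h2)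
      (fun j : Fin J => ((j : ℕ) : ℝ) / r)
      (fun j k hjk z => by
        have h1 : ((j : ℕ) : ℝ) / r - ((k : ℕ) : ℝ) / r - z
            = (((j : ℕ) : ℤ) - ((k : ℕ) : ℤ) - z * r : ℤ) / (r : ℝ) := by
          push_cast
          field_simp
        rw [h1, abs_div, abs_of_pos hr', div_le_div_iff₀ hY hr']
        have h2 : (1 : ℤ) ≤ |((j : ℕ) : ℤ) - ((k : ℕ) : ℤ) - z * r| := by
          apply Int.one_le_abs
          intro h0
          have hj := j.2
          have hk := k.2
          have hne : (j : ℕ) ≠ k := fun h => hjk (Fin.ext h)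
          have hd : (r : ℤ) ∣ ((j : ℕ) : ℤ) - ((k : ℕ) : ℤ) := ⟨z, by linarith⟩
          have h4 : ((j : ℕ) : ℤ) - ((k : ℕ) : ℤ) = 0 := by
            apply Int.eq_zero_of_abs_lt_dvd hd
            rw [abs_lt]
            constructor <;> omega
          omega
        have h3 : (1 : ℝ) ≤ |((((j : ℕ) : ℤ) - ((k : ℕ) : ℤ) - z * r : ℤ) : ℝ)| := by
          rw [← Int.cast_abs]
          exact_mod_cast h2
        nlinarith)
    -- the sum over one class is large
    have hsum : ε * c * Real.log 2 * 2 ^ m ≤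
        ‖∑ q ∈ L, (Real.log q : ℂ) * ee (q * (((j : ℕ) : ℝ) / r))‖ := by
      rcases L.eq_empty_or_nonempty with h0 | ⟨q0, hq0⟩
      · rw [h0] at hLm
        simp only [Finset.card_empty, Nat.cast_zero, mul_zero] at hLm
        have : 0 < ε * c * 2 ^ m := by positivity
        linarith
      have h1 : ∑ q ∈ L, (Real.log q : ℂ) * ee (q * (((j : ℕ) : ℝ) / r))
          = ((∑ q ∈ L, Real.log q : ℝ) : ℂ) * ee ((q0 : ℝ) * (((j : ℕ) : ℝ) / r)) := by
        push_cast
        rw [Finset.sum_mul]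
        refine Finset.sum_congr rfl fun q hq => ?_
        rw [resClass_ee hr (hmod q hq q0 hq0) (j : ℕ)]
      have h2 : (m : ℝ) * (L.card : ℝ) * Real.log 2 ≤ ∑ q ∈ L, Real.log q := by
        have : ∑ q ∈ L, (m : ℝ) * Real.log 2 ≤ ∑ q ∈ L, Real.log q := by
          refine Finset.sum_le_sum fun q hq => ?_
          have h3 := mem_blk.1 (hL hq)
          rw [← Real.log_pow]
          apply Real.log_le_log (by positivity)
          exact_mod_cast h3.2.1
        rw [Finset.sum_const, nsmul_eq_mul] at this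
        linarith
      rw [h1, norm_mul, norm_ee, mul_one, Complex.norm_real, Real.norm_eq_abs]
      refine le_trans ?_ (le_abs_self _)
      have h3 : ε * c * 2 ^ m * Real.log 2 ≤ m * (L.card : ℝ) * Real.log 2 := by gcongr
      linarith
    exact absurd hj (not_lt.2 hsum)

end Pool.MP_67663b_nt.Odd
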