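import Pool.Agent.Lib.MP_67663b_nt.OddB.LSieve
import Pool.Agent.Lib.MP_67663b_nt.OddB.Montgomery
import Pool.Agent.Lib.MP_67663b_nt.OddB.GSum
import Pool.Agent.Lib.MP_67663b_nt.OddB.Chebs

set_option autoImplicit false
open Filter Topology
namespace Pool.MP_67663b_nt.Odd

private lemma spec_den (r b r' b' : ℕ) (z : ℤ) :
    ((b' : ℚ) / r' - (b : ℚ) / r + z).den ∣ r' * r := by
  have h1 : ((b' : ℚ) / r').den ∣ r' := by
    have := Rat.den_dvd (b' : ℤ) (r' : ℤ)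
    rw [Rat.divInt_eq_div, Int.cast_natCast, Int.cast_natCast] at this
    exact Int.natCast_dvd_natCast.1 this
  have h2 : ((b : ℚ) / r).den ∣ r := by
    have := Rat.den_dvd (b : ℤ) (r : ℤ)
    rw [Rat.divInt_eq_div, Int.cast_natCast, Int.cast_natCast] at this
    exact Int.natCast_dvd_natCast.1 this
  have h3 : ((b' : ℚ) / r' - (b : ℚ) / r).den ∣ r' * r :=
    (Rat.sub_den_dvd _ _).trans (mul_dvd_mul h1 h2)
  have h4 := Rat.add_den_dvd ((b' : ℚ) / r' - (b : ℚ) / r) (z : ℚ)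
  simp only [Rat.den_intCast, mul_one] at h4
  exact h4.trans h3

private lemma spec_abs_ge {q : ℚ} (hq : q ≠ 0) : 1 / (q.den : ℝ) ≤ |(q : ℝ)| := by
  have h1 : (q : ℝ) = (q.num : ℝ) / (q.den : ℝ) := by exact_mod_cast (Rat.num_div_den q).symm
  have h2 : (0 : ℝ) < q.den := by exact_mod_cast q.den_pos
  rw [h1, abs_div, abs_of_pos h2]
  have h3 : (1 : ℝ) ≤ |(q.num : ℝ)| := by
    have : 1 ≤ |q.num| := Int.one_le_abs (Rat.num_ne_zero.2 hq)
    exact_mod_cast this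
  gcongr

private lemma spec_eq_of_close {t t' : ℚ} {D : ℕ} (h : t.den * t'.den ≤ D) {δ : ℝ}
    (hδ : δ * D ≤ 1) (hc : |(t : ℝ) - t'| < δ) : t = t' := by
  by_contra hne
  have h1 : t - t' ≠ 0 := sub_ne_zero.2 hne
  have h2 := spec_abs_ge h1
  have h3 : (t - t').den ≤ D := (Nat.le_of_dvd (by positivity) (Rat.sub_den_dvd t t')).trans h
  have h4 : (0 : ℝ) < (t - t').den := by exact_mod_cast (t - t').den_pos
  have h5 : (0 : ℝ) < D := lt_of_lt_of_le h4 (by exact_mod_cast h3)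
  push_cast at h2
  have h6 : 1 / (D : ℝ) ≤ 1 / ((t - t').den : ℝ) := by
    apply one_div_le_one_div_of_le h4
    exact_mod_cast h3
  have h7 : δ ≤ 1 / D := by rw [le_div_iff₀ h5]; exact hδ
  linarith

/-- A prime which divides the moduli of all the collisions of two given points. -/
private lemma spec_prime {Y : ℝ} {R : ℕ} (hY : 0 < Y) (hR : 2 * (R : ℝ) ^ 4 ≤ Y) (a b : ℝ)
    (hab : ∀ z : ℤ, 2 / Y ≤ |a - b - z|) :
    ∃ p : ℕ, p.Prime ∧ ∀ r s r' s' : ℕ, 1 ≤ r → r ≤ R → 1 ≤ r' → r' ≤ R → ∀ z : ℤ,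
      |(a + (s : ℝ) / r) - (b + (s' : ℝ) / r') - z| < 1 / Y → p ∣ r' * r := by
  by_cases hex : ∃ r s r' s' : ℕ, 1 ≤ r ∧ r ≤ R ∧ 1 ≤ r' ∧ r' ≤ R ∧ ∃ z : ℤ,
      |(a + (s : ℝ) / r) - (b + (s' : ℝ) / r') - z| < 1 / Y
  · obtain ⟨r, s, r', s', hr1, hr2, hr1', hr2', z, hz⟩ := hex
    set t : ℚ := (s' : ℚ) / r' - (s : ℚ) / r + z with ht
    have hden : t.den ≤ R * R := by
      refine (Nat.le_of_dvd (by positivity) (spec_den r s r' s' z)).trans ?_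
      exact Nat.mul_le_mul hr2' hr2
    have htc : |a - b - (t : ℝ)| < 1 / Y := by
      have : a - b - (t : ℝ) = (a + (s : ℝ) / r) - (b + (s' : ℝ) / r') - z := by
        rw [ht]; push_cast; ring
      rw [this]; exact hz
    have h1 : t.den ≠ 1 := by
      intro h
      have h2 : (t.num : ℚ) = t := (Rat.den_eq_one_iff t).1 h
      have h3 := hab t.num
      have h4 : ((t.num : ℤ) : ℝ) = (t : ℝ) := by exact_mod_cast congrArg (fun q : ℚ => (q : ℝ)) h2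
      rw [h4] at h3
      have : 1 / Y ≤ 2 / Y := by gcongr; norm_num
      linarith
    refine ⟨t.den.minFac, Nat.minFac_prime h1, ?_⟩
    intro r₁ s₁ r₁' s₁' h1 h2 h1' h2' z₁ hz₁
    set t₁ : ℚ := (s₁' : ℚ) / r₁' - (s₁ : ℚ) / r₁ + z₁ with ht₁
    have hden₁ : t₁.den ≤ R * R := by
      refine (Nat.le_of_dvd (by positivity) (spec_den r₁ s₁ r₁' s₁' z₁)).trans ?_
      exact Nat.mul_le_mul h2' h2
    have htc₁ : |a - b - (t₁ : ℝ)| < 1 / Y := by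
      have : a - b - (t₁ : ℝ) = (a + (s₁ : ℝ) / r₁) - (b + (s₁' : ℝ) / r₁') - z₁ := by
        rw [ht₁]; push_cast; ring
      rw [this]; exact hz₁
    have heq : t = t₁ := by
      refine spec_eq_of_close (D := R * R * (R * R)) (δ := 2 / Y) (Nat.mul_le_mul hden hden₁) ?_ ?_
      · rw [div_mul_eq_mul_div, div_le_one hY]
        push_cast
        calc 2 * ((R : ℝ) * R * (R * R)) = 2 * (R : ℝ) ^ 4 := by ring
          _ ≤ Y := hR
      · have : (t : ℝ) - t₁ = (a - b - t₁) - (a - b - t) := by ring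
        rw [this]
        calc |(a - b - (t₁ : ℝ)) - (a - b - t)| ≤ |a - b - (t₁ : ℝ)| + |a - b - (t : ℝ)| := abs_sub _ _
          _ < 1 / Y + 1 / Y := add_lt_add htc₁ htc
          _ = 2 / Y := by ring
    rw [heq]
    exact (Nat.minFac_dvd _).trans (spec_den r₁ s₁ r₁' s₁' z₁)
  · refine ⟨2, Nat.prime_two, ?_⟩
    intro r s r' s' h1 h2 h3 h4 z hz
    exact absurd ⟨r, s, r', s', h1, h2, h3, h4, z, hz⟩ hex

/-- Different fractions with small denominators are well spaced. -/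
private lemma spec_same {Y : ℝ} {R : ℕ} (hY : 0 < Y) (hR : 2 * (R : ℝ) ^ 4 ≤ Y)
    {r s r' s' : ℕ} (h1 : 1 ≤ r) (h2 : r ≤ R) (h1' : 1 ≤ r') (h2' : r' ≤ R) (hs : s < r)
    (hs' : s' < r') (hc : Nat.Coprime r s) (hc' : Nat.Coprime r' s') (z : ℤ) (a : ℝ)
    (h : |(a + (s : ℝ) / r) - (a + (s' : ℝ) / r') - z| < 1 / Y) : r = r' ∧ s = s' := by
  set t : ℚ := (s' : ℚ) / r' - (s : ℚ) / r + z with ht
  have hden : t.den ≤ R * R := by
    refine (Nat.le_of_dvd (by positivity) (spec_den r s r' s' z)).trans ?_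
    exact Nat.mul_le_mul h2' h2
  have htc : |(0 : ℝ) - (t : ℝ)| < 1 / Y := by
    have : (0 : ℝ) - (t : ℝ) = (a + (s : ℝ) / r) - (a + (s' : ℝ) / r') - z := by
      rw [ht]; push_cast; ring
    rw [this]; exact h
  have hR1 : (1 : ℝ) ≤ R := by exact_mod_cast h1.trans h2
  have h0 : (0 : ℚ) = t := by
    refine spec_eq_of_close (D := R * R) (δ := 1 / Y) (by simpa using hden) ?_ (by
      rw [Rat.cast_zero]; exact htc)
    rw [div_mul_eq_mul_div, div_le_one hY]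
    push_cast
    nlinarith [pow_le_pow_left₀ (by norm_num) hR1 2, pow_le_pow_right₀ hR1 (show 2 ≤ 4 by norm_num)]
  have hr0 : (0 : ℚ) < r := by exact_mod_cast h1
  have hr0' : (0 : ℚ) < r' := by exact_mod_cast h1'
  have e1 : (s : ℚ) / r - (s' : ℚ) / r' = z := by
    rw [ht] at h0; linarith
  have b1 : (0 : ℚ) ≤ (s : ℚ) / r := by positivity
  have b2 : (s : ℚ) / r < 1 := by rw [div_lt_one hr0]; exact_mod_cast hs
  have b3 : (0 : ℚ) ≤ (s' : ℚ) / r' := by positivity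
  have b4 : (s' : ℚ) / r' < 1 := by rw [div_lt_one hr0']; exact_mod_cast hs'
  have hz : z = 0 := by
    have c1 : (-1 : ℚ) < z := by linarith
    have c2 : (z : ℚ) < 1 := by linarith
    have c3 : -1 < z := by exact_mod_cast c1
    have c4 : z < 1 := by exact_mod_cast c2
    omega
  rw [hz, Int.cast_zero, sub_eq_zero, div_eq_div_iff hr0.ne' hr0'.ne'] at e1
  have e2 : s * r' = s' * r := by exact_mod_cast e1
  have d1 : r ∣ r' := by
    have : r ∣ s * r' := ⟨s', by rw [e2]; ring⟩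
    exact hc.dvd_of_dvd_mul_left this
  have d2 : r' ∣ r := by
    have : r' ∣ s' * r := ⟨s, by rw [← e2]; ring⟩
    exact hc'.dvd_of_dvd_mul_left this
  have d3 : r = r' := Nat.dvd_antisymm d1 d2
  refine ⟨d3, ?_⟩
  rw [d3] at e2
  exact Nat.eq_of_mul_eq_mul_right h1' e2

private lemma spec_R {Y : ℝ} (hY : (2 : ℝ) ^ 16 ≤ Y) :
    1 ≤ ⌊Y ^ (1 / 8 : ℝ)⌋₊ ∧ 2 * ((⌊Y ^ (1 / 8 : ℝ)⌋₊ : ℕ) : ℝ) ^ 4 ≤ Y ∧
      Real.log Y / 16 ≤ Real.log ((⌊Y ^ (1 / 8 : ℝ)⌋₊ : ℕ) : ℝ) := by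
  have hY0 : (0 : ℝ) < Y := by linarith [show (0 : ℝ) < 2 ^ 16 by norm_num]
  set w : ℝ := Y ^ (1 / 8 : ℝ) with hw
  have hw0 : 0 < w := Real.rpow_pos_of_pos hY0 _
  have hw8 : w ^ 8 = Y := by
    rw [hw, ← Real.rpow_natCast, ← Real.rpow_mul hY0.le]
    norm_num
  have hw4 : 4 ≤ w := by
    by_contra h
    push Not at h
    have : w ^ 8 < 4 ^ 8 := pow_lt_pow_left₀ h hw0.le (by norm_num)
    rw [hw8] at this
    norm_num at this hY
    linarith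
  set R := ⌊w⌋₊ with hR
  have hR1 : (R : ℝ) ≤ w := Nat.floor_le hw0.le
  have hR2 : w < R + 1 := Nat.lt_floor_add_one w
  have hR3 : w / 2 ≤ R := by linarith
  have hR0 : (0 : ℝ) < R := by linarith
  refine ⟨?_, ?_, ?_⟩
  · have : (0 : ℕ) < R := by exact_mod_cast hR0
    exact this
  · have h1 : (R : ℝ) ^ 4 ≤ w ^ 4 := pow_le_pow_left₀ hR0.le hR1 4
    have h2 : (2 : ℝ) ≤ w ^ 4 := by
      calc (2 : ℝ) ≤ 4 ^ 4 := by norm_num
        _ ≤ w ^ 4 := pow_le_pow_left₀ (by norm_num) hw4 4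
    calc 2 * (R : ℝ) ^ 4 ≤ w ^ 4 * w ^ 4 := by nlinarith [pow_pos hw0 4]
      _ = Y := by rw [← hw8]; ring
  · have h1 : Real.log (w / 2) ≤ Real.log R := Real.log_le_log (by linarith) hR3
    have h2 : Real.log w = Real.log Y / 8 := by
      rw [hw, Real.log_rpow hY0]; ring
    rw [Real.log_div hw0.ne' (by norm_num), h2] at h1
    have h3 : 16 * Real.log 2 ≤ Real.log Y := by
      have : Real.log ((2 : ℝ) ^ 16) ≤ Real.log Y := Real.log_le_log (by norm_num) hY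
      rwa [Real.log_pow] at this
    linarith

private lemma spec_main {ε : ℝ} (hε : 0 < ε) {c : ℝ} (hc : 0 < c)
    (hG : ∀ (R : ℕ) (P : Finset ℕ), 1 ≤ R → (∀ p ∈ P, p.Prime) →
      c * Real.log R / (1 + Real.log (1 + (P.card : ℝ))) ≤
        ∑ r ∈ (Finset.Icc 1 R).filter (fun r => Squarefree r ∧ ∀ p ∈ P, ¬ p ∣ r),
          1 / (Nat.totient r : ℝ))
    {J : ℕ} {Y : ℝ} (hY : (2 : ℝ) ^ 16 ≤ Y) (L : Finset ℕ)
    (hL : ∀ q ∈ L, q.Prime ∧ Y ≤ (q : ℝ) ∧ (q : ℝ) ≤ 2 * Y) (ψ : Fin J → ℝ)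
    (hψ : ∀ j k, j ≠ k → ∀ z : ℤ, 2 / Y ≤ |ψ j - ψ k - z|)
    (hbig : ∀ j, ε * Y ≤ ‖∑ q ∈ L, (Real.log q : ℂ) * ee (q * ψ j)‖) :
    (J : ℝ) * (ε ^ 2 * c / 16) ≤ ((1 + 8 * Real.pi) * 12) * (1 + Real.log (1 + (J : ℝ) ^ 2)) := by
  have hY0 : (0 : ℝ) < Y := by linarith [show (0 : ℝ) < 2 ^ 16 by norm_num]
  obtain ⟨hR1, hR4, hRlog⟩ := spec_R hY
  set R := ⌊Y ^ (1 / 8 : ℝ)⌋₊ with hR
  have hRr : (1 : ℝ) ≤ R := by exact_mod_cast hR1
  have hRY : (R : ℝ) < Y := by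
    have h1 : (R : ℝ) ≤ (R : ℝ) ^ 4 := le_self_pow₀ hRr (by norm_num)
    linarith
  have hp : ∀ j k : Fin J, ∃ p : ℕ, p.Prime ∧ (j ≠ k → ∀ r s r' s' : ℕ, 1 ≤ r → r ≤ R → 1 ≤ r' →
      r' ≤ R → ∀ z : ℤ, |(ψ j + (s : ℝ) / r) - (ψ k + (s' : ℝ) / r') - z| < 1 / Y →
        p ∣ r' * r) := by
    intro j k
    by_cases hjk : j = k
    · exact ⟨2, Nat.prime_two, fun h => absurd hjk h⟩
    · obtain ⟨p, h1, h2⟩ := spec_prime hY0 hR4 (ψ j) (ψ k) (hψ j k hjk)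
      exact ⟨p, h1, fun _ => h2⟩
  choose p hpp hpd using hp
  set P : Finset ℕ := Finset.univ.image (fun jk : Fin J × Fin J => p jk.1 jk.2) with hP
  have hPcard : (P.card : ℝ) ≤ (J : ℝ) ^ 2 := by
    have : P.card ≤ J * J := by
      refine Finset.card_image_le.trans ?_
      simp
    calc (P.card : ℝ) ≤ ((J * J : ℕ) : ℝ) := by exact_mod_cast this
      _ = (J : ℝ) ^ 2 := by push_cast; ring
  have hPp : ∀ q ∈ P, q.Prime := by
    intro q hq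
    rw [hP, Finset.mem_image] at hq
    obtain ⟨jk, -, rfl⟩ := hq
    exact hpp _ _
  have hPm : ∀ j k, p j k ∈ P := fun j k => by
    rw [hP, Finset.mem_image]; exact ⟨(j, k), Finset.mem_univ _, rfl⟩
  set S := (Finset.Icc 1 R).filter (fun r => Squarefree r ∧ ∀ p ∈ P, ¬ p ∣ r) with hS
  have hSm : ∀ r ∈ S, 1 ≤ r ∧ r ≤ R ∧ Squarefree r ∧ ∀ p ∈ P, ¬ p ∣ r := by
    intro r hr
    rw [hS, Finset.mem_filter, Finset.mem_Icc] at hr
    exact ⟨hr.1.1, hr.1.2, hr.2.1, hr.2.2⟩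
  set T : Finset (Fin J × (Σ _ : ℕ, ℕ)) := (Finset.univ : Finset (Fin J)) ×ˢ
    (S.sigma fun r => (Finset.range r).filter (Nat.Coprime r)) with hT
  have hTm : ∀ t ∈ T, t.2.1 ∈ S ∧ t.2.2 < t.2.1 ∧ Nat.Coprime t.2.1 t.2.2 := by
    intro t ht
    rw [hT, Finset.mem_product, Finset.mem_sigma] at ht
    obtain ⟨-, h1, h2⟩ := ht
    rw [Finset.mem_filter, Finset.mem_range] at h2
    exact ⟨h1, h2.1, h2.2⟩
  have hsp : ∀ i ∈ T, ∀ j ∈ T, i ≠ j → ∀ z : ℤ,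
      1 / Y ≤ |(ψ i.1 + (i.2.2 : ℝ) / i.2.1) - (ψ j.1 + (j.2.2 : ℝ) / j.2.1) - z| := by
    intro i hi j hj hij z
    by_contra hlt
    push Not at hlt
    obtain ⟨hi1, hi2, hi3⟩ := hTm i hi
    obtain ⟨hj1, hj2, hj3⟩ := hTm j hj
    obtain ⟨hi4, hi5, -, hi6⟩ := hSm _ hi1
    obtain ⟨hj4, hj5, -, hj6⟩ := hSm _ hj1
    by_cases hne : i.1 = j.1
    · rw [hne] at hlt
      obtain ⟨e1, e2⟩ := spec_same hY0 hR4 hi4 hi5 hj4 hj5 hi2 hj2 hi3 hj3 z _ hlt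
      apply hij
      obtain ⟨i1, i2, i3⟩ := i
      obtain ⟨j1, j2, j3⟩ := j
      simp only at hne e1 e2
      subst hne e1 e2
      rfl
    · have h1 := hpd i.1 j.1 hne _ _ _ _ hi4 hi5 hj4 hj5 z hlt
      rcases (hpp i.1 j.1).dvd_mul.1 h1 with h2 | h2
      · exact hj6 _ (hPm _ _) h2
      · exact hi6 _ (hPm _ _) h2
  have hLS := large_sieve_c T (fun i => ψ i.1 + (i.2.2 : ℝ) / i.2.1) (one_div_pos.2 hY0)
    (by rw [div_le_one hY0]; linarith [show (1 : ℝ) < 2 ^ 16 by norm_num]) hsp L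
    (fun n => (Real.log n : ℂ)) (N := 2 * Y) (by positivity) (fun n hn => (hL n hn).2.2)
  -- the upper bound
  have hlogY : 0 < Real.log Y := by
    have : (1 : ℝ) < Y := by linarith [show (1 : ℝ) < 2 ^ 16 by norm_num]
    exact Real.log_pos this
  have hsq : ∑ n ∈ L, ‖((Real.log n : ℝ) : ℂ)‖ ^ 2 ≤ 12 * Y * Real.log Y := by
    have h1 : ∀ n ∈ L, ‖((Real.log n : ℝ) : ℂ)‖ ^ 2 ≤ (2 * Real.log Y) * Real.log n := by
      intro n hn
      obtain ⟨h2, h3, h4⟩ := hL n hn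
      have h5 : 0 ≤ Real.log n := Real.log_natCast_nonneg n
      have h6 : Real.log n ≤ 2 * Real.log Y := by
        have : Real.log n ≤ Real.log (2 * Y) :=
          Real.log_le_log (by linarith) h4
        rw [Real.log_mul (by norm_num) hY0.ne'] at this
        have h7 : Real.log 2 ≤ Real.log Y :=
          Real.log_le_log (by norm_num) (by linarith [show (2 : ℝ) ≤ 2 ^ 16 by norm_num])
        linarith
      rw [Complex.norm_real, Real.norm_eq_abs, sq_abs, sq]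
      exact mul_le_mul_of_nonneg_right h6 h5
    have h2 : L ⊆ pr Y (3 * Y) := by
      intro q hq
      obtain ⟨h2, h3, h4⟩ := hL q hq
      exact mem_pr.2 ⟨h2, h3, by linarith⟩
    calc ∑ n ∈ L, ‖((Real.log n : ℝ) : ℂ)‖ ^ 2 ≤ ∑ n ∈ L, (2 * Real.log Y) * Real.log n :=
          Finset.sum_le_sum h1
      _ = (2 * Real.log Y) * ∑ n ∈ L, Real.log n := by rw [Finset.mul_sum]
      _ ≤ (2 * Real.log Y) * ∑ n ∈ pr Y (3 * Y), Real.log n := by
          apply mul_le_mul_of_nonneg_left _ (by linarith)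
          exact Finset.sum_le_sum_of_subset_of_nonneg h2 fun n _ _ => Real.log_natCast_nonneg n
      _ ≤ (2 * Real.log Y) * (2 * (3 * Y)) := by
          apply mul_le_mul_of_nonneg_left _ (by linarith)
          exact sum_log_pr_le (by linarith)
      _ = 12 * Y * Real.log Y := by ring
  have hup : ∑ i ∈ T, ‖∑ n ∈ L, ((Real.log n : ℝ) : ℂ) *
      ee (n * (ψ i.1 + (i.2.2 : ℝ) / i.2.1))‖ ^ 2 ≤
        ((1 + 8 * Real.pi) * Y) * (12 * Y * Real.log Y) := by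
    refine hLS.trans ?_
    have : (1 / Y)⁻¹ + 4 * Real.pi * (2 * Y) = (1 + 8 * Real.pi) * Y := by
      rw [one_div, inv_inv]; ring
    rw [this]
    exact mul_le_mul_of_nonneg_left hsq (by positivity)
  -- the lower bound
  have hlow : (J : ℝ) * ((ε * Y) ^ 2 * ∑ r ∈ S, 1 / (Nat.totient r : ℝ)) ≤
      ∑ i ∈ T, ‖∑ n ∈ L, ((Real.log n : ℝ) : ℂ) *
        ee (n * (ψ i.1 + (i.2.2 : ℝ) / i.2.1))‖ ^ 2 := by
    rw [hT, Finset.sum_product]
    have h1 : (J : ℝ) * ((ε * Y) ^ 2 * ∑ r ∈ S, 1 / (Nat.totient r : ℝ)) =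
        ∑ _j : Fin J, ((ε * Y) ^ 2 * ∑ r ∈ S, 1 / (Nat.totient r : ℝ)) := by simp
    rw [h1]
    refine Finset.sum_le_sum fun j _ => ?_
    rw [Finset.sum_sigma, Finset.mul_sum]
    refine Finset.sum_le_sum fun r hr => ?_
    obtain ⟨hr1, hr2, hr3, -⟩ := hSm r hr
    have hcop : ∀ n ∈ L, Nat.Coprime n r := by
      intro n hn
      obtain ⟨h2, h3, h4⟩ := hL n hn
      refine (Nat.Prime.coprime_iff_not_dvd h2).2 fun hd => ?_
      have h5 := Nat.le_of_dvd hr1 hd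
      have h6 : (n : ℝ) ≤ R := by exact_mod_cast h5.trans hr2
      linarith
    have hM := montgomery hr3 L hcop (fun n => ((Real.log n : ℝ) : ℂ)) (ψ j)
    have hφ : (0 : ℝ) < Nat.totient r := by exact_mod_cast Nat.totient_pos.2 hr1
    have h7 : (ε * Y) ^ 2 ≤ ‖∑ q ∈ L, ((Real.log q : ℝ) : ℂ) * ee (q * ψ j)‖ ^ 2 :=
      pow_le_pow_left₀ (by positivity) (hbig j) 2
    rw [mul_one_div, div_le_iff₀ hφ, mul_comm _ (Nat.totient r : ℝ)]
    exact h7.trans hM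
  have hGS := hG R P hR1 hPp
  have hJ2 : (0 : ℝ) ≤ Real.log (1 + (P.card : ℝ)) := Real.log_nonneg (by
    have : (0 : ℝ) ≤ P.card := by positivity
    linarith)
  have hlogmono : Real.log (1 + (P.card : ℝ)) ≤ Real.log (1 + (J : ℝ) ^ 2) :=
    Real.log_le_log (by positivity) (by linarith)
  have hden : 0 < 1 + Real.log (1 + (J : ℝ) ^ 2) := by linarith
  have hGS' : c * (Real.log Y / 16) / (1 + Real.log (1 + (J : ℝ) ^ 2)) ≤
      ∑ r ∈ S, 1 / (Nat.totient r : ℝ) := by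
    refine le_trans ?_ hGS
    gcongr
  have hfin : (J : ℝ) * ((ε * Y) ^ 2 * (c * (Real.log Y / 16) /
      (1 + Real.log (1 + (J : ℝ) ^ 2)))) ≤ ((1 + 8 * Real.pi) * Y) * (12 * Y * Real.log Y) := by
    refine le_trans ?_ (hlow.trans hup)
    gcongr
  have hprod : 0 < Y ^ 2 * Real.log Y := by positivity
  have e1 : (J : ℝ) * ((ε * Y) ^ 2 * (c * (Real.log Y / 16) / (1 + Real.log (1 + (J : ℝ) ^ 2)))) =
      ((J : ℝ) * (ε ^ 2 * c / 16) / (1 + Real.log (1 + (J : ℝ) ^ 2))) * (Y ^ 2 * Real.log Y) := by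
    ring
  have e2 : ((1 + 8 * Real.pi) * Y) * (12 * Y * Real.log Y) =
      ((1 + 8 * Real.pi) * 12) * (Y ^ 2 * Real.log Y) := by ring
  rw [e1, e2] at hfin
  have h9 := le_of_mul_le_mul_right hfin hprod
  rwa [div_le_iff₀ hden] at h9

/-- The large spectrum of any set of primes in `[Y, 2Y]` has bounded size. -/
theorem large_spectrum {ε : ℝ} (hε : 0 < ε) :
    ∃ J : ℕ, 0 < J ∧ ∃ Y0 : ℝ, 0 < Y0 ∧ ∀ Y ≥ Y0, ∀ L : Finset ℕ,
      (∀ q ∈ L, q.Prime ∧ Y ≤ (q : ℝ) ∧ (q : ℝ) ≤ 2 * Y) →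
      ∀ ψ : Fin J → ℝ, (∀ j k, j ≠ k → ∀ z : ℤ, 2 / Y ≤ |ψ j - ψ k - z|) →
        ∃ j, ‖∑ q ∈ L, (Real.log q : ℂ) * ee (q * ψ j)‖ < ε * Y := by
  obtain ⟨c, hc, hG⟩ := gsum_ge
  set K : ℝ := (1 + 8 * Real.pi) * 12 with hK
  have hK0 : 0 < K := by positivity
  set a : ℝ := ε ^ 2 * c / 16 with ha
  have ha0 : 0 < a := by positivity
  set N : ℕ := ⌈10 * K / a⌉₊ + 2 with hN
  have hN1 : 10 * K / a < N := by
    have := Nat.le_ceil (10 * K / a)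
    rw [hN]; push_cast; linarith
  have hN2 : (2 : ℝ) ≤ N := by rw [hN]; push_cast; linarith [Nat.cast_nonneg (α := ℝ) ⌈10 * K / a⌉₊]
  have hN2' : 2 ≤ N := by exact_mod_cast hN2
  have hJN : ((N ^ 2 - 1 : ℕ) : ℝ) = (N : ℝ) ^ 2 - 1 := by
    have : 1 ≤ N ^ 2 := Nat.one_le_pow _ _ (by omega)
    push_cast [Nat.cast_sub this]
    ring
  refine ⟨N ^ 2 - 1, ?_, (2 : ℝ) ^ 16, by norm_num, ?_⟩
  · have : 2 ^ 2 ≤ N ^ 2 := Nat.pow_le_pow_left hN2' 2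
    omega
  intro Y hY L hL ψ hψ
  by_contra hcon
  push Not at hcon
  have h1 := spec_main hε hc hG hY L hL ψ hψ hcon
  rw [← ha, ← hK, hJN] at h1
  have h2 : Real.log (1 + ((N : ℝ) ^ 2 - 1) ^ 2) ≤ 4 * (N : ℝ) := by
    have h3 : 1 + ((N : ℝ) ^ 2 - 1) ^ 2 ≤ ((N : ℝ)) ^ 4 := by nlinarith [sq_nonneg ((N : ℝ))]
    calc Real.log (1 + ((N : ℝ) ^ 2 - 1) ^ 2) ≤ Real.log ((N : ℝ) ^ 4) :=
          Real.log_le_log (by positivity) h3
      _ = 4 * Real.log N := by rw [Real.log_pow]; norm_num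
      _ ≤ 4 * (N : ℝ) := by
          have := Real.log_le_self (show (0 : ℝ) ≤ N by linarith)
          linarith
  have h3 : ((N : ℝ) ^ 2 - 1) * a ≤ K * (1 + 4 * N) := by
    refine h1.trans ?_
    apply mul_le_mul_of_nonneg_left _ hK0.le
    linarith
  rw [div_lt_iff₀ ha0] at hN1
  nlinarith [mul_pos ha0 hK0]

end Pool.MP_67663b_nt.Odd
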