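import Pool.Agent.Lib.MP_67663b_nt.OddB.CountR

set_option autoImplicit false
open Filter Topology
namespace Pool.MP_67663b_nt.Odd

variable {I : Type} [Fintype I] [DecidableEq I]

private lemma winB_mono {a : ℝ} (ha : 0 < a) {m n : ℕ} (hmn : m ≤ n) : bt a m ≤ bt a n := by
  unfold bt
  apply Nat.floor_le_floor
  have : (m : ℝ) ≤ n := by exact_mod_cast hmn
  nlinarith

private lemma winB_gap {a : ℝ} (ha : 0 < a) {p x h : ℕ} (hh : (p : ℝ) * x + 1 ≤ a * h) (n : ℕ)
    {j : ℕ} (hj : h ≤ j) : bt a n + (p * x + 1) ≤ bt a (n + j) := by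
  unfold bt
  apply Nat.le_floor
  have h1 : ((⌊a * (n : ℝ)⌋₊ : ℕ) : ℝ) ≤ a * n := Nat.floor_le (by positivity)
  have h2 : (h : ℝ) ≤ j := by exact_mod_cast hj
  have h3 : a * (h : ℝ) ≤ a * j := by nlinarith
  push_cast
  nlinarith

omit [Fintype I] [DecidableEq I] in
private lemma winB_abs_word_le (α : I → ℝ) (H n : ℕ) (i : I) (r : ℕ) :
    |(word α H n).2.2 i r| ≤ 1 := by
  simp only [word]
  split_ifs
  · rw [abs_lam]
  · simp

omit [Fintype I] [DecidableEq I] in
private lemma winB_abs_word_fst_le (α : I → ℝ) (H n : ℕ) (r : ℕ) : |(word α H n).1 r| ≤ 1 := by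
  simp only [word]
  split_ifs
  · rw [abs_lam]
  · simp

/-- the number of multiples in a window. -/
private lemma winB_card_window (p h c : ℕ) (hp : 0 < p) :
    (((Finset.Ico h (2 * h)).filter (fun j => p ∣ c + j)).card : ℝ) * p ≤ h + p := by
  have h1 : ((Finset.Ico h (2 * h)).filter (fun j => p ∣ c + j)).card ≤ h / p + 1 := by
    have h2 : ((Finset.Ico h (2 * h)).filter (fun j => p ∣ c + j)).card ≤
        ((Finset.Ico (c + h) (c + 2 * h)).filter (fun j => p ∣ j)).card := by
      apply Finset.card_le_card_of_injOn (fun j => c + j)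
      · intro j hj
        simp only [Finset.coe_filter, Finset.mem_Ico, Set.mem_ofPred_eq] at hj ⊢
        exact ⟨⟨by omega, by omega⟩, hj.2⟩
      · intro a _ b _ hab
        simpa using hab
    refine h2.trans ?_
    have h3 : ((Finset.Ico (c + h) (c + 2 * h)).filter (fun j => p ∣ j)).card ≤
        (Finset.Icc ((c + h + (p - 1)) / p) ((c + h + (p - 1)) / p + h / p)).card := by
      apply Finset.card_le_card_of_injOn (fun j => j / p)
      · intro j hj
        simp only [Finset.coe_filter, Finset.mem_Ico, Set.mem_ofPred_eq, Finset.coe_Icc,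
          Set.mem_Icc] at hj ⊢
        obtain ⟨⟨hj1, hj2⟩, k, rfl⟩ := hj
        rw [Nat.mul_div_cancel_left _ hp]
        constructor
        · apply Nat.le_of_lt_succ
          rw [Nat.div_lt_iff_lt_mul hp]
          have : (k + 1) * p = p * k + p := by ring
          rw [Nat.succ_eq_add_one, this]
          omega
        · by_contra hcon
          push Not at hcon
          have e1 : (c + h + (p - 1)) / p + h / p + 1 ≤ k := hcon
          have e2 : p * ((c + h + (p - 1)) / p + h / p + 1) ≤ p * k := Nat.mul_le_mul_left _ e1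
          have e3 : c + h + (p - 1) < p * ((c + h + (p - 1)) / p) + p := by
            have := Nat.div_add_mod (c + h + (p - 1)) p
            have := Nat.mod_lt (c + h + (p - 1)) hp
            omega
          have e4 : h < p * (h / p) + p := by
            have := Nat.div_add_mod h p
            have := Nat.mod_lt h hp
            omega
          have e5 : p * ((c + h + (p - 1)) / p + h / p + 1) =
              p * ((c + h + (p - 1)) / p) + p * (h / p) + p := by ring
          omega
      · intro a ha b hb hab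
        simp only [Finset.coe_filter, Finset.mem_Ico, Set.mem_ofPred_eq] at ha hb hab
        obtain ⟨_, k, rfl⟩ := ha
        obtain ⟨_, l, rfl⟩ := hb
        rw [Nat.mul_div_cancel_left _ hp, Nat.mul_div_cancel_left _ hp] at hab
        rw [hab]
    refine h3.trans ?_
    rw [Nat.card_Icc]
    generalize (c + h + (p - 1)) / p = u
    generalize h / p = v
    omega
  have h5 : (((Finset.Ico h (2 * h)).filter (fun j => p ∣ c + j)).card) * p ≤ h + p := by
    calc _ ≤ (h / p + 1) * p := Nat.mul_le_mul_right _ h1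
      _ = h / p * p + p := by ring
      _ ≤ h + p := by
        have := Nat.div_mul_le_self h p
        omega
  exact_mod_cast h5

/-- rotation of one residue. -/
private lemma winB_rot_mod {p : ℕ} (hp : 0 < p) (w : ℕ) {c : ℕ} (hc : c < p) :
    ((c + (p - w % p)) % p + w) % p = c := by
  have h1 : w % p < p := Nat.mod_lt _ hp
  have h2 : (c + (p - w % p) + w) = c + p * (w / p + 1) := by
    have := Nat.div_add_mod w p
    have h3 : p * (w / p + 1) = p * (w / p) + p := by ring
    omega
  rw [Nat.mod_add_mod, h2, Nat.add_mul_mod_self_left, Nat.mod_eq_of_lt hc]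

private lemma winB_sum_dvd {p : ℕ} (hp : 0 < p) (j : ℕ) :
    ∑ c ∈ Finset.range p, (if p ∣ c + j then (p : ℝ) else 0) = p := by
  rw [← Finset.sum_filter]
  have h1 : (Finset.range p).filter (fun c => p ∣ c + j) = {(0 + (p - j % p)) % p} := by
    ext c
    simp only [Finset.mem_filter, Finset.mem_range, Finset.mem_singleton]
    constructor
    · rintro ⟨hc, hd⟩
      have e1 : (c + j) % p = ((0 + (p - j % p)) % p + j) % p := by
        rw [winB_rot_mod hp j hp, Nat.dvd_iff_mod_eq_zero.mp hd]
      have e2 : c ≡ (0 + (p - j % p)) % p [MOD p] := Nat.ModEq.add_right_cancel' j e1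
      unfold Nat.ModEq at e2
      rwa [Nat.mod_eq_of_lt hc, Nat.mod_mod] at e2
    · rintro rfl
      exact ⟨Nat.mod_lt _ hp, Nat.dvd_iff_mod_eq_zero.mpr (winB_rot_mod hp j hp)⟩
  rw [h1]
  simp

/-- rotation of residues in several coordinates. -/
private lemma winB_sum_rot {J : Type} [Fintype J] [DecidableEq J] {p : ℕ} (hp : 0 < p) (w : J → ℕ)
    (F : (J → ℕ) → ℝ) :
    ∑ z ∈ Fintype.piFinset (fun _ : J => Finset.range p), F (fun i => (z i + w i) % p) =
      ∑ z ∈ Fintype.piFinset (fun _ : J => Finset.range p), F z := by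
  apply Finset.sum_bij (fun z _ => fun i => (z i + w i) % p)
  · intro z _
    simp only [Fintype.mem_piFinset, Finset.mem_range]
    exact fun i => Nat.mod_lt _ hp
  · intro z hz z' hz' he
    simp only [Fintype.mem_piFinset, Finset.mem_range] at hz hz'
    funext i
    have h1 : (z i + w i) % p = (z' i + w i) % p := congrFun he i
    have h2 : z i ≡ z' i [MOD p] := Nat.ModEq.add_right_cancel' (w i) h1
    unfold Nat.ModEq at h2
    rwa [Nat.mod_eq_of_lt (hz i), Nat.mod_eq_of_lt (hz' i)] at h2
  · intro z hz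
    simp only [Fintype.mem_piFinset, Finset.mem_range] at hz
    refine ⟨fun i => (z i + (p - w i % p)) % p, ?_, ?_⟩
    · simp only [Fintype.mem_piFinset, Finset.mem_range]
      exact fun i => Nat.mod_lt _ hp
    · funext i
      exact winB_rot_mod hp (w i) (hz i)
  · intro z _
    rfl

/-- the value `s(n + j)` read off the word. -/
private def wsB (a : I → ℤ) (b : ℤ) (w : ((ℕ → ℝ) × (I → ℕ → ℕ) × (I → ℕ → ℝ)) × ℤ) (j : ℕ) : ℤ :=
  w.2 + b * j - ∑ i, a i * (w.1.2.1 i j : ℤ)

/-- extension of digits by a digit at `l`. -/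
private def extB (l : I) (z : {i : I // i ≠ l} → ℕ) (d : ℕ) : I → ℕ :=
  fun i => if hi : i ≠ l then z ⟨i, hi⟩ else d

omit [Fintype I] in
private lemma extB_ne (l : I) (z : {i : I // i ≠ l} → ℕ) (d : ℕ) (i : {i : I // i ≠ l}) :
    extB l z d i.1 = z i := by
  unfold extB
  rw [dif_pos i.2]

omit [Fintype I] in
private lemma extB_self (l : I) (z : {i : I // i ≠ l} → ℕ) (d : ℕ) : extB l z d l = d := by
  unfold extB
  rw [dif_neg (by simp)]

/-- inner average with given digits modulo `p`. -/
private noncomputable def innB (a : I → ℤ) (p x : ℕ) (s : ℤ)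
    (w : ((ℕ → ℝ) × (I → ℕ → ℕ) × (I → ℕ → ℝ)) × ℤ) (j : ℕ) (R : I → ℕ) : ℝ :=
  avB a x ((s + ∑ i, a i * (R i : ℤ)) / p) (fun i r => w.1.2.2 i (w.1.2.1 i j - R i - p * r))

/-- the function of word and residues. -/
private noncomputable def winB (a : I → ℤ) (b : ℤ) (l : I)
    (dg : ℤ → ({i : I // i ≠ l} → ℕ) → ℕ) (p x h : ℕ)
    (w : ((ℕ → ℝ) × (I → ℕ → ℕ) × (I → ℕ → ℝ)) × ℤ) (y : ℕ × ({i : I // i ≠ l} → ℕ)) : ℝ :=
  (1 / (h : ℝ)) * ∑ j ∈ Finset.Ico h (2 * h),
    (if p ∣ y.1 + j then (p : ℝ) else 0) * w.1.1 j *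
      innB a p x (wsB a b w j) w j
        (extB l (fun i => (y.2 i + w.1.2.1 i.1 j) % p)
          (dg (wsB a b w j) (fun i => (y.2 i + w.1.2.1 i.1 j) % p)))

private lemma avB_le_one {a : I → ℤ} {l : I} {x : ℕ} (hx : 0 < x) (hl : IsCoprime (a l) (x : ℤ))
    (s : ℤ) {f : I → ℕ → ℝ} (hf : ∀ i r, |f i r| ≤ 1) : |avB a x s f| ≤ 1 := by
  unfold avB
  have hx0 : (0 : ℝ) < x := by exact_mod_cast hx
  have h1 : |∑ r ∈ RR a x s, ∏ i, f i (r i)| ≤ (x : ℝ) ^ (Fintype.card I - 1) := by
    calc |∑ r ∈ RR a x s, ∏ i, f i (r i)| ≤ ∑ r ∈ RR a x s, |∏ i, f i (r i)| :=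
          Finset.abs_sum_le_sum_abs _ _
      _ ≤ ∑ r ∈ RR a x s, (1:ℝ) := by
          refine Finset.sum_le_sum fun r _ => ?_
          rw [Finset.abs_prod]
          exact Finset.prod_le_one (fun i _ => abs_nonneg _) (fun i _ => hf i _)
      _ = ((RR a x s).card : ℝ) := by simp
      _ = (x : ℝ) ^ (Fintype.card I - 1) := by
          rw [card_RR hx hl s]
          push_cast
          rfl
  rw [abs_mul, abs_of_pos (by positivity : (0:ℝ) < 1 / (x : ℝ) ^ (Fintype.card I - 1))]
  calc 1 / (x : ℝ) ^ (Fintype.card I - 1) * |∑ r ∈ RR a x s, ∏ i, f i (r i)|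
      ≤ 1 / (x : ℝ) ^ (Fintype.card I - 1) * (x : ℝ) ^ (Fintype.card I - 1) := by gcongr
    _ = 1 := by field_simp

private lemma avB_congr (a : I → ℤ) (x : ℕ) (s : ℤ) {f g : I → ℕ → ℝ}
    (h : ∀ i, ∀ r < x, f i r = g i r) : avB a x s f = avB a x s g := by
  unfold avB
  congr 1
  apply Finset.sum_congr rfl
  intro r hr
  apply Finset.prod_congr rfl
  intro i _
  apply h
  unfold RR at hr
  rw [Finset.mem_filter, Fintype.mem_piFinset] at hr
  exact Finset.mem_range.mp (hr.1 i)

omit [Fintype I] [DecidableEq I] in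
private lemma winB_D (α : I → ℝ) {h : ℕ} (n : ℕ) (i : I) {j : ℕ} (hj : j ∈ Finset.Ico h (2 * h)) :
    (word α (2 * h) n).2.1 i j = bt (α i) (n + j) - bt (α i) n := by
  rw [Finset.mem_Ico] at hj
  simp only [word]
  rw [if_pos (by omega)]

omit [DecidableEq I] in
private lemma winB_ws (α : I → ℝ) (hα : ∀ i, 0 < α i) (a : I → ℤ) (b : ℤ) {h : ℕ} (n : ℕ) {j : ℕ}
    (hj : j ∈ Finset.Ico h (2 * h)) :
    wsB a b (wordB α a b (2 * h) n) j = sB α a b (n + j) := by
  unfold wsB wordB sB
  simp only
  have h1 : ∀ i, a i * (((word α (2 * h) n).2.1 i j : ℕ) : ℤ) =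
      a i * (bt (α i) (n + j) : ℤ) - a i * (bt (α i) n : ℤ) := by
    intro i
    rw [winB_D α n i hj, Nat.cast_sub (winB_mono (hα i) (by omega))]
    ring
  rw [Finset.sum_congr rfl (fun i _ => h1 i), Finset.sum_sub_distrib]
  push_cast
  ring

/-- the inner average read off the word. -/
private lemma innB_eq (α : I → ℝ) (hα : ∀ i, 0 < α i) (a : I → ℤ) (b : ℤ) {p x h : ℕ}
    (hh : ∀ i, (p : ℝ) * x + 1 ≤ α i * h) (n : ℕ) {j : ℕ}
    (hj : j ∈ Finset.Ico h (2 * h)) (s : ℤ) (R : I → ℕ) (hR : ∀ i, R i < p) :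
    innB a p x s (wordB α a b (2 * h) n) j R =
      avB a x ((s + ∑ i, a i * (R i : ℤ)) / p) (fun i r => lam (bt (α i) (n + j) - R i - p * r)) := by
  unfold innB
  apply avB_congr
  intro i r hr
  unfold wordB
  simp only
  rw [winB_D α n i hj]
  have hj' := Finset.mem_Ico.mp hj
  have h1 := winB_gap (hα i) (hh i) n hj'.1
  have h2 : bt (α i) (n + j) ≤ bt (α i) (n + 2 * h) := winB_mono (hα i) (by omega)
  have h3 := hR i
  have h4 : p * r + p ≤ p * x := by
    calc p * r + p = p * (r + 1) := by ring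
      _ ≤ p * x := Nat.mul_le_mul_left _ hr
  simp only [word]
  rw [if_pos (by omega)]
  congr 1
  omega

/-- the digits completing to a solution. -/
private lemma winB_sum_RR {a : I → ℤ} {l : I} {p : ℕ}
    {dg : ℤ → ({i : I // i ≠ l} → ℕ) → ℕ}
    (hdg : ∀ (s : ℤ) (y : {i : I // i ≠ l} → ℕ),
      dg s y < p ∧ ∀ ρ : I → ℕ, (∀ i : {i : I // i ≠ l}, ρ i.1 = y i) → ρ l < p →
        ((p : ℤ) ∣ ∑ i, a i * (ρ i : ℤ) + s ↔ ρ l = dg s y)) (s : ℤ) (G : (I → ℕ) → ℝ) :
    ∑ z ∈ Fintype.piFinset (fun _ : {i : I // i ≠ l} => Finset.range p), G (extB l z (dg s z)) =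
      ∑ ρ ∈ RR a p s, G ρ := by
  apply Finset.sum_nbij' (fun z => extB l z (dg s z)) (fun ρ => fun i => ρ i.1)
  · intro z hz
    simp only [Fintype.mem_piFinset, Finset.mem_range] at hz
    unfold RR
    rw [Finset.mem_filter, Fintype.mem_piFinset]
    constructor
    · intro i
      rw [Finset.mem_range]
      by_cases hi : i = l
      · subst hi
        rw [extB_self]
        exact (hdg s z).1
      · have := extB_ne l z (dg s z) ⟨i, hi⟩
        rw [show extB l z (dg s z) i = z ⟨i, hi⟩ from this]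
        exact hz _
    · apply ((hdg s z).2 (extB l z (dg s z)) (fun i => extB_ne l z _ i) ?_).mpr
      · rw [extB_self]
      · rw [extB_self]
        exact (hdg s z).1
  · intro ρ hρ
    unfold RR at hρ
    rw [Finset.mem_filter, Fintype.mem_piFinset] at hρ
    rw [Fintype.mem_piFinset]
    exact fun i => hρ.1 i.1
  · intro z _
    funext i
    exact extB_ne l z _ i
  · intro ρ hρ
    unfold RR at hρ
    rw [Finset.mem_filter, Fintype.mem_piFinset] at hρ
    funext i
    by_cases hi : i = l
    · subst hi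
      rw [extB_self]
      exact (((hdg s (fun i' => ρ i'.1)).2 ρ (fun _ => rfl)
        (Finset.mem_range.mp (hρ.1 i))).mp hρ.2).symm
    · exact extB_ne l (fun i' : {i : I // i ≠ l} => ρ i'.1) _ ⟨i, hi⟩
  · intro z _
    rfl

/-- Window average of `phiB` (compare `exists_Psi` in `Odd.Window`). -/
theorem exists_PsiB (α : I → ℝ) (hα : ∀ i, 0 < α i) (a : I → ℤ) (b : ℤ) {l : I} {p x h : ℕ}
    (hp : p.Prime) (hx : 0 < x) (hlp : IsCoprime (a l) (p : ℤ)) (hlx : IsCoprime (a l) (x : ℤ))
    (hh : ∀ i, (p : ℝ) * x + 1 ≤ α i * h) (hph : p ≤ h) :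
    ∃ Psi : ((ℕ → ℝ) × (I → ℕ → ℕ) × (I → ℕ → ℝ)) × ℤ → ℕ × ({i : I // i ≠ l} → ℕ) → ℝ,
      (∀ n, (1 / (h : ℝ)) * ∑ j ∈ Finset.Ico h (2 * h), phiB α a b p x (n + j) =
        Psi (wordB α a b (2 * h) n) (res (rest α l) p n)) ∧
      (∀ n, ∀ y ∈ box {i : I // i ≠ l} p, |Psi (wordB α a b (2 * h) n) y| ≤ 2) ∧
      (∀ n, (1 / ((box {i : I // i ≠ l} p).card : ℝ)) *
          ∑ y ∈ box {i : I // i ≠ l} p, Psi (wordB α a b (2 * h) n) y =
        (1 / (h : ℝ)) * ∑ j ∈ Finset.Ico h (2 * h),
          lam (n + j) * avB a (p * x) (sB α a b (n + j))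
            (fun i r => lam (bt (α i) (n + j) - r))) := by
  have hp0 : 0 < p := hp.pos
  have hp0' : (0 : ℝ) < p := by exact_mod_cast hp0
  have hx0' : (0 : ℝ) < x := by exact_mod_cast hx
  have hh0 : (0 : ℝ) < h := by
    have : 0 < h := lt_of_lt_of_le hp0 hph
    exact_mod_cast this
  obtain ⟨dg, hdg⟩ := exists_digit (a := a) (l := l) hp0 hlp
  have hext : ∀ (s : ℤ) (z : {i : I // i ≠ l} → ℕ), (∀ i, z i < p) → ∀ i,
      extB l z (dg s z) i < p := by
    intro s z hz i
    by_cases hi : i = l
    · subst hi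
      rw [extB_self]
      exact (hdg s z).1
    · rw [show extB l z (dg s z) i = z ⟨i, hi⟩ from extB_ne l z (dg s z) ⟨i, hi⟩]
      exact hz _
  refine ⟨winB a b l dg p x h, ?_, ?_, ?_⟩
  · intro n
    unfold winB
    congr 1
    apply Finset.sum_congr rfl
    intro j hj
    have hj' := Finset.mem_Ico.mp hj
    unfold phiB
    have e1 : (wordB α a b (2 * h) n).1.1 j = lam (n + j) := by
      simp only [wordB, word]
      rw [if_pos (by omega)]
    have e2 : (p ∣ (res (rest α l) p n).1 + j) = (p ∣ n + j) := by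
      simp only [res, Nat.dvd_iff_mod_eq_zero, Nat.mod_add_mod]
    rw [e1]
    simp only [e2]
    by_cases hd : p ∣ n + j
    swap
    · simp [hd]
    congr 1
    rw [winB_ws α hα a b n hj]
    have hz : (fun i : {i : I // i ≠ l} => ((res (rest α l) p n).2 i +
        (wordB α a b (2 * h) n).1.2.1 i.1 j) % p) =
        fun i : {i : I // i ≠ l} => bt (α i.1) (n + j) % p := by
      funext i
      have h1 : bt (α i.1) n ≤ bt (α i.1) (n + j) := winB_mono (hα i.1) (by omega)
      have h2 : (wordB α a b (2 * h) n).1.2.1 i.1 j = bt (α i.1) (n + j) - bt (α i.1) n :=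
        winB_D α n i.1 hj
      rw [h2]
      simp only [res, rest, Nat.mod_add_mod]
      congr 1
      omega
    rw [hz]
    have hR : extB l (fun i : {i : I // i ≠ l} => bt (α i.1) (n + j) % p)
        (dg (sB α a b (n + j)) (fun i : {i : I // i ≠ l} => bt (α i.1) (n + j) % p)) =
        fun i => bt (α i) (n + j) % p := by
      funext i
      by_cases hi : i = l
      · subst hi
        rw [extB_self]
        symm
        apply ((hdg (sB α a b (n + j)) (fun i' => bt (α i'.1) (n + j) % p)).2
          (fun i => bt (α i) (n + j) % p) (fun _ => rfl) (Nat.mod_lt _ hp0)).mp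
        have h3 : ∑ i, a i * ((bt (α i) (n + j) % p : ℕ) : ℤ) + sB α a b (n + j) =
            b * ((n + j : ℕ) : ℤ) - ∑ i, a i * ((p : ℤ) * ((bt (α i) (n + j) / p : ℕ) : ℤ)) := by
          unfold sB
          have h4 : ∀ i, a i * ((bt (α i) (n + j) : ℕ) : ℤ) =
              a i * ((bt (α i) (n + j) % p : ℕ) : ℤ) +
              a i * ((p : ℤ) * ((bt (α i) (n + j) / p : ℕ) : ℤ)) := by
            intro i
            rw [← mul_add]
            congr 1
            have := Nat.mod_add_div (bt (α i) (n + j)) p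
            exact_mod_cast this.symm
          rw [Finset.sum_congr rfl (fun i _ => h4 i), Finset.sum_add_distrib]
          ring
        rw [h3]
        apply dvd_sub
        · exact Dvd.dvd.mul_left (by exact_mod_cast hd) _
        · apply Finset.dvd_sum
          intro i _
          exact Dvd.dvd.mul_left (Dvd.intro _ rfl) _
      · exact extB_ne l (fun i' : {i : I // i ≠ l} => bt (α i'.1) (n + j) % p) _ ⟨i, hi⟩
    rw [hR, innB_eq α hα a b hh n hj _ _ (fun i => Nat.mod_lt _ hp0)]
  · intro n y _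
    unfold winB
    rw [abs_mul, abs_of_pos (by positivity : (0:ℝ) < 1 / (h : ℝ))]
    have key : ∀ j, |(if p ∣ y.1 + j then (p : ℝ) else 0) * (wordB α a b (2 * h) n).1.1 j *
        innB a p x (wsB a b (wordB α a b (2 * h) n) j) (wordB α a b (2 * h) n) j
          (extB l (fun i => (y.2 i + (wordB α a b (2 * h) n).1.2.1 i.1 j) % p)
            (dg (wsB a b (wordB α a b (2 * h) n) j)
              (fun i => (y.2 i + (wordB α a b (2 * h) n).1.2.1 i.1 j) % p)))| ≤
        if p ∣ y.1 + j then (p : ℝ) else 0 := by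
      intro j
      rw [abs_mul, abs_mul]
      have h2 : |innB a p x (wsB a b (wordB α a b (2 * h) n) j) (wordB α a b (2 * h) n) j
          (extB l (fun i => (y.2 i + (wordB α a b (2 * h) n).1.2.1 i.1 j) % p)
            (dg (wsB a b (wordB α a b (2 * h) n) j)
              (fun i => (y.2 i + (wordB α a b (2 * h) n).1.2.1 i.1 j) % p)))| ≤ 1 := by
        unfold innB
        apply avB_le_one hx hlx
        intro i r
        exact winB_abs_word_le α (2 * h) n i _
      have h3 : |(wordB α a b (2 * h) n).1.1 j| ≤ 1 := winB_abs_word_fst_le α (2 * h) n j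
      have h4 : |if p ∣ y.1 + j then (p : ℝ) else 0| = if p ∣ y.1 + j then (p : ℝ) else 0 := by
        split_ifs
        · exact abs_of_nonneg (Nat.cast_nonneg _)
        · simp
      have h5 : (0 : ℝ) ≤ if p ∣ y.1 + j then (p : ℝ) else 0 := by
        split_ifs
        · positivity
        · exact le_rfl
      rw [h4]
      calc _ ≤ (if p ∣ y.1 + j then (p : ℝ) else 0) * 1 * 1 := by
            apply mul_le_mul _ h2 (abs_nonneg _) (by linarith)
            exact mul_le_mul_of_nonneg_left h3 h5
        _ = _ := by ring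
    have hph' : (p : ℝ) ≤ h := by exact_mod_cast hph
    have h6 := (Finset.abs_sum_le_sum_abs _ _).trans
      (Finset.sum_le_sum (fun j (_ : j ∈ Finset.Ico h (2 * h)) => key j))
    rw [← Finset.sum_filter, Finset.sum_const, nsmul_eq_mul] at h6
    have h7 := h6.trans (winB_card_window p h y.1 hp0)
    calc 1 / (h:ℝ) * _ ≤ 1 / (h:ℝ) * (h + p) := by gcongr
      _ ≤ 1 / (h:ℝ) * (h + h) := by gcongr
      _ = 2 := by field_simp; ring
  · intro n
    unfold winB
    rw [← Finset.mul_sum, Finset.sum_comm, mul_left_comm]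
    congr 1
    rw [Finset.mul_sum]
    apply Finset.sum_congr rfl
    intro j hj
    have hj' := Finset.mem_Ico.mp hj
    have e1 : (wordB α a b (2 * h) n).1.1 j = lam (n + j) := by
      simp only [wordB, word]
      rw [if_pos (by omega)]
    rw [e1, winB_ws α hα a b n hj]
    unfold box
    rw [Finset.sum_product, Finset.card_product, Fintype.card_piFinset, Finset.card_range]
    have e4 : ∀ c : ℕ, ∑ z ∈ Fintype.piFinset (fun _ : {i : I // i ≠ l} => Finset.range p),
        (if p ∣ (c, z).1 + j then (p : ℝ) else 0) * lam (n + j) *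
        innB a p x (sB α a b (n + j)) (wordB α a b (2 * h) n) j
          (extB l (fun i => ((c, z).2 i + (wordB α a b (2 * h) n).1.2.1 i.1 j) % p)
            (dg (sB α a b (n + j))
              (fun i => ((c, z).2 i + (wordB α a b (2 * h) n).1.2.1 i.1 j) % p))) =
        (if p ∣ c + j then (p : ℝ) else 0) * (lam (n + j) *
          ((p : ℝ) ^ (Fintype.card I - 1) * avB a (p * x) (sB α a b (n + j))
            (fun i r => lam (bt (α i) (n + j) - r)))) := by
      intro c
      have e6 : ∀ z ∈ Fintype.piFinset (fun _ : {i : I // i ≠ l} => Finset.range p),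
          (if p ∣ (c, z).1 + j then (p : ℝ) else 0) * lam (n + j) *
          innB a p x (sB α a b (n + j)) (wordB α a b (2 * h) n) j
            (extB l (fun i => ((c, z).2 i + (wordB α a b (2 * h) n).1.2.1 i.1 j) % p)
              (dg (sB α a b (n + j))
                (fun i => ((c, z).2 i + (wordB α a b (2 * h) n).1.2.1 i.1 j) % p))) =
          ((if p ∣ c + j then (p : ℝ) else 0) * lam (n + j)) *
          (fun z : {i : I // i ≠ l} → ℕ => innB a p x (sB α a b (n + j))
            (wordB α a b (2 * h) n) j (extB l z (dg (sB α a b (n + j)) z)))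
            (fun i => (z i + (wordB α a b (2 * h) n).1.2.1 i.1 j) % p) := fun z _ => rfl
      rw [Finset.sum_congr rfl e6, ← Finset.mul_sum, mul_assoc]
      congr 2
      rw [winB_sum_rot hp0 (fun i : {i : I // i ≠ l} => (wordB α a b (2 * h) n).1.2.1 i.1 j)
        (fun z => innB a p x (sB α a b (n + j)) (wordB α a b (2 * h) n) j
          (extB l z (dg (sB α a b (n + j)) z))),
        winB_sum_RR hdg (sB α a b (n + j)) (fun R => innB a p x (sB α a b (n + j))
          (wordB α a b (2 * h) n) j R)]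
      have e5 : ∀ R ∈ RR a p (sB α a b (n + j)), innB a p x (sB α a b (n + j))
          (wordB α a b (2 * h) n) j R = (1 / (x : ℝ) ^ (Fintype.card I - 1)) *
          ∑ r ∈ RR a x ((sB α a b (n + j) + ∑ i, a i * (R i : ℤ)) / p),
            (fun t : I → ℕ => ∏ i, lam (bt (α i) (n + j) - t i)) (fun i => R i + p * r i) := by
        intro R hR
        unfold RR at hR
        rw [Finset.mem_filter, Fintype.mem_piFinset] at hR
        rw [innB_eq α hα a b hh n hj _ _ (fun i => Finset.mem_range.mp (hR.1 i))]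
        unfold avB
        congr 1
        apply Finset.sum_congr rfl
        intro r _
        simp only
        apply Finset.prod_congr rfl
        intro i _
        rw [Nat.sub_sub]
      rw [Finset.sum_congr rfl e5, ← Finset.mul_sum,
        ← sum_RR_mul a hp0 hx (sB α a b (n + j))
          (fun t : I → ℕ => ∏ i, lam (bt (α i) (n + j) - t i))]
      unfold avB
      push_cast
      rw [mul_pow]
      field_simp
    rw [Finset.sum_congr rfl (fun c _ => e4 c), ← Finset.sum_mul, winB_sum_dvd hp0 j]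
    have hcard : Fintype.card {i : I // i ≠ l} = Fintype.card I - 1 := by
      simp
    rw [Finset.prod_const, Finset.card_univ, hcard]
    push_cast
    field_simp

end Pool.MP_67663b_nt.Odd
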